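import Mathlib

/-! The corner profile function. -/

open scoped ContDiff Topology
open Set Filter Metric

namespace Pool.Agent.TH622

noncomputable section

/-- Corner profile: a smoothing `k` of `θ₊² / 2` with derivative `m`. -/
structure Prof (δ : ℝ) where
  m : ℝ → ℝ
  k : ℝ → ℝ
  hm : ContDiff ℝ ∞ m
  hk : ContDiff ℝ ∞ k
  hkm : ∀ θ, HasDerivAt k (m θ) θ
  m_neg : ∀ θ ≤ -1, m θ = 0
  m_pos : ∀ θ, 1 ≤ θ → m θ = θ
  k_neg : ∀ θ ≤ -1, k θ = 0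
  k_pos : ∀ θ, 1 ≤ θ → k θ = θ ^ 2 / 2
  dm_lo : ∀ θ, -δ ≤ deriv m θ
  dm_hi : ∀ θ, deriv m θ ≤ 1 + δ
  m_symm : ∀ θ, m (-θ) = m θ - θ
  k_symm : ∀ θ, k (-θ) = θ ^ 2 / 2 - k θ

/-- base step -/
def stp (θ : ℝ) : ℝ := Real.smoothTransition ((θ + 1) / 2)

lemma contDiff_stp : ContDiff ℝ ∞ stp :=
  Real.smoothTransition.contDiff.comp ((contDiff_id.add contDiff_const).div_const _)

lemma stp_nonneg (θ : ℝ) : 0 ≤ stp θ := Real.smoothTransition.nonneg _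
lemma stp_le_one (θ : ℝ) : stp θ ≤ 1 := Real.smoothTransition.le_one _
lemma stp_neg {θ : ℝ} (h : θ ≤ -1) : stp θ = 0 :=
  Real.smoothTransition.zero_of_nonpos (by linarith)
lemma stp_pos {θ : ℝ} (h : 1 ≤ θ) : stp θ = 1 :=
  Real.smoothTransition.one_of_one_le (by linarith)

lemma stp_symm (θ : ℝ) : stp (-θ) = 1 - stp θ := by
  unfold stp Real.smoothTransition
  have e1 : (-θ + 1) / 2 = 1 - (θ + 1) / 2 := by ring
  rw [e1]
  set x := (θ + 1) / 2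
  have e2 : 1 - (1 - x) = x := by ring
  rw [e2]
  have hp := Real.smoothTransition.pos_denom x
  have hp2 : 0 < expNegInvGlue (1 - x) + expNegInvGlue x := by linarith
  rw [eq_sub_iff_add_eq, add_comm (expNegInvGlue (1 - x)) (expNegInvGlue x), ← add_div,
    add_comm (expNegInvGlue (1 - x)), div_self hp.ne']

/-- a smooth primitive -/
lemma exists_prim {f : ℝ → ℝ} (hf : ContDiff ℝ ∞ f) (a : ℝ) :
    ∃ g : ℝ → ℝ, ContDiff ℝ ∞ g ∧ (∀ θ, HasDerivAt g (f θ) θ) ∧ g a = 0 := by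
  have hd : ∀ θ, HasDerivAt (fun x => ∫ s in a..x, f s) (f θ) θ := fun θ =>
    intervalIntegral.integral_hasDerivAt_right (hf.continuous.intervalIntegrable _ _)
      (hf.continuous.stronglyMeasurableAtFilter _ _) hf.continuous.continuousAt
  refine ⟨_, ?_, hd, by simp⟩
  rw [contDiff_infty_iff_deriv]
  refine ⟨fun θ => (hd θ).differentiableAt, ?_⟩
  have : deriv (fun x => ∫ s in a..x, f s) = f := by
    ext θ; exact (hd θ).deriv
  rw [this]; exact hf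

lemma const_of_deriv_zero_on {f : ℝ → ℝ} {f' : ℝ → ℝ} {S : Set ℝ} (hS : Convex ℝ S)
    (hd : ∀ θ, HasDerivAt f (f' θ) θ) (h0 : ∀ θ ∈ S, f' θ = 0) {x y : ℝ} (hx : x ∈ S)
    (hy : y ∈ S) : f x = f y := by
  have h1 := hS.norm_image_sub_le_of_norm_hasDerivWithin_le (f := f) (f' := f') (C := 0)
    (fun z _ => (hd z).hasDerivWithinAt) (fun z hz => by rw [h0 z hz, norm_zero]) hy hx
  rw [zero_mul] at h1
  exact sub_eq_zero.1 (norm_le_zero_iff.1 h1)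

theorem exists_prof {δ : ℝ} (hδ : 0 < δ) : Nonempty (Prof δ) := by
  obtain ⟨κ₁, hκ₁, hd₁, h1a⟩ := exists_prim contDiff_stp (-1)
  obtain ⟨κ, hκ, hd, ha⟩ := exists_prim hκ₁ (-1)
  have hκ₁neg : ∀ θ ≤ -1, κ₁ θ = 0 := by
    intro θ hθ
    rw [← h1a]
    exact const_of_deriv_zero_on (convex_Iic (-1)) hd₁ (fun z hz => stp_neg hz) hθ
      (show (-1:ℝ) ∈ Iic (-1) from Set.self_mem_Iic)
  have hκ₁symm : ∀ θ, κ₁ (-θ) = κ₁ θ - θ := by
    have hD : ∀ θ, HasDerivAt (fun θ => κ₁ θ - θ - κ₁ (-θ)) 0 θ := by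
      intro θ
      have e1 := ((hd₁ θ).sub (hasDerivAt_id θ)).sub ((hd₁ (-θ)).comp θ (hasDerivAt_neg θ))
      refine e1.congr_deriv ?_
      rw [stp_symm]; ring
    have hc : ∀ θ, κ₁ θ - θ - κ₁ (-θ) = κ₁ 0 - 0 - κ₁ (-0) := fun θ =>
      is_const_of_deriv_eq_zero (f := fun θ => κ₁ θ - θ - κ₁ (-θ))
        (fun z => (hD z).differentiableAt) (fun z => (hD z).deriv) θ 0
    intro θ
    have := hc θ
    rw [neg_zero, sub_zero, sub_self] at this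
    linarith
  have hκ₁pos : ∀ θ, 1 ≤ θ → κ₁ θ = θ := by
    intro θ hθ
    have e1 := hκ₁symm θ
    rw [hκ₁neg (-θ) (by linarith)] at e1
    linarith
  have hκneg : ∀ θ ≤ -1, κ θ = 0 := by
    intro θ hθ
    rw [← ha]
    exact const_of_deriv_zero_on (convex_Iic (-1)) hd (fun z hz => hκ₁neg z hz) hθ
      (show (-1:ℝ) ∈ Iic (-1) from Set.self_mem_Iic)
  have hκpos : ∀ θ, 1 ≤ θ → κ θ = θ ^ 2 / 2 + (κ 1 - 1 / 2) := by
    intro θ hθ
    have hD : ∀ z, HasDerivAt (fun z => κ z - z ^ 2 / 2) (κ₁ z - z) z := by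
      intro z
      have e1 := (hd z).sub ((hasDerivAt_pow 2 z).div_const 2)
      refine e1.congr_deriv ?_
      simp
    have := const_of_deriv_zero_on (convex_Ici 1) hD
      (fun z hz => by rw [hκ₁pos z hz, sub_self]) (x := θ) (y := 1) hθ
      (show (1:ℝ) ∈ Ici 1 from Set.self_mem_Ici)
    linarith
  set c := κ 1 - 1 / 2 with hc
  have hκsymm : ∀ θ, κ (-θ) = θ ^ 2 / 2 + c - κ θ := by
    have hD : ∀ θ, HasDerivAt (fun θ => κ (-θ) + κ θ - θ ^ 2 / 2) 0 θ := by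
      intro θ
      have e1 := (((hd (-θ)).comp θ (hasDerivAt_neg θ)).add (hd θ)).sub
        ((hasDerivAt_pow 2 θ).div_const 2)
      refine e1.congr_deriv ?_
      rw [hκ₁symm]; simp
    have hc2 : ∀ θ, κ (-θ) + κ θ - θ ^ 2 / 2 = κ (-1) + κ 1 - 1 ^ 2 / 2 := fun θ =>
      is_const_of_deriv_eq_zero (f := fun θ => κ (-θ) + κ θ - θ ^ 2 / 2)
        (fun z => (hD z).differentiableAt) (fun z => (hD z).deriv) θ 1
    intro θ
    have e1 := hc2 θ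
    rw [hκneg (-1) le_rfl] at e1
    rw [hc]; linarith
  -- parameters
  set μ : ℝ := δ with hμ
  have hμ0 : 0 < μ := hδ
  set a : ℝ := Real.sqrt (μ / (1 + μ)) with ha'
  have ha2 : a ^ 2 = μ / (1 + μ) := Real.sq_sqrt (by positivity)
  have ha0 : 0 < a := Real.sqrt_pos.2 (by positivity)
  have ha1 : a ≤ 1 := by
    rw [ha', Real.sqrt_le_one]
    rw [div_le_one (by positivity)]; linarith
  have hrel : (1 + μ) * a ^ 2 = μ := by rw [ha2]; field_simp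
  have hneg : ∀ {θ : ℝ}, θ ≤ -1 → θ / a ≤ -1 := by
    intro θ hθ
    rw [div_le_iff₀ ha0]; linarith
  have hpos : ∀ {θ : ℝ}, 1 ≤ θ → 1 ≤ θ / a := by
    intro θ hθ
    rw [le_div_iff₀ ha0]; linarith
  have hdiv : ∀ θ : ℝ, HasDerivAt (fun θ : ℝ => θ / a) (1 / a) θ := fun θ =>
    (hasDerivAt_id θ).div_const a
  have hmd : ∀ θ, HasDerivAt (fun θ => (1 + μ) * a * κ₁ (θ / a) - μ * κ₁ θ)
      ((1 + μ) * stp (θ / a) - μ * stp θ) θ := by
    intro θ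
    have e1 := (((hd₁ (θ / a)).comp θ (hdiv θ)).const_mul ((1 + μ) * a)).sub
      ((hd₁ θ).const_mul μ)
    refine e1.congr_deriv ?_
    field_simp
  refine ⟨⟨fun θ => (1 + μ) * a * κ₁ (θ / a) - μ * κ₁ θ,
    fun θ => (1 + μ) * a ^ 2 * κ (θ / a) - μ * κ θ, ?_, ?_, ?_, ?_, ?_, ?_, ?_, ?_, ?_, ?_, ?_⟩⟩
  · exact (contDiff_const.mul (hκ₁.comp (contDiff_id.div_const a))).sub (contDiff_const.mul hκ₁)
  · exact (contDiff_const.mul (hκ.comp (contDiff_id.div_const a))).sub (contDiff_const.mul hκ)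
  · intro θ
    have e1 := (((hd (θ / a)).comp θ (hdiv θ)).const_mul ((1 + μ) * a ^ 2)).sub
      ((hd θ).const_mul μ)
    refine e1.congr_deriv ?_
    field_simp
  · intro θ hθ
    rw [hκ₁neg _ (hneg hθ), hκ₁neg _ hθ]; ring
  · intro θ hθ
    rw [hκ₁pos _ (hpos hθ), hκ₁pos _ hθ]; field_simp; ring
  · intro θ hθ
    rw [hκneg _ (hneg hθ), hκneg _ hθ]; ring
  · intro θ hθ
    rw [hκpos _ (hpos hθ), hκpos _ hθ]
    have e1 : (1 + μ) * a ^ 2 * ((θ / a) ^ 2 / 2 + c) =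
        (1 + μ) * θ ^ 2 / 2 + ((1 + μ) * a ^ 2) * c := by field_simp
    rw [e1, hrel]; ring
  · intro θ
    rw [(hmd θ).deriv]
    nlinarith [stp_nonneg (θ / a), stp_le_one θ, stp_nonneg θ]
  · intro θ
    rw [(hmd θ).deriv]
    nlinarith [stp_le_one (θ / a), stp_nonneg θ]
  · intro θ
    rw [neg_div, hκ₁symm, hκ₁symm]; field_simp; ring
  · intro θ
    rw [neg_div, hκsymm, hκsymm]
    have e1 : (1 + μ) * a ^ 2 * ((θ / a) ^ 2 / 2 + c - κ (θ / a)) =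
        (1 + μ) * θ ^ 2 / 2 + ((1 + μ) * a ^ 2) * c - (1 + μ) * a ^ 2 * κ (θ / a) := by field_simp
    rw [e1, hrel]; ring

end

end Pool.Agent.TH622
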