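import Mathlib
import Pool.Agent.TH622.Kfun

/-! The edge generating function. -/

open scoped ContDiff Topology
open Set Filter Metric

namespace Pool.Agent.TH622

noncomputable section

/-- The one-dimensional generating function of a corner in a chart with weights `A`, `B`. -/
structure EdgeFun {δ : ℝ} (P : Prof δ) (A B : ℝ) where
  W : ℝ → ℝ
  Θ : ℝ → ℝ
  hW : ContDiff ℝ ∞ W
  hΘ : ContDiff ℝ ∞ Θ
  hWd : ∀ τ, HasDerivAt W (P.m (Θ τ)) τ
  W_eq : ∀ τ, W τ = (B - A) * (P.m (Θ τ)) ^ 2 / 2 + A * P.k (Θ τ)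
  Θ_h : ∀ θ, Θ ((B - A) * P.m θ + A * θ) = θ
  h_Θ : ∀ τ, (B - A) * P.m (Θ τ) + A * Θ τ = τ
  Θ_neg : ∀ τ ≤ -A, Θ τ = τ / A
  Θ_pos : ∀ τ, B ≤ τ → Θ τ = τ / B
  W_neg : ∀ τ ≤ -A, W τ = 0
  W_pos : ∀ τ, B ≤ τ → W τ = τ ^ 2 / (2 * B)

theorem exists_edgeFun {δ : ℝ} (P : Prof δ) {A B : ℝ} (hA : 0 < A) (hB : 0 < B) (hδ : 0 < δ)
    (h1 : δ * B < A) (h2 : δ * A < B) : Nonempty (EdgeFun P A B) := by
  set h : ℝ → ℝ := fun θ => (B - A) * P.m θ + A * θ with hh
  have hmd : ∀ θ, HasDerivAt P.m (deriv P.m θ) θ := fun θ =>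
    (P.hm.differentiable (by simp) θ).hasDerivAt
  have hd : ∀ θ, HasDerivAt h ((B - A) * deriv P.m θ + A) θ := by
    intro θ
    have := ((hmd θ).const_mul (B - A)).add ((hasDerivAt_id θ).const_mul A)
    refine this.congr_deriv ?_
    simp
  have hpos : ∀ θ, 0 < (B - A) * deriv P.m θ + A := by
    intro θ
    have a1 := P.dm_lo θ
    have a2 := P.dm_hi θ
    have a3 : 0 < δ * A := mul_pos hδ hA
    have a4 : 0 < δ * B := mul_pos hδ hB
    rcases le_total A B with hAB | hAB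
    · nlinarith [mul_nonneg (sub_nonneg.2 hAB) (show 0 ≤ deriv P.m θ + δ by linarith)]
    · nlinarith [mul_nonneg (sub_nonneg.2 hAB) (show 0 ≤ 1 + δ - deriv P.m θ by linarith)]
  have hhs : ContDiff ℝ ∞ h := (contDiff_const.mul P.hm).add (contDiff_const.mul contDiff_id)
  have hmono : StrictMono h := strictMono_of_deriv_pos (fun θ => by rw [(hd θ).deriv]; exact hpos θ)
  have hneg' : ∀ θ ≤ -1, h θ = A * θ := by
    intro θ hθ
    simp only [hh]; rw [P.m_neg θ hθ]; ring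
  have hpos' : ∀ θ, 1 ≤ θ → h θ = B * θ := by
    intro θ hθ
    simp only [hh]; rw [P.m_pos θ hθ]; ring
  have hsurj : Function.Surjective h := by
    intro y
    have hc : Continuous h := hhs.continuous
    have e1 : h (-(|y| / A + 1)) ≤ y := by
      rw [hneg' _ (by have : 0 ≤ |y| / A := by positivity
                      linarith)]
      have : A * (-(|y| / A + 1)) = -|y| - A := by field_simp; ring
      rw [this]
      linarith [neg_abs_le y]
    have e2 : y ≤ h (|y| / B + 1) := by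
      rw [hpos' _ (by have : 0 ≤ |y| / B := by positivity
                      linarith)]
      have : B * (|y| / B + 1) = |y| + B := by field_simp
      rw [this]
      linarith [le_abs_self y]
    exact mem_range_of_exists_le_of_exists_ge hc ⟨_, e1⟩ ⟨_, e2⟩
  set e : ℝ ≃o ℝ := hmono.orderIsoOfSurjective h hsurj with he
  set Φ : OpenPartialHomeomorph ℝ ℝ := e.toHomeomorph.toOpenPartialHomeomorph with hΦ
  set Θ : ℝ → ℝ := fun τ => e.symm τ with hΘ
  have heh : ∀ θ, e θ = h θ := fun θ => rfl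
  have h_Θ : ∀ τ, h (Θ τ) = τ := fun τ => e.apply_symm_apply τ
  have Θ_h : ∀ θ, Θ (h θ) = θ := fun θ => e.symm_apply_apply θ
  have hΘs : ContDiff ℝ ∞ Θ := by
    rw [contDiff_iff_contDiffAt]
    intro τ
    have := OpenPartialHomeomorph.contDiffAt_symm_deriv (n := ∞) Φ (hpos (Θ τ)).ne'
      (a := τ) (by simp [hΦ]) (hd (Θ τ)) (hhs.contDiffAt)
    exact this
  have hΘd : ∀ τ, HasDerivAt Θ (((B - A) * deriv P.m (Θ τ) + A)⁻¹) τ := by
    intro τ
    exact HasDerivAt.of_local_left_inverse hΘs.continuous.continuousAt (hd (Θ τ))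
      (hpos (Θ τ)).ne' (Eventually.of_forall h_Θ)
  have hWd : ∀ τ, HasDerivAt (fun τ => (B - A) * (P.m (Θ τ)) ^ 2 / 2 + A * P.k (Θ τ))
      (P.m (Θ τ)) τ := by
    intro τ
    have a1 := (hmd (Θ τ)).comp τ (hΘd τ)
    have a2 := (P.hkm (Θ τ)).comp τ (hΘd τ)
    have a3 := (((a1.pow 2).const_mul (B - A)).div_const 2).add (a2.const_mul A)
    refine a3.congr_deriv ?_
    have hne := (hpos (Θ τ)).ne'
    simp only [Function.comp]
    field_simp
    ring
  have Θ_neg : ∀ τ ≤ -A, Θ τ = τ / A := by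
    intro τ hτ
    have : τ / A ≤ -1 := by rw [div_le_iff₀ hA]; linarith
    rw [← Θ_h (τ / A), hneg' _ this, mul_div_cancel₀ _ hA.ne']
  have Θ_pos : ∀ τ, B ≤ τ → Θ τ = τ / B := by
    intro τ hτ
    have : 1 ≤ τ / B := by rw [le_div_iff₀ hB]; linarith
    rw [← Θ_h (τ / B), hpos' _ this, mul_div_cancel₀ _ hB.ne']
  refine ⟨⟨_, Θ, ?_, hΘs, hWd, fun _ => rfl, Θ_h, h_Θ, Θ_neg, Θ_pos, ?_, ?_⟩⟩
  · exact ((contDiff_const.mul ((P.hm.comp hΘs).pow 2)).div_const 2).add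
      (contDiff_const.mul (P.hk.comp hΘs))
  · intro τ hτ
    have : τ / A ≤ -1 := by rw [div_le_iff₀ hA]; linarith
    rw [Θ_neg τ hτ, P.m_neg _ this, P.k_neg _ this]; ring
  · intro τ hτ
    have : 1 ≤ τ / B := by rw [le_div_iff₀ hB]; linarith
    rw [Θ_pos τ hτ, P.m_pos _ this, P.k_pos _ this]; field_simp; ring

end

end Pool.Agent.TH622
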