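import Mathlib
import Pool.Agent.TH622.Psi

/-! Stars: planar fans with Lagrangian PL graphs. -/

open scoped ContDiff Topology
open Set Filter Metric

namespace Pool.Agent.TH622

noncomputable section

abbrev P2 := ℝ × ℝ

def dt (a b : P2) : ℝ := a.1 * b.2 - a.2 * b.1
def dot (a b : P2) : ℝ := a.1 * b.1 + a.2 * b.2

lemma dt_add_right (a b c : P2) : dt a (b + c) = dt a b + dt a c := by simp [dt]; ring
lemma dt_smul_right (a b : P2) (t : ℝ) : dt a (t • b) = t * dt a b := by simp [dt]; ring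
lemma dt_add_left (a b c : P2) : dt (a + b) c = dt a c + dt b c := by simp [dt]; ring
lemma dt_smul_left (a b : P2) (t : ℝ) : dt (t • a) b = t * dt a b := by simp [dt]; ring
lemma dt_self (a : P2) : dt a a = 0 := by simp [dt]; ring
lemma dt_swap (a b : P2) : dt a b = - dt b a := by simp [dt]; ring

lemma abs_dt_le (a b : P2) : |dt a b| ≤ 2 * ‖a‖ * ‖b‖ := by
  have h1 : |a.1| ≤ ‖a‖ := norm_fst_le a
  have h2 : |a.2| ≤ ‖a‖ := norm_snd_le a
  have h3 : |b.1| ≤ ‖b‖ := norm_fst_le b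
  have h4 : |b.2| ≤ ‖b‖ := norm_snd_le b
  unfold dt
  calc |a.1 * b.2 - a.2 * b.1| ≤ |a.1 * b.2| + |a.2 * b.1| := abs_sub _ _
    _ = |a.1| * |b.2| + |a.2| * |b.1| := by rw [abs_mul, abs_mul]
    _ ≤ ‖a‖ * ‖b‖ + ‖a‖ * ‖b‖ := by gcongr
    _ = _ := by ring

lemma decomp {a b : P2} (h : dt a b ≠ 0) (q : P2) :
    q = (dt q b / dt a b) • a + (dt a q / dt a b) • b := by
  have h' : a.1 * b.2 - a.2 * b.1 ≠ 0 := h
  ext
  · simp only [dt, Prod.fst_add, Prod.smul_fst, smul_eq_mul]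
    rw [div_mul_eq_mul_div, div_mul_eq_mul_div, ← add_div, eq_div_iff h']; ring
  · simp only [dt, Prod.snd_add, Prod.smul_snd, smul_eq_mul]
    rw [div_mul_eq_mul_div, div_mul_eq_mul_div, ← add_div, eq_div_iff h']; ring

/-- gradient -/
def gr (G : P2 → ℝ) (q : P2) : P2 := (fderiv ℝ G q (1, 0), fderiv ℝ G q (0, 1))

/-- A complete fan of rays with a Lagrangian PL graph over it. -/
structure Star (J : Type) where
  nx : Equiv.Perm J
  r : J → P2
  p : J → P2
  hdet : ∀ j, 0 < dt (r j) (r (nx j))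
  hlag : ∀ j, dot (p j) (r (nx j)) = dot (r j) (p (nx j))
  hex : ∀ q : P2, q ≠ 0 → ∃ j, ∃ μ l : ℝ, 0 < μ ∧ 0 ≤ l ∧ q = μ • r j + l • r (nx j)
  hun : ∀ (j j' : J) (μ l μ' l' : ℝ), 0 < μ → 0 ≤ l → 0 < μ' → 0 ≤ l' →
    μ • r j + l • r (nx j) = μ' • r j' + l' • r (nx j') → j = j'

namespace Star

variable {J : Type} (S : Star J)

def pv (j : J) : J := S.nx.symm j

@[simp] lemma nx_pv (j : J) : S.nx (S.pv j) = j := S.nx.apply_symm_apply j
@[simp] lemma pv_nx (j : J) : S.pv (S.nx j) = j := S.nx.symm_apply_apply j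

def A (j : J) : ℝ := dt (S.r (S.pv j)) (S.r j)
def B (j : J) : ℝ := dt (S.r j) (S.r (S.nx j))

lemma A_pos (j : J) : 0 < S.A j := by
  have := S.hdet (S.pv j)
  rwa [nx_pv] at this

lemma B_pos (j : J) : 0 < S.B j := S.hdet j

lemma B_pv (j : J) : S.B (S.pv j) = S.A j := by unfold B A; rw [nx_pv]
lemma A_nx (j : J) : S.A (S.nx j) = S.B j := by unfold B A; rw [pv_nx]

/-- entries of the symmetric matrix of the sector `(pv j, j)` -/
def m11 (j : J) : ℝ := ((S.r j).2 * (S.p (S.pv j)).1 - (S.r (S.pv j)).2 * (S.p j).1) / S.A j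
def m12 (j : J) : ℝ := (-(S.r j).1 * (S.p (S.pv j)).1 + (S.r (S.pv j)).1 * (S.p j).1) / S.A j
def m22 (j : J) : ℝ := (-(S.r j).1 * (S.p (S.pv j)).2 + (S.r (S.pv j)).1 * (S.p j).2) / S.A j

/-- the linear map of the sector `(pv j, j)` -/
def M (j : J) (q : P2) : P2 :=
  (S.m11 j * q.1 + S.m12 j * q.2, S.m12 j * q.1 + S.m22 j * q.2)

lemma M_add (j : J) (q q' : P2) : S.M j (q + q') = S.M j q + S.M j q' := by
  ext <;> simp [M] <;> ring
lemma M_smul (j : J) (t : ℝ) (q : P2) : S.M j (t • q) = t • S.M j q := by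
  ext <;> simp [M] <;> ring

lemma lag' (j : J) : (S.p (S.pv j)).1 * (S.r j).1 + (S.p (S.pv j)).2 * (S.r j).2 =
    (S.r (S.pv j)).1 * (S.p j).1 + (S.r (S.pv j)).2 * (S.p j).2 := by
  have := S.hlag (S.pv j)
  rw [nx_pv] at this
  exact this

lemma m12' (j : J) : S.m12 j =
    ((S.r j).2 * (S.p (S.pv j)).2 - (S.r (S.pv j)).2 * (S.p j).2) / S.A j := by
  have := S.lag' j
  unfold m12
  congr 1
  linarith

lemma M_self (j : J) : S.M j (S.r j) = S.p j := by
  have hA := (S.A_pos j).ne'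
  have hA' : S.A j = (S.r (S.pv j)).1 * (S.r j).2 - (S.r (S.pv j)).2 * (S.r j).1 := rfl
  ext
  · show S.m11 j * (S.r j).1 + S.m12 j * (S.r j).2 = (S.p j).1
    unfold m11 m12
    rw [div_mul_eq_mul_div, div_mul_eq_mul_div, ← add_div, div_eq_iff hA, hA']; ring
  · show S.m12 j * (S.r j).1 + S.m22 j * (S.r j).2 = (S.p j).2
    rw [m12']
    unfold m22
    rw [div_mul_eq_mul_div, div_mul_eq_mul_div, ← add_div, div_eq_iff hA, hA']; ring

lemma M_pv (j : J) : S.M j (S.r (S.pv j)) = S.p (S.pv j) := by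
  have hA := (S.A_pos j).ne'
  have hA' : S.A j = (S.r (S.pv j)).1 * (S.r j).2 - (S.r (S.pv j)).2 * (S.r j).1 := rfl
  ext
  · show S.m11 j * (S.r (S.pv j)).1 + S.m12 j * (S.r (S.pv j)).2 = (S.p (S.pv j)).1
    unfold m11 m12
    rw [div_mul_eq_mul_div, div_mul_eq_mul_div, ← add_div, div_eq_iff hA, hA']; ring
  · show S.m12 j * (S.r (S.pv j)).1 + S.m22 j * (S.r (S.pv j)).2 = (S.p (S.pv j)).2
    rw [m12']
    unfold m22
    rw [div_mul_eq_mul_div, div_mul_eq_mul_div, ← add_div, div_eq_iff hA, hA']; ring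

/-- rotated ray -/
def n (j : J) : P2 := (-(S.r j).2, (S.r j).1)

lemma dot_n (j : J) (q : P2) : dot q (S.n j) = dt (S.r j) q := by simp [dot, n, dt]; ring

/-- fold coefficient -/
def t (j : J) : ℝ := dot (S.p (S.nx j) - S.M j (S.r (S.nx j))) (S.r (S.nx j)) / S.B j

lemma dot_M_symm (j : J) (q q' : P2) : dot (S.M j q) q' = dot q (S.M j q') := by
  simp only [dot, M]; ring

lemma p_nx (j : J) : S.p (S.nx j) = S.M j (S.r (S.nx j)) + S.t j • S.n j := by
  have hB := (S.B_pos j).ne'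
  have hB' : S.B j = (S.r j).1 * (S.r (S.nx j)).2 - (S.r j).2 * (S.r (S.nx j)).1 := rfl
  have h0 : dot (S.p (S.nx j) - S.M j (S.r (S.nx j))) (S.r j) = 0 := by
    have h1 : dot (S.M j (S.r (S.nx j))) (S.r j) = dot (S.r (S.nx j)) (S.p j) := by
      rw [dot_M_symm, M_self]
    have h2 := S.hlag j
    simp only [dot, Prod.fst_sub, Prod.snd_sub] at h1 h2 ⊢
    linarith
  set v := S.p (S.nx j) - S.M j (S.r (S.nx j)) with hv
  have h3 : v = S.t j • S.n j := by
    simp only [dot] at h0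
    ext
    · show v.1 = S.t j * (-(S.r j).2)
      unfold t
      rw [← hv, div_mul_eq_mul_div, eq_div_iff hB, hB']
      simp only [dot]
      linear_combination (S.r (S.nx j)).2 * h0
    · show v.2 = S.t j * ((S.r j).1)
      unfold t
      rw [← hv, div_mul_eq_mul_div, eq_div_iff hB, hB']
      simp only [dot]
      linear_combination -(S.r (S.nx j)).1 * h0
  rw [← h3, hv]; abel

variable {δ : ℝ} (P : Prof δ)

/-- local generating function near the ray `j` -/
def Gj (ef : ∀ j, EdgeFun P (S.A j) (S.B j)) (j : J) (q : P2) : ℝ :=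
  (S.m11 j * q.1 ^ 2 + 2 * S.m12 j * q.1 * q.2 + S.m22 j * q.2 ^ 2) / 2 +
    S.t j * (ef j).W (dt (S.r j) q)

def gj (ef : ∀ j, EdgeFun P (S.A j) (S.B j)) (j : J) (q : P2) : P2 :=
  S.M j q + (S.t j * P.m ((ef j).Θ (dt (S.r j) q))) • S.n j

lemma contDiff_Gj (ef : ∀ j, EdgeFun P (S.A j) (S.B j)) (j : J) : ContDiff ℝ ∞ (S.Gj P ef j) := by
  have h1 : ContDiff ℝ ∞ (fun q : P2 => dt (S.r j) q) := by
    unfold dt
    exact (contDiff_const.mul contDiff_snd).sub (contDiff_const.mul contDiff_fst)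
  have h2 : ContDiff ℝ ∞ (fun q : P2 => (S.m11 j * q.1 ^ 2 + 2 * S.m12 j * q.1 * q.2
      + S.m22 j * q.2 ^ 2) / 2) := by
    have a := contDiff_fst (𝕜 := ℝ) (E := ℝ) (F := ℝ) (n := ∞)
    have b := contDiff_snd (𝕜 := ℝ) (E := ℝ) (F := ℝ) (n := ∞)
    exact ((((contDiff_const.mul (a.pow 2)).add ((contDiff_const.mul a).mul b)).add
      (contDiff_const.mul (b.pow 2))).div_const 2)
  exact h2.add (contDiff_const.mul ((ef j).hW.comp h1))

lemma continuous_gj (ef : ∀ j, EdgeFun P (S.A j) (S.B j)) (j : J) :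
    Continuous (S.gj P ef j) := by
  have h1 : Continuous (fun q : P2 => dt (S.r j) q) := by
    unfold dt; fun_prop
  have h2 : Continuous (S.M j) := by unfold M; fun_prop
  exact h2.add ((continuous_const.mul (P.hm.continuous.comp ((ef j).hΘ.continuous.comp h1))).smul
    continuous_const)

lemma gr_Gj (ef : ∀ j, EdgeFun P (S.A j) (S.B j)) (j : J) (q : P2) :
    gr (S.Gj P ef j) q = S.gj P ef j q := by
  have hdiff : DifferentiableAt ℝ (S.Gj P ef j) q := (S.contDiff_Gj P ef j).differentiable (by simp) q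
  have key : ∀ v : P2, fderiv ℝ (S.Gj P ef j) q v = dot (S.gj P ef j q) v := by
    intro v
    have hl : HasDerivAt (fun s : ℝ => q + s • v) v 0 := by
      have := ((hasDerivAt_id (0:ℝ)).smul_const v).const_add q
      simpa using this
    have e0 : HasFDerivAt (S.Gj P ef j) (fderiv ℝ (S.Gj P ef j) q) (q + (0:ℝ) • v) := by
      rw [zero_smul, add_zero]; exact hdiff.hasFDerivAt
    have e1 := e0.comp_hasDerivAt (0:ℝ) hl
    -- direct computation
    have d1 : HasDerivAt (fun s : ℝ => q.1 + s * v.1) v.1 0 := by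
      have := ((hasDerivAt_id (0:ℝ)).mul_const v.1).const_add q.1
      simpa using this
    have d2 : HasDerivAt (fun s : ℝ => q.2 + s * v.2) v.2 0 := by
      have := ((hasDerivAt_id (0:ℝ)).mul_const v.2).const_add q.2
      simpa using this
    have d3 : HasDerivAt (fun s : ℝ => dt (S.r j) (q + s • v)) (dt (S.r j) v) 0 := by
      have : (fun s : ℝ => dt (S.r j) (q + s • v)) = fun s => dt (S.r j) q + s * dt (S.r j) v := by
        ext s; rw [dt_add_right, dt_smul_right]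
      rw [this]
      have := ((hasDerivAt_id (0:ℝ)).mul_const (dt (S.r j) v)).const_add (dt (S.r j) q)
      simpa using this
    have d4 : HasDerivAt (ef j).W (P.m ((ef j).Θ (dt (S.r j) q))) (dt (S.r j) (q + (0:ℝ) • v)) := by
      rw [zero_smul, add_zero]; exact (ef j).hWd _
    have d5 := d4.comp (0:ℝ) d3
    have d6 := (((((d1.pow 2).const_mul (S.m11 j)).add ((d1.mul d2).const_mul (2 * S.m12 j))).add
      ((d2.pow 2).const_mul (S.m22 j))).div_const 2).add (d5.const_mul (S.t j))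
    have e2 : HasDerivAt (S.Gj P ef j ∘ fun s : ℝ => q + s • v) (dot (S.gj P ef j q) v) 0 := by
      refine (d6.congr_deriv ?_).congr_of_eventuallyEq (Eventually.of_forall fun s => ?_)
      · simp only [gj, dot, M, n, dt, Prod.fst_add, Prod.snd_add, Prod.smul_fst, Prod.smul_snd,
          smul_eq_mul, zero_mul, add_zero]
        ring
      · simp only [Gj, Function.comp, Prod.fst_add, Prod.snd_add, Prod.smul_fst, Prod.smul_snd,
          smul_eq_mul, Pi.add_apply, Pi.mul_apply, Pi.pow_apply]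
        ring
    exact e1.unique e2
  ext
  · show fderiv ℝ (S.Gj P ef j) q (1, 0) = _
    rw [key]; simp [dot]
  · show fderiv ℝ (S.Gj P ef j) q (0, 1) = _
    rw [key]; simp [dot]

/-- planar part of the point of the edge sheet -/
def qs (j : J) (s θ : ℝ) : P2 :=
  s • S.r j + (P.m θ - θ) • S.r (S.pv j) + P.m θ • S.r (S.nx j)

def ps (j : J) (s θ : ℝ) : P2 :=
  s • S.p j + (P.m θ - θ) • S.p (S.pv j) + P.m θ • S.p (S.nx j)

lemma dt_qs (j : J) (s θ : ℝ) :
    dt (S.r j) (S.qs P j s θ) = (S.B j - S.A j) * P.m θ + S.A j * θ := by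
  unfold qs
  rw [dt_add_right, dt_add_right, dt_smul_right, dt_smul_right, dt_smul_right, dt_self,
    dt_swap (S.r j) (S.r (S.pv j))]
  unfold A B
  ring

lemma gj_qs (ef : ∀ j, EdgeFun P (S.A j) (S.B j)) (j : J) (s θ : ℝ) :
    S.gj P ef j (S.qs P j s θ) = S.ps P j s θ := by
  unfold gj
  rw [dt_qs, (ef j).Θ_h]
  unfold qs ps
  rw [S.M_add, S.M_add, S.M_smul, S.M_smul, S.M_smul, S.M_self, S.M_pv, S.p_nx, smul_add, smul_smul,
    mul_comm (S.t j)]
  abel

/-- symplectic pairing of the two neighbours -/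
def w (j : J) : ℝ := dot (S.r (S.pv j)) (S.p (S.nx j)) - dot (S.p (S.pv j)) (S.r (S.nx j))

lemma w_eq (j : J) : S.w j = - S.t j * S.A j := by
  unfold w
  rw [S.p_nx]
  have h1 : dot (S.p (S.pv j)) (S.r (S.nx j)) = dot (S.r (S.pv j)) (S.M j (S.r (S.nx j))) := by
    rw [← S.M_pv, dot_M_symm]
  have h2 : dot (S.r (S.pv j)) (S.M j (S.r (S.nx j)) + S.t j • S.n j) =
      dot (S.r (S.pv j)) (S.M j (S.r (S.nx j))) + S.t j * dot (S.r (S.pv j)) (S.n j) := by
    simp [dot]; ring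
  rw [h1, h2, dot_n, dt_swap]
  unfold A
  ring

lemma prim_qs (ef : ∀ j, EdgeFun P (S.A j) (S.B j)) (j : J) (s θ : ℝ) :
    dot (S.qs P j s θ) (S.gj P ef j (S.qs P j s θ)) / 2 - S.Gj P ef j (S.qs P j s θ) =
      - S.w j * (θ * P.m θ / 2 - P.k θ) := by
  set q := S.qs P j s θ with hq
  have hτ := S.dt_qs P j s θ
  rw [← hq] at hτ
  have h1 : dot q (S.gj P ef j q) = (S.m11 j * q.1 ^ 2 + 2 * S.m12 j * q.1 * q.2 + S.m22 j * q.2 ^ 2)
      + S.t j * P.m θ * dt (S.r j) q := by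
    unfold gj
    rw [hτ, (ef j).Θ_h, ← hτ, ← S.dot_n]
    simp [dot, M]; ring
  rw [h1]
  unfold Gj
  rw [hτ, (ef j).W_eq, (ef j).Θ_h, S.w_eq]
  ring

lemma qs_surj (ef : ∀ j, EdgeFun P (S.A j) (S.B j)) (j : J) (q : P2) :
    ∃ s θ, q = S.qs P j s θ := by
  set τ := dt (S.r j) q with hτ
  set θ := (ef j).Θ τ with hθ
  have h1 := (ef j).h_Θ τ
  set w := q - ((P.m θ - θ) • S.r (S.pv j) + P.m θ • S.r (S.nx j)) with hw
  have h2 : dt (S.r j) w = 0 := by
    have e1 := S.dt_qs P j 0 θ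
    have e2 : w = q - S.qs P j 0 θ := by
      rw [hw]; unfold qs; rw [zero_smul, zero_add]
    have e3 : dt (S.r j) (q - S.qs P j 0 θ) = dt (S.r j) q - dt (S.r j) (S.qs P j 0 θ) := by
      simp [dt]; ring
    rw [e2, e3, e1, ← hτ, h1]; ring
  have h3 := decomp (S.B_pos j).ne' w
  rw [h2, zero_div, zero_smul, add_zero] at h3
  refine ⟨dt w (S.r (S.nx j)) / dt (S.r j) (S.r (S.nx j)), θ, ?_⟩
  have h4 : q = w + ((P.m θ - θ) • S.r (S.pv j) + P.m θ • S.r (S.nx j)) := by rw [hw]; abel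
  unfold qs
  rw [add_assoc, ← h3]
  exact h4

end Star

end

end Pool.Agent.TH622
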