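import Mathlib
import Pool.Agent.TH622.StarA

/-! Patching the smooth graph over a star. -/

open scoped ContDiff Topology
open Set Filter Metric

namespace Pool.Agent.TH622

noncomputable section

namespace Star

variable {J : Type} (S : Star J)

/-- truncated cone around a ray -/
def Cone (j : J) (κ K : ℝ) (q : P2) : Prop :=
  ∃ μ l : ℝ, 0 ≤ l ∧ l ≤ κ * μ ∧ K ≤ μ ∧
    (q = μ • S.r j + l • S.r (S.nx j) ∨ q = μ • S.r j + l • S.r (S.pv j))

/-- coordinates on the two sides -/
lemma coord_nx (j : J) (q : P2) :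
    q = (dt q (S.r (S.nx j)) / S.B j) • S.r j + (dt (S.r j) q / S.B j) • S.r (S.nx j) :=
  decomp (S.B_pos j).ne' q

lemma coord_pv (j : J) (q : P2) :
    q = (dt (S.r (S.pv j)) q / S.A j) • S.r j + (dt q (S.r j) / S.A j) • S.r (S.pv j) := by
  have := decomp (S.A_pos j).ne' q
  rw [add_comm] at this
  exact this

lemma coef_nx (j : J) (μ l : ℝ) : dt (μ • S.r j + l • S.r (S.nx j)) (S.r (S.nx j)) / S.B j = μ ∧
    dt (S.r j) (μ • S.r j + l • S.r (S.nx j)) / S.B j = l := by
  have hB := (S.B_pos j).ne'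
  constructor
  · rw [dt_add_left, dt_smul_left, dt_smul_left, dt_self, mul_zero, add_zero]
    exact mul_div_cancel_right₀ μ hB
  · rw [dt_add_right, dt_smul_right, dt_smul_right, dt_self, mul_zero, zero_add]
    exact mul_div_cancel_right₀ l hB

lemma coef_pv (j : J) (μ l : ℝ) : dt (S.r (S.pv j)) (μ • S.r j + l • S.r (S.pv j)) / S.A j = μ ∧
    dt (μ • S.r j + l • S.r (S.pv j)) (S.r j) / S.A j = l := by
  have hA := (S.A_pos j).ne'
  constructor
  · rw [dt_add_right, dt_smul_right, dt_smul_right, dt_self, mul_zero, add_zero]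
    exact mul_div_cancel_right₀ μ hA
  · rw [dt_add_left, dt_smul_left, dt_smul_left, dt_self, mul_zero, zero_add]
    exact mul_div_cancel_right₀ l hA

lemma continuous_dt_left (b : P2) : Continuous (fun q : P2 => dt q b) := by unfold dt; fun_prop
lemma continuous_dt_right (b : P2) : Continuous (fun q : P2 => dt b q) := by unfold dt; fun_prop

lemma cone_open {j : J} {κ κ' K K' : ℝ} (hκ : κ < κ') (hK : K' < K) (hK0 : 0 ≤ K') {q : P2}
    (hq : S.Cone j κ K q) : ∀ᶠ q' in 𝓝 q, S.Cone j κ' K' q' := by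
  obtain ⟨μ, l, hl, hlμ, hμ, hq'⟩ := hq
  have hμ0 : 0 < μ := by linarith
  have hB := S.B_pos j
  have hA := S.A_pos j
  have hlt : l < κ' * μ := by nlinarith
  -- functions
  have c1 : Continuous (fun q : P2 => dt q (S.r (S.nx j)) / S.B j) :=
    (continuous_dt_left _).div_const _
  have c2 : Continuous (fun q : P2 => dt (S.r j) q / S.B j) := (continuous_dt_right _).div_const _
  have c3 : Continuous (fun q : P2 => dt (S.r (S.pv j)) q / S.A j) :=
    (continuous_dt_right _).div_const _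
  have c4 : Continuous (fun q : P2 => dt q (S.r j) / S.A j) := (continuous_dt_left _).div_const _
  have onp : ∀ (f g : P2 → ℝ), Continuous f → Continuous g → f q = μ → g q = l →
      ∀ᶠ q' in 𝓝 q, K' < f q' ∧ g q' < κ' * f q' := by
    intro f g hf hg h1 h2
    have a1 := hf.continuousAt.eventually (lt_mem_nhds (show K' < f q by rw [h1]; linarith))
    have a2 : ∀ᶠ q' in 𝓝 q, 0 < κ' * f q' - g q' :=
      ((continuous_const.mul hf).sub hg).continuousAt.eventually
        (lt_mem_nhds (show 0 < κ' * f q - g q by rw [h1, h2]; linarith))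
    filter_upwards [a1, a2] with q' h3 h4
    exact ⟨h3, by linarith⟩
  have mkn : ∀ q' : P2, 0 ≤ dt (S.r j) q' → (K' < dt q' (S.r (S.nx j)) / S.B j ∧
      dt (S.r j) q' / S.B j < κ' * (dt q' (S.r (S.nx j)) / S.B j)) → S.Cone j κ' K' q' := by
    intro q' h0 h1
    exact ⟨_, _, div_nonneg h0 hB.le, h1.2.le, h1.1.le, Or.inl (S.coord_nx j q')⟩
  have mkp : ∀ q' : P2, dt (S.r j) q' ≤ 0 → (K' < dt (S.r (S.pv j)) q' / S.A j ∧
      dt q' (S.r j) / S.A j < κ' * (dt (S.r (S.pv j)) q' / S.A j)) → S.Cone j κ' K' q' := by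
    intro q' h0 h1
    refine ⟨_, _, div_nonneg ?_ hA.le, h1.2.le, h1.1.le, Or.inr (S.coord_pv j q')⟩
    rw [dt_swap]; linarith
  rcases hl.eq_or_lt with hl0 | hl0
  · -- on the ray
    have hqr : q = μ • S.r j := by
      rcases hq' with h | h <;> rw [h, ← hl0] <;> simp
    have e1 := S.coef_nx j μ l
    have e2 := S.coef_pv j μ l
    rw [← hl0, zero_smul, add_zero, ← hqr] at e1 e2
    have a1 := onp _ _ c1 c2 e1.1 (by rw [← hl0]; exact e1.2)
    have a2 := onp _ _ c3 c4 e2.1 (by rw [← hl0]; exact e2.2)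
    filter_upwards [a1, a2] with q' h1 h2
    rcases le_total 0 (dt (S.r j) q') with h | h
    · exact mkn q' h h1
    · exact mkp q' h h2
  · rcases hq' with h | h
    · have e1 := S.coef_nx j μ l
      rw [← h] at e1
      have a1 := onp _ _ c1 c2 e1.1 e1.2
      have a2 : ∀ᶠ q' in 𝓝 q, 0 < dt (S.r j) q' / S.B j :=
        c2.continuousAt.eventually (lt_mem_nhds (by
          show 0 < dt (S.r j) q / S.B j
          rw [e1.2]; exact hl0))
      filter_upwards [a1, a2] with q' h1 h2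
      exact mkn q' ((div_pos_iff_of_pos_right hB).1 h2).le h1
    · have e1 := S.coef_pv j μ l
      rw [← h] at e1
      have a1 := onp _ _ c3 c4 e1.1 e1.2
      have a2 : ∀ᶠ q' in 𝓝 q, 0 < dt q' (S.r j) / S.A j :=
        c4.continuousAt.eventually (lt_mem_nhds (by
          show 0 < dt q (S.r j) / S.A j
          rw [e1.2]; exact hl0))
      filter_upwards [a1, a2] with q' h1 h2
      refine mkp q' ?_ h1
      rw [dt_swap]
      have := (div_pos_iff_of_pos_right hA).1 h2
      linarith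

lemma cone_mono {j : J} {κ κ' K K' : ℝ} (hκ : κ ≤ κ') (hK : K' ≤ K) (hK0 : 0 ≤ K) {q : P2}
    (hq : S.Cone j κ K q) : S.Cone j κ' K' q := by
  obtain ⟨μ, l, hl, hlμ, hμ, hq'⟩ := hq
  refine ⟨μ, l, hl, hlμ.trans ?_, hK.trans hμ, hq'⟩
  exact mul_le_mul_of_nonneg_right hκ (hK0.trans hμ)

/-- uniqueness of coefficients in a sector -/
lemma coef_unique {j : J} {μ l μ' l' : ℝ}
    (h : μ • S.r j + l • S.r (S.nx j) = μ' • S.r j + l' • S.r (S.nx j)) : μ = μ' ∧ l = l' := by
  have e1 := S.coef_nx j μ l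
  have e2 := S.coef_nx j μ' l'
  rw [h] at e1
  exact ⟨e1.1.symm.trans e2.1, e1.2.symm.trans e2.2⟩

variable {δ : ℝ} (P : Prof δ) (ef : ∀ j, EdgeFun P (S.A j) (S.B j))

/-- the quadratic form of a sector -/
lemma Gj_far_pv {j : J} {μ l : ℝ} (hl : 1 ≤ l) :
    S.Gj P ef j (μ • S.r j + l • S.r (S.pv j)) =
      dot (μ • S.r j + l • S.r (S.pv j)) (μ • S.p j + l • S.p (S.pv j)) / 2 := by
  set q := μ • S.r j + l • S.r (S.pv j) with hq
  have hτ : dt (S.r j) q ≤ - S.A j := by
    rw [hq, dt_add_right, dt_smul_right, dt_smul_right, dt_self, dt_swap]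
    show μ * 0 + l * -S.A j ≤ -S.A j
    nlinarith [S.A_pos j]
  have h1 : S.M j q = μ • S.p j + l • S.p (S.pv j) := by
    rw [hq, S.M_add, S.M_smul, S.M_smul, S.M_self, S.M_pv]
  unfold Gj
  rw [(ef j).W_neg _ hτ, ← h1]
  simp only [dot, M]; ring

lemma Gj_far_nx {j : J} {μ l : ℝ} (hl : 1 ≤ l) :
    S.Gj P ef j (μ • S.r j + l • S.r (S.nx j)) =
      dot (μ • S.r j + l • S.r (S.nx j)) (μ • S.p j + l • S.p (S.nx j)) / 2 := by
  set q := μ • S.r j + l • S.r (S.nx j) with hq
  have hτ' : dt (S.r j) q = l * S.B j := by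
    rw [hq, dt_add_right, dt_smul_right, dt_smul_right, dt_self]
    show μ * 0 + l * S.B j = _
    ring
  have hτ : S.B j ≤ dt (S.r j) q := by
    rw [hτ']; nlinarith [S.B_pos j]
  have h1 : μ • S.p j + l • S.p (S.nx j) = S.M j q + (l * S.t j) • S.n j := by
    rw [hq, S.M_add, S.M_smul, S.M_smul, S.M_self, S.p_nx, smul_add, smul_smul]
    abel
  have h2 : dot q (S.M j q + (l * S.t j) • S.n j) = dot q (S.M j q) + l * S.t j * dot q (S.n j) := by
    simp [dot]; ring
  unfold Gj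
  rw [(ef j).W_pos _ hτ, h1, h2, S.dot_n, hτ']
  have hB := (S.B_pos j).ne'
  simp only [dot, M]
  field_simp
  ring

/-- consistency -/
lemma Gj_consistent {j j' : J} {κ κ' : ℝ} {q : P2} (h : S.Cone j κ 1 q) (h' : S.Cone j' κ' 1 q) :
    S.Gj P ef j q = S.Gj P ef j' q := by
  obtain ⟨μ, l, hl, -, hμ, hq⟩ := h
  obtain ⟨μ', l', hl', -, hμ', hq'⟩ := h'
  have hμ0 : 0 < μ := by linarith
  have hμ'0 : 0 < μ' := by linarith
  -- the key statement for a half open representation
  have key : ∀ (i i' : J) (μ l μ' l' : ℝ), 1 ≤ μ → 0 ≤ l → 1 ≤ μ' → 0 < l' →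
      q = μ • S.r i + l • S.r (S.nx i) → q = μ' • S.r i' + l' • S.r (S.pv i') →
      S.Gj P ef i q = S.Gj P ef i' q := by
    intro i i' μ l μ' l' h1 h2 h3 h4 h5 h6
    have h7 : q = l' • S.r (S.pv i') + μ' • S.r (S.nx (S.pv i')) := by
      rw [nx_pv, add_comm]; exact h6
    have h8 := S.hun i (S.pv i') μ l l' μ' (by linarith) h2 h4 (by linarith) (h5.symm.trans h7)
    have h9 : S.nx i = i' := by rw [h8, nx_pv]
    subst h9
    rw [pv_nx] at h6
    rw [add_comm] at h6
    obtain ⟨e1, e2⟩ := S.coef_unique (h5.symm.trans h6)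
    have h10 : q = μ • S.r (S.nx i) + l' • S.r (S.pv (S.nx i)) → True := fun _ => trivial
    have a1 := S.Gj_far_nx P ef (j := i) (μ := μ) (l := l) (by rw [e2]; exact h3)
    have a2 := S.Gj_far_pv P ef (j := S.nx i) (μ := μ') (l := l') (by rw [← e1]; exact h1)
    rw [← h5] at a1
    rw [pv_nx, add_comm, ← h6] at a2
    rw [a1, a2, e1, e2]
    congr 1
    rw [add_comm (l' • S.p i)]
  rcases hq with hq | hq <;> rcases hq' with hq' | hq'
  · have := S.hun j j' μ l μ' l' hμ0 hl hμ'0 hl' (hq.symm.trans hq')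
    rw [this]
  · rcases hl'.eq_or_lt with h0 | h0
    · have := S.hun j j' μ l μ' 0 hμ0 hl hμ'0 le_rfl (by
        rw [← hq, hq', ← h0]; simp)
      rw [this]
    · exact key j j' μ l μ' l' hμ hl hμ' h0 hq hq'
  · rcases hl.eq_or_lt with h0 | h0
    · have := S.hun j j' μ 0 μ' l' hμ0 le_rfl hμ'0 hl' (by
        rw [← hq', hq, ← h0]; simp)
      rw [this]
    · exact (key j' j μ' l' μ l hμ' hl' hμ h0 hq' hq).symm
  · rcases hl.eq_or_lt with h0 | h0 <;> rcases hl'.eq_or_lt with h0' | h0'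
    · have := S.hun j j' μ 0 μ' 0 hμ0 le_rfl hμ'0 le_rfl (by
        have e1 : q = μ • S.r j := by rw [hq, ← h0]; simp
        have e2 : q = μ' • S.r j' := by rw [hq', ← h0']; simp
        rw [zero_smul, zero_smul, add_zero, add_zero, ← e1, ← e2])
      rw [this]
    · exact key j j' μ 0 μ' l' hμ le_rfl hμ' h0' (by rw [hq, ← h0]; simp) hq'
    · exact (key j' j μ' 0 μ l hμ' le_rfl hμ h0 (by rw [hq', ← h0']; simp) hq).symm
    · have := S.hun (S.pv j) (S.pv j') l μ l' μ' h0 (by linarith) h0' (by linarith) (by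
        rw [nx_pv, nx_pv, add_comm, ← hq, hq', add_comm])
      have : j = j' := by
        have h := congrArg S.nx this
        rwa [nx_pv, nx_pv] at h
      rw [this]

end Star

end

end Pool.Agent.TH622
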