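import Mathlib
import Pool.Agent.TH622.StarB

/-! The smooth graph over a star. -/

open scoped ContDiff Topology
open Set Filter Metric

namespace Pool.Agent.TH622

noncomputable section

lemma exists_ub {J : Type} [Finite J] (f : J → ℝ) : ∃ M : ℝ, 0 < M ∧ ∀ j, f j ≤ M := by
  obtain ⟨M, hM⟩ := (Set.finite_range f).bddAbove
  refine ⟨|M| + 1, by positivity, fun j => ?_⟩
  have := hM (mem_range_self j)
  linarith [le_abs_self M]

lemma exists_lb {J : Type} [Finite J] (f : J → ℝ) (h : ∀ j, 0 < f j) :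
    ∃ b : ℝ, 0 < b ∧ ∀ j, b ≤ f j := by
  obtain ⟨M, hM0, hM⟩ := exists_ub (fun j => 1 / f j)
  refine ⟨1 / M, by positivity, fun j => ?_⟩
  have := hM j
  rw [div_le_iff₀ hM0]
  rw [div_le_iff₀ (h j)] at this
  linarith

lemma gr_congr {G G' : P2 → ℝ} {q : P2} (h : G =ᶠ[𝓝 q] G') : gr G q = gr G' q := by
  unfold gr
  rw [h.fderiv_eq]

lemma continuous_gr {G : P2 → ℝ} (h : ContDiff ℝ ∞ G) : Continuous (gr G) := by
  have h1 : Continuous (fderiv ℝ G) := h.continuous_fderiv (by simp)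
  exact (h1.clm_apply continuous_const).prodMk (h1.clm_apply continuous_const)

namespace Star

variable {J : Type} (S : Star J)

lemma exists_cone [Finite J] : ∃ R₁ : ℝ, 0 < R₁ ∧ ∀ q : P2, R₁ ≤ ‖q‖ → ∃ j, S.Cone j 1 2 q := by
  obtain ⟨Rm, hRm0, hRm⟩ := exists_ub (fun j => ‖S.r j‖)
  refine ⟨4 * Rm, by positivity, fun q hq => ?_⟩
  have hq0 : q ≠ 0 := by
    intro h; rw [h, norm_zero] at hq; linarith
  obtain ⟨j, μ, l, hμ, hl, h⟩ := S.hex q hq0
  have h1 : ‖q‖ ≤ (μ + l) * Rm := by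
    rw [h]
    calc _ ≤ ‖μ • S.r j‖ + ‖l • S.r (S.nx j)‖ := norm_add_le _ _
      _ = μ * ‖S.r j‖ + l * ‖S.r (S.nx j)‖ := by
        rw [norm_smul, norm_smul, Real.norm_of_nonneg hμ.le, Real.norm_of_nonneg hl]
      _ ≤ μ * Rm + l * Rm := by gcongr <;> exact hRm _
      _ = _ := by ring
  have h2 : 4 ≤ μ + l := by
    by_contra hcon
    push Not at hcon
    nlinarith
  rcases le_total l μ with hle | hle
  · exact ⟨j, μ, l, hl, by linarith, by linarith, Or.inl h⟩
  · refine ⟨S.nx j, l, μ, hμ.le, by linarith, by linarith, Or.inr ?_⟩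
    rw [pv_nx, add_comm]; exact h

lemma coef_bound [Finite J] : ∃ c : ℝ, 0 < c ∧ ∀ (j : J) (μ l : ℝ), 0 ≤ μ → 0 ≤ l →
    c * μ ≤ ‖μ • S.r j + l • S.r (S.nx j)‖ ∧ c * l ≤ ‖μ • S.r j + l • S.r (S.nx j)‖ := by
  obtain ⟨Rm, hRm0, hRm⟩ := exists_ub (fun j => ‖S.r j‖)
  obtain ⟨b, hb0, hb⟩ := exists_lb (fun j => S.B j) S.B_pos
  refine ⟨b / (2 * Rm), by positivity, fun j μ l hμ hl => ?_⟩
  set q := μ • S.r j + l • S.r (S.nx j) with hq
  have e := S.coef_nx j μ l
  rw [← hq] at e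
  have hB := S.B_pos j
  have key : ∀ x : ℝ, 0 ≤ x → x * S.B j ≤ 2 * ‖q‖ * Rm → b / (2 * Rm) * x ≤ ‖q‖ := by
    intro x hx h
    rw [div_mul_eq_mul_div, div_le_iff₀ (by positivity)]
    nlinarith [hb j]
  constructor
  · apply key μ hμ
    have h1 := abs_dt_le q (S.r (S.nx j))
    have h2 : dt q (S.r (S.nx j)) = μ * S.B j := by
      rw [← e.1]; field_simp
    rw [h2] at h1
    calc μ * S.B j ≤ |μ * S.B j| := le_abs_self _
      _ ≤ _ := h1
      _ ≤ _ := by gcongr; exact hRm _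
  · apply key l hl
    have h1 := abs_dt_le (S.r j) q
    have h2 : dt (S.r j) q = l * S.B j := by
      rw [← e.2]; field_simp
    rw [h2] at h1
    calc l * S.B j ≤ |l * S.B j| := le_abs_self _
      _ ≤ _ := h1
      _ = 2 * ‖q‖ * ‖S.r j‖ := by ring
      _ ≤ _ := by gcongr; exact hRm _

lemma cone_norm [Finite J] : ∃ c : ℝ, 0 < c ∧ ∀ (j : J) (κ K : ℝ) (q : P2), 0 ≤ K →
    S.Cone j κ K q → c * K ≤ ‖q‖ := by
  obtain ⟨c, hc0, hc⟩ := S.coef_bound
  refine ⟨c, hc0, fun j κ K q hK h => ?_⟩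
  obtain ⟨μ, l, hl, -, hμ, h⟩ := h
  have h1 : c * K ≤ c * μ := mul_le_mul_of_nonneg_left hμ hc0.le
  rcases h with h | h
  · have := (hc j μ l (by linarith) hl).1
    rw [← h] at this; linarith
  · have := (hc (S.pv j) l μ hl (by linarith)).2
    rw [nx_pv, add_comm, ← h] at this; linarith

variable {δ : ℝ} (P : Prof δ) (ef : ∀ j, EdgeFun P (S.A j) (S.B j))

lemma diff_nx (j : J) : ∃ C : ℝ, ∀ μ l : ℝ, 0 ≤ l →
    ‖S.gj P ef j (μ • S.r j + l • S.r (S.nx j)) - (μ • S.p j + l • S.p (S.nx j))‖ ≤ C := by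
  have hB := S.B_pos j
  have hc : Continuous (fun l : ℝ => P.m ((ef j).Θ (l * S.B j)) - l) :=
    (P.hm.continuous.comp ((ef j).hΘ.continuous.comp (continuous_id.mul continuous_const))).sub
      continuous_id
  obtain ⟨C, hC⟩ := (isCompact_Icc (a := (0:ℝ)) (b := 1)).exists_bound_of_continuousOn hc.continuousOn
  refine ⟨|S.t j| * |C| * ‖S.n j‖, fun μ l hl => ?_⟩
  set q := μ • S.r j + l • S.r (S.nx j) with hq
  have hτ : dt (S.r j) q = l * S.B j := by
    have := (S.coef_nx j μ l).2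
    rw [← hq] at this
    rw [← this]; field_simp
  have h1 : μ • S.p j + l • S.p (S.nx j) = S.M j q + (l * S.t j) • S.n j := by
    rw [hq, S.M_add, S.M_smul, S.M_smul, S.M_self, S.p_nx, smul_add, smul_smul]
    abel
  have h2 : S.gj P ef j q - (μ • S.p j + l • S.p (S.nx j)) =
      (S.t j * (P.m ((ef j).Θ (l * S.B j)) - l)) • S.n j := by
    rw [h1]; unfold gj
    rw [hτ, add_sub_add_left_eq_sub, ← sub_smul]
    congr 1; ring
  rw [h2, norm_smul, norm_mul, Real.norm_eq_abs]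
  have h3 : ‖P.m ((ef j).Θ (l * S.B j)) - l‖ ≤ |C| := by
    rcases le_total l 1 with h | h
    · exact (hC l ⟨hl, h⟩).trans (le_abs_self C)
    · rw [(ef j).Θ_pos _ (by nlinarith), mul_div_cancel_right₀ _ hB.ne', P.m_pos _ h, sub_self,
        norm_zero]
      positivity
  gcongr

lemma diff_pv (j : J) : ∃ C : ℝ, ∀ μ l : ℝ, 0 ≤ l →
    ‖S.gj P ef j (μ • S.r j + l • S.r (S.pv j)) - (μ • S.p j + l • S.p (S.pv j))‖ ≤ C := by
  have hA := S.A_pos j
  have hc : Continuous (fun l : ℝ => P.m ((ef j).Θ (-(l * S.A j)))) :=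
    (P.hm.continuous.comp ((ef j).hΘ.continuous.comp (continuous_id.mul continuous_const).neg))
  obtain ⟨C, hC⟩ := (isCompact_Icc (a := (0:ℝ)) (b := 1)).exists_bound_of_continuousOn hc.continuousOn
  refine ⟨|S.t j| * |C| * ‖S.n j‖, fun μ l hl => ?_⟩
  set q := μ • S.r j + l • S.r (S.pv j) with hq
  have hτ : dt (S.r j) q = -(l * S.A j) := by
    rw [hq, dt_add_right, dt_smul_right, dt_smul_right, dt_self, dt_swap]
    unfold A; ring
  have h1 : S.M j q = μ • S.p j + l • S.p (S.pv j) := by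
    rw [hq, S.M_add, S.M_smul, S.M_smul, S.M_self, S.M_pv]
  have h2 : S.gj P ef j q - (μ • S.p j + l • S.p (S.pv j)) =
      (S.t j * P.m ((ef j).Θ (-(l * S.A j)))) • S.n j := by
    rw [← h1]; unfold gj
    rw [hτ, add_sub_cancel_left]
  rw [h2, norm_smul, norm_mul, Real.norm_eq_abs]
  have h3 : ‖P.m ((ef j).Θ (-(l * S.A j)))‖ ≤ |C| := by
    rcases le_total l 1 with h | h
    · exact (hC l ⟨hl, h⟩).trans (le_abs_self C)
    · rw [(ef j).Θ_neg _ (by nlinarith), neg_div, mul_div_cancel_right₀ _ hA.ne',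
        P.m_neg _ (by linarith), norm_zero]
      positivity
  gcongr

/-- The smooth generating function over the star. -/
theorem exists_G [Finite J] : ∃ (G : P2 → ℝ) (K C : ℝ), ContDiff ℝ ∞ G ∧ 0 < K ∧
    (∀ j q, S.Cone j 3 K q → gr G q = S.gj P ef j q ∧ G q = S.Gj P ef j q) ∧
    (∀ (j : J) (μ l : ℝ), 0 ≤ μ → 0 ≤ l →
      ‖gr G (μ • S.r j + l • S.r (S.nx j)) - (μ • S.p j + l • S.p (S.nx j))‖ ≤ C) := by
  classical
  obtain ⟨R₁, hR₁, hcone⟩ := S.exists_cone
  obtain ⟨c, hc0, hcn⟩ := S.cone_norm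
  obtain ⟨cb, hcb0, hcb⟩ := S.coef_bound
  set χ : ContDiffBump (0 : P2) := ⟨R₁ + 1, R₁ + 2, by linarith, by linarith⟩ with hχ
  obtain ⟨Gt, hGt⟩ : ∃ Gt : P2 → ℝ, ∀ q j κ, R₁ ≤ ‖q‖ → S.Cone j κ 1 q → Gt q = S.Gj P ef j q := by
    refine ⟨fun q => if h : R₁ ≤ ‖q‖ then S.Gj P ef (hcone q h).choose q else 0, ?_⟩
    intro q j κ hq hj
    simp only [dif_pos hq]
    exact S.Gj_consistent P ef (S.cone_mono (κ' := 1) le_rfl (by norm_num) (by norm_num)
      (hcone q hq).choose_spec) hj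
  obtain ⟨G, hG⟩ : ∃ G : P2 → ℝ, G = fun q => (1 - χ q) * Gt q := ⟨_, rfl⟩
  -- near far points
  have hnear : ∀ q : P2, R₁ < ‖q‖ → ∀ j κ K, 1 < K → S.Cone j κ K q →
      Gt =ᶠ[𝓝 q] S.Gj P ef j := by
    intro q hq j κ K hK hj
    have h1 := S.cone_open (κ' := κ + 1) (K' := 1) (by linarith) hK zero_le_one hj
    have h2 : ∀ᶠ q' in 𝓝 q, R₁ < ‖q'‖ := continuous_norm.continuousAt.eventually (lt_mem_nhds hq)
    filter_upwards [h1, h2] with q' h3 h4
    exact hGt q' j _ h4.le h3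
  have hsm : ContDiff ℝ ∞ G := by
    rw [contDiff_iff_contDiffAt]
    intro q
    rcases lt_or_ge ‖q‖ (R₁ + 1) with h | h
    · have : G =ᶠ[𝓝 q] fun _ => 0 := by
        have h2 : ∀ᶠ q' in 𝓝 q, ‖q'‖ < R₁ + 1 :=
          continuous_norm.continuousAt.eventually (gt_mem_nhds h)
        filter_upwards [h2] with q' h3
        have : χ q' = 1 := χ.one_of_mem_closedBall (by
          rw [mem_closedBall_zero_iff]; exact h3.le)
        rw [hG]; simp only [this]; ring
      exact contDiffAt_const.congr_of_eventuallyEq this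
    · obtain ⟨j, hj⟩ := hcone q (by linarith)
      have h1 := hnear q (by linarith) j 1 2 (by norm_num) hj
      have h2 : G =ᶠ[𝓝 q] fun q => (1 - χ q) * S.Gj P ef j q := by
        filter_upwards [h1] with q' h3
        rw [hG]; simp only [h3]
      exact (((contDiff_const.sub χ.contDiff).mul (S.contDiff_Gj P ef j)).contDiffAt).congr_of_eventuallyEq h2
  have hfar : ∀ q : P2, R₁ + 2 < ‖q‖ → ∀ j κ K, 1 < K → S.Cone j κ K q →
      G =ᶠ[𝓝 q] S.Gj P ef j := by
    intro q hq j κ K hK hj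
    have h1 := hnear q (by linarith) j κ K hK hj
    have h2 : ∀ᶠ q' in 𝓝 q, R₁ + 2 < ‖q'‖ := continuous_norm.continuousAt.eventually (lt_mem_nhds hq)
    filter_upwards [h1, h2] with q' h3 h4
    have : χ q' = 0 := χ.zero_of_le_dist (by rw [dist_zero_right]; exact h4.le)
    rw [hG]; simp only [this, h3]; ring
  choose Cn hCn using S.diff_nx P ef
  choose Cp hCp using S.diff_pv P ef
  obtain ⟨CN, hCN0, hCN⟩ := exists_ub Cn
  obtain ⟨CP, hCP0, hCP⟩ := exists_ub Cp
  obtain ⟨Pm, hPm0, hPm⟩ := exists_ub (fun j => ‖S.p j‖)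
  obtain ⟨C1, hC1⟩ := (isCompact_closedBall (0 : P2) (R₁ + 4)).exists_bound_of_continuousOn
    (continuous_gr hsm).continuousOn
  refine ⟨G, max 2 ((R₁ + 4) / c), max (C1 + 2 * ((R₁ + 4) / cb) * Pm) (CN + CP), hsm,
    by positivity, ?_, ?_⟩
  · intro j q hq
    have hn := hcn j 3 _ q (by positivity) hq
    have h1 : R₁ + 4 ≤ ‖q‖ := by
      refine le_trans ?_ hn
      calc R₁ + 4 = c * ((R₁ + 4) / c) := by field_simp
        _ ≤ _ := mul_le_mul_of_nonneg_left (le_max_right _ _) hc0.le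
    have h2 := hfar q (by linarith) j 3 _ (lt_of_lt_of_le one_lt_two (le_max_left _ _)) hq
    exact ⟨by rw [gr_congr h2, gr_Gj], h2.self_of_nhds⟩
  · intro j μ l hμ hl
    set q := μ • S.r j + l • S.r (S.nx j) with hq
    rcases le_or_gt ‖q‖ (R₁ + 4) with h | h
    · refine le_trans ?_ (le_max_left _ _)
      have h1 := hC1 q (by rw [mem_closedBall_zero_iff]; exact h)
      obtain ⟨e1, e2⟩ := hcb j μ l hμ hl
      rw [← hq] at e1 e2
      have hb : ∀ x, cb * x ≤ ‖q‖ → x ≤ (R₁ + 4) / cb := by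
        intro x hx
        rw [le_div_iff₀ hcb0]; linarith
      calc _ ≤ ‖gr G q‖ + ‖μ • S.p j + l • S.p (S.nx j)‖ := norm_sub_le _ _
        _ ≤ C1 + (μ * ‖S.p j‖ + l * ‖S.p (S.nx j)‖) := by
          refine add_le_add h1 ((norm_add_le _ _).trans ?_)
          rw [norm_smul, norm_smul, Real.norm_of_nonneg hμ, Real.norm_of_nonneg hl]
        _ ≤ C1 + ((R₁ + 4) / cb * Pm + (R₁ + 4) / cb * Pm) := by
          gcongr
          · exact hb _ e1
          · exact hPm _
          · exact hb _ e2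
          · exact hPm _
        _ = _ := by ring
    · refine le_trans ?_ (le_max_right _ _)
      obtain ⟨i, hi⟩ := hcone q (by linarith)
      -- which coefficient is large
      have hsum : 0 < μ ∨ 0 < l := by
        by_contra hcon
        push Not at hcon
        have e1 : μ = 0 := le_antisymm hcon.1 hμ
        have e2 : l = 0 := le_antisymm hcon.2 hl
        rw [hq, e1, e2, zero_smul, zero_smul, add_zero, norm_zero] at h
        linarith
      obtain ⟨μ', l', hl', hlμ', hμ', hq'⟩ := hi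
      have hgi : gr G q = S.gj P ef i q := by
        have h2 := hfar q (by linarith) i 1 2 (by norm_num) ⟨μ', l', hl', hlμ', hμ', hq'⟩
        rw [gr_congr h2, gr_Gj]
      rw [hgi]
      -- P-value agrees
      have hP : ∀ (a b : J) (x y x' y' : ℝ), 0 ≤ x → 0 ≤ y → 0 ≤ x' → 0 ≤ y' →
          q = x • S.r a + y • S.r (S.nx a) → q = x' • S.r b + y' • S.r (S.nx b) →
          x • S.p a + y • S.p (S.nx a) = x' • S.p b + y' • S.p (S.nx b) := by
        have hhalf : ∀ (a : J) (x y : ℝ), 0 ≤ x → 0 ≤ y → q = x • S.r a + y • S.r (S.nx a) →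
            ∃ (a' : J) (x' y' : ℝ), 0 < x' ∧ 0 ≤ y' ∧ q = x' • S.r a' + y' • S.r (S.nx a') ∧
              x • S.p a + y • S.p (S.nx a) = x' • S.p a' + y' • S.p (S.nx a') := by
          intro a x y hx hy he
          rcases hx.eq_or_lt with h0 | h0
          · rcases hy.eq_or_lt with h0' | h0'
            · exfalso
              rw [he, ← h0, ← h0', zero_smul, zero_smul, add_zero, norm_zero] at h
              linarith
            · exact ⟨S.nx a, y, 0, h0', le_rfl, by rw [he, ← h0]; simp, by rw [← h0]; simp⟩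
          · exact ⟨a, x, y, h0, hy, he, rfl⟩
        intro a b x y x' y' hx hy hx' hy' he he'
        obtain ⟨a1, x1, y1, g1, g2, g3, g4⟩ := hhalf a x y hx hy he
        obtain ⟨a2, x2, y2, k1, k2, k3, k4⟩ := hhalf b x' y' hx' hy' he'
        have h12 := S.hun a1 a2 x1 y1 x2 y2 g1 g2 k1 k2 (g3.symm.trans k3)
        subst h12
        obtain ⟨e1, e2⟩ := S.coef_unique (g3.symm.trans k3)
        rw [g4, k4, e1, e2]
      rcases hq' with hq' | hq'
      · rw [hP j i μ l μ' l' hμ hl (by linarith) hl' hq hq', hq']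
        exact ((hCn i μ' l' hl').trans (hCN i)).trans (by linarith)
      · have hq'' : q = l' • S.r (S.pv i) + μ' • S.r (S.nx (S.pv i)) := by
          rw [nx_pv, add_comm]; exact hq'
        rw [hP j (S.pv i) μ l l' μ' hμ hl hl' (by linarith) hq hq'', nx_pv, add_comm, hq']
        exact ((hCp i μ' l' hl').trans (hCP i)).trans (by linarith)

end Star

end

end Pool.Agent.TH622
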