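import Mathlib
import Pool.Agent.TH622.StarC

/-! Piecewise linear extension over a star. -/

open scoped ContDiff Topology
open Set Filter Metric

namespace Pool.Agent.TH622

noncomputable section

namespace Star

variable {J : Type} (S : Star J)

lemma ext_unique {V : Type*} [AddCommGroup V] [Module ℝ V] (F : J → V) {a b : J}
    {x y x' y' : ℝ} (hx : 0 ≤ x) (hy : 0 ≤ y) (hx' : 0 ≤ x') (hy' : 0 ≤ y')
    (h : x • S.r a + y • S.r (S.nx a) = x' • S.r b + y' • S.r (S.nx b)) :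
    x • F a + y • F (S.nx a) = x' • F b + y' • F (S.nx b) := by
  have hz : ∀ (a : J) (x y : ℝ), 0 ≤ x → 0 ≤ y → x • S.r a + y • S.r (S.nx a) = 0 →
      x = 0 ∧ y = 0 := by
    intro a x y _ _ h
    have := S.coef_unique (j := a) (μ := x) (l := y) (μ' := 0) (l' := 0) (by rw [h]; simp)
    exact this
  have hhalf : ∀ (a : J) (x y : ℝ), 0 ≤ x → 0 ≤ y → x • S.r a + y • S.r (S.nx a) ≠ 0 →
      ∃ (a' : J) (x' y' : ℝ), 0 < x' ∧ 0 ≤ y' ∧
        x • S.r a + y • S.r (S.nx a) = x' • S.r a' + y' • S.r (S.nx a') ∧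
        x • F a + y • F (S.nx a) = x' • F a' + y' • F (S.nx a') := by
    intro a x y hx hy he
    rcases hx.eq_or_lt with h0 | h0
    · rcases hy.eq_or_lt with h0' | h0'
      · exact absurd (by rw [← h0, ← h0']; simp) he
      · exact ⟨S.nx a, y, 0, h0', le_rfl, by rw [← h0]; simp, by rw [← h0]; simp⟩
    · exact ⟨a, x, y, h0, hy, rfl, rfl⟩
  by_cases h0 : x • S.r a + y • S.r (S.nx a) = 0
  · obtain ⟨e1, e2⟩ := hz a x y hx hy h0
    obtain ⟨e3, e4⟩ := hz b x' y' hx' hy' (h ▸ h0)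
    rw [e1, e2, e3, e4]; simp
  · obtain ⟨a1, x1, y1, g1, g2, g3, g4⟩ := hhalf a x y hx hy h0
    obtain ⟨a2, x2, y2, k1, k2, k3, k4⟩ := hhalf b x' y' hx' hy' (h ▸ h0)
    have he := g3.symm.trans (h.trans k3)
    have h12 := S.hun a1 a2 x1 y1 x2 y2 g1 g2 k1 k2 he
    subst h12
    obtain ⟨e1, e2⟩ := S.coef_unique he
    rw [g4, k4, e1, e2]

lemma hex' (q : P2) : ∃ j, ∃ μ l : ℝ, 0 ≤ μ ∧ 0 ≤ l ∧ q = μ • S.r j + l • S.r (S.nx j) := by
  by_cases h : q = 0
  · obtain ⟨j, -⟩ := S.hex (1, 0) (by simp)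
    exact ⟨j, 0, 0, le_rfl, le_rfl, by rw [h]; simp⟩
  · obtain ⟨j, μ, l, h1, h2, h3⟩ := S.hex q h
    exact ⟨j, μ, l, h1.le, h2, h3⟩

/-- piecewise linear extension of a function on the rays -/
def pl {V : Type*} [AddCommGroup V] [Module ℝ V] (F : J → V) (q : P2) : V :=
  (S.hex' q).choose_spec.choose • F (S.hex' q).choose +
    (S.hex' q).choose_spec.choose_spec.choose • F (S.nx (S.hex' q).choose)

lemma pl_eq {V : Type*} [AddCommGroup V] [Module ℝ V] (F : J → V) {j : J} {μ l : ℝ}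
    (hμ : 0 ≤ μ) (hl : 0 ≤ l) :
    S.pl F (μ • S.r j + l • S.r (S.nx j)) = μ • F j + l • F (S.nx j) := by
  have h := (S.hex' (μ • S.r j + l • S.r (S.nx j))).choose_spec.choose_spec.choose_spec
  exact S.ext_unique F h.1 h.2.1 hμ hl h.2.2.symm

lemma pl_eq_pv {V : Type*} [AddCommGroup V] [Module ℝ V] (F : J → V) {j : J} {μ l : ℝ}
    (hμ : 0 ≤ μ) (hl : 0 ≤ l) :
    S.pl F (μ • S.r j + l • S.r (S.pv j)) = μ • F j + l • F (S.pv j) := by
  have := S.pl_eq F (j := S.pv j) hl hμ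
  rw [nx_pv] at this
  rw [add_comm, this, add_comm]

lemma pl_smul {V : Type*} [AddCommGroup V] [Module ℝ V] (F : J → V) {t : ℝ} (ht : 0 ≤ t)
    (q : P2) : S.pl F (t • q) = t • S.pl F q := by
  obtain ⟨j, μ, l, h1, h2, h3⟩ := S.hex' q
  rw [h3, smul_add, smul_smul, smul_smul, S.pl_eq F (by positivity) (by positivity),
    S.pl_eq F h1 h2, smul_add, smul_smul, smul_smul]

lemma continuous_pl [Finite J] {V : Type*} [NormedAddCommGroup V] [NormedSpace ℝ V]
    (F : J → V) : Continuous (S.pl F) := by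
  set T : J → Set P2 := fun j => {q | 0 ≤ dt q (S.r (S.nx j)) / S.B j ∧ 0 ≤ dt (S.r j) q / S.B j}
    with hT
  have hcl : ∀ j, IsClosed (T j) := fun j =>
    (isClosed_le continuous_const ((continuous_dt_left _).div_const _)).inter
      (isClosed_le continuous_const ((continuous_dt_right _).div_const _))
  have hcov : ⋃ j, T j = univ := by
    rw [eq_univ_iff_forall]
    intro q
    obtain ⟨j, μ, l, h1, h2, h3⟩ := S.hex' q
    rw [mem_iUnion]
    refine ⟨j, ?_⟩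
    have := S.coef_nx j μ l
    rw [← h3] at this
    show 0 ≤ _ ∧ 0 ≤ _
    rw [this.1, this.2]; exact ⟨h1, h2⟩
  refine (locallyFinite_of_finite T).continuous hcov hcl (fun j => ?_)
  have hc : Continuous (fun q : P2 => (dt q (S.r (S.nx j)) / S.B j) • F j +
      (dt (S.r j) q / S.B j) • F (S.nx j)) :=
    (((continuous_dt_left _).div_const _).smul continuous_const).add
      (((continuous_dt_right _).div_const _).smul continuous_const)
  refine hc.continuousOn.congr fun q hq => ?_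
  have h1 := S.coord_nx j q
  have h2 := S.pl_eq F (j := j) hq.1 hq.2
  rw [← h1] at h2
  exact h2

/-- gauge -/
def N (q : P2) : ℝ := S.pl (fun _ => (1:ℝ)) q

lemma N_eq {j : J} {μ l : ℝ} (hμ : 0 ≤ μ) (hl : 0 ≤ l) :
    S.N (μ • S.r j + l • S.r (S.nx j)) = μ + l := by
  unfold N; rw [S.pl_eq _ hμ hl]; simp

lemma N_eq_pv {j : J} {μ l : ℝ} (hμ : 0 ≤ μ) (hl : 0 ≤ l) :
    S.N (μ • S.r j + l • S.r (S.pv j)) = μ + l := by
  unfold N; rw [S.pl_eq_pv _ hμ hl]; simp

lemma continuous_N [Finite J] : Continuous S.N := by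
  show Continuous (S.pl (fun _ => (1:ℝ)))
  exact S.continuous_pl _

lemma compact_N [Finite J] (c : ℝ) : IsCompact {q | S.N q ≤ c} := by
  obtain ⟨Rm, hRm0, hRm⟩ := exists_ub (fun j => ‖S.r j‖)
  refine Metric.isCompact_of_isClosed_isBounded (isClosed_le S.continuous_N continuous_const) ?_
  refine (isBounded_iff_forall_norm_le).2 ⟨|c| * Rm, fun q hq => ?_⟩
  obtain ⟨j, μ, l, h1, h2, h3⟩ := S.hex' q
  have h4 : S.N q = μ + l := by rw [h3]; exact S.N_eq h1 h2
  have h5 : μ + l ≤ c := by rw [← h4]; exact hq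
  rw [h3]
  calc _ ≤ ‖μ • S.r j‖ + ‖l • S.r (S.nx j)‖ := norm_add_le _ _
    _ = μ * ‖S.r j‖ + l * ‖S.r (S.nx j)‖ := by
      rw [norm_smul, norm_smul, Real.norm_of_nonneg h1, Real.norm_of_nonneg h2]
    _ ≤ μ * Rm + l * Rm := by gcongr <;> exact hRm _
    _ = (μ + l) * Rm := by ring
    _ ≤ |c| * Rm := by gcongr; exact h5.trans (le_abs_self c)

end Star

end

end Pool.Agent.TH622
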