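import Mathlib
import Pool.Agent.TH622.StarD

/-! Smoothing data of a star. -/

open scoped ContDiff Topology
open Set Filter Metric

namespace Pool.Agent.TH622

noncomputable section

namespace Star

variable {J : Type} (S : Star J)

lemma Cone.scale {j : J} {κ K t : ℝ} (ht : 0 < t) {q : P2} (h : S.Cone j κ K q) :
    S.Cone j κ (t * K) (t • q) := by
  obtain ⟨μ, l, hl, hlμ, hμ, hq⟩ := h
  refine ⟨t * μ, t * l, by positivity, by nlinarith, by gcongr, ?_⟩
  rcases hq with hq | hq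
  · left; rw [hq, smul_add, smul_smul, smul_smul]
  · right; rw [hq, smul_add, smul_smul, smul_smul]

end Star

/-- Smoothing data of a star. -/
structure Sm {J : Type} (S : Star J) {δ : ℝ} (P : Prof δ) where
  G : P2 → ℝ
  K : ℝ
  C : ℝ
  hG : ContDiff ℝ ∞ G
  K_pos : 0 < K
  C_pos : 0 < C
  loc : ∀ e s θ, S.Cone e 3 K (S.qs P e s θ) → gr G (S.qs P e s θ) = S.ps P e s θ ∧
    dot (S.qs P e s θ) (S.ps P e s θ) / 2 - G (S.qs P e s θ) =
      - S.w e * (θ * P.m θ / 2 - P.k θ)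
  surj : ∀ e q, ∃ s θ, q = S.qs P e s θ
  bound : ∀ q, ‖gr G q - S.pl S.p q‖ ≤ C

theorem exists_Sm {J : Type} [Finite J] (S : Star J) {δ : ℝ} (hδ : 0 < δ) (P : Prof δ)
    (h1 : ∀ j, δ * S.B j < S.A j) (h2 : ∀ j, δ * S.A j < S.B j) : Nonempty (Sm S P) := by
  have hef : ∀ j, Nonempty (EdgeFun P (S.A j) (S.B j)) := fun j =>
    exists_edgeFun P (S.A_pos j) (S.B_pos j) hδ (h1 j) (h2 j)
  have ef : ∀ j, EdgeFun P (S.A j) (S.B j) := fun j => Classical.choice (hef j)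
  obtain ⟨G, K, C, hG, hK, hloc, hb⟩ := S.exists_G P ef
  refine ⟨⟨G, K, |C| + 1, hG, hK, by positivity, ?_, fun e q => S.qs_surj P ef e q, ?_⟩⟩
  · intro e s θ hc
    obtain ⟨e1, e2⟩ := hloc e _ hc
    have e3 := S.gj_qs P ef e s θ
    have e4 := S.prim_qs P ef e s θ
    rw [e3] at e1 e4
    exact ⟨e1, by rw [e2]; exact e4⟩
  · intro q
    obtain ⟨j, μ, l, h3, h4, h5⟩ := S.hex' q
    have h6 := hb j μ l h3 h4
    rw [← S.pl_eq S.p h3 h4, ← h5] at h6
    exact h6.trans ((le_abs_self C).trans (by linarith))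

theorem exists_delta {ι : Type} [Finite ι] {J : ι → Type} [∀ i, Finite (J i)]
    (S : ∀ i, Star (J i)) : ∃ δ : ℝ, 0 < δ ∧ ∀ i j, δ * (S i).B j < (S i).A j ∧
      δ * (S i).A j < (S i).B j := by
  obtain ⟨b, hb0, hb⟩ := exists_lb (J := Σ i, J i)
    (fun x => min ((S x.1).A x.2 / (S x.1).B x.2) ((S x.1).B x.2 / (S x.1).A x.2))
    (fun x => lt_min (div_pos ((S x.1).A_pos _) ((S x.1).B_pos _))
      (div_pos ((S x.1).B_pos _) ((S x.1).A_pos _)))
  refine ⟨b / 2, by positivity, fun i j => ?_⟩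
  have h := hb ⟨i, j⟩
  have hA := (S i).A_pos j
  have hB := (S i).B_pos j
  have h1 : b ≤ (S i).A j / (S i).B j := h.trans (min_le_left _ _)
  have h2 : b ≤ (S i).B j / (S i).A j := h.trans (min_le_right _ _)
  rw [le_div_iff₀ hB] at h1
  rw [le_div_iff₀ hA] at h2
  constructor <;> nlinarith

theorem exists_Sms {ι : Type} [Finite ι] {J : ι → Type} [∀ i, Finite (J i)]
    (S : ∀ i, Star (J i)) : ∃ (δ : ℝ) (P : Prof δ), Nonempty (∀ i, Sm (S i) P) := by
  obtain ⟨δ, hδ, h⟩ := exists_delta S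
  obtain ⟨P⟩ := exists_prof hδ
  exact ⟨δ, P, ⟨fun i => Classical.choice (exists_Sm (S i) hδ P (fun j => (h i j).1)
    (fun j => (h i j).2))⟩⟩

end

end Pool.Agent.TH622
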