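import Mathlib
import Pool.Agent.GR.Flow

/-! Complete flows of globally Lipschitz smooth vector fields. -/

open scoped ContDiff Topology Manifold NNReal
open Set Filter Metric

namespace Pool.Agent.TH622

noncomputable section

lemma local_solution {F : Type} [NormedAddCommGroup F] [NormedSpace ℝ F] [CompleteSpace F]
    {X : F → F} {K : ℝ≥0} (hK : LipschitzWith K X) (x : F) :
    ∃ γ : ℝ → F, γ 0 = x ∧ ∀ t ∈ Ioo (-(1 / (2 * ((K:ℝ) + 1)))) (1 / (2 * ((K:ℝ) + 1))),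
      HasDerivAt γ (X (γ t)) t := by
  set δ : ℝ := 1 / (2 * ((K:ℝ) + 1)) with hδ
  have hδ0 : 0 < δ := by positivity
  have h0 : (0:ℝ) ∈ Icc (-δ) δ := ⟨by linarith, hδ0.le⟩
  set a : ℝ≥0 := ‖X x‖₊ + 1 with ha
  have hpl : IsPicardLindelof (fun _ => X) (⟨0, h0⟩ : Icc (-δ) δ) x
      a 0 (‖X x‖₊ + K * a) K := by
    refine IsPicardLindelof.of_time_independent (fun y hy => ?_) (hK.lipschitzOnWith) ?_
    · have h1 : ‖X y - X x‖ ≤ K * ‖y - x‖ := by
        simpa [dist_eq_norm] using hK.dist_le_mul y x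
      have h2 : ‖y - x‖ ≤ a := by simpa [dist_eq_norm] using hy
      have h3 : ‖X y‖ ≤ ‖X x‖ + ‖X y - X x‖ := by
        have := norm_add_le (X x) (X y - X x)
        simpa using this
      have h4 : (K:ℝ) * ‖y - x‖ ≤ K * a := mul_le_mul_of_nonneg_left h2 K.2
      push_cast
      linarith
    · have e1 : max (δ - ((⟨0, h0⟩ : Icc (-δ) δ) : ℝ)) (((⟨0, h0⟩ : Icc (-δ) δ) : ℝ) - -δ) = δ := by
        simp
      rw [e1, hδ]
      push_cast
      rw [mul_one_div, div_le_iff₀ (by positivity)]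
      have hx : (0:ℝ) ≤ ‖X x‖ := norm_nonneg _
      have hk : (0:ℝ) ≤ K := K.2
      simp only [ha]
      push_cast
      nlinarith [mul_nonneg hk hx]
  obtain ⟨γ, h1, h2⟩ := hpl.exists_eq_forall_mem_Icc_hasDerivWithinAt₀
  exact ⟨γ, h1, fun t ht => (h2 t (Ioo_subset_Icc_self ht)).hasDerivAt (Icc_mem_nhds ht.1 ht.2)⟩

lemma exists_flow {F : Type} [NormedAddCommGroup F] [NormedSpace ℝ F] [CompleteSpace F]
    {X : F → F} {K : ℝ≥0} (hX : ContDiff ℝ ∞ X) (hK : LipschitzWith K X) :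
    ∃ g : ℝ → F → F, GR.Flow.IsFlowOf X g := by
  have key : ∀ x : F, ∃ γ : ℝ → F, γ 0 = x ∧ ∀ t, HasDerivAt γ (X (γ t)) t := by
    intro x
    have hv : ContMDiff 𝓘(ℝ, F) 𝓘(ℝ, F).tangent 1
        (fun x : F => (⟨x, X x⟩ : TangentBundle 𝓘(ℝ, F) F)) := by
      exact (contMDiff_vectorSpace_iff_contDiff (V := X)).2 (hX.of_le (by simp))
    obtain ⟨γ, h0, h1⟩ := exists_isMIntegralCurve_of_isMIntegralCurveOn (I := 𝓘(ℝ, F)) (M := F)
      (v := X) hv (ε := 1 / (2 * ((K:ℝ) + 1))) (by positivity) (fun y => by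
        obtain ⟨γ, h0, h1⟩ := local_solution hK y
        refine ⟨γ, h0, fun t ht => ?_⟩
        have := (h1 t ht).hasFDerivAt.hasMFDerivAt.hasMFDerivWithinAt (s := Ioo (-(1 / (2 * ((K:ℝ) + 1)))) (1 / (2 * ((K:ℝ) + 1))))
        exact this) x
    refine ⟨γ, h0, fun t => ?_⟩
    have h2 := h1 t
    have h3 : HasFDerivAt γ (ContinuousLinearMap.smulRight (1 : ℝ →L[ℝ] ℝ) (X (γ t))) t :=
      hasMFDerivAt_iff_hasFDerivAt.1 h2
    simpa using h3.hasDerivAt
  choose γ h0 h1 using key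
  exact ⟨fun t x => γ x t, h0, h1⟩

end

end Pool.Agent.TH622
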