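import Mathlib
import Pool.Agent.TH622.Flow0

/-! The Liouville type vector field and its flow. -/

open scoped ContDiff Topology Manifold NNReal
open Set Filter Metric

namespace Pool.Agent.TH622

noncomputable section

abbrev E := Fin 4 → ℝ

/-- the standard symplectic form -/
def om (u v : E) : ℝ := u 0 * v 1 - u 1 * v 0 + u 2 * v 3 - u 3 * v 2

/-- the primitive `(x₀ - ts) dx₁ - x₃ dx₂` -/
def lamZ (ts : ℝ) (X v : E) : ℝ := (X 0 - ts) * v 1 - X 3 * v 2

/-- partial derivatives -/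
def pd (H : E → ℝ) (X : E) (i : Fin 4) : ℝ := fderiv ℝ H X (Pi.single i 1)

/-- the vector field dual to `lamZ - dH` -/
def VF (ts : ℝ) (H : E → ℝ) (X : E) : E :=
  ![X 0 - ts - pd H X 1, pd H X 0, - pd H X 3, X 3 + pd H X 2]

@[simp] lemma VF_0 (ts : ℝ) (H : E → ℝ) (X : E) : VF ts H X 0 = X 0 - ts - pd H X 1 := rfl
@[simp] lemma VF_1 (ts : ℝ) (H : E → ℝ) (X : E) : VF ts H X 1 = pd H X 0 := rfl
@[simp] lemma VF_2 (ts : ℝ) (H : E → ℝ) (X : E) : VF ts H X 2 = - pd H X 3 := rfl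
@[simp] lemma VF_3 (ts : ℝ) (H : E → ℝ) (X : E) : VF ts H X 3 = X 3 + pd H X 2 := rfl

lemma clm_expand {F : Type*} [NormedAddCommGroup F] [NormedSpace ℝ F] (L : E →L[ℝ] F) (b : E) :
    L b = b 0 • L (Pi.single 0 1) + b 1 • L (Pi.single 1 1) + b 2 • L (Pi.single 2 1)
      + b 3 • L (Pi.single 3 1) := by
  conv_lhs => rw [show b = b 0 • (Pi.single 0 1 : E) + b 1 • (Pi.single 1 1 : E)
    + b 2 • (Pi.single 2 1 : E) + b 3 • (Pi.single 3 1 : E) by
      ext i; fin_cases i <;> simp [Pi.single_apply]]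
  simp only [map_add, map_smul]

lemma om_VF (ts : ℝ) (H : E → ℝ) (X v : E) :
    om (VF ts H X) v = lamZ ts X v - fderiv ℝ H X v := by
  rw [clm_expand (fderiv ℝ H X) v]
  simp only [om, lamZ, VF_0, VF_1, VF_2, VF_3, pd, smul_eq_mul]
  ring

lemma contDiff_pd {H : E → ℝ} (hH : ContDiff ℝ ∞ H) (i : Fin 4) :
    ContDiff ℝ ∞ (fun X => pd H X i) := by
  unfold pd
  exact (hH.fderiv_right (m := ∞) (by simp)).clm_apply contDiff_const

lemma contDiff_VF (ts : ℝ) {H : E → ℝ} (hH : ContDiff ℝ ∞ H) : ContDiff ℝ ∞ (VF ts H) := by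
  rw [contDiff_pi]
  intro i
  have h0 := contDiff_pd hH 0
  have h1 := contDiff_pd hH 1
  have h2 := contDiff_pd hH 2
  have h3 := contDiff_pd hH 3
  have e0 : ContDiff ℝ ∞ (fun X : E => X 0) := contDiff_apply ℝ ℝ 0
  have e3 : ContDiff ℝ ∞ (fun X : E => X 3) := contDiff_apply ℝ ℝ 3
  fin_cases i
  · exact (e0.sub contDiff_const).sub h1
  · exact h0
  · exact h3.neg
  · exact e3.add h2

lemma lipschitz_VF (ts : ℝ) {H : E → ℝ} {K : ℝ≥0} (hK : LipschitzWith K (fderiv ℝ H)) :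
    LipschitzWith (1 + K) (VF ts H) := by
  have hpd : ∀ i, ∀ X Y : E, |pd H X i - pd H Y i| ≤ K * dist X Y := by
    intro i X Y
    unfold pd
    rw [← ContinuousLinearMap.sub_apply, ← Real.norm_eq_abs]
    refine (ContinuousLinearMap.le_opNorm _ _).trans ?_
    have h1 : ‖(Pi.single i 1 : E)‖ ≤ 1 := by
      rw [pi_norm_le_iff_of_nonneg zero_le_one]
      intro j
      by_cases h : j = i
      · subst h; simp
      · simp [Pi.single_apply, h]
    have h2 := hK.dist_le_mul X Y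
    rw [dist_eq_norm] at h2
    calc _ ≤ ‖fderiv ℝ H X - fderiv ℝ H Y‖ * 1 := by gcongr
      _ ≤ _ := by rw [mul_one]; exact h2
  have hc : ∀ i, ∀ X Y : E, |X i - Y i| ≤ dist X Y := by
    intro i X Y
    have := dist_le_pi_dist X Y i
    rwa [Real.dist_eq] at this
  refine LipschitzWith.of_dist_le_mul fun X Y => ?_
  have hd : 0 ≤ dist X Y := dist_nonneg
  have hK0 : (0:ℝ) ≤ K := K.2
  have hKd : 0 ≤ K * dist X Y := mul_nonneg hK0 hd
  rw [dist_pi_le_iff (by positivity)]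
  intro i
  push_cast
  rw [Real.dist_eq]
  have a0 := abs_le.1 (hc 0 X Y)
  have a3 := abs_le.1 (hc 3 X Y)
  have b0 := abs_le.1 (hpd 0 X Y)
  have b1 := abs_le.1 (hpd 1 X Y)
  have b2 := abs_le.1 (hpd 2 X Y)
  have b3 := abs_le.1 (hpd 3 X Y)
  rw [abs_le]
  fin_cases i
  · show _ ≤ VF ts H X 0 - VF ts H Y 0 ∧ VF ts H X 0 - VF ts H Y 0 ≤ _
    simp only [VF_0]
    constructor <;> linarith [a0.1, a0.2, b1.1, b1.2]
  · show _ ≤ VF ts H X 1 - VF ts H Y 1 ∧ VF ts H X 1 - VF ts H Y 1 ≤ _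
    simp only [VF_1]
    constructor <;> linarith [a0.1, a0.2, b0.1, b0.2]
  · show _ ≤ VF ts H X 2 - VF ts H Y 2 ∧ VF ts H X 2 - VF ts H Y 2 ≤ _
    simp only [VF_2]
    constructor <;> linarith [a0.1, a0.2, b3.1, b3.2]
  · show _ ≤ VF ts H X 3 - VF ts H Y 3 ∧ VF ts H X 3 - VF ts H Y 3 ≤ _
    simp only [VF_3]
    constructor <;> linarith [a3.1, a3.2, b2.1, b2.2]

/-- infinitesimal conformality -/
lemma om_fderiv_VF (ts : ℝ) {H : E → ℝ} (hH : ContDiff ℝ ∞ H) (X a b : E) :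
    om (fderiv ℝ (VF ts H) X a) b + om a (fderiv ℝ (VF ts H) X b) = om a b := by
  have hsym : IsSymmSndFDerivAt ℝ H X := (hH.contDiffAt).isSymmSndFDerivAt
    (by
      simp only [minSmoothness_of_isRCLikeNormedField]
      exact WithTop.coe_le_coe.2 (le_top (a := (2 : ℕ∞))))
  have hdd : DifferentiableAt ℝ (fderiv ℝ H) X :=
    ((hH.fderiv_right (m := 1) (by norm_cast)).differentiable one_ne_zero) X
  have hpd : ∀ i, HasFDerivAt (fun X => pd H X i)
      ((ContinuousLinearMap.apply ℝ ℝ (Pi.single i 1 : E)).comp (fderiv ℝ (fderiv ℝ H) X)) X := by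
    intro i
    exact (ContinuousLinearMap.apply ℝ ℝ (Pi.single i 1 : E)).hasFDerivAt.comp X hdd.hasFDerivAt
  have hVd : DifferentiableAt ℝ (VF ts H) X := (contDiff_VF ts hH).differentiable (by simp) X
  have hc : ∀ (i : Fin 4) (L : E →L[ℝ] ℝ), HasFDerivAt (fun X => VF ts H X i) L X →
      ∀ c, fderiv ℝ (VF ts H) X c i = L c := by
    intro i L hL c
    have h1 : HasFDerivAt (fun X => VF ts H X i)
      ((ContinuousLinearMap.proj i).comp (fderiv ℝ (VF ts H) X)) X :=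
      (ContinuousLinearMap.proj (R := ℝ) (φ := fun _ : Fin 4 => ℝ) i).hasFDerivAt.comp X
        hVd.hasFDerivAt
    have := congrArg (fun T => T c) (h1.unique hL)
    simpa using this
  have p : ∀ i, HasFDerivAt (fun X : E => X i) (ContinuousLinearMap.proj (R := ℝ)
      (φ := fun _ : Fin 4 => ℝ) i) X := fun i => (ContinuousLinearMap.proj (R := ℝ)
      (φ := fun _ : Fin 4 => ℝ) i).hasFDerivAt
  have h0 := hc 0 _ (((p 0).sub_const ts).sub (hpd 1))
  have h1 := hc 1 _ (hpd 0)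
  have h2 := hc 2 _ (hpd 3).neg
  have h3 := hc 3 _ ((p 3).add (hpd 2))
  have ea := clm_expand (fderiv ℝ (fderiv ℝ H) X a) b
  have eb := clm_expand (fderiv ℝ (fderiv ℝ H) X b) a
  have es := hsym.eq a b
  simp only [om, h0, h1, h2, h3]
  simp only [ContinuousLinearMap.sub_apply, ContinuousLinearMap.proj_apply,
    ContinuousLinearMap.comp_apply, ContinuousLinearMap.apply_apply, ContinuousLinearMap.neg_apply,
    ContinuousLinearMap.add_apply, smul_eq_mul] at ea eb ⊢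
  rw [es, eb] at ea
  linarith

end

end Pool.Agent.TH622
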