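import Mathlib
import Pool.Agent.TH622.Liou

/-! Flow of the Liouville type field: conformality, wall, invariance of Lagrangians. -/

open scoped ContDiff Topology Manifold NNReal
open Set Filter Metric

namespace Pool.Agent.TH622

noncomputable section

/-- A global symplectic chart. -/
structure SChart where
  g : E → E
  k : E → E
  hg : ContDiff ℝ ∞ g
  hk : ContDiff ℝ ∞ k
  gk : ∀ X, g (k X) = X
  kg : ∀ z, k (g z) = z
  symp : ∀ z u v, om (fderiv ℝ g z u) (fderiv ℝ g z v) = om u v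

section flow

variable {ts : ℝ} {H : E → ℝ} {K : ℝ≥0} {fl : ℝ → E → E}

lemma contDiff_fl (hH : ContDiff ℝ ∞ H) (hK : LipschitzWith K (fderiv ℝ H))
    (hfl : GR.Flow.IsFlowOf (VF ts H) fl) : ContDiff ℝ ∞ (fun p : ℝ × E => fl p.1 p.2) := by
  have hV := contDiff_VF ts hH
  have hL := lipschitz_VF ts hK
  rw [contDiff_infty]
  intro n
  have := GR.Flow.contDiff_flow (X := ⟨VF ts H, hV.continuous⟩) (m := n + 1) (by simp)
    (hV.of_le (by exact_mod_cast le_top)) (K := 1 + K) hL (g := fl) hfl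
  exact this.of_le (by exact_mod_cast Nat.le_succ n)

lemma contDiff_fl_t (hH : ContDiff ℝ ∞ H) (hK : LipschitzWith K (fderiv ℝ H))
    (hfl : GR.Flow.IsFlowOf (VF ts H) fl) (t : ℝ) : ContDiff ℝ ∞ (fl t) :=
  (contDiff_fl hH hK hfl).comp (contDiff_const.prodMk contDiff_id)

lemma fl_add (hK : LipschitzWith K (fderiv ℝ H))
    (hfl : GR.Flow.IsFlowOf (VF ts H) fl) (t s : ℝ) (x : E) : fl (t + s) x = fl t (fl s x) :=
  hfl.add (lipschitz_VF ts hK) t s x

lemma fl_conf (hH : ContDiff ℝ ∞ H) (hK : LipschitzWith K (fderiv ℝ H))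
    (hfl : GR.Flow.IsFlowOf (VF ts H) fl) (s : ℝ) (x u v : E) :
    om (fderiv ℝ (fl s) x u) (fderiv ℝ (fl s) x v) = Real.exp s * om u v := by
  set A : ℝ → ℝ := fun s => om (fderiv ℝ (fl s) x u) (fderiv ℝ (fl s) x v) with hA
  have hsm := contDiff_fl_t hH hK hfl
  have hd : ∀ s, HasDerivAt A (A s) s := by
    intro s
    set y := fl s x with hy
    have h1 : ∀ w, HasDerivAt (fun t => fderiv ℝ (fl t) y w) (fderiv ℝ (VF ts H) y w) 0 :=
      fun w => GR.Flow.hasDerivAt_fderiv_flow (X := ⟨VF ts H, (contDiff_VF ts hH).continuous⟩)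
        ((contDiff_VF ts hH).of_le (by simp)) (K := 1 + K) (lipschitz_VF ts hK) hfl y w
    have h2 : ∀ w, HasDerivAt (fun t => fderiv ℝ (fl t) x w)
        (fderiv ℝ (VF ts H) y (fderiv ℝ (fl s) x w)) s := by
      intro w
      have h3 := h1 (fderiv ℝ (fl s) x w)
      have h4 : (fun t => fderiv ℝ (fl t) x w) =
          fun t => fderiv ℝ (fl (t - s)) y (fderiv ℝ (fl s) x w) := by
        ext1 t
        have h5 : fl t = fl (t - s) ∘ fl s := by
          ext1 z
          rw [Function.comp, ← fl_add hK hfl]; congr 1; ring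
        rw [h5, fderiv_comp x ((hsm (t - s)).differentiable (by simp) _)
          ((hsm s).differentiable (by simp) _)]
        rfl
      rw [h4]
      have h6 : HasDerivAt (fun t => fderiv ℝ (fl t) y (fderiv ℝ (fl s) x w))
        (fderiv ℝ (VF ts H) y (fderiv ℝ (fl s) x w)) (s - s) := by rw [sub_self]; exact h3
      have := h6.comp_sub_const s s
      exact this
    have h7 : ∀ w (i : Fin 4), HasDerivAt (fun t => fderiv ℝ (fl t) x w i)
        (fderiv ℝ (VF ts H) y (fderiv ℝ (fl s) x w) i) s := fun w i =>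
      (hasDerivAt_pi.1 (h2 w)) i
    have h8 := ((((h7 u 0).mul (h7 v 1)).sub ((h7 u 1).mul (h7 v 0))).add
      ((h7 u 2).mul (h7 v 3))).sub ((h7 u 3).mul (h7 v 2))
    have h9 := om_fderiv_VF ts hH y (fderiv ℝ (fl s) x u) (fderiv ℝ (fl s) x v)
    refine h8.congr_deriv ?_
    simp only [hA]
    rw [← h9]
    simp only [om]
    ring
  have hB : ∀ s, HasDerivAt (fun s => A s * Real.exp (-s)) 0 s := by
    intro s
    have h1 := (hd s).mul ((Real.hasDerivAt_exp (-s)).comp s (hasDerivAt_neg s))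
    refine h1.congr_deriv ?_
    simp only [Function.comp]
    ring
  have hconst : A s * Real.exp (-s) = A 0 * Real.exp (-0) := by
    have := is_const_of_deriv_eq_zero (f := fun s => A s * Real.exp (-s))
      (fun s => (hB s).differentiableAt) (fun s => (hB s).deriv)
    exact this s 0
  have h0 : A 0 = om u v := by
    have : fl 0 = id := by ext1 z; exact hfl.zero z
    simp only [hA, this, fderiv_id]
    rfl
  rw [h0, neg_zero, Real.exp_zero, mul_one] at hconst
  have : A s = om u v * Real.exp s := by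
    rw [← hconst, mul_assoc, ← Real.exp_add]; simp
  show A s = _
  rw [this, mul_comm]

lemma fl_wall (hfl : GR.Flow.IsFlowOf (VF ts H) fl) {tK : ℝ}
    (hw : ∀ Y : E, Y 0 = tK → VF ts H Y 0 < 0) {X : E} (hX : X 0 < tK) {s : ℝ} (hs : 0 ≤ s) :
    fl s X 0 < tK := by
  by_contra hcon
  push Not at hcon
  set c : ℝ → ℝ := fun s => fl s X 0 with hc
  have hcd : ∀ t, HasDerivAt c (VF ts H (fl t X) 0) t := fun t => (hasDerivAt_pi.1 (hfl.deriv X t)) 0
  have hcc : Continuous c := continuous_iff_continuousAt.2 fun t => (hcd t).continuousAt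
  set S : Set ℝ := {t | t ∈ Icc 0 s ∧ tK ≤ c t} with hS
  have hSc : IsClosed S := by
    have : S = Icc 0 s ∩ {t | tK ≤ c t} := rfl
    rw [this]
    exact isClosed_Icc.inter (isClosed_le continuous_const hcc)
  have hSn : S.Nonempty := ⟨s, ⟨hs, le_rfl⟩, hcon⟩
  have hSb : BddBelow S := ⟨0, fun t ht => ht.1.1⟩
  have hmem := hSc.csInf_mem hSn hSb
  set t1 := sInf S with ht1
  have hlt : ∀ t, 0 ≤ t → t < t1 → c t < tK := by
    intro t h0 h1
    by_contra h2
    push Not at h2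
    exact absurd (csInf_le hSb (show t ∈ S from ⟨⟨h0, h1.le.trans hmem.1.2⟩, h2⟩)) (not_le.2 h1)
  have hc0 : c 0 < tK := by simp only [hc]; rw [hfl.zero]; exact hX
  have ht1pos : 0 < t1 := by
    rcases hmem.1.1.lt_or_eq with h | h
    · exact h
    · exfalso
      have := hmem.2
      rw [← h] at this
      linarith
  have hct1 : c t1 = tK := by
    refine le_antisymm ?_ hmem.2
    by_contra h
    push Not at h
    have h1 : ∀ᶠ t in 𝓝[<] t1, tK < c t :=
      (hcc.continuousAt.eventually (lt_mem_nhds h)).filter_mono nhdsWithin_le_nhds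
    have h2 : ∀ᶠ t in 𝓝[<] t1, t ∈ Ioo 0 t1 := Ioo_mem_nhdsLT ht1pos
    obtain ⟨t, h3, h4⟩ := (h1.and h2).exists
    linarith [hlt t h4.1.le h4.2]
  have hneg := hw (fl t1 X) hct1
  have hslope := (hasDerivAt_iff_tendsto_slope.1 (hcd t1)).eventually (gt_mem_nhds hneg)
  have h1 : ∀ᶠ t in 𝓝[<] t1, slope c t1 t < 0 :=
    hslope.filter_mono (nhdsWithin_mono _ (fun t ht => ne_of_lt ht))
  have h2 : ∀ᶠ t in 𝓝[<] t1, t ∈ Ioo 0 t1 := Ioo_mem_nhdsLT ht1pos
  obtain ⟨t, h3, h4⟩ := (h1.and h2).exists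
  rw [slope_def_field, div_neg_iff] at h3
  have h5 := hlt t h4.1.le h4.2
  rw [hct1] at h3
  rcases h3 with h3 | h3
  · linarith [h3.1]
  · linarith [h3.2, h4.2]

end flow

lemma zero_of_deriv_bound {F : Type*} [NormedAddCommGroup F] [NormedSpace ℝ F]
    {u u' : ℝ → F} {s₀ δ C : ℝ} (h0 : u s₀ = 0)
    (hd : ∀ s ∈ Ioo (s₀ - δ) (s₀ + δ), HasDerivAt u (u' s) s)
    (hb : ∀ s ∈ Ioo (s₀ - δ) (s₀ + δ), ‖u' s‖ ≤ C * ‖u s‖) :
    ∀ s ∈ Ioo (s₀ - δ) (s₀ + δ), u s = 0 := by
  have key : ∀ (w w' : ℝ → F), w 0 = 0 → (∀ s ∈ Ioo (-δ) δ, HasDerivAt w (w' s) s) →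
      (∀ s ∈ Ioo (-δ) δ, ‖w' s‖ ≤ C * ‖w s‖) → ∀ s, 0 ≤ s → s < δ → w s = 0 := by
    intro w w' hw0 hwd hwb s hs hsδ
    have hsub : Icc 0 s ⊆ Ioo (-δ) δ := fun t ht => ⟨by linarith [ht.1], by linarith [ht.2]⟩
    have h1 := norm_le_gronwallBound_of_norm_deriv_right_le (f := w) (f' := w') (δ := 0) (K := C)
      (ε := 0) (a := 0) (b := s)
      (fun t ht => (hwd t (hsub ht)).continuousAt.continuousWithinAt)
      (fun t ht => (hwd t (hsub (Ico_subset_Icc_self ht))).hasDerivWithinAt)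
      (by rw [hw0, norm_zero])
      (fun t ht => by rw [add_zero]; exact hwb t (hsub (Ico_subset_Icc_self ht))) s ⟨hs, le_rfl⟩
    rw [gronwallBound_ε0_δ0] at h1
    exact norm_le_zero_iff.1 h1
  intro s hs
  rcases le_total s₀ s with h | h
  · have := key (fun t => u (s₀ + t)) (fun t => u' (s₀ + t)) (by simpa using h0)
      (fun t ht => by
        have := hd (s₀ + t) ⟨by linarith [ht.1], by linarith [ht.2]⟩
        exact this.comp_const_add s₀ t)
      (fun t ht => hb _ ⟨by linarith [ht.1], by linarith [ht.2]⟩) (s - s₀) (by linarith)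
      (by linarith [hs.2])
    simpa using this
  · have := key (fun t => u (s₀ - t)) (fun t => - u' (s₀ - t)) (by simpa using h0)
      (fun t ht => by
        have := hd (s₀ - t) ⟨by linarith [ht.2], by linarith [ht.1]⟩
        exact this.comp_const_sub s₀ t)
      (fun t ht => by
        rw [norm_neg]; exact hb _ ⟨by linarith [ht.2], by linarith [ht.1]⟩) (s₀ - s) (by linarith)
      (by linarith [hs.1])
    simpa using this

end

end Pool.Agent.TH622
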