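import Mathlib
import Pool.Agent.TH622.T1a

/-! Invariance of the Lagrangian under the flow and the main criterion. -/

open scoped ContDiff Topology Manifold NNReal
open Set Filter Metric

namespace Pool.Agent.TH622

noncomputable section

/-- projection to the real plane -/
def pr (z : E) : E := ![z 0, 0, z 2, 0]

lemma continuous_pr : Continuous pr := by
  refine continuous_pi fun i => ?_
  fin_cases i
  · exact continuous_apply 0
  · exact continuous_const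
  · exact continuous_apply 2
  · exact continuous_const

lemma norm_sub_pr (z : E) : ‖z - pr z‖ ≤ max |z 1| |z 3| := by
  rw [pi_norm_le_iff_of_nonneg (by positivity)]
  intro i
  fin_cases i <;> simp [pr]

section

variable {ts : ℝ} {H : E → ℝ} {K : ℝ≥0} {fl : ℝ → E → E}

/-- The tangency condition in a chart. -/
lemma tangent_of_chart (C : SChart) {z : E}
    (hz : ∀ u : E, u 1 = 0 → u 3 = 0 →
      fderiv ℝ H (C.g z) (fderiv ℝ C.g z u) = lamZ ts (C.g z) (fderiv ℝ C.g z u)) :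
    fderiv ℝ C.k (C.g z) (VF ts H (C.g z)) 1 = 0 ∧ fderiv ℝ C.k (C.g z) (VF ts H (C.g z)) 3 = 0 := by
  set w := fderiv ℝ C.k (C.g z) (VF ts H (C.g z)) with hw
  have hid : ∀ v, fderiv ℝ C.g z (fderiv ℝ C.k (C.g z) v) = v := by
    intro v
    have h1 : HasFDerivAt C.k (fderiv ℝ C.k (C.g z)) (C.g z) :=
      (C.hk.differentiable (by simp) _).hasFDerivAt
    have h2 : HasFDerivAt C.g (fderiv ℝ C.g z) (C.k (C.g z)) := by
      rw [C.kg]; exact (C.hg.differentiable (by simp) _).hasFDerivAt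
    have h3 := h2.comp (C.g z) h1
    have h4 : C.g ∘ C.k = id := by ext1 X; exact C.gk X
    rw [h4] at h3
    have := congrArg (fun T => T v) (h3.unique (hasFDerivAt_id _))
    simpa using this
  have hw2 : fderiv ℝ C.g z w = VF ts H (C.g z) := hid _
  have key : ∀ u : E, u 1 = 0 → u 3 = 0 → om w u = 0 := by
    intro u h1 h3
    rw [← C.symp z w u, hw2, om_VF, hz u h1 h3, sub_self]
  have e0 := key (Pi.single 0 1) (by simp) (by simp)
  have e2 := key (Pi.single 2 1) (by simp) (by simp)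
  simp only [om] at e0 e2
  simp at e0 e2
  exact ⟨e0, e2⟩

lemma local_inv (hH : ContDiff ℝ ∞ H) (hK : LipschitzWith K (fderiv ℝ H))
    (hfl : GR.Flow.IsFlowOf (VF ts H) fl) (C : SChart) {U : Set E} (hU : IsOpen U)
    (hT : ∀ z : E, C.g z ∈ U → z 1 = 0 → z 3 = 0 → ∀ u : E, u 1 = 0 → u 3 = 0 →
      fderiv ℝ H (C.g z) (fderiv ℝ C.g z u) = lamZ ts (C.g z) (fderiv ℝ C.g z u))
    {X : E} {s₀ : ℝ} (hmem : fl s₀ X ∈ U) (h1 : C.k (fl s₀ X) 1 = 0) (h3 : C.k (fl s₀ X) 3 = 0) :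
    ∀ᶠ s in 𝓝 s₀, C.k (fl s X) 1 = 0 ∧ C.k (fl s X) 3 = 0 := by
  set Y : E → E := fun z => fderiv ℝ C.k (C.g z) (VF ts H (C.g z)) with hY
  have hYs : ContDiff ℝ 1 Y := by
    have a1 : ContDiff ℝ 1 (fun z => fderiv ℝ C.k (C.g z)) :=
      ((C.hk.fderiv_right (m := 1) (by norm_cast))).comp (C.hg.of_le (by simp))
    have a2 : ContDiff ℝ 1 (fun z => VF ts H (C.g z)) :=
      ((contDiff_VF ts hH).comp C.hg).of_le (by simp)
    exact a1.clm_apply a2
  set z₀ := C.k (fl s₀ X) with hz₀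
  obtain ⟨M, V, hV, hLip⟩ := hYs.contDiffAt.exists_lipschitzOnWith (x := z₀)
  -- the good neighbourhood of z₀
  have hgz : C.g z₀ ∈ U := by rw [hz₀, C.gk]; exact hmem
  have hprz : pr z₀ = z₀ := by
    ext i; fin_cases i <;> simp [pr, h1, h3]
  have hN1 : ∀ᶠ z in 𝓝 z₀, z ∈ V := hV
  have hN2 : ∀ᶠ z in 𝓝 z₀, pr z ∈ V := by
    have := continuous_pr.continuousAt (x := z₀)
    rw [ContinuousAt, hprz] at this
    exact this.eventually hV
  have hN3 : ∀ᶠ z in 𝓝 z₀, C.g (pr z) ∈ U := by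
    have := (C.hg.continuous.comp continuous_pr).continuousAt (x := z₀)
    have h5 : (C.g ∘ pr) z₀ ∈ U := by
      show C.g (pr z₀) ∈ U
      rw [hprz]; exact hgz
    exact this.eventually (hU.mem_nhds h5)
  -- the curve
  set w : ℝ → E := fun s => C.k (fl s X) with hw
  have hwd : ∀ s, HasDerivAt w (Y (w s)) s := by
    intro s
    have a1 : HasFDerivAt C.k (fderiv ℝ C.k (fl s X)) (fl s X) :=
      (C.hk.differentiable (by simp) _).hasFDerivAt
    have a2 := a1.comp_hasDerivAt s (hfl.deriv X s)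
    simp only [hY, hw, C.gk]
    exact a2
  have hwc : ContinuousAt w s₀ := (hwd s₀).continuousAt
  have hev := hwc.eventually (hN1.and (hN2.and hN3))
  obtain ⟨δ, hδ, hδ'⟩ := Metric.eventually_nhds_iff.1 hev
  have hgood : ∀ s ∈ Ioo (s₀ - δ) (s₀ + δ), w s ∈ V ∧ pr (w s) ∈ V ∧ C.g (pr (w s)) ∈ U := by
    intro s hs
    apply hδ'
    rw [Real.dist_eq, abs_lt]
    constructor <;> linarith [hs.1, hs.2]
  have hbound : ∀ s ∈ Ioo (s₀ - δ) (s₀ + δ),
      ‖((Y (w s) 1, Y (w s) 3) : ℝ × ℝ)‖ ≤ M * ‖((w s 1, w s 3) : ℝ × ℝ)‖ := by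
    intro s hs
    obtain ⟨a1, a2, a3⟩ := hgood s hs
    have b1 := hLip.dist_le_mul _ a1 _ a2
    rw [dist_eq_norm, dist_eq_norm] at b1
    have b2 := norm_sub_pr (w s)
    have b3 := tangent_of_chart (ts := ts) (H := H) C (z := pr (w s))
      (hT _ a3 (by simp [pr]) (by simp [pr]))
    have b4 : Y (pr (w s)) 1 = 0 := b3.1
    have b5 : Y (pr (w s)) 3 = 0 := b3.2
    have b6 : ∀ i, |Y (w s) i - Y (pr (w s)) i| ≤ ‖Y (w s) - Y (pr (w s))‖ := fun i => by
      have := norm_le_pi_norm (Y (w s) - Y (pr (w s))) i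
      simpa using this
    have b7 := b6 1
    have b8 := b6 3
    rw [b4, sub_zero] at b7
    rw [b5, sub_zero] at b8
    rw [Prod.norm_def, Prod.norm_def]
    simp only [Real.norm_eq_abs]
    have b9 : (M:ℝ) * ‖w s - pr (w s)‖ ≤ M * max |w s 1| |w s 3| :=
      mul_le_mul_of_nonneg_left b2 M.2
    exact max_le (by linarith) (by linarith)
  have hz := zero_of_deriv_bound (u := fun s => ((w s 1, w s 3) : ℝ × ℝ))
    (u' := fun s => ((Y (w s) 1, Y (w s) 3) : ℝ × ℝ)) (s₀ := s₀) (δ := δ) (C := M)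
    (by
      show ((w s₀ 1, w s₀ 3) : ℝ × ℝ) = 0
      have e1 : w s₀ 1 = 0 := h1
      have e3 : w s₀ 3 = 0 := h3
      rw [e1, e3]; rfl)
    (fun s _ => ((hasDerivAt_pi.1 (hwd s)) 1).prodMk ((hasDerivAt_pi.1 (hwd s)) 3))
    hbound
  filter_upwards [Ioo_mem_nhds (show s₀ - δ < s₀ by linarith) (show s₀ < s₀ + δ by linarith)] with s hs
  have := hz s hs
  simp only [Prod.mk_eq_zero] at this
  exact this

/-- The main criterion, given the Hamiltonian. -/
theorem criterion (hH : ContDiff ℝ ∞ H) (hK : LipschitzWith K (fderiv ℝ H)) {tK : ℝ}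
    (hw : ∀ Y : E, Y 0 = tK → VF ts H Y 0 < 0) {L : Set E} (hL : IsClosed L)
    (hch : ∀ X ∈ L, X 0 < tK → ∃ (C : SChart) (U : Set E), IsOpen U ∧ X ∈ U ∧
      (∀ Y ∈ U, Y ∈ L ↔ (C.k Y 1 = 0 ∧ C.k Y 3 = 0)) ∧
      (∀ z : E, C.g z ∈ U → z 1 = 0 → z 3 = 0 → ∀ u : E, u 1 = 0 → u 3 = 0 →
      fderiv ℝ H (C.g z) (fderiv ℝ C.g z u) = lamZ ts (C.g z) (fderiv ℝ C.g z u)))
    (hne : ∃ X ∈ L, X 0 < tK) :
    ∀ r : ℝ, 0 < r → ∃ φ : (Fin 4 → ℝ) → (Fin 4 → ℝ),
        ContDiffOn ℝ ∞ φ {x | x 0 ^ 2 + x 1 ^ 2 + x 2 ^ 2 + x 3 ^ 2 < r ^ 2} ∧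
        Set.InjOn φ {x | x 0 ^ 2 + x 1 ^ 2 + x 2 ^ 2 + x 3 ^ 2 < r ^ 2} ∧
        (∀ x ∈ {x : Fin 4 → ℝ | x 0 ^ 2 + x 1 ^ 2 + x 2 ^ 2 + x 3 ^ 2 < r ^ 2},
          ∀ u v : Fin 4 → ℝ,
          fderiv ℝ φ x u 0 * fderiv ℝ φ x v 1 - fderiv ℝ φ x u 1 * fderiv ℝ φ x v 0
            + fderiv ℝ φ x u 2 * fderiv ℝ φ x v 3 - fderiv ℝ φ x u 3 * fderiv ℝ φ x v 2
            = u 0 * v 1 - u 1 * v 0 + u 2 * v 3 - u 3 * v 2) ∧
        (∀ x ∈ {x : Fin 4 → ℝ | x 0 ^ 2 + x 1 ^ 2 + x 2 ^ 2 + x 3 ^ 2 < r ^ 2},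
          (φ x ∈ L ↔ (x 1 = 0 ∧ x 3 = 0))) := by
  obtain ⟨fl, hfl⟩ := exists_flow (contDiff_VF ts hH) (lipschitz_VF ts hK)
  -- invariance of membership
  have hinv : ∀ X : E, X 0 < tK → ∀ s, 0 ≤ s → (fl s X ∈ L ↔ X ∈ L) := by
    intro X hX s hs
    classical
    set f : ℝ → Bool := fun s => decide (fl s X ∈ L) with hf
    have hcont : ContinuousOn f (Ici 0) := by
      intro s₀ hs₀
      apply ContinuousAt.continuousWithinAt
      have hlt := fl_wall hfl hw hX (s := s₀) hs₀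
      have hc : ContinuousAt (fun s => fl s X) s₀ := (hfl.deriv X s₀).continuousAt
      have : f =ᶠ[𝓝 s₀] fun _ => f s₀ := by
        by_cases hm : fl s₀ X ∈ L
        · obtain ⟨C, U, hUo, hXU, hUL, hT⟩ := hch _ hm hlt
          have hk := (hUL _ hXU).1 hm
          have h1 := local_inv hH hK hfl C hUo hT hXU hk.1 hk.2
          have h2 := hc.eventually (hUo.mem_nhds hXU)
          filter_upwards [h1, h2] with s hs1 hs2
          have : fl s X ∈ L := (hUL _ hs2).2 hs1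
          simp [hf, this, hm]
        · have h2 := hc.eventually (hL.isOpen_compl.mem_nhds hm)
          filter_upwards [h2] with s hs2
          have : fl s X ∉ L := hs2
          simp [hf, this, hm]
      exact (continuousAt_const (y := f s₀)).congr this.symm
    have h1 := isPreconnected_Ici.constant hcont (x := s) (y := 0) hs (show (0:ℝ) ∈ Ici 0 from Set.self_mem_Ici)
    simp only [hf] at h1
    have h2 := decide_eq_decide.1 h1
    rw [h2, hfl.zero]
  intro r hr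
  obtain ⟨X₀, hX₀, hX₀t⟩ := hne
  obtain ⟨C, U, hUo, hXU, hUL, -⟩ := hch X₀ hX₀ hX₀t
  set z₀ := C.k X₀ with hz₀
  have hz1 := (hUL _ hXU).1 hX₀
  have hopen : IsOpen {x : E | C.g (z₀ + x) ∈ U ∧ C.g (z₀ + x) 0 < tK} := by
    have hc : Continuous (fun x : E => C.g (z₀ + x)) :=
      C.hg.continuous.comp (continuous_const.add continuous_id)
    have a1 : IsOpen {x : E | C.g (z₀ + x) ∈ U} := hUo.preimage hc
    have a2 : IsOpen {x : E | C.g (z₀ + x) 0 < tK} :=
      isOpen_lt ((continuous_apply 0).comp hc) continuous_const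
    exact a1.inter a2
  have h0mem : (0 : E) ∈ {x : E | C.g (z₀ + x) ∈ U ∧ C.g (z₀ + x) 0 < tK} := by
    show C.g (z₀ + 0) ∈ U ∧ C.g (z₀ + 0) 0 < tK
    simp only [add_zero, hz₀, C.gk]
    exact ⟨hXU, hX₀t⟩
  obtain ⟨ρ, hρ, hρ'⟩ := Metric.isOpen_iff.1 hopen 0 h0mem
  set c : ℝ := min 1 (ρ / r) with hc
  have hc0 : 0 < c := lt_min one_pos (by positivity)
  have hc1 : c ≤ 1 := min_le_left _ _
  have hcr : c * r ≤ ρ := by
    have := min_le_right 1 (ρ / r)
    rw [← hc] at this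
    rwa [le_div_iff₀ hr] at this
  set s : ℝ := -2 * Real.log c with hs
  have hs0 : 0 ≤ s := by
    have := Real.log_nonpos hc0.le hc1
    rw [hs]; linarith
  have hexp : Real.exp s * (c * c) = 1 := by
    have e1 : c * c = Real.exp (2 * Real.log c) := by
      rw [two_mul, Real.exp_add, Real.exp_log hc0]
    rw [e1, ← Real.exp_add, hs]
    ring_nf
    exact Real.exp_zero
  have hin : ∀ x : E, x 0 ^ 2 + x 1 ^ 2 + x 2 ^ 2 + x 3 ^ 2 < r ^ 2 →
      C.g (z₀ + c • x) ∈ U ∧ C.g (z₀ + c • x) 0 < tK := by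
    intro x hx
    apply hρ'
    rw [mem_ball_zero_iff]
    have hn : ∀ i, |x i| < r := by
      intro i
      apply abs_lt_of_sq_lt_sq _ hr.le
      fin_cases i <;> simp <;> nlinarith [sq_nonneg (x 0), sq_nonneg (x 1), sq_nonneg (x 2), sq_nonneg (x 3)]
    have hn2 : ‖x‖ < r := by
      rw [pi_norm_lt_iff hr]
      intro i; exact hn i
    rw [norm_smul, Real.norm_of_nonneg hc0.le]
    calc c * ‖x‖ < c * r := by gcongr
      _ ≤ ρ := hcr
  have hfls := contDiff_fl_t hH hK hfl s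
  have hlin : ContDiff ℝ ∞ (fun x : E => z₀ + c • x) := contDiff_const.add (contDiff_id.const_smul c)
  have hφs : ContDiff ℝ ∞ (fun x : E => fl s (C.g (z₀ + c • x))) := hfls.comp (C.hg.comp hlin)
  refine ⟨fun x => fl s (C.g (z₀ + c • x)), hφs.contDiffOn, ?_, ?_, ?_⟩
  · intro x _ y _ hxy
    have h1 : ∀ w, fl (-s) (fl s w) = w := by
      intro w
      rw [← fl_add hK hfl, neg_add_cancel, hfl.zero]
    have h2 : C.g (z₀ + c • x) = C.g (z₀ + c • y) := by
      rw [← h1 (C.g (z₀ + c • x)), ← h1 (C.g (z₀ + c • y))]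
      exact congrArg _ hxy
    have h3 : z₀ + c • x = z₀ + c • y := by
      rw [← C.kg (z₀ + c • x), ← C.kg (z₀ + c • y), h2]
    have h4 : c • x = c • y := add_left_cancel h3
    exact smul_right_injective E hc0.ne' h4
  · intro x _ u v
    have hd : ∀ w, fderiv ℝ (fun x : E => fl s (C.g (z₀ + c • x))) x w =
        fderiv ℝ (fl s) (C.g (z₀ + c • x)) (fderiv ℝ C.g (z₀ + c • x) (c • w)) := by
      intro w
      have a1 : HasFDerivAt (fun x : E => z₀ + c • x) (c • ContinuousLinearMap.id ℝ E) x :=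
        ((hasFDerivAt_id x).const_smul c).const_add z₀
      have a2 : HasFDerivAt C.g (fderiv ℝ C.g (z₀ + c • x)) (z₀ + c • x) :=
        (C.hg.differentiable (by simp) _).hasFDerivAt
      have a3 : HasFDerivAt (fl s) (fderiv ℝ (fl s) (C.g (z₀ + c • x))) (C.g (z₀ + c • x)) :=
        (hfls.differentiable (by simp) _).hasFDerivAt
      have a4 := (a3.comp (z₀ + c • x) a2).comp x a1
      have a5 : fderiv ℝ (fun x : E => fl s (C.g (z₀ + c • x))) x = _ := a4.fderiv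
      rw [a5]; rfl
    have h1 := fl_conf hH hK hfl s (C.g (z₀ + c • x)) (fderiv ℝ C.g (z₀ + c • x) (c • u))
      (fderiv ℝ C.g (z₀ + c • x) (c • v))
    rw [C.symp] at h1
    rw [hd u, hd v]
    have h2 : om (c • u) (c • v) = (c * c) * om u v := by
      simp only [om, Pi.smul_apply, smul_eq_mul]; ring
    rw [h2, ← mul_assoc, hexp, one_mul] at h1
    exact h1
  · intro x hx
    obtain ⟨a1, a2⟩ := hin x hx
    show fl s (C.g (z₀ + c • x)) ∈ L ↔ _
    rw [hinv _ a2 s hs0, hUL _ a1, C.kg]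
    simp only [Pi.add_apply, Pi.smul_apply, smul_eq_mul, hz1.1, hz1.2, zero_add,
      mul_eq_zero, hc0.ne', false_or]
    rw [show z₀ 1 = 0 from hz1.1, show z₀ 3 = 0 from hz1.2]
    simp [hc0.ne']

end

end

end Pool.Agent.TH622
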