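import Mathlib
import Pool.Agent.TH622.T1b

/-! Criterion from local primitives. -/

open scoped ContDiff Topology Manifold NNReal
open Set Filter Metric

namespace Pool.Agent.TH622

noncomputable section

/-- projection forgetting the coordinate `x₁`. -/
def pi3 (X : E) : ℝ × ℝ × ℝ := (X 0, X 2, X 3)

/-- `pi3` as continuous linear map -/
def pi3L : E →L[ℝ] ℝ × ℝ × ℝ :=
  (ContinuousLinearMap.proj (R := ℝ) (φ := fun _ : Fin 4 => ℝ) 0).prod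
    ((ContinuousLinearMap.proj (R := ℝ) (φ := fun _ : Fin 4 => ℝ) 2).prod
      (ContinuousLinearMap.proj (R := ℝ) (φ := fun _ : Fin 4 => ℝ) 3))

lemma pi3L_apply (X : E) : pi3L X = pi3 X := rfl

lemma exists_cutoff {F : Type*} [NormedAddCommGroup F] [NormedSpace ℝ F] [FiniteDimensional ℝ F]
    {S : Set F} (hS : IsCompact S) :
    ∃ ρ : F → ℝ, ContDiff ℝ ∞ ρ ∧ HasCompactSupport ρ ∧ ∀ x ∈ S, ρ x = 1 := by
  obtain ⟨R, hR⟩ := hS.isBounded.subset_closedBall 0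
  set b : ContDiffBump (0 : F) := ⟨|R| + 1, |R| + 2, by positivity, by linarith⟩ with hb
  refine ⟨b, b.contDiff, b.hasCompactSupport, fun x hx => b.one_of_mem_closedBall ?_⟩
  have := hR hx
  rw [mem_closedBall] at this ⊢
  have h2 := le_abs_self R
  show _ ≤ |R| + 1
  linarith

lemma global_of_local {F : Type*} [NormedAddCommGroup F] [NormedSpace ℝ F] [FiniteDimensional ℝ F]
    (t : F → Set ℝ) (ht : ∀ x, Convex ℝ (t x))
    (hloc : ∀ x, ∃ U ∈ 𝓝 x, ∃ g : F → ℝ, ContDiffOn ℝ ∞ g U ∧ ∀ y ∈ U, g y ∈ t y) :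
    ∃ g : F → ℝ, ContDiff ℝ ∞ g ∧ ∀ x, g x ∈ t x := by
  obtain ⟨g, hg⟩ := exists_contMDiffMap_forall_mem_convex_of_local (n := (⊤ : ℕ∞)) 𝓘(ℝ, F) (F := ℝ)
    (t := t) ht (fun x => by
      obtain ⟨U, hU, g, h1, h2⟩ := hloc x
      exact ⟨U, hU, g, h1.contMDiffOn, h2⟩)
  exact ⟨g, g.contMDiff.contDiff, hg⟩

lemma convex_prop_eq (P : Prop) (c : ℝ) : Convex ℝ {y : ℝ | P → c = y} := by
  by_cases h : P
  · have : {y : ℝ | P → c = y} = {c} := by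
      ext y; simp [h, eq_comm]
    rw [this]; exact convex_singleton c
  · have : {y : ℝ | P → c = y} = univ := by
      ext y; simp [h]
    rw [this]; exact convex_univ

lemma exists_timecut {a1 a2 : ℝ} (h : a1 < a2) :
    ∃ χ : ℝ → ℝ, ContDiff ℝ ∞ χ ∧ (∀ t ≤ a1, χ t = 1) ∧ (∀ t, a2 ≤ t → χ t = 0) := by
  have ha12 : 0 < a2 - a1 := by linarith
  refine ⟨fun t => Real.smoothTransition ((a2 - t) / (a2 - a1)),
    Real.smoothTransition.contDiff.comp ((contDiff_const.sub contDiff_id).div_const _), ?_, ?_⟩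
  · intro t ht
    apply Real.smoothTransition.one_of_one_le
    rw [le_div_iff₀ ha12]; linarith
  · intro t ht
    apply Real.smoothTransition.zero_of_nonpos
    apply div_nonpos_of_nonpos_of_nonneg <;> linarith

lemma lipschitz_ham {HA : E → ℝ} {HB : ℝ × ℝ × ℝ → ℝ} (hHAs : ContDiff ℝ ∞ HA)
    (hHBs : ContDiff ℝ ∞ HB) (hHAc : HasCompactSupport HA) (hHBc : HasCompactSupport HB) :
    (∀ X, fderiv ℝ (fun X => HA X + HB (pi3 X)) X =
      fderiv ℝ HA X + (fderiv ℝ HB (pi3 X)).comp pi3L) ∧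
    ∃ K : ℝ≥0, LipschitzWith K (fderiv ℝ (fun X => HA X + HB (pi3 X))) := by
  obtain ⟨KA, hKA⟩ := ContDiff.lipschitzWith_of_hasCompactSupport (n := 1)
    (hHAc.fderiv ℝ) (hHAs.fderiv_right (m := 1) (by norm_cast)) (by simp)
  obtain ⟨KB, hKB⟩ := ContDiff.lipschitzWith_of_hasCompactSupport (n := 1)
    (hHBc.fderiv ℝ) (hHBs.fderiv_right (m := 1) (by norm_cast)) (by simp)
  have hfd : ∀ X, fderiv ℝ (fun X => HA X + HB (pi3 X)) X =
      fderiv ℝ HA X + (fderiv ℝ HB (pi3 X)).comp pi3L := by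
    intro X
    have e1 : HasFDerivAt HA (fderiv ℝ HA X) X := (hHAs.differentiable (by simp) X).hasFDerivAt
    have e2 : HasFDerivAt HB (fderiv ℝ HB (pi3 X)) (pi3 X) :=
      (hHBs.differentiable (by simp) _).hasFDerivAt
    have e3 : HasFDerivAt pi3 pi3L X := pi3L.hasFDerivAt
    exact (e1.add (e2.comp X e3)).fderiv
  refine ⟨hfd, KA + KB * ‖pi3L‖₊ * ‖pi3L‖₊, ?_⟩
  refine LipschitzWith.of_dist_le_mul fun X Y => ?_
  rw [hfd, hfd, dist_eq_norm]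
  have e1 := hKA.dist_le_mul X Y
  have e2 := hKB.dist_le_mul (pi3 X) (pi3 Y)
  rw [dist_eq_norm] at e1 e2
  have e3 : dist (pi3 X) (pi3 Y) ≤ ‖pi3L‖ * dist X Y := by
    rw [dist_eq_norm, dist_eq_norm]
    have := pi3L.le_opNorm (X - Y)
    rw [map_sub] at this
    exact this
  have e4 : ‖(fderiv ℝ HB (pi3 X)).comp pi3L - (fderiv ℝ HB (pi3 Y)).comp pi3L‖ ≤
      ‖fderiv ℝ HB (pi3 X) - fderiv ℝ HB (pi3 Y)‖ * ‖pi3L‖ := by
    rw [← ContinuousLinearMap.sub_comp]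
    exact ContinuousLinearMap.opNorm_comp_le _ _
  have e5 : fderiv ℝ HA X + (fderiv ℝ HB (pi3 X)).comp pi3L -
      (fderiv ℝ HA Y + (fderiv ℝ HB (pi3 Y)).comp pi3L) =
      (fderiv ℝ HA X - fderiv ℝ HA Y) + ((fderiv ℝ HB (pi3 X)).comp pi3L -
        (fderiv ℝ HB (pi3 Y)).comp pi3L) := by abel
  rw [e5]
  have e6 : ‖fderiv ℝ HB (pi3 X) - fderiv ℝ HB (pi3 Y)‖ * ‖pi3L‖ ≤
      KB * (‖pi3L‖ * dist X Y) * ‖pi3L‖ := by
    gcongr
    exact e2.trans (by gcongr)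
  push_cast
  calc _ ≤ _ := norm_add_le _ _
    _ ≤ KA * dist X Y + KB * (‖pi3L‖ * dist X Y) * ‖pi3L‖ := add_le_add e1 (e4.trans e6)
    _ = _ := by ring

lemma exists_ham {ts tK a : ℝ} (haK : a < tK) (hKs : tK < ts)
    {L : Set E} (hLc : IsCompact L) (f : E → ℝ) {H1 : E → ℝ} (hH1 : ContDiff ℝ ∞ H1)
    (hH1f : ∀ X ∈ L, X 0 ≤ tK → f X = H1 X) {F1 : ℝ × ℝ × ℝ → ℝ} (hF1 : ContDiff ℝ ∞ F1)
    (hF1f : ∀ X ∈ L, a ≤ X 0 → X 0 ≤ tK → f X = F1 (pi3 X)) :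
    ∃ H : E → ℝ, ContDiff ℝ ∞ H ∧ (∃ K : ℝ≥0, LipschitzWith K (fderiv ℝ H)) ∧
      (∀ Y : E, Y 0 = tK → VF ts H Y 0 < 0) ∧ (∀ X ∈ L, X 0 ≤ tK → H X = f X) := by
  obtain ⟨ρ, hρ, hρc, hρ1⟩ := exists_cutoff hLc
  have hπc : Continuous pi3 := pi3L.continuous
  obtain ⟨σ, hσ, hσc, hσ1⟩ := exists_cutoff (hLc.image hπc)
  obtain ⟨χ, hχs, hχ1, hχ0⟩ := exists_timecut (a1 := a + (tK - a) / 3)
    (a2 := a + 2 * (tK - a) / 3) (by linarith)
  have hx0 : ContDiff ℝ ∞ (fun X : E => X 0) := contDiff_apply ℝ ℝ 0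
  have hHAs : ContDiff ℝ ∞ (fun X : E => χ (X 0) * (ρ X * H1 X)) :=
    (hχs.comp hx0).mul (hρ.mul hH1)
  have hHBs : ContDiff ℝ ∞ (fun w : ℝ × ℝ × ℝ => (1 - χ w.1) * (σ w * F1 w)) :=
    (contDiff_const.sub (hχs.comp contDiff_fst)).mul (hσ.mul hF1)
  have hπs : ContDiff ℝ ∞ pi3 := pi3L.contDiff
  have hHAc : HasCompactSupport (fun X : E => χ (X 0) * (ρ X * H1 X)) := by
    have h1 : HasCompactSupport (fun X : E => ρ X * H1 X) := hρc.mul_right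
    exact h1.mul_left
  have hHBc : HasCompactSupport (fun w : ℝ × ℝ × ℝ => (1 - χ w.1) * (σ w * F1 w)) := by
    have h1 : HasCompactSupport (fun w : ℝ × ℝ × ℝ => σ w * F1 w) := hσc.mul_right
    exact h1.mul_left
  obtain ⟨hfd, hlip⟩ := lipschitz_ham hHAs hHBs hHAc hHBc
  refine ⟨_, hHAs.add (hHBs.comp hπs), hlip, ?_, ?_⟩
  · intro Y hY
    rw [VF_0]
    have h1 : pd (fun X : E => χ (X 0) * (ρ X * H1 X) +
        (fun w : ℝ × ℝ × ℝ => (1 - χ w.1) * (σ w * F1 w)) (pi3 X)) Y 1 = 0 := by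
      unfold pd
      rw [hfd]
      have e1 : fderiv ℝ (fun X : E => χ (X 0) * (ρ X * H1 X)) Y = 0 := by
        have : (fun X : E => χ (X 0) * (ρ X * H1 X)) =ᶠ[𝓝 Y] fun _ => 0 := by
          have hlt : a + 2 * (tK - a) / 3 < Y 0 := by rw [hY]; linarith
          have c0 : Continuous (fun X : E => X 0) := continuous_apply 0
          filter_upwards [c0.continuousAt.eventually (lt_mem_nhds hlt)] with X hX
          rw [hχ0 _ hX.le, zero_mul]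
        rw [this.fderiv_eq]; simp
      rw [e1, zero_add]
      show fderiv ℝ _ (pi3 Y) (pi3L (Pi.single 1 1)) = 0
      have : pi3L (Pi.single 1 1) = 0 := by
        rw [pi3L_apply]; simp [pi3]
      rw [this, map_zero]
    have h2 : Y 0 - ts - pd (fun X : E => χ (X 0) * (ρ X * H1 X) +
        (fun w : ℝ × ℝ × ℝ => (1 - χ w.1) * (σ w * F1 w)) (pi3 X)) Y 1 < 0 := by
      rw [h1, hY]; linarith
    exact h2
  · intro X hX hXt
    have e1 : ρ X = 1 := hρ1 X hX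
    have e2 : σ (pi3 X) = 1 := hσ1 _ (mem_image_of_mem _ hX)
    have e3 : f X = H1 X := hH1f X hX hXt
    show χ (X 0) * (ρ X * H1 X) + (1 - χ (X 0)) * (σ (pi3 X) * F1 (pi3 X)) = f X
    rw [e1, e2, ← e3]
    by_cases h : X 0 ≤ a + (tK - a) / 3
    · rw [hχ1 _ h]; ring
    · push Not at h
      have e4 : f X = F1 (pi3 X) := hF1f _ hX (by linarith) hXt
      rw [← e4]; ring

lemma deriv_compare (C : SChart) {L : Set E} {H h f : E → ℝ} (hHs : ContDiff ℝ ∞ H)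
    (hh : ContDiff ℝ ∞ h) {U : Set E} (hU : IsOpen U) {tK : ℝ}
    (hUL : ∀ Y ∈ U, Y ∈ L ↔ (C.k Y 1 = 0 ∧ C.k Y 3 = 0))
    (hval : ∀ X ∈ L, X 0 ≤ tK → H X = f X) (hhf : ∀ Y ∈ U, Y ∈ L → h Y = f Y)
    {z : E} (hz : C.g z ∈ U ∩ {Y | Y 0 < tK}) (h1 : z 1 = 0) (h3 : z 3 = 0)
    {u : E} (hu1 : u 1 = 0) (hu3 : u 3 = 0) :
    fderiv ℝ H (C.g z) (fderiv ℝ C.g z u) = fderiv ℝ h (C.g z) (fderiv ℝ C.g z u) := by
  have c0 : Continuous (fun X : E => X 0) := continuous_apply 0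
  have hline : HasDerivAt (fun s : ℝ => z + s • u) u 0 := by
    have := ((hasDerivAt_id (0:ℝ)).smul_const u).const_add z
    simpa using this
  have hg0 : HasFDerivAt C.g (fderiv ℝ C.g z) (z + (0:ℝ) • u) := by
    rw [zero_smul, add_zero]; exact (C.hg.differentiable (by simp) _).hasFDerivAt
  have hγ := hg0.comp_hasDerivAt (0:ℝ) hline
  have key : ∀ G : E → ℝ, ContDiff ℝ ∞ G → HasDerivAt (fun s : ℝ => G (C.g (z + s • u)))
      (fderiv ℝ G (C.g z) (fderiv ℝ C.g z u)) 0 := by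
    intro G hG
    have e1 : HasFDerivAt G (fderiv ℝ G (C.g z)) ((C.g ∘ fun s : ℝ => z + s • u) 0) := by
      simp only [Function.comp, zero_smul, add_zero]
      exact (hG.differentiable (by simp) _).hasFDerivAt
    exact e1.comp_hasDerivAt (0:ℝ) hγ
  refine (key H hHs).unique ((key h hh).congr_of_eventuallyEq ?_)
  have hopen : IsOpen (U ∩ {Y : E | Y 0 < tK}) := hU.inter (isOpen_lt c0 continuous_const)
  have hc : ContinuousAt (fun s : ℝ => C.g (z + s • u)) 0 := hγ.continuousAt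
  have hm : (fun s : ℝ => C.g (z + s • u)) 0 ∈ U ∩ {Y : E | Y 0 < tK} := by
    simp only [zero_smul, add_zero]; exact hz
  filter_upwards [hc.eventually (hopen.mem_nhds hm)] with s hs
  have hsL : C.g (z + s • u) ∈ L := by
    rw [hUL _ hs.1, C.kg]
    simp [h1, h3, hu1, hu3]
  rw [hval _ hsL (le_of_lt hs.2), hhf _ hs.1 hsL]

/-- The main criterion from local data. -/
theorem criterion2 {ts tK a b : ℝ} (haK : a < tK) (hKb : tK < b) (hKs : tK < ts)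
    {L : Set E} (hLc : IsCompact L) (f : E → ℝ)
    (hch : ∀ X ∈ L, X 0 < b → ∃ (C : SChart) (U : Set E) (h : E → ℝ), IsOpen U ∧ X ∈ U ∧
      (∀ Y ∈ U, Y ∈ L ↔ (C.k Y 1 = 0 ∧ C.k Y 3 = 0)) ∧ ContDiff ℝ ∞ h ∧
      (∀ Y ∈ U, Y ∈ L → h Y = f Y) ∧
      (∀ z : E, C.g z ∈ U → z 1 = 0 → z 3 = 0 → ∀ u : E, u 1 = 0 → u 3 = 0 →
      fderiv ℝ h (C.g z) (fderiv ℝ C.g z u) = lamZ ts (C.g z) (fderiv ℝ C.g z u)))
    (hwall : ∀ w : ℝ × ℝ × ℝ, a ≤ w.1 → w.1 ≤ tK → ∃ V ∈ 𝓝 w, ∃ F : ℝ × ℝ × ℝ → ℝ,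
      ContDiff ℝ ∞ F ∧ ∀ X ∈ L, pi3 X ∈ V → a ≤ X 0 → X 0 ≤ tK → F (pi3 X) = f X)
    (hne : ∃ X ∈ L, X 0 < tK) :
    ∀ r : ℝ, 0 < r → ∃ φ : (Fin 4 → ℝ) → (Fin 4 → ℝ),
        ContDiffOn ℝ ∞ φ {x | x 0 ^ 2 + x 1 ^ 2 + x 2 ^ 2 + x 3 ^ 2 < r ^ 2} ∧
        Set.InjOn φ {x | x 0 ^ 2 + x 1 ^ 2 + x 2 ^ 2 + x 3 ^ 2 < r ^ 2} ∧
        (∀ x ∈ {x : Fin 4 → ℝ | x 0 ^ 2 + x 1 ^ 2 + x 2 ^ 2 + x 3 ^ 2 < r ^ 2},
          ∀ u v : Fin 4 → ℝ,
          fderiv ℝ φ x u 0 * fderiv ℝ φ x v 1 - fderiv ℝ φ x u 1 * fderiv ℝ φ x v 0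
            + fderiv ℝ φ x u 2 * fderiv ℝ φ x v 3 - fderiv ℝ φ x u 3 * fderiv ℝ φ x v 2
            = u 0 * v 1 - u 1 * v 0 + u 2 * v 3 - u 3 * v 2) ∧
        (∀ x ∈ {x : Fin 4 → ℝ | x 0 ^ 2 + x 1 ^ 2 + x 2 ^ 2 + x 3 ^ 2 < r ^ 2},
          (φ x ∈ L ↔ (x 1 = 0 ∧ x 3 = 0))) := by
  have hLcl := hLc.isClosed
  have c0 : Continuous (fun X : E => X 0) := continuous_apply 0
  -- global extension of f on X 0 ≤ tK
  obtain ⟨H1, hH1, hH1f⟩ := global_of_local (F := E) (fun X => {y | (X ∈ L ∧ X 0 ≤ tK) → f X = y})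
    (fun X => convex_prop_eq _ _) (fun X => by
      by_cases hX : X ∈ L ∧ X 0 ≤ tK
      · obtain ⟨C, U, h, hU, hXU, -, hh, hhf, -⟩ := hch X hX.1 (by linarith [hX.2])
        exact ⟨U, hU.mem_nhds hXU, h, hh.contDiffOn, fun y hy hy2 => (hhf y hy hy2.1).symm⟩
      · have hcl : IsClosed {X : E | X ∈ L ∧ X 0 ≤ tK} :=
          hLcl.inter (isClosed_le c0 continuous_const)
        refine ⟨_, hcl.isOpen_compl.mem_nhds hX, fun _ => 0, contDiff_const.contDiffOn, ?_⟩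
        intro y hy hy2
        exact absurd hy2 hy)
  obtain ⟨F1, hF1, hF1f⟩ := global_of_local (F := ℝ × ℝ × ℝ)
    (fun w => {y | ∀ X ∈ L, pi3 X = w → a ≤ X 0 → X 0 ≤ tK → f X = y})
    (fun w => by
      have : {y | ∀ X ∈ L, pi3 X = w → a ≤ X 0 → X 0 ≤ tK → f X = y} =
          ⋂ X : E, {y | (X ∈ L ∧ pi3 X = w ∧ a ≤ X 0 ∧ X 0 ≤ tK) → f X = y} := by
        ext y
        simp only [mem_iInter, mem_ofPred_eq]
        exact ⟨fun h X hX => h X hX.1 hX.2.1 hX.2.2.1 hX.2.2.2,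
          fun h X h1 h2 h3 h4 => h X ⟨h1, h2, h3, h4⟩⟩
      rw [this]
      exact convex_iInter fun X => convex_prop_eq _ _) (fun w => by
      by_cases hw : a ≤ w.1 ∧ w.1 ≤ tK
      · obtain ⟨V, hV, F, hF, hFf⟩ := hwall w hw.1 hw.2
        exact ⟨V, hV, F, hF.contDiffOn, fun y hy X hX hXy h1 h2 => by
          rw [← hXy]; exact (hFf X hX (by rw [hXy]; exact hy) h1 h2).symm⟩
      · have hcl : IsClosed {w : ℝ × ℝ × ℝ | a ≤ w.1 ∧ w.1 ≤ tK} :=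
          (isClosed_le continuous_const continuous_fst).inter
            (isClosed_le continuous_fst continuous_const)
        refine ⟨_, hcl.isOpen_compl.mem_nhds hw, fun _ => 0, contDiff_const.contDiffOn, ?_⟩
        intro y hy X hX hXy h1 h2
        refine absurd ?_ hy
        show a ≤ y.1 ∧ y.1 ≤ tK
        rw [← hXy]; exact ⟨h1, h2⟩)
  obtain ⟨H, hHs, ⟨K, hlip⟩, hwl, hval⟩ := exists_ham (ts := ts) haK hKs hLc f hH1
    (fun X h1 h2 => hH1f X ⟨h1, h2⟩) hF1 (fun X h1 h2 h3 => hF1f _ X h1 rfl h2 h3)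
  refine criterion (ts := ts) hHs hlip hwl hLcl ?_ hne
  intro X hX hXt
  obtain ⟨C, U, h, hU, hXU, hUL, hh, hhf, hT⟩ := hch X hX (by linarith)
  refine ⟨C, U ∩ {Y | Y 0 < tK}, hU.inter (isOpen_lt c0 continuous_const), ⟨hXU, hXt⟩,
    fun Y hY => hUL Y hY.1, ?_⟩
  intro z hz h1 h3 u hu1 hu3
  rw [← hT z hz.1 h1 h3 u hu1 hu3]
  exact deriv_compare C hHs hh hU hUL hval hhf hz h1 h3 hu1 hu3

end

end Pool.Agent.TH622
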