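import Mathlib
import Pool.Agent.TH622.SmA
import Pool.Agent.TH622.T1c

/-! PL Lagrangian surfaces and their smoothing. -/

open scoped ContDiff Topology
open Set Filter Metric

namespace Pool.Agent.TH622

noncomputable section

def mk4 (q p : P2) : E := ![q.1, p.1, q.2, p.2]
def qq (X : E) : P2 := (X 0, X 2)
def pp (X : E) : P2 := (X 1, X 3)

@[simp] lemma mk4_0 (q p : P2) : mk4 q p 0 = q.1 := rfl
@[simp] lemma mk4_1 (q p : P2) : mk4 q p 1 = p.1 := rfl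
@[simp] lemma mk4_2 (q p : P2) : mk4 q p 2 = q.2 := rfl
@[simp] lemma mk4_3 (q p : P2) : mk4 q p 3 = p.2 := rfl
@[simp] lemma qq_mk4 (q p : P2) : qq (mk4 q p) = q := rfl
@[simp] lemma pp_mk4 (q p : P2) : pp (mk4 q p) = p := rfl

lemma ext4 {X Y : E} (h0 : X 0 = Y 0) (h1 : X 1 = Y 1) (h2 : X 2 = Y 2) (h3 : X 3 = Y 3) :
    X = Y := by
  ext i; fin_cases i
  · exact h0
  · exact h1
  · exact h2
  · exact h3

@[simp] lemma mk4_qq_pp (X : E) : mk4 (qq X) (pp X) = X := ext4 rfl rfl rfl rfl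

lemma mk4_add (q p q' p' : P2) : mk4 (q + q') (p + p') = mk4 q p + mk4 q' p' :=
  ext4 rfl rfl rfl rfl

lemma mk4_smul (t : ℝ) (q p : P2) : mk4 (t • q) (t • p) = t • mk4 q p :=
  ext4 rfl rfl rfl rfl

lemma continuous_mk4 : Continuous (fun x : P2 × P2 => mk4 x.1 x.2) := by
  rw [continuous_pi_iff]
  intro i
  fin_cases i
  · exact continuous_fst.fst
  · exact continuous_snd.fst
  · exact continuous_fst.snd
  · exact continuous_snd.snd

lemma continuous_qq : Continuous qq := (continuous_apply 0).prodMk (continuous_apply 2)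
lemma continuous_pp : Continuous pp := (continuous_apply 1).prodMk (continuous_apply 3)

lemma om_mk4 (q p q' p' : P2) : om (mk4 q p) (mk4 q' p') = dot q p' - dot p q' := by
  simp only [om, dot, mk4_0, mk4_1, mk4_2, mk4_3]; ring

/-- A PL Lagrangian surface with stars graphical in symplectic charts. -/
structure PLS (ι : Type) where
  v : ι → E
  J : ι → Type
  fin : ∀ i, Finite (J i)
  S : ∀ i, Star (J i)
  nb : ∀ i, J i → ι
  A : ι → E ≃L[ℝ] E
  symp : ∀ i u w, om (A i u) (A i w) = om u w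
  hrp : ∀ i e, A i (mk4 ((S i).r e) ((S i).p e)) = v (nb i e) - v i
  adj : ∀ i e, ∃ e' : J (nb i e), nb _ e' = i ∧
    ((nb _ ((S (nb i e)).nx e') = nb i ((S i).nx e) ∧ nb _ ((S (nb i e)).pv e') = nb i ((S i).pv e)) ∨
    (nb _ ((S (nb i e)).nx e') = nb i ((S i).pv e) ∧ nb _ ((S (nb i e)).pv e') = nb i ((S i).nx e)))
  inj : ∀ (i i' : ι) (j : J i) (j' : J i') (μ l μ' l' : ℝ), 0 ≤ μ → 0 ≤ l → μ + l ≤ 3 / 4 →
    0 ≤ μ' → 0 ≤ l' → μ' + l' ≤ 3 / 4 →
    v i + μ • (v (nb i j) - v i) + l • (v (nb i ((S i).nx j)) - v i) =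
    v i' + μ' • (v (nb i' j') - v i') + l' • (v (nb i' ((S i').nx j')) - v i') →
    i = i' ∨ (nb i' j' = i ∧ 1 / 4 ≤ μ') ∨ (nb i' ((S i').nx j') = i ∧ 1 / 4 ≤ l')

attribute [instance] PLS.fin

namespace PLS

variable {ι : Type} (T : PLS ι) {δ : ℝ} {P : Prof δ} (M : ∀ i, Sm (T.S i) P)

def ge (i : ι) (ε : ℝ) (q : P2) : P2 := ε • gr (M i).G (ε⁻¹ • q)
def Ge (i : ι) (ε : ℝ) (q : P2) : ℝ := ε ^ 2 * (M i).G (ε⁻¹ • q)
def Kf (i : ι) (ε : ℝ) (q : P2) : ℝ := dot q (T.ge M i ε q) / 2 - T.Ge M i ε q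
def Ph (i : ι) (ε : ℝ) (q : P2) : E := T.v i + T.A i (mk4 q (T.ge M i ε q))
def Ph0 (i : ι) (q : P2) : E := T.v i + T.A i (mk4 q ((T.S i).pl (T.S i).p q))
def pr (i : ι) (X : E) : P2 := qq ((T.A i).symm (X - T.v i))
def pf (i : ι) (X : E) : P2 := pp ((T.A i).symm (X - T.v i))

lemma continuous_pr (i : ι) : Continuous (T.pr i) :=
  continuous_qq.comp ((T.A i).symm.continuous.comp (continuous_id.sub continuous_const))

lemma continuous_pf (i : ι) : Continuous (T.pf i) :=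
  continuous_pp.comp ((T.A i).symm.continuous.comp (continuous_id.sub continuous_const))

@[simp] lemma pr_Ph (i : ι) (ε : ℝ) (q : P2) : T.pr i (T.Ph M i ε q) = q := by
  unfold pr Ph; simp

@[simp] lemma pf_Ph (i : ι) (ε : ℝ) (q : P2) : T.pf i (T.Ph M i ε q) = T.ge M i ε q := by
  unfold pf Ph; simp

@[simp] lemma pr_Ph0 (i : ι) (q : P2) : T.pr i (T.Ph0 i q) = q := by
  unfold pr Ph0; simp

lemma Ph_pr_of {i : ι} {ε : ℝ} {X : E} (h : T.pf i X = T.ge M i ε (T.pr i X)) :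
    T.Ph M i ε (T.pr i X) = X := by
  unfold Ph
  rw [← h]
  unfold pr pf
  rw [mk4_qq_pp]; simp

lemma Ph_pr_iff {i : ι} {ε : ℝ} {X : E} :
    T.Ph M i ε (T.pr i X) = X ↔ T.pf i X = T.ge M i ε (T.pr i X) := by
  constructor
  · intro h
    conv_lhs => rw [← h]
    rw [pf_Ph]
  · exact T.Ph_pr_of M

lemma continuous_ge (i : ι) (ε : ℝ) : Continuous (T.ge M i ε) := by
  unfold ge
  exact ((continuous_gr (M i).hG).comp (continuous_const_smul (ε⁻¹ : ℝ))).const_smul ε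

lemma continuous_Ph (i : ι) (ε : ℝ) : Continuous (T.Ph M i ε) := by
  unfold Ph
  exact continuous_const.add ((T.A i).continuous.comp
    (continuous_mk4.comp (continuous_id.prodMk (T.continuous_ge M i ε))))

lemma continuous_Ph0 (i : ι) : Continuous (T.Ph0 i) := by
  unfold Ph0
  exact continuous_const.add ((T.A i).continuous.comp
    (continuous_mk4.comp (continuous_id.prodMk ((T.S i).continuous_pl _))))

lemma ge_bound (i : ι) {ε : ℝ} (hε : 0 < ε) (q : P2) :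
    ‖T.ge M i ε q - (T.S i).pl (T.S i).p q‖ ≤ (M i).C * ε := by
  have h1 := (M i).bound (ε⁻¹ • q)
  rw [(T.S i).pl_smul _ (by positivity)] at h1
  have h2 : T.ge M i ε q - (T.S i).pl (T.S i).p q =
      ε • (gr (M i).G (ε⁻¹ • q) - ε⁻¹ • (T.S i).pl (T.S i).p q) := by
    unfold ge
    rw [smul_sub, smul_smul, mul_inv_cancel₀ hε.ne', one_smul]
  rw [h2, norm_smul, Real.norm_of_nonneg hε.le, mul_comm]
  gcongr

/-- the filter of small positive parameters and points near `q` -/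
abbrev Fi (q : P2) : Filter (ℝ × P2) := 𝓝[>] (0:ℝ) ×ˢ 𝓝 q

lemma ev_pos (q : P2) : ∀ᶠ z in Fi q, 0 < z.1 := by
  have h : ∀ᶠ ε in 𝓝[>] (0:ℝ), 0 < ε := self_mem_nhdsWithin
  exact h.prod_inl _

lemma ev_lt (q : P2) {c : ℝ} (hc : 0 < c) : ∀ᶠ z in Fi q, z.1 < c := by
  have h : ∀ᶠ ε in 𝓝[>] (0:ℝ), ε < c := (gt_mem_nhds hc).filter_mono nhdsWithin_le_nhds
  exact h.prod_inl _

lemma tendsto_ge (i : ι) (q : P2) :
    Tendsto (fun z : ℝ × P2 => T.ge M i z.1 z.2) (Fi q) (𝓝 ((T.S i).pl (T.S i).p q)) := by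
  have h1 : Tendsto (fun z : ℝ × P2 => (T.S i).pl (T.S i).p z.2) (Fi q)
      (𝓝 ((T.S i).pl (T.S i).p q)) :=
    (((T.S i).continuous_pl _).tendsto q).comp tendsto_snd
  have h2 : Tendsto (fun z : ℝ × P2 => T.ge M i z.1 z.2 - (T.S i).pl (T.S i).p z.2) (Fi q)
      (𝓝 0) := by
    apply squeeze_zero_norm' (a := fun z : ℝ × P2 => (M i).C * z.1)
    · filter_upwards [ev_pos q] with z hz
      exact T.ge_bound M i hz z.2
    · have : Tendsto (fun z : ℝ × P2 => z.1) (Fi q) (𝓝 0) :=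
        (tendsto_nhdsWithin_of_tendsto_nhds tendsto_id).comp tendsto_fst |>.mono_right (by simp)
      simpa using this.const_mul (M i).C
  simpa using h2.add h1

lemma tendsto_Ph (i : ι) (q : P2) :
    Tendsto (fun z : ℝ × P2 => T.Ph M i z.1 z.2) (Fi q) (𝓝 (T.Ph0 i q)) := by
  unfold Ph Ph0
  refine Tendsto.const_add _ (((T.A i).continuous.tendsto _).comp ?_)
  exact (continuous_mk4.tendsto (q, (T.S i).pl (T.S i).p q)).comp
    (tendsto_snd.prodMk_nhds (T.tendsto_ge M i q))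

/-- formula on the edge sheets -/
lemma sheet (i : ι) (e : T.J i) (ε s θ : ℝ) (hε : 0 < ε)
    (hc : (T.S i).Cone e 3 (M i).K ((T.S i).qs P e s θ)) :
    T.Ph M i ε (ε • (T.S i).qs P e s θ) = T.v i + ε • (s • (T.v (T.nb i e) - T.v i) +
      (P.m θ - θ) • (T.v (T.nb i ((T.S i).pv e)) - T.v i) +
      P.m θ • (T.v (T.nb i ((T.S i).nx e)) - T.v i)) := by
  unfold Ph ge
  rw [smul_smul, inv_mul_cancel₀ hε.ne', one_smul, ((M i).loc e s θ hc).1, mk4_smul, map_smul]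
  congr 2
  rw [← T.hrp, ← T.hrp, ← T.hrp, ← map_smul, ← map_smul, ← map_smul, ← map_add, ← map_add]
  congr 1
  rw [← mk4_smul, ← mk4_smul, ← mk4_smul, ← mk4_add, ← mk4_add]
  rfl

lemma Kf_sheet (i : ι) (e : T.J i) (ε s θ : ℝ) (hε : 0 < ε)
    (hc : (T.S i).Cone e 3 (M i).K ((T.S i).qs P e s θ)) :
    T.Kf M i ε (ε • (T.S i).qs P e s θ) = - ε ^ 2 *
      om (T.v (T.nb i ((T.S i).pv e)) - T.v i) (T.v (T.nb i ((T.S i).nx e)) - T.v i) *
        (θ * P.m θ / 2 - P.k θ) := by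
  obtain ⟨e1, e2⟩ := (M i).loc e s θ hc
  unfold Kf ge Ge
  rw [smul_smul, inv_mul_cancel₀ hε.ne', one_smul, e1]
  have h1 : dot (ε • (T.S i).qs P e s θ) (ε • (T.S i).ps P e s θ) =
      ε ^ 2 * dot ((T.S i).qs P e s θ) ((T.S i).ps P e s θ) := by
    simp only [dot, Prod.smul_fst, Prod.smul_snd, smul_eq_mul]; ring
  rw [h1]
  have h2 : om (T.v (T.nb i ((T.S i).pv e)) - T.v i) (T.v (T.nb i ((T.S i).nx e)) - T.v i) =
      (T.S i).w e := by
    rw [← T.hrp, ← T.hrp, T.symp, om_mk4]; rfl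
  rw [h2]
  linear_combination ε ^ 2 * e2

/-- triangles are Lagrangian -/
lemma om_nx (i : ι) (e : T.J i) :
    om (T.v (T.nb i e) - T.v i) (T.v (T.nb i ((T.S i).nx e)) - T.v i) = 0 := by
  rw [← T.hrp, ← T.hrp, T.symp, om_mk4]
  have := (T.S i).hlag e
  simp only [dot] at this ⊢
  linarith

lemma om_pv (i : ι) (e : T.J i) :
    om (T.v (T.nb i e) - T.v i) (T.v (T.nb i ((T.S i).pv e)) - T.v i) = 0 := by
  have := T.om_nx i ((T.S i).pv e)
  rw [(T.S i).nx_pv] at this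
  simp only [om] at this ⊢
  linarith

end PLS

end

end Pool.Agent.TH622
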