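import Mathlib
import Pool.Agent.TH622.GlobA

/-! Compatibility of neighbouring charts. -/

open scoped ContDiff Topology
open Set Filter Metric

namespace Pool.Agent.TH622

noncomputable section

lemma om_self (a : E) : om a a = 0 := by simp only [om]; ring
lemma om_swap (a b : E) : om a b = - om b a := by simp only [om]; ring
lemma om_add_left (a b c : E) : om (a + b) c = om a c + om b c := by
  simp only [om, Pi.add_apply]; ring
lemma om_add_right (a b c : E) : om a (b + c) = om a b + om a c := by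
  simp only [om, Pi.add_apply]; ring
lemma om_sub_left (a b c : E) : om (a - b) c = om a c - om b c := by
  simp only [om, Pi.sub_apply]; ring
lemma om_sub_right (a b c : E) : om a (b - c) = om a b - om a c := by
  simp only [om, Pi.sub_apply]; ring
lemma om_smul_left (t : ℝ) (a b : E) : om (t • a) b = t * om a b := by
  simp only [om, Pi.smul_apply, smul_eq_mul]; ring
lemma om_smul_right (t : ℝ) (a b : E) : om a (t • b) = t * om a b := by
  simp only [om, Pi.smul_apply, smul_eq_mul]; ring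

namespace PLS

variable {ι : Type} (T : PLS ι) {δ : ℝ} {P : Prof δ} (M : ∀ i, Sm (T.S i) P)

lemma sheetA (i : ι) (e : T.J i) (ε s θ : ℝ) :
    T.A i (mk4 (ε • (T.S i).qs P e s θ) (ε • (T.S i).ps P e s θ)) = 
      ε • (s • (T.v (T.nb i e) - T.v i) +
      (P.m θ - θ) • (T.v (T.nb i ((T.S i).pv e)) - T.v i) +
      P.m θ • (T.v (T.nb i ((T.S i).nx e)) - T.v i)) := by
  rw [mk4_smul, map_smul]
  congr 1
  rw [← T.hrp, ← T.hrp, ← T.hrp, ← map_smul, ← map_smul, ← map_smul, ← map_add, ← map_add]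
  congr 1
  rw [← mk4_smul, ← mk4_smul, ← mk4_smul, ← mk4_add, ← mk4_add]
  rfl

lemma Ph0_eq {i : ι} {e c : T.J i} (hc : c = (T.S i).nx e ∨ c = (T.S i).pv e) {x y : ℝ}
    (hx : 0 ≤ x) (hy : 0 ≤ y) :
    T.Ph0 i (x • (T.S i).r e + y • (T.S i).r c) =
      T.v i + (x • (T.v (T.nb i e) - T.v i) + y • (T.v (T.nb i c) - T.v i)) := by
  have h1 : (T.S i).pl (T.S i).p (x • (T.S i).r e + y • (T.S i).r c) =
      x • (T.S i).p e + y • (T.S i).p c := by
    rcases hc with h | h <;> subst h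
    · exact (T.S i).pl_eq _ hx hy
    · exact (T.S i).pl_eq_pv _ hx hy
  unfold Ph0
  rw [h1, mk4_add, mk4_smul, mk4_smul, map_add, map_smul, map_smul, T.hrp, T.hrp]

lemma cone_mem {i : ι} {e c : T.J i} (hc : c = (T.S i).nx e ∨ c = (T.S i).pv e) {x y κ : ℝ}
    (hy : 0 ≤ y) (hxy : y ≤ κ * x) : (T.S i).Cone e κ x (x • (T.S i).r e + y • (T.S i).r c) := by
  refine ⟨x, y, hy, hxy, le_rfl, ?_⟩
  rcases hc with h | h <;> subst h
  · left; rfl
  · right; rfl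

lemma cone_ev {i : ι} {e : T.J i} {q : P2} {x : ℝ} (hx : 0 < x)
    (h : (T.S i).Cone e 2 x q) :
    ∀ᶠ z in Fi q, 0 < z.1 ∧ (T.S i).Cone e 3 (M i).K (z.1⁻¹ • z.2) := by
  have hK := (M i).K_pos
  have h1 : ∀ᶠ z in Fi q, (T.S i).Cone e 3 (x / 2) z.2 :=
    ((T.S i).cone_open (by norm_num) (by linarith) (by linarith) h).prod_inr _
  filter_upwards [ev_pos q, ev_lt q (show 0 < x / 2 / (M i).K by positivity), h1] with z h2 h3 h4
  refine ⟨h2, ?_⟩
  refine (T.S i).cone_mono le_rfl ?_ (by positivity) (h4.scale (T.S i) (inv_pos.2 h2))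
  rw [lt_div_iff₀ hK] at h3
  rw [inv_mul_eq_div, le_div_iff₀ h2]
  linarith

/-- neighbouring charts agree -/
lemma LI {i i' : ι} {e : T.J i} {e' : T.J i'} (h : T.nb i e = i') (h' : T.nb i' e' = i)
    (hadj : (T.nb i' ((T.S i').nx e') = T.nb i ((T.S i).nx e) ∧
      T.nb i' ((T.S i').pv e') = T.nb i ((T.S i).pv e)) ∨
      (T.nb i' ((T.S i').nx e') = T.nb i ((T.S i).pv e) ∧
      T.nb i' ((T.S i').pv e') = T.nb i ((T.S i).nx e)))
    {c : T.J i} (hc : c = (T.S i).nx e ∨ c = (T.S i).pv e) {x y : ℝ} (hx : 1 / 4 ≤ x)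
    (hy : 0 ≤ y) (hxy : x + y ≤ 3 / 4) :
    ∃ c' : T.J i', (c' = (T.S i').nx e' ∨ c' = (T.S i').pv e') ∧
      Tendsto (fun z : ℝ × P2 => T.pr i' (T.Ph M i z.1 z.2))
        (Fi (x • (T.S i).r e + y • (T.S i).r c))
        (𝓝 ((1 - x - y) • (T.S i').r e' + y • (T.S i').r c')) ∧
      T.Ph0 i' ((1 - x - y) • (T.S i').r e' + y • (T.S i').r c') =
        T.Ph0 i (x • (T.S i).r e + y • (T.S i).r c) ∧
      ∀ᶠ z in Fi (x • (T.S i).r e + y • (T.S i).r c),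
        T.Ph M i' z.1 (T.pr i' (T.Ph M i z.1 z.2)) = T.Ph M i z.1 z.2 ∧
        T.Kf M i' z.1 (T.pr i' (T.Ph M i z.1 z.2)) = T.Kf M i z.1 z.2 ∧
        om (T.v i' - T.v i) (T.Ph M i z.1 z.2 - T.v i) = 0 := by
  obtain ⟨c', hc', hcc⟩ : ∃ c' : T.J i', (c' = (T.S i').nx e' ∨ c' = (T.S i').pv e') ∧
      T.nb i' c' = T.nb i c := by
    rcases hadj with ⟨a1, a2⟩ | ⟨a1, a2⟩ <;> rcases hc with hc | hc <;> subst hc
    · exact ⟨_, Or.inl rfl, a1⟩
    · exact ⟨_, Or.inr rfl, a2⟩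
    · exact ⟨_, Or.inr rfl, a2⟩
    · exact ⟨_, Or.inl rfl, a1⟩
  refine ⟨c', hc', ?_⟩
  obtain ⟨q, hq⟩ : ∃ q, q = x • (T.S i).r e + y • (T.S i).r c := ⟨_, rfl⟩
  obtain ⟨q', hq'⟩ : ∃ q', q' = (1 - x - y) • (T.S i').r e' + y • (T.S i').r c' := ⟨_, rfl⟩
  have e0 : T.Ph0 i' q' = T.Ph0 i q := by
    rw [hq, hq', T.Ph0_eq hc (by linarith) hy, T.Ph0_eq hc' (by linarith) hy, hcc, h, h']
    module
  have ht : Tendsto (fun z : ℝ × P2 => T.pr i' (T.Ph M i z.1 z.2)) (Fi q) (𝓝 q') := by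
    have h1 := ((T.continuous_pr i').tendsto _).comp (T.tendsto_Ph M i q)
    rw [← e0, pr_Ph0] at h1
    exact h1
  rw [← hq, ← hq']
  refine ⟨ht, e0, ?_⟩
  have ht2 : Tendsto (fun z : ℝ × P2 => (z.1, T.pr i' (T.Ph M i z.1 z.2))) (Fi q) (Fi q') :=
    tendsto_fst.prodMk ht
  have k1 : ∀ᶠ z in Fi q, 0 < z.1 ∧ (T.S i).Cone e 3 (M i).K (z.1⁻¹ • z.2) := by
    apply T.cone_ev M (x := x) (by linarith)
    rw [hq]; exact T.cone_mem hc hy (by linarith)
  have k2 : ∀ᶠ z in Fi q, 0 < z.1 ∧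
      (T.S i').Cone e' 3 (M i').K (z.1⁻¹ • T.pr i' (T.Ph M i z.1 z.2)) := by
    apply ht2.eventually (p := fun w : ℝ × P2 => 0 < w.1 ∧
      (T.S i').Cone e' 3 (M i').K (w.1⁻¹ • w.2))
    apply T.cone_ev M (x := 1 - x - y) (by linarith)
    rw [hq']; exact T.cone_mem hc' hy (by linarith)
  filter_upwards [k1, k2] with z h1 h2
  obtain ⟨hε, hcone⟩ := h1
  obtain ⟨-, hcone'⟩ := h2
  obtain ⟨s, θ, hs⟩ := (M i).surj e (z.1⁻¹ • z.2)
  have hz2 : z.2 = z.1 • (T.S i).qs P e s θ := by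
    rw [← hs, smul_smul, mul_inv_cancel₀ hε.ne', one_smul]
  rw [hs] at hcone
  have hX := T.sheet M i e z.1 s θ hε hcone
  have hKX := T.Kf_sheet M i e z.1 s θ hε hcone
  have o1 := T.om_nx i e
  have o2 := T.om_pv i e
  rw [h] at hX o1 o2
  -- parameters on the other side
  obtain ⟨ε, hεz⟩ : ∃ ε, ε = z.1 := ⟨_, rfl⟩
  obtain ⟨s', hs'⟩ : ∃ s', s' = ε⁻¹ - s - (P.m θ - θ) - P.m θ := ⟨_, rfl⟩
  rw [← hεz] at hX hKX hz2 hcone' hε ⊢
  rw [← hz2] at hX hKX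
  obtain ⟨a, ha⟩ : ∃ a, a = T.v (T.nb i ((T.S i).pv e)) := ⟨_, rfl⟩
  obtain ⟨b, hb⟩ : ∃ b, b = T.v (T.nb i ((T.S i).nx e)) := ⟨_, rfl⟩
  rw [← ha, ← hb] at hX hKX
  rw [← ha] at o2
  rw [← hb] at o1
  have hεs : ε * s' = 1 - ε * (s + (P.m θ - θ) + P.m θ) := by
    rw [hs']; field_simp; ring
  -- claim : existence of θ' with good formulas
  obtain ⟨θ', hA', hw'⟩ : ∃ θ', T.Ph M i ε z.2 = T.v i' + ε • (s' • (T.v (T.nb i' e') - T.v i') +
      (P.m θ' - θ') • (T.v (T.nb i' ((T.S i').pv e')) - T.v i') +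
      P.m θ' • (T.v (T.nb i' ((T.S i').nx e')) - T.v i')) ∧
      om (T.v (T.nb i' ((T.S i').pv e')) - T.v i') (T.v (T.nb i' ((T.S i').nx e')) - T.v i') *
        (θ' * P.m θ' / 2 - P.k θ') = om (a - T.v i) (b - T.v i) * (θ * P.m θ / 2 - P.k θ) := by
    have hX' : T.Ph M i ε z.2 = (ε * s') • T.v i + (ε * s) • T.v i' + (ε * (P.m θ - θ)) • a +
        (ε * P.m θ) • b := by
      rw [hX, hεs]; module
    have hR : ∀ α β : ℝ, ∀ u w : E, T.v i' + ε • (s' • (T.v i - T.v i') +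
      α • (u - T.v i') + β • (w - T.v i')) = (ε * s') • T.v i + (1 - ε * s' - ε * α - ε * β) • T.v i'
        + (ε * α) • u + (ε * β) • w := by
      intro α β u w; module
    have o3 : om (a - T.v i') (b - T.v i') = om (a - T.v i) (b - T.v i) := by
      simp only [om, Pi.sub_apply] at o1 o2 ⊢
      linarith
    have o4 : om (b - T.v i') (a - T.v i') = - om (a - T.v i) (b - T.v i) := by
      rw [om_swap, o3]
    rcases hadj with ⟨a1, a2⟩ | ⟨a1, a2⟩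
    · refine ⟨θ, ?_, ?_⟩
      · rw [h', a1, a2, ← ha, ← hb, hR, hX', hεs]
        congr 3
        ring
      · rw [a1, a2, ← ha, ← hb, o3]
    · refine ⟨-θ, ?_, ?_⟩
      · rw [h', a1, a2, ← ha, ← hb, hR, hX', hεs, P.m_symm]
        have e1 : ε * (P.m θ - θ - -θ) = ε * P.m θ := by ring
        have e2 : 1 - (1 - ε * (s + (P.m θ - θ) + P.m θ)) - ε * P.m θ - ε * (P.m θ - θ) = ε * s := by
          ring
        rw [e1, e2]; abel
      · rw [a1, a2, ← ha, ← hb, o4, P.m_symm, P.k_symm]; ring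
  have hpr : T.pr i' (T.Ph M i ε z.2) = ε • (T.S i').qs P e' s' θ' := by
    rw [hA', ← T.sheetA]
    unfold pr
    rw [add_sub_cancel_left, ContinuousLinearEquiv.symm_apply_apply, qq_mk4]
  rw [hpr, smul_smul, inv_mul_cancel₀ hε.ne', one_smul] at hcone'
  refine ⟨?_, ?_, ?_⟩
  · rw [hpr, T.sheet M i' e' ε s' θ' hε hcone', hA']
  · rw [hpr, T.Kf_sheet M i' e' ε s' θ' hε hcone', hKX]
    linear_combination -ε ^ 2 * hw'
  · rw [hX, add_sub_cancel_left, om_smul_right, om_add_right, om_add_right, om_smul_right,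
      om_smul_right, om_smul_right, om_self, o1, o2]
    ring

end PLS

end

end Pool.Agent.TH622
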