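import Mathlib
import Pool.Agent.TH622.GlobB

/-! Compactness arguments for small parameters. -/

open scoped ContDiff Topology
open Set Filter Metric

namespace Pool.Agent.TH622

noncomputable section

lemma ev_forall_compact {α β : Type*} [TopologicalSpace β] {l : Filter α} {K : Set β}
    (hK : IsCompact K) {p : α → β → Prop} (h : ∀ y ∈ K, ∀ᶠ z in l ×ˢ 𝓝 y, p z.1 z.2) :
    ∀ᶠ x in l, ∀ y ∈ K, p x y := by
  have h1 : {z : α × β | p z.1 z.2} ∈ l ×ˢ 𝓝ˢ K := hK.mem_prod_nhdsSet_of_forall h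
  rw [mem_prod_iff] at h1
  obtain ⟨s, hs, t, ht, hst⟩ := h1
  filter_upwards [hs] with x hx y hy
  exact hst (mk_mem_prod hx (subset_of_mem_nhdsSet ht hy))

lemma ev_forall_compact2 {α β γ : Type*} [TopologicalSpace β] [TopologicalSpace γ]
    {l : Filter α} {K : Set β} {K' : Set γ}
    (hK : IsCompact K) (hK' : IsCompact K') {p : α → β → γ → Prop}
    (h : ∀ y ∈ K, ∀ y' ∈ K', ∀ᶠ z in l ×ˢ (𝓝 y ×ˢ 𝓝 y'), p z.1 z.2.1 z.2.2) :
    ∀ᶠ x in l, ∀ y ∈ K, ∀ y' ∈ K', p x y y' := by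
  have h1 := ev_forall_compact (l := l) (hK.prod hK') (p := fun x z => p x z.1 z.2) (by
    rintro ⟨y, y'⟩ ⟨hy, hy'⟩
    rw [nhds_prod_eq]
    exact h y hy y' hy')
  filter_upwards [h1] with x hx y hy y' hy'
  exact hx (y, y') (mk_mem_prod hy hy')

namespace PLS

variable {ι : Type} (T : PLS ι) {δ : ℝ} {P : Prof δ} (M : ∀ i, Sm (T.S i) P)

lemma Fi_ev_ev {q : P2} {p : ℝ × P2 → Prop} (h : ∀ᶠ z in Fi q, p z) :
    ∀ᶠ z in Fi q, ∀ᶠ q'' in 𝓝 z.2, p (z.1, q'') := by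
  obtain ⟨s, hs, t, ht, hst⟩ := mem_prod_iff.1 h
  rw [eventually_iff, mem_prod_iff]
  refine ⟨s, hs, {y | t ∈ 𝓝 y}, eventually_mem_nhds_iff.2 ht, ?_⟩
  rintro ⟨ε, y⟩ ⟨h1, h2⟩
  show ∀ᶠ q'' in 𝓝 y, p (ε, q'')
  filter_upwards [h2] with y' hy'
  exact hst (mk_mem_prod h1 hy')

def D (i : ι) : Set P2 := {q | (T.S i).N q ≤ 3 / 4}

lemma compact_D (i : ι) : IsCompact (T.D i) := (T.S i).compact_N _

/-- primitive -/
def hf (ts : ℝ) (F : ι → ℝ) (i : ι) (ε : ℝ) (X : E) : ℝ :=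
  F i + om (T.v i) X / 2 + T.Kf M i ε (T.pr i X) + X 0 * X 1 / 2 - ts * X 1 - X 2 * X 3 / 2

lemma repr_D {i : ι} {q : P2} (hq : q ∈ T.D i) : ∃ (j : T.J i) (μ l : ℝ), 0 ≤ μ ∧ 0 ≤ l ∧
    μ + l ≤ 3 / 4 ∧ q = μ • (T.S i).r j + l • (T.S i).r ((T.S i).nx j) := by
  obtain ⟨j, μ, l, h1, h2, h3⟩ := (T.S i).hex' q
  refine ⟨j, μ, l, h1, h2, ?_, h3⟩
  have := (T.S i).N_eq (j := j) h1 h2
  rw [← h3] at this
  rw [← this]; exact hq

/-- local structure at a PL coincidence -/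
lemma coin_loc {i i' : ι} {q q' : P2} (hq : q ∈ T.D i) (hq' : q' ∈ T.D i')
    (h : T.Ph0 i q = T.Ph0 i' q') (hne : i ≠ i') :
    ∃ e' : T.J i', T.nb i' e' = i ∧ ∀ᶠ z in Fi q',
        T.Ph M i z.1 (T.pr i (T.Ph M i' z.1 z.2)) = T.Ph M i' z.1 z.2 ∧
        T.Kf M i z.1 (T.pr i (T.Ph M i' z.1 z.2)) = T.Kf M i' z.1 z.2 ∧
        om (T.v i - T.v i') (T.Ph M i' z.1 z.2 - T.v i') = 0 := by
  obtain ⟨j, μ, l, h1, h2, h3, h4⟩ := T.repr_D hq
  obtain ⟨j', μ', l', h1', h2', h3', h4'⟩ := T.repr_D hq'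
  have e1 := T.Ph0_eq (i := i) (e := j) (c := (T.S i).nx j) (Or.inl rfl) h1 h2
  have e2 := T.Ph0_eq (i := i') (e := j') (c := (T.S i').nx j') (Or.inl rfl) h1' h2'
  rw [← h4] at e1
  rw [← h4'] at e2
  have h5 := T.inj i i' j j' μ l μ' l' h1 h2 h3 h1' h2' h3' (by
    rw [add_assoc, add_assoc, ← e1, ← e2, h])
  have key : ∀ (e' c' : T.J i') (x y : ℝ), (c' = (T.S i').nx e' ∨ c' = (T.S i').pv e') →
      T.nb i' e' = i → 1 / 4 ≤ x → 0 ≤ y → x + y ≤ 3 / 4 →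
      q' = x • (T.S i').r e' + y • (T.S i').r c' →
      ∃ e' : T.J i', T.nb i' e' = i ∧ ∀ᶠ z in Fi q',
        T.Ph M i z.1 (T.pr i (T.Ph M i' z.1 z.2)) = T.Ph M i' z.1 z.2 ∧
        T.Kf M i z.1 (T.pr i (T.Ph M i' z.1 z.2)) = T.Kf M i' z.1 z.2 ∧
        om (T.v i - T.v i') (T.Ph M i' z.1 z.2 - T.v i') = 0 := by
    intro e' c' x y hc' he' hx hy hxy hqq
    subst he'
    obtain ⟨f, hf, hadj⟩ := T.adj i' e'
    obtain ⟨c, -, -, -, h6⟩ := T.LI M (i := i') (e := e') (e' := f) rfl hf hadj hc' hx hy hxy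
    refine ⟨e', rfl, ?_⟩
    rw [hqq]; exact h6
  rcases h5 with h5 | ⟨h5, h6⟩ | ⟨h5, h6⟩
  · exact absurd h5 hne
  · exact key j' ((T.S i').nx j') μ' l' (Or.inl rfl) h5 h6 h2' h3' h4'
  · refine key ((T.S i').nx j') j' l' μ' (Or.inr ((T.S i').pv_nx j').symm) h5 h6 h1' (by linarith) ?_
    rw [add_comm]; exact h4'

/-- the coincidence property -/
def Coin (ts : ℝ) (F : ι → ℝ) (Cp : Set ι) (ε : ℝ) : Prop :=
  ∀ (i i' : ι), ∀ q ∈ T.D i, ∀ q' ∈ T.D i', T.Ph M i ε q = T.Ph M i' ε q' →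
    ∀ᶠ q'' in 𝓝 q', T.Ph M i ε (T.pr i (T.Ph M i' ε q'')) = T.Ph M i' ε q'' ∧
      (i ∈ Cp → i' ∈ Cp → T.hf M ts F i ε (T.Ph M i' ε q'') = T.hf M ts F i' ε (T.Ph M i' ε q''))

theorem ev_coin [Finite ι] (ts : ℝ) (F : ι → ℝ) (Cp : Set ι)
    (hF : ∀ i ∈ Cp, ∀ e, T.nb i e ∈ Cp → F (T.nb i e) - F i = om (T.v i) (T.v (T.nb i e)) / 2) :
    ∀ᶠ ε in 𝓝[>] (0:ℝ), T.Coin M ts F Cp ε := by
  unfold Coin
  rw [eventually_all]; intro i
  rw [eventually_all]; intro i'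
  by_cases hii : i = i'
  · subst hii
    refine Eventually.of_forall fun ε q hq q' hq' h => Eventually.of_forall fun q'' => ?_
    rw [pr_Ph]
    exact ⟨rfl, fun _ _ => rfl⟩
  apply ev_forall_compact2 (T.compact_D i) (T.compact_D i') (p := fun ε q q' =>
    T.Ph M i ε q = T.Ph M i' ε q' →
    ∀ᶠ q'' in 𝓝 q', T.Ph M i ε (T.pr i (T.Ph M i' ε q'')) = T.Ph M i' ε q'' ∧
      (i ∈ Cp → i' ∈ Cp → T.hf M ts F i ε (T.Ph M i' ε q'') = T.hf M ts F i' ε (T.Ph M i' ε q'')))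
  intro q hq q' hq'
  have p1 : Tendsto (fun z : ℝ × P2 × P2 => (z.1, z.2.1)) (𝓝[>] (0:ℝ) ×ˢ (𝓝 q ×ˢ 𝓝 q')) (Fi q) :=
    tendsto_fst.prodMk (tendsto_fst.comp tendsto_snd)
  have p2 : Tendsto (fun z : ℝ × P2 × P2 => (z.1, z.2.2)) (𝓝[>] (0:ℝ) ×ˢ (𝓝 q ×ˢ 𝓝 q')) (Fi q') :=
    tendsto_fst.prodMk (tendsto_snd.comp tendsto_snd)
  by_cases h : T.Ph0 i q = T.Ph0 i' q'
  · obtain ⟨e', he', h1⟩ := T.coin_loc M hq hq' h hii
    filter_upwards [p2.eventually (Fi_ev_ev h1)] with z hz _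
    filter_upwards [hz] with q'' hq''
    refine ⟨hq''.1, fun c1 c2 => ?_⟩
    have hF1 := hF i' c2 e' (by rw [he']; exact c1)
    rw [he'] at hF1
    unfold hf
    have h2 := hq''.2.1
    have h3 := hq''.2.2
    rw [h2, pr_Ph]
    have h4 : om (T.v i) (T.Ph M i' z.1 q'') - om (T.v i') (T.Ph M i' z.1 q'') =
        om (T.v i) (T.v i') := by
      rw [← om_sub_left]
      have : om (T.v i - T.v i') (T.Ph M i' z.1 q'') = om (T.v i - T.v i') (T.v i') := by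
        rw [om_sub_right] at h3; linarith
      rw [this, om_sub_left, om_self, sub_zero]
    have h5 := om_swap (T.v i') (T.v i)
    linarith
  · have t1 := (T.tendsto_Ph M i q).comp p1
    have t2 := (T.tendsto_Ph M i' q').comp p2
    have t3 := t1.prodMk_nhds t2
    have h1 : {w : E × E | w.1 ≠ w.2} ∈ 𝓝 (T.Ph0 i q, T.Ph0 i' q') :=
      (isOpen_ne_fun continuous_fst continuous_snd).mem_nhds h
    filter_upwards [t3.eventually h1] with z hz hz2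
    exact absurd hz2 hz

theorem ev_inn [Finite ι] : ∀ᶠ ε in 𝓝[>] (0:ℝ), ∀ i, ∀ q ∈ T.D i, ∃ (i' : ι) (q' : P2),
    (T.S i').N q' < 3 / 4 ∧ T.Ph M i' ε q' = T.Ph M i ε q := by
  rw [eventually_all]; intro i
  apply ev_forall_compact (T.compact_D i) (p := fun ε q => ∃ (i' : ι) (q' : P2),
    (T.S i').N q' < 3 / 4 ∧ T.Ph M i' ε q' = T.Ph M i ε q)
  intro q hq
  obtain ⟨j, μ, l, h1, h2, h3, h4⟩ := T.repr_D hq
  rcases h3.lt_or_eq with h3 | h3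
  · have hN : (T.S i).N q < 3 / 4 := by rw [h4, (T.S i).N_eq h1 h2]; exact h3
    have : ∀ᶠ z in Fi q, (T.S i).N z.2 < 3 / 4 :=
      (((T.S i).continuous_N.tendsto q).eventually (gt_mem_nhds hN)).prod_inr _
    filter_upwards [this] with z hz
    exact ⟨i, z.2, hz, rfl⟩
  · have key : ∀ (e c : T.J i) (x y : ℝ), (c = (T.S i).nx e ∨ c = (T.S i).pv e) →
        3 / 8 ≤ x → 0 ≤ y → x + y ≤ 3 / 4 → q = x • (T.S i).r e + y • (T.S i).r c →
        ∀ᶠ z in Fi q, ∃ (i' : ι) (q' : P2),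
          (T.S i').N q' < 3 / 4 ∧ T.Ph M i' z.1 q' = T.Ph M i z.1 z.2 := by
      intro e c x y hc hx hy hxy hqq
      obtain ⟨f, hf, hadj⟩ := T.adj i e
      obtain ⟨c', hc', ht, -, h6⟩ := T.LI M (i := i) (e := e) (e' := f) rfl hf hadj hc
        (by linarith) hy hxy
      rw [← hqq] at ht h6
      have hN : (T.S (T.nb i e)).N ((1 - x - y) • (T.S (T.nb i e)).r f +
          y • (T.S (T.nb i e)).r c') < 3 / 4 := by
        rcases hc' with h | h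
        · rw [h, (T.S (T.nb i e)).N_eq (by linarith) hy]; linarith
        · rw [h, (T.S (T.nb i e)).N_eq_pv (by linarith) hy]; linarith
      have h7 := (((T.S (T.nb i e)).continuous_N.tendsto _).comp ht).eventually (gt_mem_nhds hN)
      filter_upwards [h6, h7] with z h8 h9
      exact ⟨_, _, h9, h8.1⟩
    rcases le_total μ l with hml | hml
    · refine key ((T.S i).nx j) j l μ (Or.inr ((T.S i).pv_nx j).symm) (by linarith) h1
        (by linarith) ?_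
      rw [add_comm]; exact h4
    · exact key j _ μ l (Or.inl rfl) (by linarith) h2 h3.le h4

/-- the smoothed surface -/
def L (ε : ℝ) : Set E := ⋃ i, T.Ph M i ε '' T.D i

lemma compact_L [Finite ι] (ε : ℝ) : IsCompact (T.L M ε) :=
  isCompact_iUnion fun i => (T.compact_D i).image (T.continuous_Ph M i ε)

lemma mem_L {ε : ℝ} {X : E} : X ∈ T.L M ε ↔ ∃ i, ∃ q ∈ T.D i, T.Ph M i ε q = X := by
  unfold L
  rw [mem_iUnion]
  rfl

theorem chart_nhds [Finite ι] {ts : ℝ} {F : ι → ℝ} {Cp : Set ι} {ε : ℝ}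
    (hc : T.Coin M ts F Cp ε) {i : ι} {q : P2} (hq : (T.S i).N q < 3 / 4) :
    ∀ᶠ Y in 𝓝 (T.Ph M i ε q), (Y ∈ T.L M ε ↔ T.Ph M i ε (T.pr i Y) = Y) ∧ T.pr i Y ∈ T.D i := by
  have h1 : ∀ᶠ Y in 𝓝 (T.Ph M i ε q), (T.S i).N (T.pr i Y) < 3 / 4 := by
    have hcc : Continuous (fun Y => (T.S i).N (T.pr i Y)) :=
      (T.S i).continuous_N.comp (T.continuous_pr i)
    exact hcc.continuousAt.eventually (gt_mem_nhds (by
      show (T.S i).N (T.pr i (T.Ph M i ε q)) < 3 / 4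
      rw [pr_Ph]; exact hq))
  have h2 : ∀ i', ∀ᶠ Y in 𝓝 (T.Ph M i ε q), ∀ q' ∈ T.D i', T.Ph M i' ε q' = Y →
      T.Ph M i ε (T.pr i Y) = Y := by
    intro i'
    apply ev_forall_compact (T.compact_D i') (p := fun Y q' => T.Ph M i' ε q' = Y →
      T.Ph M i ε (T.pr i Y) = Y)
    intro q' hq'
    by_cases h : T.Ph M i' ε q' = T.Ph M i ε q
    · have h3 := hc i i' q hq.le q' hq' h.symm
      have h4 : ∀ᶠ z in 𝓝 (T.Ph M i ε q) ×ˢ 𝓝 q', T.Ph M i ε (T.pr i (T.Ph M i' ε z.2)) =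
          T.Ph M i' ε z.2 := (h3.mono fun _ h => h.1).prod_inr _
      filter_upwards [h4] with z hz hz2
      rw [← hz2]; exact hz
    · have t1 : Tendsto (fun z : E × P2 => (T.Ph M i' ε z.2, z.1)) (𝓝 (T.Ph M i ε q) ×ˢ 𝓝 q')
          (𝓝 (T.Ph M i' ε q', T.Ph M i ε q)) :=
        (((T.continuous_Ph M i' ε).tendsto q').comp tendsto_snd).prodMk_nhds tendsto_fst
      have h1 : {w : E × E | w.1 ≠ w.2} ∈ 𝓝 (T.Ph M i' ε q', T.Ph M i ε q) :=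
        (isOpen_ne_fun continuous_fst continuous_snd).mem_nhds h
      filter_upwards [t1.eventually h1] with z hz hz2
      exact absurd hz2 hz
  filter_upwards [h1, eventually_all.2 h2] with Y h3 h4
  refine ⟨⟨fun hY => ?_, fun hY => ?_⟩, h3.le⟩
  · obtain ⟨i', q', hq', h5⟩ := (T.mem_L M).1 hY
    exact h4 i' q' hq' h5
  · exact (T.mem_L M).2 ⟨i, _, h3.le, hY⟩

end PLS

end

end Pool.Agent.TH622
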