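import Mathlib
import Pool.Agent.TH622.GlobC

/-! Charts and primitives. -/

open scoped ContDiff Topology
open Set Filter Metric

namespace Pool.Agent.TH622

noncomputable section

def qqL : E →L[ℝ] P2 :=
  (ContinuousLinearMap.proj (R := ℝ) (φ := fun _ : Fin 4 => ℝ) 0).prod
    (ContinuousLinearMap.proj (R := ℝ) (φ := fun _ : Fin 4 => ℝ) 2)
def ppL : E →L[ℝ] P2 :=
  (ContinuousLinearMap.proj (R := ℝ) (φ := fun _ : Fin 4 => ℝ) 1).prod
    (ContinuousLinearMap.proj (R := ℝ) (φ := fun _ : Fin 4 => ℝ) 3)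
def mk4L : P2 × P2 →L[ℝ] E where
  toFun x := mk4 x.1 x.2
  map_add' x y := by simp only [Prod.fst_add, Prod.snd_add, mk4_add]
  map_smul' t x := by simp only [Prod.smul_fst, Prod.smul_snd, mk4_smul, RingHom.id_apply]
  cont := continuous_mk4

lemma qqL_apply (X : E) : qqL X = qq X := rfl
lemma ppL_apply (X : E) : ppL X = pp X := rfl
lemma mk4L_apply (x : P2 × P2) : mk4L x = mk4 x.1 x.2 := rfl

lemma fderiv_gr {H : P2 → ℝ} (q b : P2) : fderiv ℝ H q b = dot (gr H q) b := by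
  have hb : b = b.1 • ((1, 0) : P2) + b.2 • ((0, 1) : P2) := by ext <;> simp
  conv_lhs => rw [hb, map_add, map_smul, map_smul]
  simp only [dot, gr, smul_eq_mul]; ring

lemma contDiff_gr {H : P2 → ℝ} (hH : ContDiff ℝ ∞ H) : ContDiff ℝ ∞ (gr H) := by
  have h1 : ContDiff ℝ ∞ (fderiv ℝ H) := hH.fderiv_right (m := ∞) (by simp)
  exact (h1.clm_apply contDiff_const).prodMk (h1.clm_apply contDiff_const)

lemma gr_hess {H : P2 → ℝ} (hH : ContDiff ℝ ∞ H) (q a b : P2) :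
    dot a (fderiv ℝ (gr H) q b) = dot (fderiv ℝ (gr H) q a) b := by
  have hsym : IsSymmSndFDerivAt ℝ H q := (hH.contDiffAt).isSymmSndFDerivAt
    (by
      simp only [minSmoothness_of_isRCLikeNormedField]
      exact WithTop.coe_le_coe.2 (le_top (a := (2 : ℕ∞))))
  have hdd : DifferentiableAt ℝ (fderiv ℝ H) q :=
    ((hH.fderiv_right (m := 1) (by norm_cast)).differentiable one_ne_zero) q
  have h1 : ∀ w : P2, HasFDerivAt (fun q => fderiv ℝ H q w)
      ((ContinuousLinearMap.apply ℝ ℝ w).comp (fderiv ℝ (fderiv ℝ H) q)) q := fun w =>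
    (ContinuousLinearMap.apply ℝ ℝ w).hasFDerivAt.comp q hdd.hasFDerivAt
  have h2 : ∀ b : P2, fderiv ℝ (gr H) q b =
      (fderiv ℝ (fderiv ℝ H) q b (1, 0), fderiv ℝ (fderiv ℝ H) q b (0, 1)) := by
    intro b
    have := ((h1 (1, 0)).prodMk (h1 (0, 1))).fderiv
    have h3 : fderiv ℝ (gr H) q = _ := this
    rw [h3]; rfl
  have h4 : ∀ a b : P2, dot a (fderiv ℝ (gr H) q b) = fderiv ℝ (fderiv ℝ H) q b a := by
    intro a b
    rw [h2]
    have hb : a = a.1 • ((1, 0) : P2) + a.2 • ((0, 1) : P2) := by ext <;> simp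
    conv_rhs => rw [hb, map_add, map_smul, map_smul]
    simp only [dot, smul_eq_mul]
  have h5 : dot (fderiv ℝ (gr H) q a) b = dot b (fderiv ℝ (gr H) q a) := by
    simp only [dot]; ring
  rw [h5, h4, h4]
  exact hsym.eq b a

namespace PLS

variable {ι : Type} (T : PLS ι) {δ : ℝ} {P : Prof δ} (M : ∀ i, Sm (T.S i) P)

lemma contDiff_Ge (i : ι) (ε : ℝ) : ContDiff ℝ ∞ (T.Ge M i ε) := by
  unfold Ge
  exact contDiff_const.mul ((M i).hG.comp (contDiff_const_smul (ε⁻¹)))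

lemma gr_Ge (i : ι) {ε : ℝ} (hε : 0 < ε) (q : P2) : gr (T.Ge M i ε) q = T.ge M i ε q := by
  have h1 : ∀ b : P2, fderiv ℝ (T.Ge M i ε) q b = ε * fderiv ℝ (M i).G (ε⁻¹ • q) b := by
    intro b
    have e1 : HasFDerivAt (fun q : P2 => ε⁻¹ • q) (ε⁻¹ • ContinuousLinearMap.id ℝ P2) q :=
      (ContinuousLinearMap.hasFDerivAt (ε⁻¹ • ContinuousLinearMap.id ℝ P2))
    have e2 : HasFDerivAt (M i).G (fderiv ℝ (M i).G (ε⁻¹ • q)) (ε⁻¹ • q) :=
      ((M i).hG.differentiable (by simp) _).hasFDerivAt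
    have e3 := (e2.comp q e1).const_mul (ε ^ 2)
    have e4 : fderiv ℝ (T.Ge M i ε) q = _ := e3.fderiv
    rw [e4]
    simp only [ContinuousLinearMap.smul_apply, ContinuousLinearMap.comp_apply,
      ContinuousLinearMap.id_apply, smul_eq_mul, map_smul]
    field_simp
  unfold gr ge
  rw [h1, h1]
  rfl

lemma ge_eq (i : ι) {ε : ℝ} (hε : 0 < ε) : T.ge M i ε = gr (T.Ge M i ε) := by
  ext1 q; rw [T.gr_Ge M i hε]

lemma contDiff_ge (i : ι) {ε : ℝ} (hε : 0 < ε) : ContDiff ℝ ∞ (T.ge M i ε) := by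
  rw [T.ge_eq M i hε]; exact contDiff_gr (T.contDiff_Ge M i ε)

lemma contDiff_Kf (i : ι) {ε : ℝ} (hε : 0 < ε) : ContDiff ℝ ∞ (T.Kf M i ε) := by
  have h := T.contDiff_ge M i hε
  unfold Kf dot
  exact (((contDiff_fst.mul h.fst).add (contDiff_snd.mul h.snd)).div_const 2).sub
    (T.contDiff_Ge M i ε)

lemma contDiff_pr (i : ι) : ContDiff ℝ ∞ (T.pr i) :=
  qqL.contDiff.comp ((T.A i).symm.contDiff.comp (contDiff_id.sub contDiff_const))

lemma contDiff_pf (i : ι) : ContDiff ℝ ∞ (T.pf i) :=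
  ppL.contDiff.comp ((T.A i).symm.contDiff.comp (contDiff_id.sub contDiff_const))

/-- the chart map -/
def cg (i : ι) (ε : ℝ) (z : E) : E := T.v i + T.A i (mk4 (qq z) (pp z + T.ge M i ε (qq z)))

lemma hasFDerivAt_cg (i : ι) {ε : ℝ} (hε : 0 < ε) (z : E) : HasFDerivAt (T.cg M i ε)
    (((T.A i : E →L[ℝ] E).comp mk4L).comp
      (qqL.prod (ppL + (fderiv ℝ (T.ge M i ε) (qq z)).comp qqL))) z := by
  have e1 : HasFDerivAt (T.ge M i ε) (fderiv ℝ (T.ge M i ε) (qq z)) (qq z) :=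
    ((T.contDiff_ge M i hε).differentiable (by simp) _).hasFDerivAt
  have e2 : HasFDerivAt qq qqL z := qqL.hasFDerivAt
  have e3 : HasFDerivAt pp ppL z := ppL.hasFDerivAt
  have e4 := e2.prodMk (e3.add (e1.comp z e2))
  have e5 := (((T.A i : E →L[ℝ] E).comp mk4L).hasFDerivAt (x := (qq z, pp z + T.ge M i ε (qq z)))).comp z e4
  exact e5.const_add (T.v i)

lemma fderiv_cg (i : ι) {ε : ℝ} (hε : 0 < ε) (z u : E) : fderiv ℝ (T.cg M i ε) z u =
    T.A i (mk4 (qq u) (pp u + fderiv ℝ (T.ge M i ε) (qq z) (qq u))) := by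
  rw [(T.hasFDerivAt_cg M i hε z).fderiv]; rfl

/-- symplectic chart of the smoothed star -/
def sch (i : ι) {ε : ℝ} (hε : 0 < ε) : SChart where
  g := T.cg M i ε
  k := fun X => mk4 (T.pr i X) (T.pf i X - T.ge M i ε (T.pr i X))
  hg := by
    have h1 : ContDiff ℝ ∞ (fun z : E => (qq z, pp z + T.ge M i ε (qq z))) :=
      (qqL.contDiff).prodMk ((ppL.contDiff).add ((T.contDiff_ge M i hε).comp qqL.contDiff))
    exact contDiff_const.add (((T.A i : E →L[ℝ] E).comp mk4L).contDiff.comp h1)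
  hk := mk4L.contDiff.comp ((T.contDiff_pr i).prodMk ((T.contDiff_pf i).sub
    ((T.contDiff_ge M i hε).comp (T.contDiff_pr i))))
  gk := fun X => by
    unfold cg
    rw [qq_mk4, pp_mk4, sub_add_cancel]
    unfold pr pf
    rw [mk4_qq_pp]; simp
  kg := fun z => by
    have h1 : T.pr i (T.cg M i ε z) = qq z := by unfold pr cg; simp
    have h2 : T.pf i (T.cg M i ε z) = pp z + T.ge M i ε (qq z) := by unfold pf cg; simp
    rw [h1, h2, add_sub_cancel_right, mk4_qq_pp]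
  symp := fun z u v => by
    rw [T.fderiv_cg M i hε, T.fderiv_cg M i hε, T.symp, om_mk4]
    have h := gr_hess (T.contDiff_Ge M i ε) (qq z) (qq u) (qq v)
    rw [← T.ge_eq M i hε] at h
    simp only [dot, om, qq, pp, Prod.fst_add, Prod.snd_add] at h ⊢
    linear_combination h

lemma sch_k (i : ι) {ε : ℝ} (hε : 0 < ε) (X : E) :
    ((T.sch M i hε).k X 1 = 0 ∧ (T.sch M i hε).k X 3 = 0) ↔ T.Ph M i ε (T.pr i X) = X := by
  rw [T.Ph_pr_iff]
  show ((T.pf i X - T.ge M i ε (T.pr i X)).1 = 0 ∧ (T.pf i X - T.ge M i ε (T.pr i X)).2 = 0) ↔ _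
  rw [← sub_eq_zero (a := T.pf i X), Prod.ext_iff]
  rfl

lemma contDiff_hf (ts : ℝ) (F : ι → ℝ) (i : ι) {ε : ℝ} (hε : 0 < ε) :
    ContDiff ℝ ∞ (T.hf M ts F i ε) := by
  have c : ∀ j : Fin 4, ContDiff ℝ ∞ (fun X : E => X j) := fun j => contDiff_apply ℝ ℝ j
  have h1 : ContDiff ℝ ∞ (fun X : E => om (T.v i) X) := by
    unfold om
    exact (((contDiff_const.mul (c 1)).sub (contDiff_const.mul (c 0))).add
      (contDiff_const.mul (c 3))).sub (contDiff_const.mul (c 2))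
  unfold hf
  exact ((((contDiff_const.add (h1.div_const 2)).add
    ((T.contDiff_Kf M i hε).comp (T.contDiff_pr i))).add
    (((c 0).mul (c 1)).div_const 2)).sub (contDiff_const.mul (c 1))).sub
    (((c 2).mul (c 3)).div_const 2)

lemma fderiv_hf (ts : ℝ) (F : ι → ℝ) (i : ι) {ε : ℝ} (hε : 0 < ε) (z u : E)
    (h1 : z 1 = 0) (h3 : z 3 = 0) (hu1 : u 1 = 0) (hu3 : u 3 = 0) :
    fderiv ℝ (T.hf M ts F i ε) (T.cg M i ε z) (fderiv ℝ (T.cg M i ε) z u) =
      lamZ ts (T.cg M i ε z) (fderiv ℝ (T.cg M i ε) z u) := by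
  have hpz : ∀ s : ℝ, pp (z + s • u) = 0 := by
    intro s
    simp [pp, h1, h3, hu1, hu3]
  have hpu : pp u = 0 := by simp [pp, hu1, hu3]
  obtain ⟨q, hq⟩ : ∃ q, q = qq z := ⟨_, rfl⟩
  obtain ⟨a, ha⟩ : ∃ a, a = qq u := ⟨_, rfl⟩
  obtain ⟨b, hb⟩ : ∃ b, b = fderiv ℝ (T.ge M i ε) q a := ⟨_, rfl⟩
  obtain ⟨W, hW⟩ : ∃ W, W = fderiv ℝ (T.cg M i ε) z u := ⟨_, rfl⟩
  obtain ⟨X, hX⟩ : ∃ X, X = T.cg M i ε z := ⟨_, rfl⟩
  have hline : HasDerivAt (fun s : ℝ => z + s • u) u 0 := by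
    have := ((hasDerivAt_id (0:ℝ)).smul_const u).const_add z
    simpa using this
  have hline2 : HasDerivAt (fun s : ℝ => q + s • a) a 0 := by
    have := ((hasDerivAt_id (0:ℝ)).smul_const a).const_add q
    simpa using this
  have hγ : HasDerivAt (fun s : ℝ => T.cg M i ε (z + s • u)) W 0 := by
    have e0 : HasFDerivAt (T.cg M i ε) (fderiv ℝ (T.cg M i ε) z) (z + (0:ℝ) • u) := by
      rw [zero_smul, add_zero]; exact (T.hasFDerivAt_cg M i hε z).differentiableAt.hasFDerivAt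
    rw [hW]
    have e1 := e0.comp_hasDerivAt (0:ℝ) hline
    exact e1
  have hge : HasDerivAt (fun s : ℝ => T.ge M i ε (q + s • a)) b 0 := by
    have e0 : HasFDerivAt (T.ge M i ε) (fderiv ℝ (T.ge M i ε) q) (q + (0:ℝ) • a) := by
      rw [zero_smul, add_zero]
      exact ((T.contDiff_ge M i hε).differentiable (by simp) q).hasFDerivAt
    rw [hb]
    have e1 := e0.comp_hasDerivAt (0:ℝ) hline2
    exact e1
  have hGe : HasDerivAt (fun s : ℝ => T.Ge M i ε (q + s • a)) (dot (T.ge M i ε q) a) 0 := by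
    have e0 : HasFDerivAt (T.Ge M i ε) (fderiv ℝ (T.Ge M i ε) q) (q + (0:ℝ) • a) := by
      rw [zero_smul, add_zero]
      exact ((T.contDiff_Ge M i ε).differentiable (by simp) q).hasFDerivAt
    rw [← T.gr_Ge M i hε, ← fderiv_gr]
    have e1 := e0.comp_hasDerivAt (0:ℝ) hline2
    exact e1
  have hge1 : HasDerivAt (fun s : ℝ => (T.ge M i ε (q + s • a)).1) b.1 0 := hge.fst
  have hge2 : HasDerivAt (fun s : ℝ => (T.ge M i ε (q + s • a)).2) b.2 0 := hge.snd
  have hl1 : HasDerivAt (fun s : ℝ => (q + s • a).1) a.1 0 := hline2.fst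
  have hl2 : HasDerivAt (fun s : ℝ => (q + s • a).2) a.2 0 := hline2.snd
  have hK : HasDerivAt (fun s : ℝ => T.Kf M i ε (q + s • a))
      ((dot q b - dot (T.ge M i ε q) a) / 2) 0 := by
    have := (((hl1.mul hge1).add (hl2.mul hge2)).div_const 2).sub hGe
    refine this.congr_deriv ?_
    simp only [zero_smul, add_zero, dot]
    ring
  have hc : ∀ j : Fin 4, HasDerivAt (fun s : ℝ => T.cg M i ε (z + s • u) j) (W j) 0 := fun j =>
    (hasDerivAt_pi.1 hγ) j
  have hcomp : HasDerivAt (fun s : ℝ => T.hf M ts F i ε (T.cg M i ε (z + s • u)))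
      (fderiv ℝ (T.hf M ts F i ε) X W) 0 := by
    have e0 : HasFDerivAt (T.hf M ts F i ε) (fderiv ℝ (T.hf M ts F i ε) X)
        (T.cg M i ε (z + (0:ℝ) • u)) := by
      rw [zero_smul, add_zero, hX]
      exact ((T.contDiff_hf M ts F i hε).differentiable (by simp) _).hasFDerivAt
    have e1 := e0.comp_hasDerivAt (0:ℝ) hγ
    exact e1
  have hpr : ∀ s : ℝ, T.pr i (T.cg M i ε (z + s • u)) = q + s • a := by
    intro s
    unfold pr cg
    rw [add_sub_cancel_left, ContinuousLinearEquiv.symm_apply_apply, qq_mk4, hq, ha]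
    ext <;> simp [qq]
  have hex : HasDerivAt (fun s : ℝ => T.hf M ts F i ε (T.cg M i ε (z + s • u)))
      (om (T.v i) W / 2 + (dot q b - dot (T.ge M i ε q) a) / 2 + (W 0 * X 1 + X 0 * W 1) / 2 -
        ts * W 1 - (W 2 * X 3 + X 2 * W 3) / 2) 0 := by
    have hX0 : ∀ j : Fin 4, T.cg M i ε (z + (0:ℝ) • u) j = X j := by
      intro j; rw [zero_smul, add_zero, hX]
    have hom : HasDerivAt (fun s : ℝ => om (T.v i) (T.cg M i ε (z + s • u))) (om (T.v i) W) 0 := by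
      have := ((((hc 1).const_mul (T.v i 0)).sub ((hc 0).const_mul (T.v i 1))).add
        ((hc 3).const_mul (T.v i 2))).sub ((hc 2).const_mul (T.v i 3))
      exact this
    have h5 := (((((hom.div_const 2).const_add (F i)).add hK).add
      (((hc 0).mul (hc 1)).div_const 2)).sub ((hc 1).const_mul ts)).sub
      (((hc 2).mul (hc 3)).div_const 2)
    refine (h5.congr_deriv ?_).congr_of_eventuallyEq (Eventually.of_forall fun s => ?_)
    · rw [hX0, hX0, hX0, hX0]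
    · show T.hf M ts F i ε (T.cg M i ε (z + s • u)) = _
      unfold hf
      rw [hpr]
      rfl
  have hfin := hcomp.unique hex
  rw [← hW, ← hX, hfin]
  have hXv : X - T.v i = T.A i (mk4 q (T.ge M i ε q)) := by
    rw [hX]; unfold cg
    have := hpz 0
    rw [zero_smul, add_zero] at this
    rw [add_sub_cancel_left, this, zero_add, hq]
  have hWv : W = T.A i (mk4 a b) := by
    rw [hW, T.fderiv_cg M i hε, hpu, zero_add, hb, hq, ha]
  have ho : om (X - T.v i) W = dot q b - dot (T.ge M i ε q) a := by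
    rw [hXv, hWv, T.symp, om_mk4]
  rw [← ho]
  simp only [om, lamZ, Pi.sub_apply]
  ring

end PLS

end

end Pool.Agent.TH622
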