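import Mathlib
import Pool.Agent.TH622.GlobD

/-! The primitive on the strip. -/

open scoped ContDiff Topology
open Set Filter Metric

namespace Pool.Agent.TH622

noncomputable section

/-- bilinear form -/
def Lam (Y Z : E) : ℝ := Y 0 * Z 1 - Y 3 * Z 2

lemma Lam_add_left (a b c : E) : Lam (a + b) c = Lam a c + Lam b c := by
  simp only [Lam, Pi.add_apply]; ring
lemma Lam_add_right (a b c : E) : Lam a (b + c) = Lam a b + Lam a c := by
  simp only [Lam, Pi.add_apply]; ring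
lemma Lam_smul_left (t : ℝ) (a b : E) : Lam (t • a) b = t * Lam a b := by
  simp only [Lam, Pi.smul_apply, smul_eq_mul]; ring
lemma Lam_smul_right (t : ℝ) (a b : E) : Lam a (t • b) = t * Lam a b := by
  simp only [Lam, Pi.smul_apply, smul_eq_mul]; ring
lemma lamZ_add (ts : ℝ) (X a b : E) : lamZ ts X (a + b) = lamZ ts X a + lamZ ts X b := by
  simp only [lamZ, Pi.add_apply]; ring
lemma lamZ_smul (ts : ℝ) (X : E) (t : ℝ) (a : E) : lamZ ts X (t • a) = t * lamZ ts X a := by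
  simp only [lamZ, Pi.smul_apply, smul_eq_mul]; ring
lemma om_Lam (a b : E) : om a b = Lam a b - Lam b a := by
  simp only [om, Lam]; ring

namespace Star

variable {J : Type} (S : Star J)

/-- hat function of a ray -/
def hat [DecidableEq J] (e : J) : P2 → ℝ := S.pl (fun j => if j = e then (1:ℝ) else 0)

lemma continuous_hat [Finite J] [DecidableEq J] (e : J) : Continuous (S.hat e) := S.continuous_pl _

lemma nx_ne (e : J) : S.nx e ≠ e := by
  intro h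
  have := S.hdet e
  rw [h, dt_self] at this
  exact lt_irrefl _ this

lemma pv_ne (e : J) : S.pv e ≠ e := by
  intro h
  apply S.nx_ne e
  conv_lhs => rw [← h]
  exact S.nx_pv e

lemma hat_eq [DecidableEq J] {e c : J} (hc : c = S.nx e ∨ c = S.pv e) {x y : ℝ}
    (hx : 0 ≤ x) (hy : 0 ≤ y) : S.hat e (x • S.r e + y • S.r c) = x := by
  unfold hat
  rcases hc with h | h <;> subst h
  · rw [S.pl_eq _ hx hy, if_pos rfl, if_neg (S.nx_ne e)]; simp
  · rw [S.pl_eq_pv _ hx hy, if_pos rfl, if_neg (S.pv_ne e)]; simp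

lemma of_hat_pos [DecidableEq J] {e j : J} {μ l : ℝ} (hμ : 0 ≤ μ) (hl : 0 ≤ l)
    (h : 0 < S.hat e (μ • S.r j + l • S.r (S.nx j))) : j = e ∨ S.nx j = e := by
  by_contra hcon
  push Not at hcon
  unfold hat at h
  rw [S.pl_eq _ hμ hl, if_neg hcon.1, if_neg hcon.2] at h
  simp at h

/-- far from the ray the sheet parameter is large -/
lemma theta_large [Finite J] {δ : ℝ} (P : Prof δ) {e : J} {x y : ℝ} (hy : 0 < y) :
    (∀ᶠ z in 𝓝[>] (0:ℝ) ×ˢ 𝓝 (x • S.r e + y • S.r (S.nx e)), ∀ s θ : ℝ,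
      z.1⁻¹ • z.2 = S.qs P e s θ → 1 ≤ θ) ∧
    (∀ᶠ z in 𝓝[>] (0:ℝ) ×ˢ 𝓝 (x • S.r e + y • S.r (S.pv e)), ∀ s θ : ℝ,
      z.1⁻¹ • z.2 = S.qs P e s θ → θ ≤ -1) := by
  have hA := S.A_pos e
  have hB := S.B_pos e
  have hc : Continuous (fun θ : ℝ => (S.B e - S.A e) * P.m θ + S.A e * θ) :=
    (continuous_const.mul P.hm.continuous).add (continuous_const.mul continuous_id)
  obtain ⟨C, hC⟩ := (isCompact_Icc (a := (-1:ℝ)) (b := 1)).exists_bound_of_continuousOn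
    hc.continuousOn
  have hpos : ∀ q : P2, ∀ᶠ z in 𝓝[>] (0:ℝ) ×ˢ 𝓝 q, 0 < z.1 := fun q => by
    have h : ∀ᶠ ε in 𝓝[>] (0:ℝ), 0 < ε := self_mem_nhdsWithin
    exact h.prod_inl _
  have hlt : ∀ (q : P2) {c : ℝ}, 0 < c → ∀ᶠ z in 𝓝[>] (0:ℝ) ×ˢ 𝓝 q, z.1 < c := fun q c hc => by
    have h : ∀ᶠ ε in 𝓝[>] (0:ℝ), ε < c := (gt_mem_nhds hc).filter_mono nhdsWithin_le_nhds
    exact h.prod_inl _
  have hcd : Continuous (fun q : P2 => dt (S.r e) q) := continuous_dt_right _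
  constructor
  · have h0 : dt (S.r e) (x • S.r e + y • S.r (S.nx e)) = y * S.B e := by
      rw [dt_add_right, dt_smul_right, dt_smul_right, dt_self]
      show x * 0 + y * S.B e = _
      ring
    have h1 : ∀ᶠ z in 𝓝[>] (0:ℝ) ×ˢ 𝓝 (x • S.r e + y • S.r (S.nx e)),
        y * S.B e / 2 < dt (S.r e) z.2 :=
      (hcd.continuousAt.eventually (lt_mem_nhds (by
        show y * S.B e / 2 < dt (S.r e) _
        rw [h0]; nlinarith [mul_pos hy hB]))).prod_inr _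
    filter_upwards [hpos _, hlt _ (show 0 < y * S.B e / 2 / (|C| + 1) by positivity), h1] with
      z h2 h3 h4 s θ h5
    by_contra hcon
    push Not at hcon
    have h6 := S.dt_qs P e s θ
    rw [← h5, dt_smul_right] at h6
    have h7 : |C| + 1 < z.1⁻¹ * dt (S.r e) z.2 := by
      rw [lt_div_iff₀ (by positivity)] at h3
      rw [inv_mul_eq_div, lt_div_iff₀ h2]
      linarith
    rcases le_total θ (-1) with h | h
    · rw [P.m_neg _ h] at h6
      nlinarith [abs_nonneg C]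
    · have h8 := hC θ ⟨h, hcon.le⟩
      rw [Real.norm_eq_abs] at h8
      have h9 := (le_abs_self _).trans h8
      linarith [le_abs_self C]
  · have h0 : dt (S.r e) (x • S.r e + y • S.r (S.pv e)) = -(y * S.A e) := by
      rw [dt_add_right, dt_smul_right, dt_smul_right, dt_self, dt_swap]
      unfold A
      ring
    have h1 : ∀ᶠ z in 𝓝[>] (0:ℝ) ×ˢ 𝓝 (x • S.r e + y • S.r (S.pv e)),
        dt (S.r e) z.2 < -(y * S.A e / 2) :=
      (hcd.continuousAt.eventually (gt_mem_nhds (by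
        show dt (S.r e) _ < -(y * S.A e / 2)
        rw [h0]; nlinarith [mul_pos hy hA]))).prod_inr _
    filter_upwards [hpos _, hlt _ (show 0 < y * S.A e / 2 / (|C| + 1) by positivity), h1] with
      z h2 h3 h4 s θ h5
    by_contra hcon
    push Not at hcon
    have h6 := S.dt_qs P e s θ
    rw [← h5, dt_smul_right] at h6
    have h7 : z.1⁻¹ * dt (S.r e) z.2 < -(|C| + 1) := by
      rw [lt_div_iff₀ (by positivity)] at h3
      rw [inv_mul_eq_div, div_lt_iff₀ h2]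
      linarith
    rcases le_total 1 θ with h | h
    · rw [P.m_pos _ h] at h6
      nlinarith [abs_nonneg C]
    · have h8 := hC θ ⟨hcon.le, h⟩
      rw [Real.norm_eq_abs] at h8
      have h9 := (neg_le_abs _).trans h8
      linarith [le_abs_self C]

end Star

namespace PLS

variable {ι : Type} (T : PLS ι) {δ : ℝ} {P : Prof δ} (M : ∀ i, Sm (T.S i) P)

def u (i : ι) (e : T.J i) : E := T.v (T.nb i e) - T.v i

/-- value of the primitive at a vertex -/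
def Hv (ts : ℝ) (F : ι → ℝ) (i : ι) : ℝ :=
  F i + T.v i 0 * T.v i 1 / 2 - ts * T.v i 1 - T.v i 2 * T.v i 3 / 2

/-- triangles on which the primitive form vanishes -/
structure FlatTri (ts : ℝ) (F : ι → ℝ) (i : ι) (e c : T.J i) : Prop where
  h0 : T.Hv ts F i = 0
  h1 : lamZ ts (T.v i) (T.u i e) = 0
  h2 : lamZ ts (T.v i) (T.u i c) = 0
  h3 : Lam (T.u i e) (T.u i e) = 0
  h4 : Lam (T.u i e) (T.u i c) = 0
  h5 : Lam (T.u i c) (T.u i e) = 0
  h6 : Lam (T.u i c) (T.u i c) = 0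

lemma FlatTri.symm {ts : ℝ} {F : ι → ℝ} {i : ι} {e c : T.J i} (h : T.FlatTri ts F i e c) :
    T.FlatTri ts F i c e := ⟨h.h0, h.h2, h.h1, h.h6, h.h5, h.h4, h.h3⟩

lemma hf_sheet (ts : ℝ) (F : ι → ℝ) (i : ι) (e : T.J i) (ε s θ : ℝ) (hε : 0 < ε)
    (hc : (T.S i).Cone e 3 (M i).K ((T.S i).qs P e s θ)) :
    T.hf M ts F i ε (T.Ph M i ε (ε • (T.S i).qs P e s θ)) =
      T.Hv ts F i + lamZ ts (T.v i) (ε • (s • T.u i e + (P.m θ - θ) • T.u i ((T.S i).pv e) +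
        P.m θ • T.u i ((T.S i).nx e))) +
      Lam (ε • (s • T.u i e + (P.m θ - θ) • T.u i ((T.S i).pv e) +
        P.m θ • T.u i ((T.S i).nx e))) (ε • (s • T.u i e + (P.m θ - θ) • T.u i ((T.S i).pv e) +
        P.m θ • T.u i ((T.S i).nx e))) / 2 -
      ε ^ 2 * (Lam (T.u i ((T.S i).pv e)) (T.u i ((T.S i).nx e)) -
        Lam (T.u i ((T.S i).nx e)) (T.u i ((T.S i).pv e))) * (θ * P.m θ / 2 - P.k θ) := by
  unfold hf Hv
  rw [pr_Ph, T.Kf_sheet M i e ε s θ hε hc, T.sheet M i e ε s θ hε hc]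
  have h1 : ∀ e, T.v (T.nb i e) - T.v i = T.u i e := fun _ => rfl
  rw [h1, h1, h1, om_Lam (T.u i ((T.S i).pv e))]
  obtain ⟨Y, hY⟩ : ∃ Y, Y = ε • (s • T.u i e + (P.m θ - θ) • T.u i ((T.S i).pv e) +
        P.m θ • T.u i ((T.S i).nx e)) := ⟨_, rfl⟩
  rw [← hY]
  simp only [om, lamZ, Lam, Pi.add_apply]
  ring

/-- the fold function -/
def gf (P : Prof δ) (i : ι) (e : T.J i) (θ : ℝ) : ℝ :=
  Lam (T.u i ((T.S i).pv e)) (T.u i ((T.S i).nx e)) * (P.m θ ^ 2 / 2 - θ * P.m θ + P.k θ) +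
  Lam (T.u i ((T.S i).nx e)) (T.u i ((T.S i).pv e)) * (P.m θ ^ 2 / 2 - P.k θ)

lemma gf_zero {i : ι} {e : T.J i} {θ : ℝ} (h : 1 ≤ |θ|) : T.gf P i e θ = 0 := by
  unfold gf
  rcases le_abs.1 h with h | h
  · rw [P.m_pos _ h, P.k_pos _ h]; ring
  · rw [P.m_neg _ (by linarith), P.k_neg _ (by linarith)]; ring

lemma contDiff_gf (i : ι) (e : T.J i) : ContDiff ℝ ∞ (T.gf P i e) := by
  have h1 := P.hm
  have h2 := P.hk
  unfold gf
  exact (contDiff_const.mul ((((h1.pow 2).div_const 2).sub (contDiff_id.mul h1)).add h2)).add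
    (contDiff_const.mul (((h1.pow 2).div_const 2).sub h2))

lemma hf_flat {ts : ℝ} {F : ι → ℝ} {i : ι} {e : T.J i} {ε s θ : ℝ} (hε : 0 < ε)
    (hc : (T.S i).Cone e 3 (M i).K ((T.S i).qs P e s θ))
    (f1 : T.FlatTri ts F i e ((T.S i).nx e)) (f2 : T.FlatTri ts F i e ((T.S i).pv e)) :
    T.hf M ts F i ε (T.Ph M i ε (ε • (T.S i).qs P e s θ)) = ε ^ 2 * T.gf P i e θ := by
  rw [T.hf_sheet M ts F i e ε s θ hε hc]
  simp only [lamZ_add, lamZ_smul, Lam_add_left, Lam_add_right, Lam_smul_left, Lam_smul_right,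
    f1.h0, f1.h1, f1.h2, f1.h3, f1.h4, f1.h5, f1.h6, f2.h2, f2.h4, f2.h5, f2.h6]
  unfold gf
  ring

lemma hf_flat_pos {ts : ℝ} {F : ι → ℝ} {i : ι} {e : T.J i} {ε s θ : ℝ} (hε : 0 < ε)
    (hc : (T.S i).Cone e 3 (M i).K ((T.S i).qs P e s θ)) (hθ : 1 ≤ θ)
    (f1 : T.FlatTri ts F i e ((T.S i).nx e)) :
    T.hf M ts F i ε (T.Ph M i ε (ε • (T.S i).qs P e s θ)) = 0 := by
  rw [T.hf_sheet M ts F i e ε s θ hε hc, P.m_pos _ hθ, P.k_pos _ hθ]
  simp only [lamZ_add, lamZ_smul, Lam_add_left, Lam_add_right, Lam_smul_left, Lam_smul_right,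
    f1.h0, f1.h1, f1.h2, f1.h3, f1.h4, f1.h5, f1.h6]
  ring

lemma hf_flat_neg {ts : ℝ} {F : ι → ℝ} {i : ι} {e : T.J i} {ε s θ : ℝ} (hε : 0 < ε)
    (hc : (T.S i).Cone e 3 (M i).K ((T.S i).qs P e s θ)) (hθ : θ ≤ -1)
    (f1 : T.FlatTri ts F i e ((T.S i).pv e)) :
    T.hf M ts F i ε (T.Ph M i ε (ε • (T.S i).qs P e s θ)) = 0 := by
  rw [T.hf_sheet M ts F i e ε s θ hε hc, P.m_neg _ hθ, P.k_neg _ hθ]
  simp only [lamZ_add, lamZ_smul, Lam_add_left, Lam_add_right, Lam_smul_left, Lam_smul_right,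
    f1.h0, f1.h1, f1.h2, f1.h3, f1.h4, f1.h5, f1.h6]
  ring

end PLS

end

end Pool.Agent.TH622
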