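import Mathlib
import Pool.Agent.TH622.GlobE

/-! The wall condition. -/

open scoped ContDiff Topology
open Set Filter Metric

namespace Pool.Agent.TH622

noncomputable section

lemma pi3_sub (X Y : E) : pi3 (X - Y) = pi3 X - pi3 Y := by
  rw [← pi3L_apply, map_sub]; rfl

lemma pi3_add (X Y : E) : pi3 (X + Y) = pi3 X + pi3 Y := by
  rw [← pi3L_apply, map_add]; rfl

lemma pi3_smul (t : ℝ) (X : E) : pi3 (t • X) = t • pi3 X := by
  rw [← pi3L_apply, map_smul]; rfl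

lemma continuous_pi3 : Continuous pi3 := pi3L.continuous

namespace PLS

variable {ι : Type} (T : PLS ι) {δ : ℝ} {P : Prof δ} (M : ∀ i, Sm (T.S i) P)

/-- Nonflat edges -/
structure NF (ell : ∀ i, T.J i → (ℝ × ℝ × ℝ →L[ℝ] ℝ)) (a tK : ℝ) (i : ι) (e : T.J i) : Prop where
  l0 : ell i e (pi3 (T.u i e)) = 0
  l1 : ell i e (pi3 (T.u i ((T.S i).pv e))) = -1
  l2 : ell i e (pi3 (T.u i ((T.S i).nx e))) = 1
  W : ∀ x : ℝ, 0 ≤ x → x ≤ 1 → a ≤ (T.v i + x • T.u i e) 0 → (T.v i + x • T.u i e) 0 ≤ tK →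
    ∀ (i' : ι) (j' : T.J i') (μ l : ℝ), 0 ≤ μ → 0 ≤ l → μ + l ≤ 3 / 4 →
      pi3 (T.v i' + (μ • T.u i' j' + l • T.u i' ((T.S i').nx j'))) = pi3 (T.v i + x • T.u i e) →
      T.v i' + (μ • T.u i' j' + l • T.u i' ((T.S i').nx j')) = T.v i + x • T.u i e

/-- Data of the wall. -/
structure Wall (F : ι → ℝ) (Cp : Set ι) (ts a tK b : ℝ) where
  haK : a < tK
  hKb : tK < b
  hF : ∀ i ∈ Cp, ∀ e, T.nb i e ∈ Cp → F (T.nb i e) - F i = om (T.v i) (T.v (T.nb i e)) / 2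
  hCp : ∀ i, i ∉ Cp → b < T.v i 0 ∧ ∀ e, b < T.v (T.nb i e) 0
  hv : ∀ i, T.v i 0 < a ∨ tK < T.v i 0
  flat : ∀ i e, ∀ x y : ℝ, 0 ≤ x → 0 ≤ y → x + y ≤ 1 →
    a ≤ (T.v i + (x • T.u i e + y • T.u i ((T.S i).nx e))) 0 →
    (T.v i + (x • T.u i e + y • T.u i ((T.S i).nx e))) 0 ≤ tK →
    T.FlatTri ts F i e ((T.S i).nx e)
  ell : ∀ i, T.J i → (ℝ × ℝ × ℝ →L[ℝ] ℝ)
  ed : ∀ i e, ∀ x : ℝ, 0 ≤ x → x ≤ 1 → a ≤ (T.v i + x • T.u i e) 0 →
    (T.v i + x • T.u i e) 0 ≤ tK →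
    (Lam (T.u i ((T.S i).pv e)) (T.u i ((T.S i).nx e)) = 0 ∧
      Lam (T.u i ((T.S i).nx e)) (T.u i ((T.S i).pv e)) = 0) ∨ T.NF ell a tK i e

lemma coin_loc_hf {i i' : ι} {q q' : P2} (hq : q ∈ T.D i) (hq' : q' ∈ T.D i')
    (h : T.Ph0 i q = T.Ph0 i' q') (hne : i ≠ i') (ts : ℝ) (F : ι → ℝ) (Cp : Set ι)
    (hF : ∀ i ∈ Cp, ∀ e, T.nb i e ∈ Cp → F (T.nb i e) - F i = om (T.v i) (T.v (T.nb i e)) / 2)
    (c1 : i ∈ Cp) (c2 : i' ∈ Cp) :
    ∀ᶠ z in Fi q', T.Ph M i z.1 (T.pr i (T.Ph M i' z.1 z.2)) = T.Ph M i' z.1 z.2 ∧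
      T.hf M ts F i z.1 (T.Ph M i' z.1 z.2) = T.hf M ts F i' z.1 (T.Ph M i' z.1 z.2) := by
  obtain ⟨e', he', h1⟩ := T.coin_loc M hq hq' h hne
  filter_upwards [h1] with z hz
  refine ⟨hz.1, ?_⟩
  have hF1 := hF i' c2 e' (by rw [he']; exact c1)
  rw [he'] at hF1
  unfold hf
  have h2 := hz.2.1
  have h3 := hz.2.2
  rw [h2, pr_Ph]
  have h4 : om (T.v i) (T.Ph M i' z.1 z.2) - om (T.v i') (T.Ph M i' z.1 z.2) =
      om (T.v i) (T.v i') := by
    rw [← om_sub_left]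
    have : om (T.v i - T.v i') (T.Ph M i' z.1 z.2) = om (T.v i - T.v i') (T.v i') := by
      rw [om_sub_right] at h3; linarith
    rw [this, om_sub_left, om_self, sub_zero]
  have h5 := om_swap (T.v i') (T.v i)
  linarith

variable {F : ι → ℝ} {Cp : Set ι} {ts a tK b : ℝ} (W : T.Wall F Cp ts a tK b)

/-- local primitive on the projected edge sheet -/
def Fe (P : Prof δ) (ell : ∀ i, T.J i → (ℝ × ℝ × ℝ →L[ℝ] ℝ)) (i : ι) (e : T.J i) (ε : ℝ)
    (w : ℝ × ℝ × ℝ) : ℝ :=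
  ε ^ 2 * T.gf P i e (ell i e (w - pi3 (T.v i)) / ε)

lemma contDiff_Fe (ell : ∀ i, T.J i → (ℝ × ℝ × ℝ →L[ℝ] ℝ)) (i : ι) (e : T.J i) (ε : ℝ) :
    ContDiff ℝ ∞ (T.Fe P ell i e ε) := by
  unfold Fe
  exact contDiff_const.mul ((T.contDiff_gf i e).comp
    (((ell i e).contDiff.comp (contDiff_id.sub contDiff_const)).div_const ε))

lemma W_edge {ell : ∀ i, T.J i → (ℝ × ℝ × ℝ →L[ℝ] ℝ)} {i : ι} {e : T.J i}
    (f1 : T.FlatTri ts F i e ((T.S i).nx e)) (f2 : T.FlatTri ts F i e ((T.S i).pv e))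
    (hN : T.NF ell a tK i e) {q : P2} {x : ℝ} (hx : 0 < x) (h : (T.S i).Cone e 2 x q) :
    ∀ᶠ z in Fi q, T.hf M ts F i z.1 (T.Ph M i z.1 z.2) =
      T.Fe P ell i e z.1 (pi3 (T.Ph M i z.1 z.2)) := by
  filter_upwards [T.cone_ev M hx h] with z hz
  obtain ⟨hε, hc⟩ := hz
  obtain ⟨s, θ, hs⟩ := (M i).surj e (z.1⁻¹ • z.2)
  have hz2 : z.2 = z.1 • (T.S i).qs P e s θ := by
    rw [← hs, smul_smul, mul_inv_cancel₀ hε.ne', one_smul]
  rw [hs] at hc
  rw [hz2, T.hf_flat M hε hc f1 f2]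
  unfold Fe
  have h1 : ell i e (pi3 (T.Ph M i z.1 (z.1 • (T.S i).qs P e s θ)) - pi3 (T.v i)) = z.1 * θ := by
    rw [← pi3_sub, T.sheet M i e z.1 s θ hε hc, add_sub_cancel_left]
    have h2 : ∀ e, T.v (T.nb i e) - T.v i = T.u i e := fun _ => rfl
    rw [h2, h2, h2]
    simp only [pi3_add, pi3_smul]
    rw [map_smul, map_add, map_add, map_smul, map_smul, map_smul, hN.l0, hN.l1, hN.l2]
    simp only [smul_eq_mul]; ring
  rw [h1, mul_div_cancel_left₀ _ hε.ne']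

include W in
lemma exists_x0 [Finite ι] : ∃ x0 : ℝ, 0 < x0 ∧ ∀ (i : ι) (e : T.J i) (x : ℝ), 0 ≤ x →
    a ≤ (T.v i + x • T.u i e) 0 → (T.v i + x • T.u i e) 0 ≤ tK → 2 * x0 ≤ x := by
  obtain ⟨b, hb0, hb⟩ := exists_lb (J := Σ i, T.J i)
    (fun y => max (a - T.v y.1 0) (T.v y.1 0 - tK) / (|T.u y.1 y.2 0| + 1))
    (fun y => by
      apply div_pos _ (by positivity)
      rcases W.hv y.1 with h | h
      · exact lt_max_of_lt_left (by linarith)
      · exact lt_max_of_lt_right (by linarith))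
  refine ⟨b / 2, by positivity, fun i e x hx h1 h2 => ?_⟩
  have h3 := hb ⟨i, e⟩
  simp only at h3
  have h4 : max (a - T.v i 0) (T.v i 0 - tK) ≤ x * (|T.u i e 0| + 1) := by
    simp only [Pi.add_apply, Pi.smul_apply, smul_eq_mul] at h1 h2
    have h5 : |x * T.u i e 0| = x * |T.u i e 0| := by rw [abs_mul, abs_of_nonneg hx]
    have h6 := le_abs_self (x * T.u i e 0)
    have h7 := neg_le_abs (x * T.u i e 0)
    apply max_le <;> nlinarith
  have h5 : max (a - T.v i 0) (T.v i 0 - tK) / (|T.u i e 0| + 1) ≤ x := by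
    rw [div_le_iff₀ (by positivity)]; exact h4
  linarith

/-- the local alternative -/
def Alt [∀ i, DecidableEq (T.J i)] (x0 : ℝ) (i : ι) (ε : ℝ) (q : P2) : Prop :=
  (∀ᶠ q'' in 𝓝 q, T.hf M ts F i ε (T.Ph M i ε q'') = 0) ∨
  ∃ e, T.NF W.ell a tK i e ∧ T.FlatTri ts F i e ((T.S i).nx e) ∧
    T.FlatTri ts F i e ((T.S i).pv e) ∧ x0 ≤ (T.S i).hat e q ∧
    |W.ell i e (pi3 (T.Ph M i ε q) - pi3 (T.v i))| ≤ ε

lemma alt_of_pos [∀ i, DecidableEq (T.J i)] {x0 : ℝ} {i : ι} {e : T.J i} {x y : ℝ}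
    (hx : 0 < x) (hy : 0 < y) (hyx : y ≤ x) :
    (T.FlatTri ts F i e ((T.S i).nx e) →
    ∀ᶠ z in Fi (x • (T.S i).r e + y • (T.S i).r ((T.S i).nx e)), T.Alt M W x0 i z.1 z.2) ∧
    (T.FlatTri ts F i e ((T.S i).pv e) →
    ∀ᶠ z in Fi (x • (T.S i).r e + y • (T.S i).r ((T.S i).pv e)), T.Alt M W x0 i z.1 z.2) := by
  constructor
  · intro f1
    have h1 := T.cone_ev M hx (T.cone_mem (i := i) (e := e) (Or.inl rfl) hy.le
      (show y ≤ 2 * x by linarith))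
    have h2 := ((T.S i).theta_large P (e := e) (x := x) hy).1
    have h3 : ∀ᶠ z in Fi (x • (T.S i).r e + y • (T.S i).r ((T.S i).nx e)),
        T.hf M ts F i z.1 (T.Ph M i z.1 z.2) = 0 := by
      filter_upwards [h1, h2] with z hz hz2
      obtain ⟨hε, hc⟩ := hz
      obtain ⟨s, θ, hs⟩ := (M i).surj e (z.1⁻¹ • z.2)
      have hz3 : z.2 = z.1 • (T.S i).qs P e s θ := by
        rw [← hs, smul_smul, mul_inv_cancel₀ hε.ne', one_smul]
      have hθ := hz2 s θ hs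
      rw [hs] at hc
      rw [hz3]
      exact T.hf_flat_pos M hε hc hθ f1
    filter_upwards [Fi_ev_ev h3] with z hz
    exact Or.inl hz
  · intro f1
    have h1 := T.cone_ev M hx (T.cone_mem (i := i) (e := e) (Or.inr rfl) hy.le
      (show y ≤ 2 * x by linarith))
    have h2 := ((T.S i).theta_large P (e := e) (x := x) hy).2
    have h3 : ∀ᶠ z in Fi (x • (T.S i).r e + y • (T.S i).r ((T.S i).pv e)),
        T.hf M ts F i z.1 (T.Ph M i z.1 z.2) = 0 := by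
      filter_upwards [h1, h2] with z hz hz2
      obtain ⟨hε, hc⟩ := hz
      obtain ⟨s, θ, hs⟩ := (M i).surj e (z.1⁻¹ • z.2)
      have hz3 : z.2 = z.1 • (T.S i).qs P e s θ := by
        rw [← hs, smul_smul, mul_inv_cancel₀ hε.ne', one_smul]
      have hθ := hz2 s θ hs
      rw [hs] at hc
      rw [hz3]
      exact T.hf_flat_neg M hε hc hθ f1
    filter_upwards [Fi_ev_ev h3] with z hz
    exact Or.inl hz

lemma alt_of_ray [∀ i, DecidableEq (T.J i)] {x0 : ℝ} {i : ι} {e : T.J i} {x : ℝ}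
    (hx : 0 < x) (hx0 : 0 < x0) (hxx : 2 * x0 ≤ x) (hx1 : x ≤ 1)
    (h1 : a ≤ (T.v i + x • T.u i e) 0) (h2 : (T.v i + x • T.u i e) 0 ≤ tK)
    (f1 : T.FlatTri ts F i e ((T.S i).nx e)) (f2 : T.FlatTri ts F i e ((T.S i).pv e)) :
    ∀ᶠ z in Fi (x • (T.S i).r e), T.Alt M W x0 i z.1 z.2 := by
  have hcone : (T.S i).Cone e 2 x (x • (T.S i).r e) :=
    ⟨x, 0, le_rfl, by linarith, le_rfl, Or.inl (by simp)⟩
  rcases W.ed i e x hx.le hx1 h1 h2 with ⟨g1, g2⟩ | hN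
  · have h3 : ∀ᶠ z in Fi (x • (T.S i).r e), T.hf M ts F i z.1 (T.Ph M i z.1 z.2) = 0 := by
      filter_upwards [T.cone_ev M hx hcone] with z hz
      obtain ⟨hε, hc⟩ := hz
      obtain ⟨s, θ, hs⟩ := (M i).surj e (z.1⁻¹ • z.2)
      have hz3 : z.2 = z.1 • (T.S i).qs P e s θ := by
        rw [← hs, smul_smul, mul_inv_cancel₀ hε.ne', one_smul]
      rw [hs] at hc
      rw [hz3, T.hf_flat M hε hc f1 f2]
      unfold gf
      rw [g1, g2]; ring
    filter_upwards [Fi_ev_ev h3] with z hz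
    exact Or.inl hz
  · have h3 := T.W_edge M f1 f2 hN hx hcone
    have h4 : ∀ᶠ z in Fi (x • (T.S i).r e), x0 ≤ (T.S i).hat e z.2 := by
      have h5 : (T.S i).hat e (x • (T.S i).r e) = x := by
        have := (T.S i).hat_eq (e := e) (Or.inl rfl) hx.le (le_refl (0:ℝ))
        rw [zero_smul, add_zero] at this
        exact this
      have h6 : ∀ᶠ q in 𝓝 (x • (T.S i).r e), x0 < (T.S i).hat e q :=
        ((T.S i).continuous_hat e).continuousAt.eventually (lt_mem_nhds (by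
          rw [h5]; linarith))
      exact (h6.mono fun _ h => h.le).prod_inr _
    filter_upwards [Fi_ev_ev h3, h4, ev_pos (x • (T.S i).r e)] with z hz hz4 hε
    by_cases hc : |W.ell i e (pi3 (T.Ph M i z.1 z.2) - pi3 (T.v i))| ≤ z.1
    · exact Or.inr ⟨e, hN, f1, f2, hz4, hc⟩
    · push Not at hc
      left
      have hcont : Continuous (fun q'' => |W.ell i e (pi3 (T.Ph M i z.1 q'') - pi3 (T.v i))|) :=
        ((W.ell i e).continuous.comp ((continuous_pi3.comp (T.continuous_Ph M i z.1)).sub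
          continuous_const)).abs
      filter_upwards [hz, hcont.continuousAt.eventually (lt_mem_nhds hc)] with q'' h7 h8
      rw [h7]
      unfold Fe
      rw [T.gf_zero, mul_zero]
      rw [abs_div, abs_of_pos hε, le_div_iff₀ hε]
      linarith

lemma alt_loc [∀ i, DecidableEq (T.J i)] {x0 : ℝ} (hx0 : 0 < x0)
    (hx : ∀ (i : ι) (e : T.J i) (x : ℝ), 0 ≤ x →
    a ≤ (T.v i + x • T.u i e) 0 → (T.v i + x • T.u i e) 0 ≤ tK → 2 * x0 ≤ x) {i : ι} {q : P2}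
    (hq : q ∈ T.D i) : ∀ᶠ z in Fi q, a ≤ (T.Ph M i z.1 z.2) 0 → (T.Ph M i z.1 z.2) 0 ≤ tK →
      T.Alt M W x0 i z.1 z.2 := by
  by_cases ht : (T.Ph0 i q) 0 ∈ Icc a tK
  · have main : ∀ᶠ z in Fi q, T.Alt M W x0 i z.1 z.2 := by
      obtain ⟨j, μ, l, h1, h2, h3, h4⟩ := T.repr_D hq
      have e1 := T.Ph0_eq (i := i) (e := j) (c := (T.S i).nx j) (Or.inl rfl) h1 h2
      rw [← h4] at e1
      have e2 : T.Ph0 i q = T.v i + (μ • T.u i j + l • T.u i ((T.S i).nx j)) := e1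
      have hfl := W.flat i j μ l h1 h2 (by linarith) (by rw [← e2]; exact ht.1)
        (by rw [← e2]; exact ht.2)
      rcases h1.eq_or_lt with hμ0 | hμ0
      · rcases h2.eq_or_lt with hl0 | hl0
        · exfalso
          rw [← hμ0, ← hl0, zero_smul, zero_smul, add_zero, add_zero] at e2
          rw [e2] at ht
          rcases W.hv i with h | h
          · linarith [ht.1]
          · linarith [ht.2]
        · -- ray nx j
          have hqr : q = l • (T.S i).r ((T.S i).nx j) := by rw [h4, ← hμ0]; simp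
          rw [← hμ0, zero_smul, zero_add] at e2
          rw [e2] at ht
          rw [hqr]
          have hfl2 := W.flat i ((T.S i).nx j) l 0 h2 le_rfl (by linarith)
            (by simpa using ht.1) (by simpa using ht.2)
          refine T.alt_of_ray M W hl0 hx0 (hx i _ l h2 ht.1 ht.2) (by linarith) ht.1 ht.2 hfl2 ?_
          rw [(T.S i).pv_nx]; exact hfl.symm
      · rcases h2.eq_or_lt with hl0 | hl0
        · have hqr : q = μ • (T.S i).r j := by rw [h4, ← hl0]; simp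
          rw [← hl0, zero_smul, add_zero] at e2
          rw [e2] at ht
          rw [hqr]
          have hfl2 := W.flat i ((T.S i).pv j) 0 μ le_rfl h1 (by linarith)
            (by rw [(T.S i).nx_pv]; simpa using ht.1) (by rw [(T.S i).nx_pv]; simpa using ht.2)
          rw [(T.S i).nx_pv] at hfl2
          exact T.alt_of_ray M W hμ0 hx0 (hx i _ μ h1 ht.1 ht.2) (by linarith) ht.1 ht.2 hfl
            hfl2.symm
        · rcases le_total l μ with hlm | hlm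
          · rw [h4]
            exact (T.alt_of_pos M W hμ0 hl0 hlm).1 hfl
          · have h5 : q = l • (T.S i).r ((T.S i).nx j) +
                μ • (T.S i).r ((T.S i).pv ((T.S i).nx j)) := by
              rw [(T.S i).pv_nx, add_comm]; exact h4
            rw [h5]
            refine (T.alt_of_pos M W hl0 hμ0 hlm).2 ?_
            rw [(T.S i).pv_nx]; exact hfl.symm
    filter_upwards [main] with z hz _ _
    exact hz
  · have hc : Continuous (fun X : E => X 0) := continuous_apply 0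
    have h1 := (hc.tendsto _).comp (T.tendsto_Ph M i q)
    have h2 := h1.eventually (isClosed_Icc.isOpen_compl.mem_nhds ht)
    filter_upwards [h2] with z hz h3 h4
    exact absurd ⟨h3, h4⟩ hz

end PLS

end

end Pool.Agent.TH622
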