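import Mathlib
import Pool.Agent.TH622.GlobF

/-! The wall condition, continued. -/

open scoped ContDiff Topology
open Set Filter Metric

namespace Pool.Agent.TH622

noncomputable section

namespace PLS

variable {ι : Type} (T : PLS ι) {δ : ℝ} {P : Prof δ} (M : ∀ i, Sm (T.S i) P)
variable {F : ι → ℝ} {Cp : Set ι} {ts a tK b : ℝ} (W : T.Wall F Cp ts a tK b)

lemma Ph0_repr {i : ι} {j : T.J i} {μ l : ℝ} (h1 : 0 ≤ μ) (h2 : 0 ≤ l) :
    T.Ph0 i (μ • (T.S i).r j + l • (T.S i).r ((T.S i).nx j)) =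
      T.v i + (μ • T.u i j + l • T.u i ((T.S i).nx j)) :=
  T.Ph0_eq (Or.inl rfl) h1 h2

include W in
lemma Ph0_notCp {i : ι} (hi : i ∉ Cp) {q : P2} (hq : q ∈ T.D i) : b < (T.Ph0 i q) 0 := by
  obtain ⟨j, μ, l, h1, h2, h3, h4⟩ := T.repr_D hq
  obtain ⟨g1, g2⟩ := W.hCp i hi
  rw [h4, T.Ph0_repr h1 h2]
  have e1 := g2 j
  have e2 := g2 ((T.S i).nx j)
  simp only [u, Pi.add_apply, Pi.smul_apply, Pi.sub_apply, smul_eq_mul]
  nlinarith [mul_nonneg h1 (sub_nonneg.2 e1.le), mul_nonneg h2 (sub_nonneg.2 e2.le)]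

include W in
lemma ev_Cp [Finite ι] : ∀ᶠ ε in 𝓝[>] (0:ℝ), ∀ i, i ∉ Cp → ∀ q ∈ T.D i, b < (T.Ph M i ε q) 0 := by
  rw [eventually_all]; intro i
  by_cases hi : i ∈ Cp
  · exact Eventually.of_forall fun ε h => absurd hi h
  have := ev_forall_compact (l := 𝓝[>] (0:ℝ)) (T.compact_D i)
    (p := fun ε q => b < (T.Ph M i ε q) 0) (fun q hq => by
      have hc : Continuous (fun X : E => X 0) := continuous_apply 0
      have h1 := (hc.tendsto _).comp (T.tendsto_Ph M i q)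
      exact h1.eventually (lt_mem_nhds (T.Ph0_notCp W hi hq)))
  filter_upwards [this] with ε h _
  exact h

include W in
lemma w1_loc [∀ i, DecidableEq (T.J i)] {x0 : ℝ} (hx0 : 0 < x0)
    {ell : ∀ i, T.J i → (ℝ × ℝ × ℝ →L[ℝ] ℝ)} {i1 : ι} {e : T.J i1}
    (hN : T.NF ell a tK i1 e)
    (f1 : T.FlatTri ts F i1 e ((T.S i1).nx e)) (f2 : T.FlatTri ts F i1 e ((T.S i1).pv e))
    {i2 : ι} {q1 q2 : P2} (hq1 : q1 ∈ T.D i1) (hq2 : q2 ∈ T.D i2) :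
    ∀ᶠ z in 𝓝[>] (0:ℝ) ×ˢ (𝓝 q1 ×ˢ 𝓝 q2), x0 ≤ (T.S i1).hat e z.2.1 →
      |ell i1 e (pi3 (T.Ph M i1 z.1 z.2.1) - pi3 (T.v i1))| ≤ z.1 →
      a ≤ (T.Ph M i1 z.1 z.2.1) 0 → (T.Ph M i1 z.1 z.2.1) 0 ≤ tK →
      pi3 (T.Ph M i2 z.1 z.2.2) = pi3 (T.Ph M i1 z.1 z.2.1) →
      ∀ᶠ q'' in 𝓝 z.2.2, T.hf M ts F i2 z.1 (T.Ph M i2 z.1 q'') =
        T.Fe P ell i1 e z.1 (pi3 (T.Ph M i2 z.1 q'')) := by
  have p1 : Tendsto (fun z : ℝ × P2 × P2 => (z.1, z.2.1)) (𝓝[>] (0:ℝ) ×ˢ (𝓝 q1 ×ˢ 𝓝 q2)) (Fi q1) :=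
    tendsto_fst.prodMk (tendsto_fst.comp tendsto_snd)
  have p2 : Tendsto (fun z : ℝ × P2 × P2 => (z.1, z.2.2)) (𝓝[>] (0:ℝ) ×ˢ (𝓝 q1 ×ˢ 𝓝 q2)) (Fi q2) :=
    tendsto_fst.prodMk (tendsto_snd.comp tendsto_snd)
  have t1 := (T.tendsto_Ph M i1 q1).comp p1
  have t2 := (T.tendsto_Ph M i2 q2).comp p2
  by_cases c1 : x0 ≤ (T.S i1).hat e q1
  swap
  · push Not at c1
    have h1 : ∀ᶠ z in Fi q1, (T.S i1).hat e z.2 < x0 :=
      (((T.S i1).continuous_hat e).continuousAt.eventually (gt_mem_nhds c1)).prod_inr _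
    filter_upwards [p1.eventually h1] with z hz h
    exact absurd h (not_le.2 hz)
  by_cases c3 : (T.Ph0 i1 q1) 0 ∈ Icc a tK
  swap
  · have hc : Continuous (fun X : E => X 0) := continuous_apply 0
    have h2 := ((hc.tendsto _).comp t1).eventually (isClosed_Icc.isOpen_compl.mem_nhds c3)
    filter_upwards [h2] with z hz _ _ h3 h4
    exact absurd ⟨h3, h4⟩ hz
  by_cases c4 : pi3 (T.Ph0 i2 q2) = pi3 (T.Ph0 i1 q1)
  swap
  · have h2 := (((continuous_pi3.tendsto _).comp t2).prodMk_nhds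
      ((continuous_pi3.tendsto _).comp t1)).eventually
      ((isOpen_ne_fun continuous_fst continuous_snd).mem_nhds c4)
    filter_upwards [h2] with z hz _ _ _ _ h5
    exact absurd h5 hz
  by_cases c2 : ell i1 e (pi3 (T.Ph0 i1 q1) - pi3 (T.v i1)) = 0
  swap
  · have hc : Continuous (fun X : E => |ell i1 e (pi3 X - pi3 (T.v i1))|) :=
      ((ell i1 e).continuous.comp (continuous_pi3.sub continuous_const)).abs
    have h3 : 0 < |ell i1 e (pi3 (T.Ph0 i1 q1) - pi3 (T.v i1))| := abs_pos.2 c2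
    have h2 := ((hc.tendsto _).comp t1).eventually (lt_mem_nhds (half_lt_self h3))
    have h4 := p1.eventually (ev_lt q1 (half_pos h3))
    filter_upwards [h2, h4] with z hz hz2 _ h5
    simp only [Function.comp] at hz
    linarith
  -- main case
  obtain ⟨x, hx, hx1, hqx⟩ : ∃ x : ℝ, 0 < x ∧ x ≤ 3 / 4 ∧ q1 = x • (T.S i1).r e := by
    obtain ⟨j, μ, l, h1, h2, h3, h4⟩ := T.repr_D hq1
    have h5 : j = e ∨ (T.S i1).nx j = e := by
      apply (T.S i1).of_hat_pos h1 h2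
      rw [← h4]; linarith
    rcases h5 with h5 | h5
    · subst h5
      have h6 := (T.S i1).hat_eq (e := j) (Or.inl rfl) h1 h2
      rw [← h4] at h6
      have h7 : l = 0 := by
        rw [h4, T.Ph0_repr h1 h2, ← pi3_sub, add_sub_cancel_left, pi3_add, pi3_smul, pi3_smul,
          map_add, map_smul, map_smul, hN.l0, hN.l2] at c2
        simpa using c2
      exact ⟨μ, by linarith, by linarith, by rw [h4, h7]; simp⟩
    · subst h5
      have h4' : q1 = l • (T.S i1).r ((T.S i1).nx j) +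
          μ • (T.S i1).r ((T.S i1).pv ((T.S i1).nx j)) := by
        rw [(T.S i1).pv_nx, add_comm]; exact h4
      have h6 := (T.S i1).hat_eq (e := (T.S i1).nx j) (Or.inr rfl) h2 h1
      rw [← h4'] at h6
      have h7 : μ = 0 := by
        rw [h4, T.Ph0_repr h1 h2, ← pi3_sub, add_sub_cancel_left, pi3_add, pi3_smul, pi3_smul,
          map_add, map_smul, map_smul, hN.l0] at c2
        have h8 := hN.l1
        rw [(T.S i1).pv_nx] at h8
        rw [h8] at c2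
        simpa using c2
      exact ⟨l, by linarith, by linarith, by rw [h4, h7]; simp⟩
  have hPh : T.Ph0 i1 q1 = T.v i1 + x • T.u i1 e := by
    have := T.Ph0_repr (i := i1) (j := e) hx.le (le_refl (0:ℝ))
    rw [zero_smul, zero_smul, add_zero, add_zero, ← hqx] at this
    exact this
  have hPP : T.Ph0 i2 q2 = T.Ph0 i1 q1 := by
    obtain ⟨j, μ, l, h1, h2, h3, h4⟩ := T.repr_D hq2
    have h5 := T.Ph0_repr (i := i2) (j := j) h1 h2
    rw [← h4] at h5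
    rw [hPh] at c3 c4 ⊢
    rw [h5] at c4 ⊢
    exact hN.W x hx.le (by linarith) c3.1 c3.2 i2 j μ l h1 h2 h3 c4
  have hedge : ∀ᶠ z in Fi q1, T.hf M ts F i1 z.1 (T.Ph M i1 z.1 z.2) =
      T.Fe P ell i1 e z.1 (pi3 (T.Ph M i1 z.1 z.2)) := by
    apply T.W_edge M f1 f2 hN hx
    rw [hqx]
    exact ⟨x, 0, le_rfl, by linarith, le_rfl, Or.inl (by simp)⟩
  by_cases h12 : i1 = i2
  · subst h12
    have hqq : q2 = q1 := by
      have := congrArg (T.pr i1) hPP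
      rwa [pr_Ph0, pr_Ph0] at this
    rw [hqq] at p2 ⊢
    filter_upwards [p2.eventually (Fi_ev_ev hedge)] with z hz _ _ _ _ _
    exact hz
  · have m1 : i1 ∈ Cp := by
      by_contra h
      have := T.Ph0_notCp W h hq1
      linarith [c3.2, W.hKb]
    have m2 : i2 ∈ Cp := by
      by_contra h
      have := T.Ph0_notCp W h hq2
      rw [hPP] at this
      linarith [c3.2, W.hKb]
    have h1 := T.coin_loc_hf M hq1 hq2 hPP.symm h12 ts F Cp W.hF m1 m2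
    have ht2 : Tendsto (fun z : ℝ × P2 => (z.1, T.pr i1 (T.Ph M i2 z.1 z.2))) (Fi q2) (Fi q1) := by
      refine tendsto_fst.prodMk ?_
      have h2 := ((T.continuous_pr i1).tendsto _).comp (T.tendsto_Ph M i2 q2)
      rw [hPP, pr_Ph0] at h2
      exact h2
    have h2 : ∀ᶠ z in Fi q2, T.hf M ts F i2 z.1 (T.Ph M i2 z.1 z.2) =
        T.Fe P ell i1 e z.1 (pi3 (T.Ph M i2 z.1 z.2)) := by
      filter_upwards [h1, ht2.eventually hedge] with z h3 h4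
      rw [h3.1] at h4
      rw [← h3.2, h4]
    filter_upwards [p2.eventually (Fi_ev_ev h2)] with z hz _ _ _ _ _
    exact hz

/-- The wall property for a given parameter. -/
def WP (ts : ℝ) (F : ι → ℝ) (a tK ε : ℝ) : Prop :=
  ∀ w : ℝ × ℝ × ℝ, a ≤ w.1 → w.1 ≤ tK → ∃ V ∈ 𝓝 w, ∃ Fn : ℝ × ℝ × ℝ → ℝ, ContDiff ℝ ∞ Fn ∧
    ∀ i, ∀ q ∈ T.D i, pi3 (T.Ph M i ε q) ∈ V →
      Fn (pi3 (T.Ph M i ε q)) = T.hf M ts F i ε (T.Ph M i ε q)

include W in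
theorem ev_WP [Finite ι] : ∀ᶠ ε in 𝓝[>] (0:ℝ), T.WP M ts F a tK ε := by
  classical
  obtain ⟨x0, hx0, hx⟩ := T.exists_x0 W
  have hA : ∀ᶠ ε in 𝓝[>] (0:ℝ), ∀ i, ∀ q ∈ T.D i, a ≤ (T.Ph M i ε q) 0 →
      (T.Ph M i ε q) 0 ≤ tK → T.Alt M W x0 i ε q := by
    rw [eventually_all]; intro i
    exact ev_forall_compact (T.compact_D i) (p := fun ε q => a ≤ (T.Ph M i ε q) 0 →
      (T.Ph M i ε q) 0 ≤ tK → T.Alt M W x0 i ε q) (fun q hq => T.alt_loc M W hx0 hx hq)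
  have hB : ∀ᶠ ε in 𝓝[>] (0:ℝ), ∀ (i1 : ι) (e : T.J i1) (i2 : ι), T.NF W.ell a tK i1 e →
      T.FlatTri ts F i1 e ((T.S i1).nx e) → T.FlatTri ts F i1 e ((T.S i1).pv e) →
      ∀ q1 ∈ T.D i1, ∀ q2 ∈ T.D i2, x0 ≤ (T.S i1).hat e q1 →
      |W.ell i1 e (pi3 (T.Ph M i1 ε q1) - pi3 (T.v i1))| ≤ ε →
      a ≤ (T.Ph M i1 ε q1) 0 → (T.Ph M i1 ε q1) 0 ≤ tK →
      pi3 (T.Ph M i2 ε q2) = pi3 (T.Ph M i1 ε q1) →
      ∀ᶠ q'' in 𝓝 q2, T.hf M ts F i2 ε (T.Ph M i2 ε q'') =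
        T.Fe P W.ell i1 e ε (pi3 (T.Ph M i2 ε q'')) := by
    rw [eventually_all]; intro i1
    rw [eventually_all]; intro e
    rw [eventually_all]; intro i2
    by_cases hh : T.NF W.ell a tK i1 e ∧ T.FlatTri ts F i1 e ((T.S i1).nx e) ∧
      T.FlatTri ts F i1 e ((T.S i1).pv e)
    · obtain ⟨g1, g2, g3⟩ := hh
      have := ev_forall_compact2 (l := 𝓝[>] (0:ℝ)) (T.compact_D i1) (T.compact_D i2)
        (p := fun ε q1 q2 => x0 ≤ (T.S i1).hat e q1 →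
          |W.ell i1 e (pi3 (T.Ph M i1 ε q1) - pi3 (T.v i1))| ≤ ε →
          a ≤ (T.Ph M i1 ε q1) 0 → (T.Ph M i1 ε q1) 0 ≤ tK →
          pi3 (T.Ph M i2 ε q2) = pi3 (T.Ph M i1 ε q1) →
          ∀ᶠ q'' in 𝓝 q2, T.hf M ts F i2 ε (T.Ph M i2 ε q'') =
            T.Fe P W.ell i1 e ε (pi3 (T.Ph M i2 ε q'')))
        (fun q1 hq1 q2 hq2 => T.w1_loc M W hx0 g1 g2 g3 hq1 hq2)
      filter_upwards [this] with ε h _ _ _
      exact h
    · refine Eventually.of_forall fun ε h1 h2 h3 => ?_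
      exact absurd ⟨h1, h2, h3⟩ hh
  filter_upwards [hA, hB] with ε hA hB
  intro w hw1 hw2
  -- reduction to local statement
  have red : ∀ Fn : ℝ × ℝ × ℝ → ℝ, (∀ i, ∀ q ∈ T.D i, pi3 (T.Ph M i ε q) = w →
      ∀ᶠ q'' in 𝓝 q, Fn (pi3 (T.Ph M i ε q'')) = T.hf M ts F i ε (T.Ph M i ε q'')) →
      ∃ V ∈ 𝓝 w, ∀ i, ∀ q ∈ T.D i, pi3 (T.Ph M i ε q) ∈ V →
      Fn (pi3 (T.Ph M i ε q)) = T.hf M ts F i ε (T.Ph M i ε q) := by
    intro Fn hFn
    have h2 : ∀ i, ∀ᶠ w' in 𝓝 w, ∀ q ∈ T.D i, pi3 (T.Ph M i ε q) = w' →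
        Fn (pi3 (T.Ph M i ε q)) = T.hf M ts F i ε (T.Ph M i ε q) := by
      intro i
      apply ev_forall_compact (T.compact_D i) (p := fun w' q => pi3 (T.Ph M i ε q) = w' →
        Fn (pi3 (T.Ph M i ε q)) = T.hf M ts F i ε (T.Ph M i ε q))
      intro q hq
      by_cases h : pi3 (T.Ph M i ε q) = w
      · filter_upwards [(hFn i q hq h).prod_inr (𝓝 w)] with z hz _
        exact hz
      · have t1 : Tendsto (fun z : (ℝ × ℝ × ℝ) × P2 => (pi3 (T.Ph M i ε z.2), z.1))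
            (𝓝 w ×ˢ 𝓝 q) (𝓝 (pi3 (T.Ph M i ε q), w)) :=
          (((continuous_pi3.comp (T.continuous_Ph M i ε)).tendsto q).comp
            tendsto_snd).prodMk_nhds tendsto_fst
        filter_upwards [t1.eventually ((isOpen_ne_fun continuous_fst continuous_snd).mem_nhds h)]
          with z hz hz2
        exact absurd hz2 hz
    refine ⟨_, eventually_all.2 h2, fun i q hq hm => ?_⟩
    exact hm i q hq rfl
  by_cases H : ∃ i1, ∃ q1 ∈ T.D i1, pi3 (T.Ph M i1 ε q1) = w ∧ ∃ e, T.NF W.ell a tK i1 e ∧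
      T.FlatTri ts F i1 e ((T.S i1).nx e) ∧
      T.FlatTri ts F i1 e ((T.S i1).pv e) ∧ x0 ≤ (T.S i1).hat e q1 ∧
      |W.ell i1 e (pi3 (T.Ph M i1 ε q1) - pi3 (T.v i1))| ≤ ε
  · obtain ⟨i1, q1, hq1, hw, e, g1, g2, g3, g4, g5⟩ := H
    have hX0 : (T.Ph M i1 ε q1) 0 = w.1 := by rw [← hw]; rfl
    obtain ⟨V, hV, hV2⟩ := red (T.Fe P W.ell i1 e ε) (fun i2 q2 hq2 h2 => by
      have := hB i1 e i2 g1 g2 g3 q1 hq1 q2 hq2 g4 g5 (by rw [hX0]; exact hw1)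
        (by rw [hX0]; exact hw2) (by rw [h2, hw])
      filter_upwards [this] with q'' h3
      exact h3.symm)
    exact ⟨V, hV, _, T.contDiff_Fe W.ell i1 e ε, hV2⟩
  · obtain ⟨V, hV, hV2⟩ := red (fun _ => 0) (fun i2 q2 hq2 h2 => by
      have hX0 : (T.Ph M i2 ε q2) 0 = w.1 := by rw [← h2]; rfl
      rcases hA i2 q2 hq2 (by rw [hX0]; exact hw1) (by rw [hX0]; exact hw2) with h | ⟨e, h⟩
      · filter_upwards [h] with q'' h3
        exact h3.symm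
      · exact absurd ⟨i2, q2, hq2, h2, e, h⟩ H)
    exact ⟨V, hV, _, contDiff_const, hV2⟩

end PLS

end

end Pool.Agent.TH622
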