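import Mathlib
import Pool.Agent.TH622.GlobG

/-! Assembly. -/

open scoped ContDiff Topology
open Set Filter Metric

namespace Pool.Agent.TH622

noncomputable section

namespace PLS

variable {ι : Type} (T : PLS ι)

theorem final [Finite ι] {F : ι → ℝ} {Cp : Set ι} {ts a tK b : ℝ} (W : T.Wall F Cp ts a tK b)
    (hKs : tK < ts) {i0 : ι} (hi0 : T.v i0 0 < tK) (h0 : Nonempty (T.J i0)) :
    ∃ L : Set E, IsCompact L ∧
      (∀ X ∈ L, ∃ (C : SChart) (U : Set E), IsOpen U ∧ X ∈ U ∧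
        ∀ Y ∈ U, Y ∈ L ↔ (C.k Y 1 = 0 ∧ C.k Y 3 = 0)) ∧
      ∀ r : ℝ, 0 < r → ∃ φ : (Fin 4 → ℝ) → (Fin 4 → ℝ),
        ContDiffOn ℝ ∞ φ {x | x 0 ^ 2 + x 1 ^ 2 + x 2 ^ 2 + x 3 ^ 2 < r ^ 2} ∧
        Set.InjOn φ {x | x 0 ^ 2 + x 1 ^ 2 + x 2 ^ 2 + x 3 ^ 2 < r ^ 2} ∧
        (∀ x ∈ {x : Fin 4 → ℝ | x 0 ^ 2 + x 1 ^ 2 + x 2 ^ 2 + x 3 ^ 2 < r ^ 2},
          ∀ u v : Fin 4 → ℝ,
          fderiv ℝ φ x u 0 * fderiv ℝ φ x v 1 - fderiv ℝ φ x u 1 * fderiv ℝ φ x v 0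
            + fderiv ℝ φ x u 2 * fderiv ℝ φ x v 3 - fderiv ℝ φ x u 3 * fderiv ℝ φ x v 2
            = u 0 * v 1 - u 1 * v 0 + u 2 * v 3 - u 3 * v 2) ∧
        (∀ x ∈ {x : Fin 4 → ℝ | x 0 ^ 2 + x 1 ^ 2 + x 2 ^ 2 + x 3 ^ 2 < r ^ 2},
          (φ x ∈ L ↔ (x 1 = 0 ∧ x 3 = 0))) := by
  classical
  obtain ⟨δ, P, ⟨M⟩⟩ := exists_Sms T.S
  have hzero : (0 : P2) ∈ T.D i0 := by
    obtain ⟨e⟩ := h0
    have := (T.S i0).N_eq (j := e) (le_refl (0:ℝ)) (le_refl (0:ℝ))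
    rw [zero_smul, zero_smul, add_zero, add_zero] at this
    show (T.S i0).N 0 ≤ 3 / 4
    rw [this]; norm_num
  have hPh0 : T.Ph0 i0 0 = T.v i0 := by
    obtain ⟨e⟩ := h0
    have := T.Ph0_repr (i := i0) (j := e) (le_refl (0:ℝ)) (le_refl (0:ℝ))
    simpa using this
  have hlow : ∀ᶠ ε in 𝓝[>] (0:ℝ), (T.Ph M i0 ε 0) 0 < tK := by
    have hc : Continuous (fun X : E => X 0) := continuous_apply 0
    have h1 := (hc.tendsto _).comp (T.tendsto_Ph M i0 0)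
    have h2 : ∀ᶠ z in Fi (0 : P2), (T.Ph M i0 z.1 z.2) 0 < tK :=
      h1.eventually (gt_mem_nhds (by rw [hPh0]; exact hi0))
    have h3 : Tendsto (fun ε : ℝ => (ε, (0 : P2))) (𝓝[>] (0:ℝ)) (Fi (0 : P2)) :=
      tendsto_id.prodMk tendsto_const_nhds
    exact h3.eventually h2
  have hpos : ∀ᶠ ε in 𝓝[>] (0:ℝ), 0 < ε := self_mem_nhdsWithin
  obtain ⟨ε, hcoin, hinn, hcp, hwp, hlow, hε⟩ := ((T.ev_coin M ts F Cp W.hF).and
    ((T.ev_inn M).and ((T.ev_Cp M W).and ((T.ev_WP M W).and (hlow.and hpos))))).exists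
  have hcompact := T.compact_L M ε
  refine ⟨T.L M ε, hcompact, ?_, ?_⟩
  · intro X hX
    obtain ⟨i, q, hq, hqX⟩ := (T.mem_L M).1 hX
    obtain ⟨i', q', hq', hqq⟩ := hinn i q hq
    have hX' : X = T.Ph M i' ε q' := by rw [hqq, hqX]
    have h1 := T.chart_nhds M hcoin hq'
    rw [← hX'] at h1
    obtain ⟨U, hU1, hU2, hU3⟩ := _root_.mem_nhds_iff.1 h1
    refine ⟨T.sch M i' hε, U, hU2, hU3, fun Y hY => ?_⟩
    rw [T.sch_k M i' hε]
    exact (hU1 hY).1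
  · obtain ⟨f, hf⟩ : ∃ f : E → ℝ, ∀ i ∈ Cp, ∀ q ∈ T.D i, f (T.Ph M i ε q) =
        T.hf M ts F i ε (T.Ph M i ε q) := by
      refine ⟨fun X => if h : ∃ i, i ∈ Cp ∧ ∃ q ∈ T.D i, T.Ph M i ε q = X then
        T.hf M ts F h.choose ε X else 0, fun i hi q hq => ?_⟩
      have h : ∃ i', i' ∈ Cp ∧ ∃ q' ∈ T.D i', T.Ph M i' ε q' = T.Ph M i ε q := ⟨i, hi, q, hq, rfl⟩
      simp only [dif_pos h]
      obtain ⟨h1, q', hq', h2⟩ := h.choose_spec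
      have h3 := (hcoin h.choose i q' hq' q hq h2).self_of_nhds
      exact h3.2 h1 hi
    have hCpi : ∀ i, ∀ q ∈ T.D i, (T.Ph M i ε q) 0 < b → i ∈ Cp := by
      intro i q hq h
      by_contra hi
      exact absurd (hcp i hi q hq) (not_lt.2 h.le)
    have hc0 : Continuous (fun X : E => X 0) := continuous_apply 0
    refine criterion2 (ts := ts) W.haK W.hKb hKs hcompact f ?_ ?_ ?_
    · intro X hX hXb
      obtain ⟨i, q, hq, hqX⟩ := (T.mem_L M).1 hX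
      obtain ⟨i', q', hq', hqq⟩ := hinn i q hq
      have hX' : X = T.Ph M i' ε q' := by rw [hqq, hqX]
      have hi' : i' ∈ Cp := hCpi i' q' hq'.le (by rw [← hX']; exact hXb)
      have h1 := T.chart_nhds M hcoin hq'
      rw [← hX'] at h1
      obtain ⟨U, hU1, hU2, hU3⟩ := _root_.mem_nhds_iff.1 h1
      refine ⟨T.sch M i' hε, U, T.hf M ts F i' ε, hU2, hU3, fun Y hY => ?_,
        T.contDiff_hf M ts F i' hε, ?_, ?_⟩
      · rw [T.sch_k M i' hε]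
        exact (hU1 hY).1
      · intro Y hY hYL
        have h2 := ((hU1 hY).1).1 hYL
        have h3 := hf i' hi' _ (hU1 hY).2
        rw [h2] at h3
        exact h3.symm
      · intro z hz h1 h3 u hu1 hu3
        exact T.fderiv_hf M ts F i' hε z u h1 h3 hu1 hu3
    · intro w hw1 hw2
      obtain ⟨V, hV, Fn, hFn, h⟩ := hwp w hw1 hw2
      refine ⟨V, hV, Fn, hFn, fun X hX hXV h1 h2 => ?_⟩
      obtain ⟨i, q, hq, hqX⟩ := (T.mem_L M).1 hX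
      have hi := hCpi i q hq (by rw [hqX]; linarith [W.hKb])
      rw [← hqX, h i q hq (by rw [hqX]; exact hXV), hf i hi q hq]
    · exact ⟨_, (T.mem_L M).2 ⟨i0, 0, hzero, rfl⟩, hlow⟩

/-- from charts to the frozen form -/
theorem frozen_chart {L : Set E} {X : E} (C : SChart) {U : Set E} (hU : IsOpen U) (hX : X ∈ U)
    (hUL : ∀ Y ∈ U, Y ∈ L ↔ (C.k Y 1 = 0 ∧ C.k Y 3 = 0)) :
    ∃ W : Set (Fin 4 → ℝ), ∃ g : (Fin 4 → ℝ) → (Fin 4 → ℝ),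
        IsOpen W ∧ ContDiffOn ℝ ∞ g W ∧ Set.InjOn g W ∧
        (∀ x ∈ W, Function.Injective (fderiv ℝ g x)) ∧
        X ∈ g '' W ∧
        L ∩ g '' W = g '' {x | x ∈ W ∧ x 1 = 0 ∧ x 3 = 0} ∧
        (∀ x ∈ W, x 1 = 0 → x 3 = 0 → ∀ u v : Fin 4 → ℝ,
          u 1 = 0 → u 3 = 0 → v 1 = 0 → v 3 = 0 →
          fderiv ℝ g x u 0 * fderiv ℝ g x v 1 - fderiv ℝ g x u 1 * fderiv ℝ g x v 0
            + fderiv ℝ g x u 2 * fderiv ℝ g x v 3 - fderiv ℝ g x u 3 * fderiv ℝ g x v 2 = 0) := by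
  refine ⟨C.g ⁻¹' U, C.g, hU.preimage C.hg.continuous, C.hg.contDiffOn, ?_, ?_, ?_, ?_, ?_⟩
  · intro x _ y _ h
    rw [← C.kg x, ← C.kg y, h]
  · intro x _ u v h
    have h1 : HasFDerivAt (fun z => C.k (C.g z))
        ((fderiv ℝ C.k (C.g x)).comp (fderiv ℝ C.g x)) x :=
      ((C.hk.differentiable (by simp) _).hasFDerivAt).comp x
        ((C.hg.differentiable (by simp) _).hasFDerivAt)
    have h2 : HasFDerivAt (fun z => C.k (C.g z)) (ContinuousLinearMap.id ℝ E) x := by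
      have : (fun z => C.k (C.g z)) = fun z => z := by ext1 z; exact C.kg z
      rw [this]; exact hasFDerivAt_id x
    have h3 := h1.unique h2
    have h4 : ∀ w, fderiv ℝ C.k (C.g x) (fderiv ℝ C.g x w) = w := fun w => by
      have := congrArg (fun T => T w) h3
      simpa using this
    rw [← h4 u, ← h4 v, h]
  · exact ⟨C.k X, by show C.g (C.k X) ∈ U; rw [C.gk]; exact hX, C.gk X⟩
  · ext Y
    constructor
    · rintro ⟨h1, x, hx, rfl⟩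
      have h2 := (hUL _ hx).1 h1
      rw [C.kg] at h2
      exact ⟨x, ⟨hx, h2⟩, rfl⟩
    · rintro ⟨x, ⟨hx, h2⟩, rfl⟩
      refine ⟨(hUL _ hx).2 ?_, x, hx, rfl⟩
      rw [C.kg]; exact h2
  · intro x _ _ _ u v h1 h3 h1' h3'
    have := C.symp x u v
    simp only [om] at this
    rw [this, h1, h3, h1', h3']; ring

end PLS

end

end Pool.Agent.TH622
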