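import Mathlib
import Pool.Agent.TH622.GlobH

/-! From a combinatorial complex to a PL surface. -/

open scoped ContDiff Topology
open Set Filter Metric

namespace Pool.Agent.TH622

noncomputable section

/-- A PL surface without the global injectivity. -/
structure PLS0 (ι : Type) where
  v : ι → E
  J : ι → Type
  fin : ∀ i, Finite (J i)
  S : ∀ i, Star (J i)
  nb : ∀ i, J i → ι
  A : ι → E ≃L[ℝ] E
  symp : ∀ i u w, om (A i u) (A i w) = om u w
  hrp : ∀ i e, A i (mk4 ((S i).r e) ((S i).p e)) = v (nb i e) - v i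
  adj : ∀ i e, ∃ e' : J (nb i e), nb _ e' = i ∧
    ((nb _ ((S (nb i e)).nx e') = nb i ((S i).nx e) ∧ nb _ ((S (nb i e)).pv e') = nb i ((S i).pv e)) ∨
    (nb _ ((S (nb i e)).nx e') = nb i ((S i).pv e) ∧ nb _ ((S (nb i e)).pv e') = nb i ((S i).nx e)))

namespace PLS0

variable {ι : Type} (T : PLS0 ι)

def pt (i : ι) (j : T.J i) (μ l : ℝ) : E :=
  T.v i + μ • (T.v (T.nb i j) - T.v i) + l • (T.v (T.nb i ((T.S i).nx j)) - T.v i)

open Classical in
def wt (i : ι) (j : T.J i) (μ l : ℝ) (m : ι) : ℝ :=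
  (1 - μ - l) * (if m = i then 1 else 0) + μ * (if m = T.nb i j then 1 else 0) +
    l * (if m = T.nb i ((T.S i).nx j) then 1 else 0)

lemma nb_ne (i : ι) (j : T.J i) : T.nb i j ≠ i := by
  intro h
  have h1 := T.hrp i j
  rw [h, sub_self] at h1
  have h2 : mk4 ((T.S i).r j) ((T.S i).p j) = 0 := by
    rw [← map_zero (T.A i)] at h1
    exact (T.A i).injective h1
  have h3 : (T.S i).r j = 0 := congrArg qq h2
  have h4 := (T.S i).hdet j
  rw [h3] at h4
  simp [dt] at h4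

lemma nb_ne_nx (i : ι) (j : T.J i) : T.nb i j ≠ T.nb i ((T.S i).nx j) := by
  intro h
  have h1 := T.hrp i j
  have h2 := T.hrp i ((T.S i).nx j)
  rw [← h, ← h1] at h2
  have h3 := (T.A i).injective h2
  have h4 : (T.S i).r ((T.S i).nx j) = (T.S i).r j := by
    have := congrArg qq h3
    simpa using this
  have h5 := (T.S i).hdet j
  rw [h4, dt_self] at h5
  exact lt_irrefl _ h5

lemma pt_A (i : ι) (j : T.J i) (μ l : ℝ) : T.pt i j μ l = T.v i +
    T.A i (mk4 (μ • (T.S i).r j + l • (T.S i).r ((T.S i).nx j))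
      (μ • (T.S i).p j + l • (T.S i).p ((T.S i).nx j))) := by
  rw [mk4_add, mk4_smul, mk4_smul, map_add, map_smul, map_smul, T.hrp, T.hrp]
  unfold pt
  rw [add_assoc]

/-- uniqueness of weights in a star -/
lemma star_unique {i : ι} {j j' : T.J i} {μ l μ' l' : ℝ} (h1 : 0 ≤ μ) (h2 : 0 ≤ l)
    (h1' : 0 ≤ μ') (h2' : 0 ≤ l') (h : T.pt i j μ l = T.pt i j' μ' l') (m : ι) :
    T.wt i j μ l m = T.wt i j' μ' l' m := by
  classical
  rw [pt_A, pt_A] at h
  have h3 := (T.A i).injective (add_left_cancel h)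
  have h4 : μ • (T.S i).r j + l • (T.S i).r ((T.S i).nx j) =
      μ' • (T.S i).r j' + l' • (T.S i).r ((T.S i).nx j') := by
    have := congrArg qq h3
    simpa using this
  unfold wt
  by_cases hm : m = i
  · subst hm
    have h5 := (T.S m).ext_unique (fun _ => (1:ℝ)) h1 h2 h1' h2' h4
    simp only [smul_eq_mul, mul_one] at h5
    simp only [if_pos, (T.nb_ne m _).symm, if_false]
    linarith
  · have h5 := (T.S i).ext_unique (fun k => if m = T.nb i k then (1:ℝ) else 0) h1 h2 h1' h2' h4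
    simp only [smul_eq_mul] at h5
    rw [if_neg hm]
    linarith

/-- rotating a sector to another vertex of the triangle -/
lemma rot {i : ι} {j : T.J i} {μ l : ℝ} (h1 : 0 ≤ μ) (h2 : 0 ≤ l) (h3 : μ + l ≤ 1) {w : ι}
    (hw : w = i ∨ w = T.nb i j ∨ w = T.nb i ((T.S i).nx j)) :
    ∃ (j1 : T.J w) (α β : ℝ), 0 ≤ α ∧ 0 ≤ β ∧ T.pt w j1 α β = T.pt i j μ l ∧
      ∀ m, T.wt w j1 α β m = T.wt i j μ l m := by
  classical
  rcases hw with hw | hw | hw
  · subst hw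
    exact ⟨j, μ, l, h1, h2, rfl, fun _ => rfl⟩
  · subst hw
    obtain ⟨e', he, ⟨a1, a2⟩ | ⟨a1, a2⟩⟩ := T.adj i j
    · refine ⟨e', 1 - μ - l, l, by linarith, h2, ?_, fun m => ?_⟩
      · unfold pt; rw [he, a1]; module
      · unfold wt; rw [he, a1]; ring
    · refine ⟨(T.S _).pv e', l, 1 - μ - l, h2, by linarith, ?_, fun m => ?_⟩
      · unfold pt; rw [(T.S _).nx_pv, he, a2]; module
      · unfold wt; rw [(T.S _).nx_pv, he, a2]; ring
  · subst hw
    obtain ⟨e', he, ⟨a1, a2⟩ | ⟨a1, a2⟩⟩ := T.adj i ((T.S i).nx j)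
    · rw [(T.S i).pv_nx] at a2
      refine ⟨(T.S _).pv e', μ, 1 - μ - l, h1, by linarith, ?_, fun m => ?_⟩
      · unfold pt; rw [(T.S _).nx_pv, he, a2]; module
      · unfold wt; rw [(T.S _).nx_pv, he, a2]; ring
    · rw [(T.S i).pv_nx] at a1
      refine ⟨e', 1 - μ - l, μ, by linarith, h1, ?_, fun m => ?_⟩
      · unfold pt; rw [he, a1]; module
      · unfold wt; rw [he, a1]; ring

/-- vertex of a sector -/
def isv (i : ι) (j : T.J i) (w : ι) : Prop := w = i ∨ w = T.nb i j ∨ w = T.nb i ((T.S i).nx j)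

theorem weights_eq
    (hsep : ∀ (i i' : ι) (j : T.J i) (j' : T.J i'), (∀ w, T.isv i j w → ¬ T.isv i' j' w) →
      ∀ μ l μ' l' : ℝ, 0 ≤ μ → 0 ≤ l → μ + l ≤ 1 → 0 ≤ μ' → 0 ≤ l' → μ' + l' ≤ 1 →
      T.pt i j μ l ≠ T.pt i' j' μ' l')
    {i i' : ι} {j : T.J i} {j' : T.J i'} {μ l μ' l' : ℝ} (h1 : 0 ≤ μ) (h2 : 0 ≤ l)
    (h3 : μ + l ≤ 1) (h1' : 0 ≤ μ') (h2' : 0 ≤ l') (h3' : μ' + l' ≤ 1)
    (h : T.pt i j μ l = T.pt i' j' μ' l') (m : ι) : T.wt i j μ l m = T.wt i' j' μ' l' m := by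
  by_cases hd : ∀ w, T.isv i j w → ¬ T.isv i' j' w
  · exact absurd h (hsep i i' j j' hd μ l μ' l' h1 h2 h3 h1' h2' h3')
  · push Not at hd
    obtain ⟨w, hw, hw'⟩ := hd
    obtain ⟨j1, α, β, a1, a2, a3, a4⟩ := T.rot h1 h2 h3 hw
    obtain ⟨j2, α', β', b1, b2, b3, b4⟩ := T.rot h1' h2' h3' hw'
    rw [← a4, ← b4]
    exact T.star_unique a1 a2 b1 b2 (by rw [a3, b3, h]) m

def toPLS (hsep : ∀ (i i' : ι) (j : T.J i) (j' : T.J i'), (∀ w, T.isv i j w → ¬ T.isv i' j' w) →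
      ∀ μ l μ' l' : ℝ, 0 ≤ μ → 0 ≤ l → μ + l ≤ 1 → 0 ≤ μ' → 0 ≤ l' → μ' + l' ≤ 1 →
      T.pt i j μ l ≠ T.pt i' j' μ' l') : PLS ι where
  v := T.v
  J := T.J
  fin := T.fin
  S := T.S
  nb := T.nb
  A := T.A
  symp := T.symp
  hrp := T.hrp
  adj := T.adj
  inj := by
    classical
    intro i i' j j' μ l μ' l' h1 h2 h3 h1' h2' h3' h
    by_cases hii : i = i'
    · exact Or.inl hii
    right
    have h4 := T.weights_eq hsep h1 h2 (by linarith) h1' h2' (by linarith) h i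
    unfold wt at h4
    rw [if_pos rfl, if_neg (T.nb_ne i j).symm, if_neg (T.nb_ne i _).symm, if_neg hii] at h4
    by_cases c1 : i = T.nb i' j'
    · left
      have c2 : i ≠ T.nb i' ((T.S i').nx j') := fun c => T.nb_ne_nx i' j' (c1.symm.trans c)
      rw [if_pos c1, if_neg c2] at h4
      exact ⟨c1.symm, by linarith⟩
    · by_cases c2 : i = T.nb i' ((T.S i').nx j')
      · right
        rw [if_neg c1, if_pos c2] at h4
        exact ⟨c2.symm, by linarith⟩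
      · exfalso
        rw [if_neg c1, if_neg c2] at h4
        linarith

end PLS0

end

end Pool.Agent.TH622
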