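import Mathlib
import Pool.Agent.TH622.Cplx

/-! Integer data and the resulting complex. -/

open scoped ContDiff Topology
open Set Filter Metric

namespace Pool.Agent.TH622

noncomputable section

/-- cyclic successor -/
def nxN (m k : ℕ) : ℕ := bif Nat.blt (k + 1) m then k + 1 else 0
/-- cyclic predecessor -/
def pvN (m k : ℕ) : ℕ := bif Nat.beq k 0 then m - 1 else k - 1

lemma nxN_eq (m k : ℕ) : nxN m k = if k + 1 < m then k + 1 else 0 := by
  unfold nxN
  by_cases h : k + 1 < m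
  · rw [if_pos h]
    have : Nat.blt (k + 1) m = true := by rw [Nat.blt_eq]; exact h
    rw [this]; rfl
  · rw [if_neg h]
    have : Nat.blt (k + 1) m = false := by
      rw [Bool.eq_false_iff]; intro hh; rw [Nat.blt_eq] at hh; exact h hh
    rw [this]; rfl

lemma pvN_eq (m k : ℕ) : pvN m k = if k = 0 then m - 1 else k - 1 := by
  unfold pvN
  by_cases h : k = 0
  · subst h; rfl
  · rw [if_neg h]
    have : Nat.beq k 0 = false := by
      rw [Bool.eq_false_iff]; intro hh; exact h (Nat.eq_of_beq_eq_true hh)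
    rw [this]; rfl

lemma pv_nxN {m k : ℕ} (hk : k < m) : pvN m (nxN m k) = k := by
  rw [nxN_eq, pvN_eq]
  by_cases h : k + 1 < m
  · rw [if_pos h, if_neg (by omega)]; omega
  · rw [if_neg h, if_pos rfl]; omega

lemma nx_pvN {m k : ℕ} (hk : k < m) : nxN m (pvN m k) = k := by
  rw [nxN_eq, pvN_eq]
  by_cases h : k = 0
  · rw [if_pos h, if_neg (by omega)]; omega
  · rw [if_neg h, if_pos (by omega)]; omega

/-- cyclic shift -/
def nxE (m : ℕ) : Equiv.Perm (Fin m) where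
  toFun k := ⟨nxN m k, by rw [nxN_eq]; split_ifs with h; exacts [h, k.pos]⟩
  invFun k := ⟨pvN m k, by rw [pvN_eq]; have := k.2; split_ifs <;> omega⟩
  left_inv k := Fin.ext (pv_nxN k.2)
  right_inv k := Fin.ext (nx_pvN k.2)

lemma cyc_ivt {m : ℕ} (S : ℕ → Prop) {k0 k1 : ℕ} (h0 : k0 < m) (h1 : k1 < m) (hs0 : S k0)
    (hs1 : ¬ S k1) : ∃ k < m, S k ∧ ¬ S (nxN m k) := by
  by_contra hcon
  push Not at hcon
  have up : ∀ a b, a ≤ b → b < m → S a → S b := by
    intro a b hab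
    induction b, hab using Nat.le_induction with
    | base => intro _ h; exact h
    | succ b hab ih =>
      intro hb hS
      have := hcon b (by omega) (ih (by omega) hS)
      rw [nxN_eq, if_pos hb] at this
      exact this
  have hlast : S (m - 1) := up k0 (m - 1) (by omega) (by omega) hs0
  have hz := hcon (m - 1) (by omega) hlast
  rw [nxN_eq, if_neg (by omega)] at hz
  exact hs1 (up 0 k1 (by omega) h1 hz)

def mkStar (m : ℕ) (R Pm : ℕ → P2)
    (hdet : ∀ k < m, 0 < dt (R k) (R (nxN m k)))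
    (hlag : ∀ k < m, dot (Pm k) (R (nxN m k)) = dot (R k) (Pm (nxN m k)))
    (hdis : ∀ k < m, ∀ k' < m, k < k' →
      (dt (R k') (R (nxN m k)) ≤ 0 ∧ dt (R (nxN m k')) (R (nxN m k)) ≤ 0) ∨
      (dt (R k) (R (nxN m k')) ≤ 0 ∧ dt (R (nxN m k)) (R (nxN m k')) ≤ 0))
    (htri : ∃ j2 < m, ∃ j3 < m, 0 < dt (R 0) (R j2) ∧ 0 < dt (R j2) (R j3) ∧
      0 ≤ dt (R j3) (R 0)) : Star (Fin m) where
  nx := nxE m
  r k := R k
  p k := Pm k
  hdet k := hdet k k.2
  hlag k := hlag k k.2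
  hex := by
    intro q hq
    obtain ⟨j2, hj2, j3, hj3, e1, e2, e3⟩ := htri
    have hm : 0 < m := by omega
    have e4 : 0 < dt (R (m - 1)) (R 0) := by
      have := hdet (m - 1) (by omega)
      rwa [nxN_eq, if_neg (by omega)] at this
    have hid : dt (R j2) (R j3) * dt (R 0) q + dt (R j3) (R 0) * dt (R j2) q +
        dt (R 0) (R j2) * dt (R j3) q = 0 := by
      simp only [dt]; ring
    have hpos : ∃ k < m, 0 ≤ dt (R k) q := by
      by_contra hcon
      push Not at hcon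
      have a1 := mul_neg_of_pos_of_neg e2 (hcon 0 hm)
      have a2 := mul_nonpos_of_nonneg_of_nonpos e3 (hcon j2 hj2).le
      have a3 := mul_neg_of_pos_of_neg e1 (hcon j3 hj3)
      linarith
    have hneg : ∃ k < m, ¬ 0 ≤ dt (R k) q := by
      by_contra hcon
      push Not at hcon
      have a1 := mul_nonneg e2.le (hcon 0 hm)
      have a2 := mul_nonneg e3 (hcon j2 hj2)
      have a3 := mul_nonneg e1.le (hcon j3 hj3)
      have b1 : dt (R 0) q = 0 := by
        have : dt (R j2) (R j3) * dt (R 0) q = 0 := by linarith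
        rcases mul_eq_zero.1 this with h | h
        · linarith
        · exact h
      have b2 := decomp e1.ne' q
      rw [b1, zero_div, zero_smul, add_zero] at b2
      obtain ⟨c, hc⟩ : ∃ c, c = dt q (R j2) / dt (R 0) (R j2) := ⟨_, rfl⟩
      rw [← hc] at b2
      have b3 := hcon j2 hj2
      have b4 := hcon (m - 1) (by omega)
      rw [b2, dt_smul_right] at b3 b4
      rw [dt_swap] at b3
      have b5 : c = 0 := by
        rcases lt_trichotomy c 0 with h | h | h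
        · exact absurd b4 (not_le.2 (mul_neg_of_neg_of_pos h e4))
        · exact h
        · nlinarith [mul_pos h e1]
      apply hq
      rw [b2, b5, zero_smul]
    obtain ⟨k0, hk0, hs0⟩ := hpos
    obtain ⟨k1, hk1, hs1⟩ := hneg
    obtain ⟨k, hk, hs, hns⟩ := cyc_ivt (fun k => 0 ≤ dt (R k) q) hk0 hk1 hs0 hs1
    have hD := hdet k hk
    refine ⟨⟨k, hk⟩, dt q (R (nxN m k)) / dt (R k) (R (nxN m k)),
      dt (R k) q / dt (R k) (R (nxN m k)), ?_, ?_, ?_⟩
    · apply div_pos _ hD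
      rw [dt_swap]
      simp only [not_le] at hns
      linarith
    · exact div_nonneg hs hD.le
    · exact decomp hD.ne' q
  hun := by
    have key : ∀ k < m, ∀ k' < m, k < k' → ∀ μ l μ' l' : ℝ, 0 < μ → 0 ≤ l → 0 < μ' → 0 ≤ l' →
        μ • R k + l • R (nxN m k) = μ' • R k' + l' • R (nxN m k') → False := by
      intro k hk k' hk' hkk μ l μ' l' h1 h2 h3 h4 h
      rcases hdis k hk k' hk' hkk with ⟨a1, a2⟩ | ⟨a1, a2⟩
      · have e1 : dt (μ • R k + l • R (nxN m k)) (R (nxN m k)) = μ * dt (R k) (R (nxN m k)) := by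
          rw [dt_add_left, dt_smul_left, dt_smul_left, dt_self]; ring
        rw [h, dt_add_left, dt_smul_left, dt_smul_left] at e1
        have := mul_pos h1 (hdet k hk)
        nlinarith
      · have e1 : dt (μ' • R k' + l' • R (nxN m k')) (R (nxN m k')) =
            μ' * dt (R k') (R (nxN m k')) := by
          rw [dt_add_left, dt_smul_left, dt_smul_left, dt_self]; ring
        rw [← h, dt_add_left, dt_smul_left, dt_smul_left] at e1
        have := mul_pos h3 (hdet k' hk')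
        nlinarith
    intro j j' μ l μ' l' h1 h2 h3 h4 h
    rcases lt_trichotomy (j : ℕ) (j' : ℕ) with hlt | heq | hgt
    · exact (key j j.2 j' j'.2 hlt μ l μ' l' h1 h2 h3 h4 h).elim
    · exact Fin.ext heq
    · exact (key j' j'.2 j j.2 hgt μ' l' μ l h3 h4 h1 h2 h.symm).elim

def chartLE (a b c : ℝ) : E ≃ₗ[ℝ] E where
  toFun z := ![-z 1, z 0 + a * z 1 + b * z 3, -z 3, z 2 + b * z 1 + c * z 3]
  invFun X := ![X 1 + a * X 0 + b * X 2, -X 0, X 3 + b * X 0 + c * X 2, -X 2]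
  map_add' z w := by ext i; fin_cases i <;> simp <;> ring
  map_smul' t z := by ext i; fin_cases i <;> simp <;> ring
  left_inv z := by ext i; fin_cases i <;> simp <;> ring
  right_inv X := by ext i; fin_cases i <;> simp <;> ring

def chartE (a b c : ℝ) : E ≃L[ℝ] E := (chartLE a b c).toContinuousLinearEquiv

lemma chartE_apply (a b c : ℝ) (z : E) :
    chartE a b c z = ![-z 1, z 0 + a * z 1 + b * z 3, -z 3, z 2 + b * z 1 + c * z 3] := rfl

lemma chartE_symp (a b c : ℝ) (u w : E) : om (chartE a b c u) (chartE a b c w) = om u w := by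
  rw [chartE_apply, chartE_apply]
  simp only [om, Matrix.cons_val_zero, Matrix.cons_val_one, Matrix.cons_val]
  ring

structure Z4 where
  t : ℤ
  p : ℤ
  x : ℤ
  y : ℤ

def V2E (z : Z4) : E := ![(z.t : ℝ), (z.p : ℝ), (z.x : ℝ), (z.y : ℝ)]

@[simp] lemma V2E_0 (z : Z4) : V2E z 0 = z.t := rfl
@[simp] lemma V2E_1 (z : Z4) : V2E z 1 = z.p := rfl
@[simp] lemma V2E_2 (z : Z4) : V2E z 2 = z.x := rfl
@[simp] lemma V2E_3 (z : Z4) : V2E z 3 = z.y := rfl

structure Z3 where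
  a : ℤ
  b : ℤ
  c : ℤ

/-- integer data of a complex -/
structure Data where
  n : ℕ
  V : ℕ → Z4
  C : ℕ → Z3
  dg : ℕ → ℕ
  nb : ℕ → ℕ → ℕ

def rx (v w : Z4) (C : Z3) : ℤ := (w.p - v.p) + C.a * (w.t - v.t) + C.b * (w.x - v.x)
def ry (v w : Z4) (C : Z3) : ℤ := (w.y - v.y) + C.b * (w.t - v.t) + C.c * (w.x - v.x)

/-- oriented area of two edge vectors in the chart -/
def d2 (v w w' : Z4) (C : Z3) : ℤ := rx v w C * ry v w' C - ry v w C * rx v w' C

/-- symplectic area of a triangle -/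
def omT (v w w' : Z4) : ℤ :=
  (w.t - v.t) * (w'.p - v.p) - (w.p - v.p) * (w'.t - v.t) +
    (w.x - v.x) * (w'.y - v.y) - (w.y - v.y) * (w'.x - v.x)

def Rr (v w : Z4) (C : Z3) : P2 := ((rx v w C : ℝ), (ry v w C : ℝ))
def Pr (v w : Z4) : P2 := (-((w.t : ℝ) - v.t), -((w.x : ℝ) - v.x))

lemma dt_Rr (v w w' : Z4) (C : Z3) : dt (Rr v w C) (Rr v w' C) = (d2 v w w' C : ℝ) := by
  unfold dt Rr d2; push_cast; ring

lemma dot_Rr (v w w' : Z4) (C : Z3) :
    dot (Pr v w) (Rr v w' C) - dot (Rr v w C) (Pr v w') = -(omT v w w' : ℝ) := by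
  unfold dot Rr Pr omT rx ry; push_cast; ring

namespace Data

variable (D : Data)

/-- neighbour vertex coordinates -/
def W (i k : ℕ) : Z4 := D.V (D.nb i k)

structure OK : Prop where
  nbn : ∀ i < D.n, ∀ k < D.dg i, D.nb i k < D.n
  det : ∀ i < D.n, ∀ k < D.dg i, 0 < d2 (D.V i) (D.W i k) (D.W i (nxN (D.dg i) k)) (D.C i)
  lag : ∀ i < D.n, ∀ k < D.dg i, omT (D.V i) (D.W i k) (D.W i (nxN (D.dg i) k)) = 0
  dis : ∀ i < D.n, ∀ k < D.dg i, ∀ k' < D.dg i, k < k' →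
    (d2 (D.V i) (D.W i k') (D.W i (nxN (D.dg i) k)) (D.C i) ≤ 0 ∧
      d2 (D.V i) (D.W i (nxN (D.dg i) k')) (D.W i (nxN (D.dg i) k)) (D.C i) ≤ 0) ∨
    (d2 (D.V i) (D.W i k) (D.W i (nxN (D.dg i) k')) (D.C i) ≤ 0 ∧
      d2 (D.V i) (D.W i (nxN (D.dg i) k)) (D.W i (nxN (D.dg i) k')) (D.C i) ≤ 0)
  tri : ∀ i < D.n, ∃ j2 < D.dg i, ∃ j3 < D.dg i,
    0 < d2 (D.V i) (D.W i 0) (D.W i j2) (D.C i) ∧
    0 < d2 (D.V i) (D.W i j2) (D.W i j3) (D.C i) ∧ 0 ≤ d2 (D.V i) (D.W i j3) (D.W i 0) (D.C i)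
  adj : ∀ i < D.n, ∀ k < D.dg i, ∃ k' < D.dg (D.nb i k), D.nb (D.nb i k) k' = i ∧
    ((D.nb (D.nb i k) (nxN (D.dg (D.nb i k)) k') = D.nb i (nxN (D.dg i) k) ∧
      D.nb (D.nb i k) (pvN (D.dg (D.nb i k)) k') = D.nb i (pvN (D.dg i) k)) ∨
    (D.nb (D.nb i k) (nxN (D.dg (D.nb i k)) k') = D.nb i (pvN (D.dg i) k) ∧
      D.nb (D.nb i k) (pvN (D.dg (D.nb i k)) k') = D.nb i (nxN (D.dg i) k)))

variable {D} (h : D.OK)

/-- the complex -/
def toPLS0 : PLS0 (Fin D.n) where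
  v i := V2E (D.V i)
  J i := Fin (D.dg i)
  fin i := inferInstance
  S i := mkStar (D.dg i) (fun k => Rr (D.V i) (D.W i k) (D.C i)) (fun k => Pr (D.V i) (D.W i k))
    (fun k hk => by
      simp only [dt_Rr]
      exact_mod_cast h.det i i.2 k hk)
    (fun k hk => by
      have h1 := dot_Rr (D.V i) (D.W i k) (D.W i (nxN (D.dg i) k)) (D.C i)
      rw [h.lag i i.2 k hk] at h1
      simpa [sub_eq_zero] using h1)
    (fun k hk k' hk' hkk => by
      simp only [dt_Rr]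
      exact_mod_cast h.dis i i.2 k hk k' hk' hkk)
    (by
      simp only [dt_Rr]
      exact_mod_cast h.tri i i.2)
  nb i k := ⟨D.nb i k, h.nbn i i.2 k k.2⟩
  A i := chartE (D.C i).a (D.C i).b (D.C i).c
  symp i := chartE_symp _ _ _
  hrp i k := by
    rw [chartE_apply]
    apply ext4
    · show - (-((((D.W i k).t : ℤ) : ℝ) - ((D.V i).t : ℝ))) = ((D.W i k).t : ℝ) - ((D.V i).t : ℝ)
      ring
    · show ((rx (D.V i) (D.W i k) (D.C i) : ℤ) : ℝ) +
        (D.C i).a * (-(((D.W i k).t : ℝ) - ((D.V i).t : ℝ))) +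
        (D.C i).b * (-(((D.W i k).x : ℝ) - ((D.V i).x : ℝ))) =
        ((D.W i k).p : ℝ) - ((D.V i).p : ℝ)
      unfold rx; push_cast; ring
    · show - (-((((D.W i k).x : ℤ) : ℝ) - ((D.V i).x : ℝ))) = ((D.W i k).x : ℝ) - ((D.V i).x : ℝ)
      ring
    · show ((ry (D.V i) (D.W i k) (D.C i) : ℤ) : ℝ) +
        (D.C i).b * (-(((D.W i k).t : ℝ) - ((D.V i).t : ℝ))) +
        (D.C i).c * (-(((D.W i k).x : ℝ) - ((D.V i).x : ℝ))) =
        ((D.W i k).y : ℝ) - ((D.V i).y : ℝ)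
      unfold ry; push_cast; ring
  adj i k := by
    obtain ⟨k', hk', h1, h2⟩ := h.adj i i.2 k k.2
    refine ⟨⟨k', hk'⟩, Fin.ext h1, ?_⟩
    rcases h2 with ⟨h2, h3⟩ | ⟨h2, h3⟩
    · exact Or.inl ⟨Fin.ext h2, Fin.ext h3⟩
    · exact Or.inr ⟨Fin.ext h2, Fin.ext h3⟩

end Data

end

end Pool.Agent.TH622
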