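import Mathlib
import Pool.Agent.TH622.Dat0

/-! Separation and wall data. -/

open scoped ContDiff Topology
open Set Filter Metric

namespace Pool.Agent.TH622

noncomputable section

def ev (ξ v : Z4) : ℤ := ξ.t * v.t + ξ.p * v.p + ξ.x * v.x + ξ.y * v.y

/-- strict separation of two triangles -/
def Sep2 (a b c a' b' c' : Z4) : Prop := ∃ (ξ : Z4) (m : ℤ),
  (m < ev ξ a ∧ m < ev ξ b ∧ m < ev ξ c) ∧ (ev ξ a' ≤ m ∧ ev ξ b' ≤ m ∧ ev ξ c' ≤ m)

def evR (ξ : Z4) (X : E) : ℝ := ξ.t * X 0 + ξ.p * X 1 + ξ.x * X 2 + ξ.y * X 3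

lemma evR_V2E (ξ v : Z4) : evR ξ (V2E v) = (ev ξ v : ℝ) := by
  unfold evR ev; simp only [V2E_0, V2E_1, V2E_2, V2E_3]; push_cast; ring

lemma evR_comb (ξ : Z4) (A B C : E) (μ l : ℝ) :
    evR ξ (A + μ • (B - A) + l • (C - A)) =
      (1 - μ - l) * evR ξ A + μ * evR ξ B + l * evR ξ C := by
  unfold evR
  simp only [Pi.add_apply, Pi.smul_apply, Pi.sub_apply, smul_eq_mul]; ring

lemma Sep2.ne {a b c a' b' c' : Z4} (h : Sep2 a b c a' b' c') {μ l μ' l' : ℝ}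
    (h1 : 0 ≤ μ) (h2 : 0 ≤ l) (h3 : μ + l ≤ 1) (h1' : 0 ≤ μ') (h2' : 0 ≤ l') (h3' : μ' + l' ≤ 1) :
    V2E a + μ • (V2E b - V2E a) + l • (V2E c - V2E a) ≠
      V2E a' + μ' • (V2E b' - V2E a') + l' • (V2E c' - V2E a') := by
  obtain ⟨ξ, m, ⟨e1, e2, e3⟩, ⟨e4, e5, e6⟩⟩ := h
  intro heq
  have h4 := congrArg (evR ξ) heq
  rw [evR_comb, evR_comb] at h4
  simp only [evR_V2E] at h4
  have e1' : (m : ℝ) + 1 ≤ ev ξ a := by exact_mod_cast e1
  have e2' : (m : ℝ) + 1 ≤ ev ξ b := by exact_mod_cast e2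
  have e3' : (m : ℝ) + 1 ≤ ev ξ c := by exact_mod_cast e3
  have e4' : (ev ξ a' : ℝ) ≤ m := by exact_mod_cast e4
  have e5' : (ev ξ b' : ℝ) ≤ m := by exact_mod_cast e5
  have e6' : (ev ξ c' : ℝ) ≤ m := by exact_mod_cast e6
  have k1 : (m : ℝ) + 1 ≤ (1 - μ - l) * ev ξ a + μ * ev ξ b + l * ev ξ c := by
    nlinarith [mul_nonneg (show 0 ≤ 1 - μ - l by linarith) (sub_nonneg.2 e1'),
      mul_nonneg h1 (sub_nonneg.2 e2'), mul_nonneg h2 (sub_nonneg.2 e3')]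
  have k2 : (1 - μ' - l') * ev ξ a' + μ' * ev ξ b' + l' * ev ξ c' ≤ m := by
    nlinarith [mul_nonneg (show 0 ≤ 1 - μ' - l' by linarith) (sub_nonneg.2 e4'),
      mul_nonneg h1' (sub_nonneg.2 e5'), mul_nonneg h2' (sub_nonneg.2 e6')]
  linarith

namespace Data

variable (D : Data)

def SepOK : Prop := ∀ i < D.n, ∀ k < D.dg i, ∀ i' < D.n, ∀ k' < D.dg i',
  (∃ w, (w = i ∨ w = D.nb i k ∨ w = D.nb i (nxN (D.dg i) k)) ∧
    (w = i' ∨ w = D.nb i' k' ∨ w = D.nb i' (nxN (D.dg i') k'))) ∨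
  Sep2 (D.V i) (D.W i k) (D.W i (nxN (D.dg i) k)) (D.V i') (D.W i' k') (D.W i' (nxN (D.dg i') k')) ∨
  Sep2 (D.V i') (D.W i' k') (D.W i' (nxN (D.dg i') k')) (D.V i) (D.W i k) (D.W i (nxN (D.dg i) k))

variable {D} (h : D.OK)

include h in
lemma sep_aux (hs : D.SepOK) (i i' : Fin D.n) (j : Fin (D.dg i)) (j' : Fin (D.dg i'))
    (hd : ∀ w : Fin D.n, (w = i ∨ w = (toPLS0 h).nb i j ∨
      w = (toPLS0 h).nb i (((toPLS0 h).S i).nx j)) → ¬ (w = i' ∨ w = (toPLS0 h).nb i' j' ∨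
      w = (toPLS0 h).nb i' (((toPLS0 h).S i').nx j'))) (μ l μ' l' : ℝ) (h1 : 0 ≤ μ) (h2 : 0 ≤ l)
    (h3 : μ + l ≤ 1) (h1' : 0 ≤ μ') (h2' : 0 ≤ l') (h3' : μ' + l' ≤ 1) :
    (toPLS0 h).pt i j μ l ≠ (toPLS0 h).pt i' j' μ' l' := by
  intro heq
  rcases hs i i.2 j j.2 i' i'.2 j' j'.2 with ⟨w, hw, hw'⟩ | hS | hS
  · have hwn : w < D.n := by
      rcases hw with hw | hw | hw
      · rw [hw]; exact i.2
      · rw [hw]; exact h.nbn i i.2 j j.2
      · rw [hw]; exact h.nbn i i.2 _ ((nxE _ j).2)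
    refine hd ⟨w, hwn⟩ ?_ ?_
    · rcases hw with hw | hw | hw
      · exact Or.inl (Fin.ext hw)
      · exact Or.inr (Or.inl (Fin.ext hw))
      · exact Or.inr (Or.inr (Fin.ext hw))
    · rcases hw' with hw | hw | hw
      · exact Or.inl (Fin.ext hw)
      · exact Or.inr (Or.inl (Fin.ext hw))
      · exact Or.inr (Or.inr (Fin.ext hw))
  · exact hS.ne h1 h2 h3 h1' h2' h3' heq
  · exact hS.ne h1' h2' h3' h1 h2 h3 heq.symm

/-- the PL surface -/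
def toPLS (hs : D.SepOK) : PLS (Fin D.n) := (toPLS0 h).toPLS (fun i i' j j' hd μ l μ' l' =>
  sep_aux h hs i i' j j' hd μ l μ' l')

end Data

/-- affine functional in the projected space -/
def ev3 (g v : Z4) : ℤ := g.p + g.t * v.t + g.x * v.x + g.y * v.y

def ev3R (g : Z4) (w : ℝ × ℝ × ℝ) : ℝ := g.p + g.t * w.1 + g.x * w.2.1 + g.y * w.2.2

/-- some minor of the projected triangle is nonzero -/
def Mi (A B C : Z4) : Prop :=
  (B.t - A.t) * (C.x - A.x) - (B.x - A.x) * (C.t - A.t) ≠ 0 ∨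
  (B.t - A.t) * (C.y - A.y) - (B.y - A.y) * (C.t - A.t) ≠ 0 ∨
  (B.x - A.x) * (C.y - A.y) - (B.y - A.y) * (C.x - A.x) ≠ 0

/-- certificate for the wall condition -/
def WC (a tK : ℤ) (e0 e1 A B C : Z4) : Prop :=
  (A.t < a ∧ B.t < a ∧ C.t < a) ∨ (tK < A.t ∧ tK < B.t ∧ tK < C.t) ∨
  (∃ g : Z4, ev3 g e0 ≤ 0 ∧ ev3 g e1 ≤ 0 ∧ ev3 g e0 + ev3 g e1 < 0 ∧ 0 ≤ ev3 g A ∧
    0 ≤ ev3 g B ∧ 0 ≤ ev3 g C) ∨
  ((e0 = A ∨ e0 = B ∨ e0 = C) ∧ (e1 = A ∨ e1 = B ∨ e1 = C) ∧ Mi A B C)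

lemma pi3_V2E (v : Z4) : pi3 (V2E v) = ((v.t : ℝ), (v.x : ℝ), (v.y : ℝ)) := rfl

lemma WC.real {a tK : ℤ} {e0 e1 A B C : Z4} (h : WC a tK e0 e1 A B C)
    (he0 : e0.t < a ∨ tK < e0.t) (he1 : e1.t < a ∨ tK < e1.t) {x μ l : ℝ} (hx0 : 0 ≤ x)
    (hx1 : x ≤ 1) (h1 : 0 ≤ μ) (h2 : 0 ≤ l) (h3 : μ + l ≤ 1)
    (ha : (a : ℝ) ≤ (V2E e0 + x • (V2E e1 - V2E e0)) 0)
    (hK : (V2E e0 + x • (V2E e1 - V2E e0)) 0 ≤ (tK : ℝ))
    (hpi : pi3 (V2E A + (μ • (V2E B - V2E A) + l • (V2E C - V2E A))) =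
      pi3 (V2E e0 + x • (V2E e1 - V2E e0))) :
    V2E A + (μ • (V2E B - V2E A) + l • (V2E C - V2E A)) = V2E e0 + x • (V2E e1 - V2E e0) := by
  obtain ⟨z, hz⟩ : ∃ z, z = V2E e0 + x • (V2E e1 - V2E e0) := ⟨_, rfl⟩
  obtain ⟨z', hz'⟩ : ∃ z', z' = V2E A + (μ • (V2E B - V2E A) + l • (V2E C - V2E A)) := ⟨_, rfl⟩
  rw [← hz'] at hpi ⊢
  rw [← hz] at ha hK hpi ⊢
  have q0 : z' 0 = z 0 := congrArg (fun w : ℝ × ℝ × ℝ => w.1) hpi
  have q2 : z' 2 = z 2 := congrArg (fun w : ℝ × ℝ × ℝ => w.2.1) hpi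
  have q3 : z' 3 = z 3 := congrArg (fun w : ℝ × ℝ × ℝ => w.2.2) hpi
  have z0 : z 0 = (1 - x) * e0.t + x * e1.t := by
    rw [hz]; simp only [Pi.add_apply, Pi.smul_apply, Pi.sub_apply, smul_eq_mul, V2E_0]; ring
  have z2 : z 2 = (1 - x) * e0.x + x * e1.x := by
    rw [hz]; simp only [Pi.add_apply, Pi.smul_apply, Pi.sub_apply, smul_eq_mul, V2E_2]; ring
  have z3 : z 3 = (1 - x) * e0.y + x * e1.y := by
    rw [hz]; simp only [Pi.add_apply, Pi.smul_apply, Pi.sub_apply, smul_eq_mul, V2E_3]; ring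
  have z0' : z' 0 = (1 - μ - l) * A.t + μ * B.t + l * C.t := by
    rw [hz']; simp only [Pi.add_apply, Pi.smul_apply, Pi.sub_apply, smul_eq_mul, V2E_0]; ring
  have z2' : z' 2 = (1 - μ - l) * A.x + μ * B.x + l * C.x := by
    rw [hz']; simp only [Pi.add_apply, Pi.smul_apply, Pi.sub_apply, smul_eq_mul, V2E_2]; ring
  have z3' : z' 3 = (1 - μ - l) * A.y + μ * B.y + l * C.y := by
    rw [hz']; simp only [Pi.add_apply, Pi.smul_apply, Pi.sub_apply, smul_eq_mul, V2E_3]; ring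
  have hx0' : 0 < x := by
    rcases hx0.lt_or_eq with h | h
    · exact h
    · exfalso
      rw [← h] at z0
      rcases he0 with h' | h'
      · have : (e0.t : ℝ) < a := by exact_mod_cast h'
        linarith
      · have : (tK : ℝ) < e0.t := by exact_mod_cast h'
        linarith
  have hx1' : x < 1 := by
    rcases hx1.lt_or_eq with h | h
    · exact h
    · exfalso
      rw [h] at z0
      rcases he1 with h' | h'
      · have : (e1.t : ℝ) < a := by exact_mod_cast h'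
        linarith
      · have : (tK : ℝ) < e1.t := by exact_mod_cast h'
        linarith
  have hml : 0 ≤ 1 - μ - l := by linarith
  rcases h with ⟨c1, c2, c3⟩ | ⟨c1, c2, c3⟩ | ⟨g, c1, c2, c3, c4, c5, c6⟩ | ⟨c1, c2, c3⟩
  · exfalso
    have c1' : (A.t : ℝ) + 1 ≤ a := by exact_mod_cast c1
    have c2' : (B.t : ℝ) + 1 ≤ a := by exact_mod_cast c2
    have c3' : (C.t : ℝ) + 1 ≤ a := by exact_mod_cast c3
    nlinarith [mul_nonneg hml (sub_nonneg.2 c1'), mul_nonneg h1 (sub_nonneg.2 c2'),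
      mul_nonneg h2 (sub_nonneg.2 c3')]
  · exfalso
    have c1' : (tK : ℝ) + 1 ≤ A.t := by exact_mod_cast c1
    have c2' : (tK : ℝ) + 1 ≤ B.t := by exact_mod_cast c2
    have c3' : (tK : ℝ) + 1 ≤ C.t := by exact_mod_cast c3
    nlinarith [mul_nonneg hml (sub_nonneg.2 c1'), mul_nonneg h1 (sub_nonneg.2 c2'),
      mul_nonneg h2 (sub_nonneg.2 c3')]
  · exfalso
    have c1' : (ev3 g e0 : ℝ) ≤ 0 := by exact_mod_cast c1
    have c2' : (ev3 g e1 : ℝ) ≤ 0 := by exact_mod_cast c2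
    have c3' : (ev3 g e0 : ℝ) + ev3 g e1 < 0 := by exact_mod_cast c3
    have c4' : (0 : ℝ) ≤ ev3 g A := by exact_mod_cast c4
    have c5' : (0 : ℝ) ≤ ev3 g B := by exact_mod_cast c5
    have c6' : (0 : ℝ) ≤ ev3 g C := by exact_mod_cast c6
    have k1 : (g.p : ℝ) + g.t * z 0 + g.x * z 2 + g.y * z 3 =
        (1 - x) * ev3 g e0 + x * ev3 g e1 := by
      rw [z0, z2, z3]; unfold ev3; push_cast; ring
    have k2 : (g.p : ℝ) + g.t * z' 0 + g.x * z' 2 + g.y * z' 3 =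
        (1 - μ - l) * ev3 g A + μ * ev3 g B + l * ev3 g C := by
      rw [z0', z2', z3']; unfold ev3; push_cast; ring
    rw [q0, q2, q3, k1] at k2
    have k3 : 0 ≤ (1 - μ - l) * (ev3 g A : ℝ) + μ * ev3 g B + l * ev3 g C := by
      have := mul_nonneg hml c4'
      have := mul_nonneg h1 c5'
      have := mul_nonneg h2 c6'
      linarith
    have k4 : (1 - x) * (ev3 g e0 : ℝ) + x * ev3 g e1 < 0 := by
      have hx1'' : 0 < 1 - x := by linarith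
      rcases c1'.lt_or_eq with h | h
      · have := mul_neg_of_pos_of_neg hx1'' h
        have := mul_nonpos_of_nonneg_of_nonpos hx0 c2'
        linarith
      · have : (ev3 g e1 : ℝ) < 0 := by linarith
        have := mul_neg_of_pos_of_neg hx0' this
        rw [h]; linarith
    linarith
  · -- both ends belong to the triangle
    obtain ⟨s1, s2, hs⟩ : ∃ s1 s2 : ℝ, V2E e0 = V2E A + (s1 • (V2E B - V2E A) +
        s2 • (V2E C - V2E A)) := by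
      rcases c1 with c | c | c <;> subst c
      · exact ⟨0, 0, by simp⟩
      · exact ⟨1, 0, by simp⟩
      · exact ⟨0, 1, by simp⟩
    obtain ⟨t1, t2, ht⟩ : ∃ s1 s2 : ℝ, V2E e1 = V2E A + (s1 • (V2E B - V2E A) +
        s2 • (V2E C - V2E A)) := by
      rcases c2 with c | c | c <;> subst c
      · exact ⟨0, 0, by simp⟩
      · exact ⟨1, 0, by simp⟩
      · exact ⟨0, 1, by simp⟩
    obtain ⟨m1, hm1⟩ : ∃ m1, m1 = (1 - x) * s1 + x * t1 := ⟨_, rfl⟩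
    obtain ⟨m2, hm2⟩ : ∃ m2, m2 = (1 - x) * s2 + x * t2 := ⟨_, rfl⟩
    have hzm : z = V2E A + (m1 • (V2E B - V2E A) + m2 • (V2E C - V2E A)) := by
      rw [hz, hs, ht, hm1, hm2]; module
    have f0 : (μ - m1) * ((B.t : ℝ) - A.t) + (l - m2) * ((C.t : ℝ) - A.t) = 0 := by
      have : z 0 = A.t + (m1 * ((B.t : ℝ) - A.t) + m2 * ((C.t : ℝ) - A.t)) := by
        rw [hzm]; simp only [Pi.add_apply, Pi.smul_apply, Pi.sub_apply, smul_eq_mul, V2E_0]
      linarith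
    have f2 : (μ - m1) * ((B.x : ℝ) - A.x) + (l - m2) * ((C.x : ℝ) - A.x) = 0 := by
      have : z 2 = A.x + (m1 * ((B.x : ℝ) - A.x) + m2 * ((C.x : ℝ) - A.x)) := by
        rw [hzm]; simp only [Pi.add_apply, Pi.smul_apply, Pi.sub_apply, smul_eq_mul, V2E_2]
      linarith
    have f3 : (μ - m1) * ((B.y : ℝ) - A.y) + (l - m2) * ((C.y : ℝ) - A.y) = 0 := by
      have : z 3 = A.y + (m1 * ((B.y : ℝ) - A.y) + m2 * ((C.y : ℝ) - A.y)) := by
        rw [hzm]; simp only [Pi.add_apply, Pi.smul_apply, Pi.sub_apply, smul_eq_mul, V2E_3]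
      linarith
    have key : ∀ a b c d : ℝ, a * d - b * c ≠ 0 → (μ - m1) * a + (l - m2) * c = 0 →
        (μ - m1) * b + (l - m2) * d = 0 → μ = m1 ∧ l = m2 := by
      intro a b c d hne g1 g2
      have e1 : (μ - m1) * (a * d - b * c) = 0 := by linear_combination d * g1 - c * g2
      have e2 : (l - m2) * (a * d - b * c) = 0 := by linear_combination a * g2 - b * g1
      rcases mul_eq_zero.1 e1 with h | h
      · rcases mul_eq_zero.1 e2 with h' | h'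
        · exact ⟨by linarith, by linarith⟩
        · exact absurd h' hne
      · exact absurd h hne
    have hfin : μ = m1 ∧ l = m2 := by
      rcases c3 with c | c | c
      · refine key _ _ _ _ ?_ f0 f2
        intro hh; apply c; exact_mod_cast hh
      · refine key _ _ _ _ ?_ f0 f3
        intro hh; apply c; exact_mod_cast hh
      · refine key _ _ _ _ ?_ f2 f3
        intro hh; apply c; exact_mod_cast hh
    rw [hz', hzm, hfin.1, hfin.2]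

end

end Pool.Agent.TH622
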