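import Mathlib
import Pool.Agent.TH622.Dat1

/-! The wall from integer data. -/

open scoped ContDiff Topology
open Set Filter Metric

namespace Pool.Agent.TH622

noncomputable section

def lin3 (a b c : ℝ) : ℝ × ℝ × ℝ →L[ℝ] ℝ :=
  a • ContinuousLinearMap.fst ℝ ℝ (ℝ × ℝ) +
    b • (ContinuousLinearMap.fst ℝ ℝ ℝ).comp (ContinuousLinearMap.snd ℝ ℝ (ℝ × ℝ)) +
    c • (ContinuousLinearMap.snd ℝ ℝ ℝ).comp (ContinuousLinearMap.snd ℝ ℝ (ℝ × ℝ))

lemma lin3_apply (a b c : ℝ) (w : ℝ × ℝ × ℝ) : lin3 a b c w = a * w.1 + b * w.2.1 + c * w.2.2 := rfl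

structure WData where
  ts : ℤ
  a : ℤ
  tK : ℤ
  b : ℤ
  cp : ℕ → Bool
  H2 : ℕ → ℤ

def Q2 (ts : ℤ) (v : Z4) : ℤ := v.t * v.p - 2 * ts * v.p - v.x * v.y
def omV (v w : Z4) : ℤ := v.t * w.p - v.p * w.t + v.x * w.y - v.y * w.x
def lamI (ts : ℤ) (v w : Z4) : ℤ := (v.t - ts) * (w.p - v.p) - v.y * (w.x - v.x)
def LamI (v w w' : Z4) : ℤ := (w.t - v.t) * (w'.p - v.p) - (w.y - v.y) * (w'.x - v.x)

/-- cross product coefficients -/
def cr1 (v w A B : Z4) : ℤ := (w.x - v.x) * ((A.y - v.y) + (B.y - v.y)) -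
  (w.y - v.y) * ((A.x - v.x) + (B.x - v.x))
def cr2 (v w A B : Z4) : ℤ := (w.y - v.y) * ((A.t - v.t) + (B.t - v.t)) -
  (w.t - v.t) * ((A.y - v.y) + (B.y - v.y))
def cr3 (v w A B : Z4) : ℤ := (w.t - v.t) * ((A.x - v.x) + (B.x - v.x)) -
  (w.x - v.x) * ((A.t - v.t) + (B.t - v.t))
def cdet (v w A B : Z4) : ℤ := cr1 v w A B * (B.t - v.t) + cr2 v w A B * (B.x - v.x) +
  cr3 v w A B * (B.y - v.y)

structure WOK (D : Data) (w : WData) : Prop where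
  aK : w.a < w.tK
  Kb : w.tK < w.b
  Ks : w.tK < w.ts
  pot : ∀ i < D.n, ∀ k < D.dg i, w.cp i = true → w.cp (D.nb i k) = true →
    w.H2 (D.nb i k) - w.H2 i = Q2 w.ts (D.W i k) - Q2 w.ts (D.V i) + omV (D.V i) (D.W i k)
  ncp : ∀ i < D.n, w.cp i = false → w.b < (D.V i).t ∧ ∀ k < D.dg i, w.b < (D.W i k).t
  nv : ∀ i < D.n, (D.V i).t < w.a ∨ w.tK < (D.V i).t
  ft : ∀ i < D.n, ∀ k < D.dg i,
    ((D.V i).t < w.a ∧ (D.W i k).t < w.a ∧ (D.W i (nxN (D.dg i) k)).t < w.a) ∨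
    (w.tK < (D.V i).t ∧ w.tK < (D.W i k).t ∧ w.tK < (D.W i (nxN (D.dg i) k)).t) ∨
    (w.H2 i = 0 ∧ lamI w.ts (D.V i) (D.W i k) = 0 ∧
      lamI w.ts (D.V i) (D.W i (nxN (D.dg i) k)) = 0 ∧
      LamI (D.V i) (D.W i k) (D.W i k) = 0 ∧
      LamI (D.V i) (D.W i k) (D.W i (nxN (D.dg i) k)) = 0 ∧
      LamI (D.V i) (D.W i (nxN (D.dg i) k)) (D.W i k) = 0 ∧
      LamI (D.V i) (D.W i (nxN (D.dg i) k)) (D.W i (nxN (D.dg i) k)) = 0)
  ed : ∀ i < D.n, ∀ k < D.dg i,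
    ((D.V i).t < w.a ∧ (D.W i k).t < w.a) ∨ (w.tK < (D.V i).t ∧ w.tK < (D.W i k).t) ∨
    (LamI (D.V i) (D.W i (pvN (D.dg i) k)) (D.W i (nxN (D.dg i) k)) = 0 ∧
      LamI (D.V i) (D.W i (nxN (D.dg i) k)) (D.W i (pvN (D.dg i) k)) = 0) ∨
    (cdet (D.V i) (D.W i k) (D.W i (pvN (D.dg i) k)) (D.W i (nxN (D.dg i) k)) ≠ 0 ∧
      ∀ i' < D.n, ∀ k' < D.dg i', WC w.a w.tK (D.V i) (D.W i k) (D.V i') (D.W i' k')
        (D.W i' (nxN (D.dg i') k')))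

lemma lamZ_lamI (ts : ℤ) (v w : Z4) : lamZ ts (V2E v) (V2E w - V2E v) = (lamI ts v w : ℝ) := by
  unfold lamZ lamI; simp only [Pi.sub_apply, V2E_0, V2E_1, V2E_2, V2E_3]; push_cast; ring

lemma Lam_LamI (v w w' : Z4) : Lam (V2E w - V2E v) (V2E w' - V2E v) = (LamI v w w' : ℝ) := by
  unfold Lam LamI; simp only [Pi.sub_apply, V2E_0, V2E_1, V2E_2, V2E_3]; push_cast; ring

namespace Data

variable {D : Data} (h : D.OK) (hs : D.SepOK)

lemma vE (i : Fin D.n) : (toPLS h hs).v i = V2E (D.V i) := rfl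

lemma uE (i : Fin D.n) (k : Fin (D.dg i)) :
    (toPLS h hs).u i k = V2E (D.W i k) - V2E (D.V i) := rfl

lemma uE_nx (i : Fin D.n) (k : Fin (D.dg i)) :
    (toPLS h hs).u i (((toPLS h hs).S i).nx k) = V2E (D.W i (nxN (D.dg i) k)) - V2E (D.V i) := rfl

lemma uE_pv (i : Fin D.n) (k : Fin (D.dg i)) :
    (toPLS h hs).u i (((toPLS h hs).S i).pv k) = V2E (D.W i (pvN (D.dg i) k)) - V2E (D.V i) := rfl

variable {w : WData} (hw : WOK D w)

def Fp (D : Data) (w : WData) (i : Fin D.n) : ℝ := ((w.H2 i : ℝ) - Q2 w.ts (D.V i)) / 2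

def ellE (D : Data) (i : Fin D.n) (k : Fin (D.dg i)) : ℝ × ℝ × ℝ →L[ℝ] ℝ :=
  lin3 (cr1 (D.V i) (D.W i k) (D.W i (pvN (D.dg i) k)) (D.W i (nxN (D.dg i) k)) /
      cdet (D.V i) (D.W i k) (D.W i (pvN (D.dg i) k)) (D.W i (nxN (D.dg i) k)))
    (cr2 (D.V i) (D.W i k) (D.W i (pvN (D.dg i) k)) (D.W i (nxN (D.dg i) k)) /
      cdet (D.V i) (D.W i k) (D.W i (pvN (D.dg i) k)) (D.W i (nxN (D.dg i) k)))
    (cr3 (D.V i) (D.W i k) (D.W i (pvN (D.dg i) k)) (D.W i (nxN (D.dg i) k)) /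
      cdet (D.V i) (D.W i k) (D.W i (pvN (D.dg i) k)) (D.W i (nxN (D.dg i) k)))

lemma comb0 (A B C : Z4) (x y : ℝ) :
    (V2E A + (x • (V2E B - V2E A) + y • (V2E C - V2E A))) 0 =
      (1 - x - y) * A.t + x * B.t + y * C.t := by
  simp only [Pi.add_apply, Pi.smul_apply, Pi.sub_apply, smul_eq_mul, V2E_0]; ring

lemma Hv_eq (i : Fin D.n) : (toPLS h hs).Hv w.ts (Fp D w) i = (w.H2 i : ℝ) / 2 := by
  unfold PLS.Hv
  rw [vE]
  simp only [V2E_0, V2E_1, V2E_2, V2E_3]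
  unfold Fp Q2; push_cast; ring

def toWall : (toPLS h hs).Wall (Fp D w) {i | w.cp i = true} w.ts w.a w.tK w.b where
  haK := by exact_mod_cast hw.aK
  hKb := by exact_mod_cast hw.Kb
  hF := by
    intro i hi e he
    have h1 := hw.pot i i.2 (e : Fin (D.dg i)).1 (e : Fin (D.dg i)).2 hi he
    have h2 : ((w.H2 (D.nb i (e : Fin (D.dg i)).1) : ℝ) - w.H2 i) =
      Q2 w.ts (D.W i (e : Fin (D.dg i)).1) - Q2 w.ts (D.V i) +
        omV (D.V i) (D.W i (e : Fin (D.dg i)).1) := by exact_mod_cast h1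
    show ((w.H2 (D.nb i (e : Fin (D.dg i)).1) : ℝ) - Q2 w.ts (D.W i (e : Fin (D.dg i)).1)) / 2 -
      ((w.H2 i : ℝ) - Q2 w.ts (D.V i)) / 2 =
      om (V2E (D.V i)) (V2E (D.W i (e : Fin (D.dg i)).1)) / 2
    have h3 : om (V2E (D.V i)) (V2E (D.W i (e : Fin (D.dg i)).1)) =
        (omV (D.V i) (D.W i (e : Fin (D.dg i)).1) : ℝ) := by
      unfold om omV; simp only [V2E_0, V2E_1, V2E_2, V2E_3]; push_cast; ring
    rw [h3]; linarith
  hCp := by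
    intro i hi
    have hi' : w.cp i = false := by
      cases hc : w.cp i
      · rfl
      · exact absurd hc hi
    obtain ⟨h1, h2⟩ := hw.ncp i i.2 hi'
    refine ⟨?_, fun e => ?_⟩
    · show (w.b : ℝ) < V2E (D.V i) 0
      rw [V2E_0]; exact_mod_cast h1
    · show (w.b : ℝ) < V2E (D.W i (e : Fin (D.dg i)).1) 0
      rw [V2E_0]; exact_mod_cast h2 _ (e : Fin (D.dg i)).2
  hv := by
    intro i
    show V2E (D.V i) 0 < (w.a : ℝ) ∨ (w.tK : ℝ) < V2E (D.V i) 0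
    rw [V2E_0]; exact_mod_cast hw.nv i i.2
  flat := by
    intro i e x y hx hy hxy h1 h2
    have hml : 0 ≤ 1 - x - y := by linarith
    rcases hw.ft i i.2 (e : Fin (D.dg i)).1 (e : Fin (D.dg i)).2 with
      ⟨c1, c2, c3⟩ | ⟨c1, c2, c3⟩ | ⟨c0, c1, c2, c3, c4, c5, c6⟩
    · exfalso
      rw [vE, uE, uE_nx, comb0] at h1
      have c1' : ((D.V i).t : ℝ) + 1 ≤ w.a := by exact_mod_cast c1
      have c2' : ((D.W i (e : Fin (D.dg i)).1).t : ℝ) + 1 ≤ w.a := by exact_mod_cast c2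
      have c3' : ((D.W i (nxN (D.dg i) (e : Fin (D.dg i)).1)).t : ℝ) + 1 ≤ w.a := by
        exact_mod_cast c3
      nlinarith [mul_nonneg hml (sub_nonneg.2 c1'), mul_nonneg hx (sub_nonneg.2 c2'),
        mul_nonneg hy (sub_nonneg.2 c3')]
    · exfalso
      rw [vE, uE, uE_nx, comb0] at h2
      have c1' : (w.tK : ℝ) + 1 ≤ (D.V i).t := by exact_mod_cast c1
      have c2' : (w.tK : ℝ) + 1 ≤ (D.W i (e : Fin (D.dg i)).1).t := by exact_mod_cast c2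
      have c3' : (w.tK : ℝ) + 1 ≤ (D.W i (nxN (D.dg i) (e : Fin (D.dg i)).1)).t := by
        exact_mod_cast c3
      nlinarith [mul_nonneg hml (sub_nonneg.2 c1'), mul_nonneg hx (sub_nonneg.2 c2'),
        mul_nonneg hy (sub_nonneg.2 c3')]
    · refine ⟨?_, ?_, ?_, ?_, ?_, ?_, ?_⟩
      · rw [Hv_eq, c0]; simp
      · rw [vE, uE, lamZ_lamI, c1]; simp
      · rw [vE, uE_nx, lamZ_lamI, c2]; simp
      · rw [uE, Lam_LamI, c3]; simp
      · rw [uE, uE_nx, Lam_LamI, c4]; simp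
      · rw [uE_nx, uE, Lam_LamI, c5]; simp
      · rw [uE_nx, Lam_LamI, c6]; simp
  ell := fun i e => ellE D i e
  ed := by
    intro i e x hx hx1 h1 h2
    have hml : 0 ≤ 1 - x := by linarith
    have hz : ((toPLS h hs).v i + x • (toPLS h hs).u i e) 0 =
        (1 - x) * (D.V i).t + x * (D.W i (e : Fin (D.dg i)).1).t := by
      rw [vE, uE]
      simp only [Pi.add_apply, Pi.smul_apply, Pi.sub_apply, smul_eq_mul, V2E_0]; ring
    rcases hw.ed i i.2 (e : Fin (D.dg i)).1 (e : Fin (D.dg i)).2 with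
      ⟨c1, c2⟩ | ⟨c1, c2⟩ | ⟨c1, c2⟩ | ⟨c1, c2⟩
    · exfalso
      rw [hz] at h1
      have c1' : ((D.V i).t : ℝ) + 1 ≤ w.a := by exact_mod_cast c1
      have c2' : ((D.W i (e : Fin (D.dg i)).1).t : ℝ) + 1 ≤ w.a := by exact_mod_cast c2
      nlinarith [mul_nonneg hml (sub_nonneg.2 c1'), mul_nonneg hx (sub_nonneg.2 c2')]
    · exfalso
      rw [hz] at h2
      have c1' : (w.tK : ℝ) + 1 ≤ (D.V i).t := by exact_mod_cast c1
      have c2' : (w.tK : ℝ) + 1 ≤ (D.W i (e : Fin (D.dg i)).1).t := by exact_mod_cast c2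
      nlinarith [mul_nonneg hml (sub_nonneg.2 c1'), mul_nonneg hx (sub_nonneg.2 c2')]
    · left
      constructor
      · rw [uE_pv, uE_nx, Lam_LamI, c1]; simp
      · rw [uE_pv, uE_nx, Lam_LamI, c2]; simp
    · right
      have c1' : (cdet (D.V i) (D.W i (e : Fin (D.dg i)).1)
          (D.W i (pvN (D.dg i) (e : Fin (D.dg i)).1))
          (D.W i (nxN (D.dg i) (e : Fin (D.dg i)).1)) : ℝ) ≠ 0 := by exact_mod_cast c1
      refine ⟨?_, ?_, ?_, ?_⟩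
      · rw [uE, pi3_sub, pi3_V2E, pi3_V2E]
        show lin3 _ _ _ _ = 0
        rw [lin3_apply]
        simp only [Prod.fst_sub, Prod.snd_sub]
        field_simp
        unfold cr1 cr2 cr3; push_cast; ring
      · rw [uE_pv, pi3_sub, pi3_V2E, pi3_V2E]
        show lin3 _ _ _ _ = -1
        rw [lin3_apply]
        simp only [Prod.fst_sub, Prod.snd_sub]
        field_simp
        unfold cdet cr1 cr2 cr3; push_cast; ring
      · rw [uE_nx, pi3_sub, pi3_V2E, pi3_V2E]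
        show lin3 _ _ _ _ = 1
        rw [lin3_apply]
        simp only [Prod.fst_sub, Prod.snd_sub]
        field_simp
        unfold cdet cr1 cr2 cr3; push_cast; ring
      · intro x' hx' hx1' g1 g2 i' j' μ l hμ hl hml' hpi
        refine (c2 i' i'.2 (j' : Fin (D.dg i')).1 (j' : Fin (D.dg i')).2).real ?_ ?_ hx' hx1' hμ hl
          (by linarith) g1 g2 hpi
        · exact hw.nv i i.2
        · exact hw.nv _ (h.nbn i i.2 _ (e : Fin (D.dg i)).2)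

end Data

end

end Pool.Agent.TH622
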