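import Mathlib
import Pool.Agent.TH622.Dat2

/-! Boolean checkers. -/

open Set Filter Metric

namespace Pool.Agent.TH622

inductive BT (α : Type) where
  | lf : α → BT α
  | nd : BT α → BT α → BT α

def BT.get {α : Type} : BT α → ℕ → α
  | .lf x, _ => x
  | .nd l r, n => bif Nat.beq (n % 2) 0 then l.get (n / 2) else r.get (n / 2)

/-- vertex record -/
structure VR where
  v : Z4
  c : Z3
  d : ℕ
  l : List ℕ
  s : List ℕ
  cp : Bool
  h : ℤ

def nth : List ℕ → ℕ → ℕ
  | [], _ => 0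
  | a :: l, n => match n with
    | 0 => a
    | n + 1 => nth l n

def allN : ℕ → (ℕ → Bool) → Bool
  | 0, _ => true
  | n + 1, f => f n && allN n f

def anyN : ℕ → (ℕ → Bool) → Bool
  | 0, _ => false
  | n + 1, f => f n || anyN n f

lemma allN_spec {n : ℕ} {f : ℕ → Bool} (h : allN n f = true) : ∀ i < n, f i = true := by
  induction n with
  | zero => intro i hi; omega
  | succ n ih =>
    unfold allN at h
    rw [Bool.and_eq_true] at h
    intro i hi
    rcases Nat.lt_succ_iff_lt_or_eq.1 hi with h' | h'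
    · exact ih h.2 i h'
    · rw [h']; exact h.1

lemma anyN_spec {n : ℕ} {f : ℕ → Bool} (h : anyN n f = true) : ∃ i < n, f i = true := by
  induction n with
  | zero => unfold anyN at h; exact absurd h (by decide)
  | succ n ih =>
    unfold anyN at h
    rw [Bool.or_eq_true] at h
    rcases h with h | h
    · exact ⟨n, by omega, h⟩
    · obtain ⟨i, hi, h'⟩ := ih h
      exact ⟨i, by omega, h'⟩

def ilt (a b : ℤ) : Bool := decide (a < b)
def ile (a b : ℤ) : Bool := decide (a ≤ b)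
def ieq (a b : ℤ) : Bool := decide (a = b)
def ine (a b : ℤ) : Bool := !(decide (a = b))

lemma ilt_spec {a b : ℤ} (h : ilt a b = true) : a < b := of_decide_eq_true h
lemma ile_spec {a b : ℤ} (h : ile a b = true) : a ≤ b := of_decide_eq_true h
lemma ieq_spec {a b : ℤ} (h : ieq a b = true) : a = b := of_decide_eq_true h
lemma ine_spec {a b : ℤ} (h : ine a b = true) : a ≠ b := by
  unfold ine at h
  intro hh
  rw [decide_eq_true hh] at h
  exact absurd h (by decide)

lemma beq_spec {a b : ℕ} (h : Nat.beq a b = true) : a = b := Nat.eq_of_beq_eq_true h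
lemma blt_spec {a b : ℕ} (h : Nat.blt a b = true) : a < b := by rwa [Nat.blt_eq] at h

/-- data from a table -/
def mkD (n : ℕ) (tab : BT VR) : Data where
  n := n
  V i := (tab.get i).v
  C i := (tab.get i).c
  dg i := (tab.get i).d
  nb i k := nth (tab.get i).l k

section checks

variable (D : Data)

def cNb (i k : ℕ) : Bool := Nat.blt (D.nb i k) D.n
def cDet (i k : ℕ) : Bool := ilt 0 (d2 (D.V i) (D.W i k) (D.W i (nxN (D.dg i) k)) (D.C i))
def cLag (i k : ℕ) : Bool := ieq (omT (D.V i) (D.W i k) (D.W i (nxN (D.dg i) k))) 0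
def cDis (i k k' : ℕ) : Bool :=
  (ile (d2 (D.V i) (D.W i k') (D.W i (nxN (D.dg i) k)) (D.C i)) 0 &&
    ile (d2 (D.V i) (D.W i (nxN (D.dg i) k')) (D.W i (nxN (D.dg i) k)) (D.C i)) 0) ||
  (ile (d2 (D.V i) (D.W i k) (D.W i (nxN (D.dg i) k')) (D.C i)) 0 &&
    ile (d2 (D.V i) (D.W i (nxN (D.dg i) k)) (D.W i (nxN (D.dg i) k')) (D.C i)) 0)
def cTri (i j2 j3 : ℕ) : Bool :=
  ilt 0 (d2 (D.V i) (D.W i 0) (D.W i j2) (D.C i)) &&
    (ilt 0 (d2 (D.V i) (D.W i j2) (D.W i j3) (D.C i)) &&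
      ile 0 (d2 (D.V i) (D.W i j3) (D.W i 0) (D.C i)))
def cAdj (i k k' : ℕ) : Bool :=
  Nat.beq (D.nb (D.nb i k) k') i &&
  ((Nat.beq (D.nb (D.nb i k) (nxN (D.dg (D.nb i k)) k')) (D.nb i (nxN (D.dg i) k)) &&
    Nat.beq (D.nb (D.nb i k) (pvN (D.dg (D.nb i k)) k')) (D.nb i (pvN (D.dg i) k))) ||
   (Nat.beq (D.nb (D.nb i k) (nxN (D.dg (D.nb i k)) k')) (D.nb i (pvN (D.dg i) k)) &&
    Nat.beq (D.nb (D.nb i k) (pvN (D.dg (D.nb i k)) k')) (D.nb i (nxN (D.dg i) k))))

def chk1 (D : Data) : Bool := allN D.n fun i => allN (D.dg i) fun k =>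
  cNb D i k && (cDet D i k && cLag D i k)
def chk2 (D : Data) : Bool := allN D.n fun i => allN (D.dg i) fun k' => allN k' fun k => cDis D i k k'
def chk3 (D : Data) : Bool := allN D.n fun i =>
  anyN (D.dg i) fun j2 => anyN (D.dg i) fun j3 => cTri D i j2 j3
def chk4 (D : Data) : Bool := allN D.n fun i => allN (D.dg i) fun k =>
  anyN (D.dg (D.nb i k)) fun k' => cAdj D i k k'

end checks

theorem OK_of_chk {D : Data} (h1 : chk1 D = true) (h2 : chk2 D = true) (h3 : chk3 D = true)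
    (h4 : chk4 D = true) : D.OK := by
  have e1 : ∀ i < D.n, ∀ k < D.dg i, cNb D i k = true ∧ cDet D i k = true ∧ cLag D i k = true := by
    intro i hi k hk
    have := allN_spec (allN_spec h1 i hi) k hk
    simpa [Bool.and_eq_true] using this
  refine ⟨?_, ?_, ?_, ?_, ?_, ?_⟩
  · intro i hi k hk
    exact blt_spec (e1 i hi k hk).1
  · intro i hi k hk
    exact ilt_spec (e1 i hi k hk).2.1
  · intro i hi k hk
    exact ieq_spec (e1 i hi k hk).2.2
  · intro i hi k hk k' hk' hkk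
    have := allN_spec (allN_spec (allN_spec h2 i hi) k' hk') k hkk
    unfold cDis at this
    rw [Bool.or_eq_true, Bool.and_eq_true, Bool.and_eq_true] at this
    rcases this with ⟨a, b⟩ | ⟨a, b⟩
    · exact Or.inl ⟨ile_spec a, ile_spec b⟩
    · exact Or.inr ⟨ile_spec a, ile_spec b⟩
  · intro i hi
    have b := allN_spec h3 i hi
    obtain ⟨j2, hj2, b⟩ := anyN_spec b
    obtain ⟨j3, hj3, b⟩ := anyN_spec b
    unfold cTri at b
    rw [Bool.and_eq_true, Bool.and_eq_true] at b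
    exact ⟨j2, hj2, j3, hj3, ilt_spec b.1, ilt_spec b.2.1, ile_spec b.2.2⟩
  · intro i hi k hk
    have := allN_spec (allN_spec h4 i hi) k hk
    obtain ⟨k', hk', b⟩ := anyN_spec this
    unfold cAdj at b
    rw [Bool.and_eq_true, Bool.or_eq_true, Bool.and_eq_true, Bool.and_eq_true] at b
    refine ⟨k', hk', beq_spec b.1, ?_⟩
    rcases b.2 with ⟨c, d⟩ | ⟨c, d⟩
    · exact Or.inl ⟨beq_spec c, beq_spec d⟩
    · exact Or.inr ⟨beq_spec c, beq_spec d⟩

end Pool.Agent.TH622
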