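import Mathlib
import Pool.Agent.TH622.Chk0

/-! Vertex table (generated). -/

namespace Pool.Agent.TH622

def v0 : VR := ⟨⟨.ofNat 0, .ofNat 0, .ofNat 0, .ofNat 0⟩, ⟨.negSucc 79999999, .negSucc 199999999, .negSucc 19999999999⟩, 9, [11, 103, 153, 59, 35, 36, 1, 2, 3], [14, 17, 16, 12, 11, 10, 0, 1, 2], true, .ofNat 0⟩
def v1 : VR := ⟨⟨.ofNat 0, .ofNat 0, .ofNat 21, .ofNat 0⟩, ⟨.negSucc 9999999, .ofNat 400000000, .negSucc 39999999999⟩, 8, [2, 0, 36, 64, 154, 104, 12, 15], [0, 10, 13, 18, 19, 15, 4, 3], true, .ofNat 0⟩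
def v2 : VR := ⟨⟨.ofNat 0, .ofNat 153576000000, .ofNat 20, .ofNat 0⟩, ⟨.ofNat 30000000, .negSucc 3999999999, .negSucc 999999999999⟩, 5, [3, 0, 1, 15, 16], [1, 0, 3, 6, 5], true, .negSucc 12974100479999999⟩
def v3 : VR := ⟨⟨.ofNat 0, .ofNat 157680000000, .ofNat 1, .ofNat 0⟩, ⟨.ofNat 100000000, .negSucc 299999999, .negSucc 99999999999⟩, 6, [18, 11, 0, 2, 16, 17], [7, 2, 1, 5, 8, 9], true, .negSucc 13320806399999999⟩
def v4 : VR := ⟨⟨.ofNat 200, .negSucc 1574639999999, .ofNat 2, .negSucc 43199999999⟩, ⟨.negSucc 599999999, .ofNat 4000000000, .ofNat 2000000000000⟩, 6, [8, 5, 20, 19, 38, 13], [20, 33, 35, 36, 34, 21], true, .ofNat 132332745600000000⟩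
def v5 : VR := ⟨⟨.ofNat 200, .negSucc 1572479999999, .ofNat 3, .negSucc 43199999999⟩, ⟨.negSucc 79999999, .negSucc 1999999999, .ofNat 60000000000⟩, 5, [8, 22, 21, 20, 4], [37, 39, 38, 33, 20], true, .ofNat 132151219200000000⟩
def v6 : VR := ⟨⟨.ofNat 200, .negSucc 1561679999999, .ofNat 8, .negSucc 43199999999⟩, ⟨.negSucc 799999999, .negSucc 999999999, .ofNat 500000000000⟩, 5, [7, 24, 23, 29, 8], [40, 42, 43, 41, 22], true, .ofNat 131243587200000000⟩
def v7 : VR := ⟨⟨.ofNat 200, .negSucc 1553039999999, .ofNat 12, .negSucc 43199999999⟩, ⟨.negSucc 29999999999, .ofNat 4000000000, .ofNat 70000000000⟩, 6, [10, 26, 25, 24, 6, 8], [44, 46, 45, 40, 22, 23], true, .ofNat 130517481600000000⟩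
def v8 : VR := ⟨⟨.ofNat 200, .negSucc 18071999999, .ofNat 4, .negSucc 43199999999⟩, ⟨.negSucc 19999999999, .negSucc 799999999999, .negSucc 79999999999999⟩, 13, [17, 13, 4, 5, 22, 30, 42, 41, 29, 6, 7, 10, 16], [25, 21, 20, 37, 47, 50, 51, 49, 41, 22, 23, 24, 26], true, .ofNat 1456680960000000⟩
def v9 : VR := ⟨⟨.ofNat 200, .negSucc 71999999, .ofNat 20, .negSucc 30715199999999⟩, ⟨.negSucc 1999999, .ofNat 80000000, .negSucc 5999999999999⟩, 6, [15, 16, 10, 101, 104, 12], [29, 27, 55, 57, 56, 28], true, .negSucc 55376639999999⟩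
def v10 : VR := ⟨⟨.ofNat 200, .negSucc 71999999, .ofNat 20, .negSucc 43199999999⟩, ⟨.negSucc 9999999999, .negSucc 399999999999, .negSucc 9999999999999⟩, 9, [16, 8, 7, 26, 33, 58, 102, 101, 9], [24, 23, 44, 48, 52, 58, 59, 55, 27], true, .negSucc 55376639999999⟩
def v11 : VR := ⟨⟨.ofNat 200, .ofNat 0, .ofNat 0, .ofNat 31536000000000⟩, ⟨.negSucc 1999999, .negSucc 99999999, .ofNat 5000000000000⟩, 6, [18, 14, 106, 103, 0, 3], [30, 60, 61, 14, 2, 7], true, .ofNat 0⟩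
def v12 : VR := ⟨⟨.ofNat 200, .ofNat 0, .ofNat 21, .negSucc 30715199999999⟩, ⟨.negSucc 39999999, .ofNat 500000000, .ofNat 2000000000000⟩, 4, [1, 104, 9, 15], [15, 56, 28, 4], true, .ofNat 0⟩
def v13 : VR := ⟨⟨.ofNat 200, .ofNat 72000000, .ofNat 1, .negSucc 43199999999⟩, ⟨.negSucc 19999999999, .ofNat 1000000000000, .negSucc 69999999999999⟩, 7, [17, 18, 14, 65, 38, 4, 8], [32, 31, 53, 54, 34, 21, 25], true, .negSucc 69125759999999⟩
def v14 : VR := ⟨⟨.ofNat 200, .ofNat 72000000, .ofNat 1, .ofNat 31536000000000⟩, ⟨.negSucc 19999999, .ofNat 6000000000, .negSucc 5999999999999⟩, 6, [18, 11, 106, 105, 65, 13], [30, 60, 63, 62, 53, 31], true, .negSucc 69125759999999⟩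
def v15 : VR := ⟨⟨.ofNat 200, .ofNat 153576000000, .ofNat 20, .negSucc 30715199999999⟩, ⟨.negSucc 1999999999, .negSucc 79999999999, .negSucc 79999999999999⟩, 5, [2, 16, 9, 12, 1], [6, 29, 28, 4, 3], true, .negSucc 12974100479999999⟩
def v16 : VR := ⟨⟨.ofNat 200, .ofNat 153576000000, .ofNat 20, .negSucc 43199999999⟩, ⟨.negSucc 499999999, .ofNat 3000000000, .negSucc 999999999999⟩, 7, [3, 17, 8, 10, 9, 15, 2], [8, 26, 24, 27, 29, 6, 5], true, .negSucc 12974100479999999⟩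
def v17 : VR := ⟨⟨.ofNat 200, .ofNat 157680000000, .ofNat 1, .negSucc 43199999999⟩, ⟨.negSucc 699999999, .ofNat 70000000, .negSucc 6999999999999⟩, 5, [3, 18, 13, 8, 16], [9, 32, 25, 26, 8], true, .negSucc 13320806399999999⟩
def v18 : VR := ⟨⟨.ofNat 200, .ofNat 157680000000, .ofNat 1, .ofNat 31536000000000⟩, ⟨.negSucc 999999999, .negSucc 299999999999, .negSucc 39999999999999⟩, 5, [3, 11, 14, 13, 17], [7, 30, 31, 32, 9], true, .negSucc 13320806399999999⟩
def v19 : VR := ⟨⟨.ofNat 220, .negSucc 1574639999999, .ofNat 2, .negSucc 31537439999999⟩, ⟨.ofNat 220000000, .ofNat 1600000000000, .ofNat 64000000000000⟩, 5, [34, 35, 20, 4, 38], [65, 64, 35, 36, 66], true, .ofNat 132332745600000000⟩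
def v20 : VR := ⟨⟨.ofNat 220, .negSucc 1574639999999, .ofNat 2, .ofNat 0⟩, ⟨.ofNat 7000000000, .ofNat 40000000000, .ofNat 10000000000000⟩, 6, [35, 27, 21, 5, 4, 19], [68, 67, 38, 33, 35, 64], true, .ofNat 132332745600000000⟩
def v21 : VR := ⟨⟨.ofNat 220, .negSucc 1572479999999, .ofNat 3, .ofNat 0⟩, ⟨.ofNat 70000000, .negSucc 999999999, .ofNat 100000000000⟩, 5, [27, 28, 22, 5, 20], [70, 69, 39, 38, 67], true, .ofNat 132151219200000000⟩
def v22 : VR := ⟨⟨.ofNat 220, .negSucc 1572479999999, .ofNat 3, .ofNat 31044960000000⟩, ⟨.ofNat 80000000000, .negSucc 1999999999999, .ofNat 7000000000000⟩, 5, [28, 30, 8, 5, 21], [71, 47, 37, 39, 69], true, .ofNat 132151219200000000⟩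
def v23 : VR := ⟨⟨.ofNat 220, .negSucc 1561679999999, .ofNat 8, .negSucc 7761239999999⟩, ⟨.ofNat 90000000000, .ofNat 500000000000, .ofNat 2000000000000⟩, 5, [31, 32, 24, 6, 29], [74, 72, 42, 43, 73], true, .ofNat 131243587200000000⟩
def v24 : VR := ⟨⟨.ofNat 220, .negSucc 1561679999999, .ofNat 8, .ofNat 0⟩, ⟨.ofNat 4000000000, .ofNat 10000000000, .ofNat 100000000000⟩, 5, [32, 25, 7, 6, 23], [75, 45, 40, 42, 72], true, .ofNat 131243587200000000⟩
def v25 : VR := ⟨⟨.ofNat 220, .negSucc 1553039999999, .ofNat 12, .ofNat 0⟩, ⟨.ofNat 200000000, .negSucc 1999999999, .ofNat 2000000000000⟩, 6, [36, 37, 26, 7, 24, 32], [78, 76, 46, 45, 75, 77], true, .ofNat 130517481600000000⟩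
def v26 : VR := ⟨⟨.ofNat 220, .negSucc 1553039999999, .ofNat 12, .ofNat 3839220000000⟩, ⟨.ofNat 8000000000, .negSucc 199999999999, .ofNat 10000000000000⟩, 5, [37, 33, 10, 7, 25], [79, 48, 44, 46, 76], true, .ofNat 130517481600000000⟩
def v27 : VR := ⟨⟨.ofNat 220, .negSucc 20023199999, .ofNat 3, .ofNat 0⟩, ⟨.ofNat 1000000000, .ofNat 1000000000000, .ofNat 900000000000000⟩, 6, [32, 39, 28, 21, 20, 35], [83, 82, 70, 67, 68, 80], true, .ofNat 1682749728000000⟩
def v28 : VR := ⟨⟨.ofNat 220, .negSucc 20023199999, .ofNat 3, .ofNat 31044960000000⟩, ⟨.ofNat 800000000, .ofNat 5000000000, .ofNat 3000000000000⟩, 6, [40, 30, 22, 21, 27, 39], [84, 71, 69, 70, 82, 85], true, .ofNat 1682749728000000⟩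
def v29 : VR := ⟨⟨.ofNat 220, .negSucc 18071999999, .ofNat 4, .negSucc 7761239999999⟩, ⟨.ofNat 600000000, .negSucc 999999999, .negSucc 299999999999⟩, 5, [41, 8, 6, 23, 31], [49, 41, 43, 73, 86], true, .ofNat 1456680960000000⟩
def v30 : VR := ⟨⟨.ofNat 220, .negSucc 18071999999, .ofNat 4, .ofNat 31044960000000⟩, ⟨.ofNat 3000000, .negSucc 1999999999, .negSucc 19999999999999⟩, 5, [40, 28, 22, 8, 42], [84, 71, 47, 50, 87], true, .ofNat 1456680960000000⟩
def v31 : VR := ⟨⟨.ofNat 220, .negSucc 9921599999, .ofNat 8, .negSucc 7761239999999⟩, ⟨.ofNat 10000000, .negSucc 199999999, .ofNat 1000000000000⟩, 5, [43, 32, 23, 29, 41], [88, 74, 73, 86, 89], true, .ofNat 833811264000000⟩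
def v32 : VR := ⟨⟨.ofNat 220, .negSucc 9921599999, .ofNat 8, .ofNat 0⟩, ⟨.ofNat 400000000, .negSucc 39999999999, .ofNat 2000000000000⟩, 10, [36, 25, 24, 23, 31, 43, 44, 39, 27, 35], [77, 75, 72, 74, 88, 91, 90, 83, 80, 81], true, .ofNat 833811264000000⟩
def v33 : VR := ⟨⟨.ofNat 220, .negSucc 71999999, .ofNat 20, .ofNat 3839220000000⟩, ⟨.ofNat 7000000, .negSucc 29999999, .negSucc 999999999999⟩, 4, [37, 26, 10, 58], [79, 48, 52, 92], true, .negSucc 55376639999999⟩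
def v34 : VR := ⟨⟨.ofNat 220, .ofNat 0, .ofNat 2, .negSucc 31537439999999⟩, ⟨.ofNat 50000000, .ofNat 200000000, .ofNat 5000000000000⟩, 5, [60, 61, 35, 19, 38], [95, 93, 65, 66, 94], true, .ofNat 0⟩
def v35 : VR := ⟨⟨.ofNat 220, .ofNat 0, .ofNat 2, .ofNat 0⟩, ⟨.ofNat 3000000, .negSucc 3999999999, .ofNat 400000000000⟩, 9, [0, 36, 32, 27, 20, 19, 34, 61, 59], [11, 81, 80, 68, 64, 65, 93, 96, 12], true, .ofNat 0⟩
def v36 : VR := ⟨⟨.ofNat 220, .ofNat 0, .ofNat 12, .ofNat 0⟩, ⟨.ofNat 60000000, .ofNat 6000000000, .ofNat 200000000000⟩, 9, [1, 64, 62, 63, 37, 25, 32, 35, 0], [13, 99, 98, 97, 78, 77, 81, 11, 10], true, .ofNat 0⟩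
def v37 : VR := ⟨⟨.ofNat 220, .ofNat 0, .ofNat 12, .ofNat 3839220000000⟩, ⟨.ofNat 40000000, .ofNat 9000000, .ofNat 30000000000⟩, 6, [63, 58, 33, 26, 25, 36], [100, 92, 79, 76, 78, 97], true, .ofNat 0⟩
def v38 : VR := ⟨⟨.ofNat 220, .ofNat 72000000, .ofNat 1, .negSucc 31537439999999⟩, ⟨.ofNat 10000000, .ofNat 20000000, .negSucc 599999999999⟩, 6, [13, 4, 19, 34, 60, 65], [34, 36, 66, 94, 101, 54], true, .negSucc 69125759999999⟩
def v39 : VR := ⟨⟨.ofNat 2220, .negSucc 20023199999, .ofNat 3, .ofNat 4040640000000⟩, ⟨.ofNat 20000000, .ofNat 2000000000, .negSucc 3999999999999⟩, 7, [45, 46, 40, 28, 27, 32, 44], [104, 102, 85, 82, 83, 90, 103], true, .ofNat 1682749728000000⟩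
def v40 : VR := ⟨⟨.ofNat 2220, .negSucc 20023199999, .ofNat 3, .ofNat 34947360000000⟩, ⟨.ofNat 6000000, .negSucc 999999999, .ofNat 3000000000000⟩, 5, [46, 42, 30, 28, 39], [105, 87, 84, 85, 102], true, .ofNat 1682749728000000⟩
def v41 : VR := ⟨⟨.ofNat 2220, .negSucc 18071999999, .ofNat 4, .negSucc 3686039999999⟩, ⟨.ofNat 90000000, .negSucc 899999999, .negSucc 3999999999999⟩, 8, [49, 56, 42, 8, 29, 31, 43, 47], [116, 115, 51, 49, 86, 89, 106, 110], true, .ofNat 1456680960000000⟩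
def v42 : VR := ⟨⟨.ofNat 2220, .negSucc 18071999999, .ofNat 4, .ofNat 34947360000000⟩, ⟨.ofNat 80000000, .negSucc 499999999, .negSucc 39999999999999⟩, 7, [46, 40, 30, 8, 41, 56, 57], [105, 87, 50, 51, 115, 118, 117], true, .ofNat 1456680960000000⟩
def v43 : VR := ⟨⟨.ofNat 2220, .negSucc 9921599999, .ofNat 8, .negSucc 3686039999999⟩, ⟨.ofNat 30000000, .ofNat 3000000000, .ofNat 2000000000000⟩, 6, [47, 48, 44, 32, 31, 41], [108, 107, 91, 88, 89, 106], true, .ofNat 833811264000000⟩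
def v44 : VR := ⟨⟨.ofNat 2220, .negSucc 9921599999, .ofNat 8, .ofNat 4040640000000⟩, ⟨.ofNat 20000000, .ofNat 5000000000, .negSucc 3999999999999⟩, 5, [48, 45, 39, 32, 43], [109, 103, 90, 91, 107], true, .ofNat 833811264000000⟩
def v45 : VR := ⟨⟨.ofNat 2220, .ofNat 36000000000, .ofNat 3, .ofNat 4040640000000⟩, ⟨.ofNat 400000000, .negSucc 59999999, .negSucc 2999999999999⟩, 7, [77, 46, 39, 44, 48, 51, 76], [119, 104, 103, 109, 111, 120, 121], true, .negSucc 2801347199999999⟩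
def v46 : VR := ⟨⟨.ofNat 2220, .ofNat 36000000000, .ofNat 3, .ofNat 34947360000000⟩, ⟨.ofNat 5000000000, .ofNat 40000000000, .ofNat 60000000000000⟩, 6, [57, 42, 40, 39, 45, 77], [117, 105, 102, 104, 119, 122], true, .negSucc 2801347199999999⟩
def v47 : VR := ⟨⟨.ofNat 2220, .ofNat 36000000000, .ofNat 8, .negSucc 3686039999999⟩, ⟨.ofNat 210000000, .negSucc 13999999999, .ofNat 25000000000⟩, 5, [48, 43, 41, 49, 50], [108, 106, 110, 113, 112], true, .negSucc 2841753599999999⟩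
def v48 : VR := ⟨⟨.ofNat 2220, .ofNat 36000000000, .ofNat 8, .ofNat 4040640000000⟩, ⟨.ofNat 700000000, .ofNat 6000000000, .negSucc 3999999999999⟩, 6, [51, 45, 44, 43, 47, 50], [111, 109, 107, 108, 112, 114], true, .negSucc 2841753599999999⟩
def v49 : VR := ⟨⟨.ofNat 2230, .negSucc 18071999999, .ofNat 4, .negSucc 3550859999999⟩, ⟨.ofNat 800000000, .negSucc 9999999999, .negSucc 89999999999⟩, 5, [56, 41, 47, 50, 54], [116, 110, 113, 123, 128], true, .ofNat 1456680960000000⟩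
def v50 : VR := ⟨⟨.ofNat 2230, .ofNat 36000000000, .ofNat 8, .negSucc 3550859999999⟩, ⟨.ofNat 300000000000, .ofNat 500000000000, .ofNat 80000000000000⟩, 6, [54, 55, 51, 48, 47, 49], [125, 124, 114, 112, 113, 123], true, .negSucc 2841753599999999⟩
def v51 : VR := ⟨⟨.ofNat 2230, .ofNat 36000000000, .ofNat 8, .ofNat 4040640000000⟩, ⟨.ofNat 3000000000, .ofNat 30000000000, .ofNat 200000000000⟩, 8, [55, 53, 52, 79, 76, 45, 48, 50], [127, 126, 129, 130, 120, 111, 114, 124], true, .negSucc 2841753599999999⟩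
def v52 : VR := ⟨⟨.ofNat 2230, .ofNat 36000000000, .ofNat 13, .ofNat 4040640000000⟩, ⟨.negSucc 69999999, .ofNat 200000000, .negSucc 69999999999⟩, 5, [53, 51, 79, 78, 81], [126, 129, 132, 133, 131], true, .negSucc 2882159999999999⟩
def v53 : VR := ⟨⟨.ofNat 2230, .ofNat 332064000000, .ofNat 12, .ofNat 4040640000000⟩, ⟨.ofNat 4900000000, .ofNat 360000000000, .ofNat 1700000000000⟩, 6, [80, 81, 52, 51, 55, 82], [135, 131, 126, 127, 134, 136], true, .negSucc 26565119999999999⟩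
def v54 : VR := ⟨⟨.ofNat 2230, .ofNat 1675296000000, .ofNat 8, .negSucc 3550859999999⟩, ⟨.ofNat 100000000000, .negSucc 299999999999, .ofNat 600000000000⟩, 5, [82, 55, 50, 49, 56], [137, 125, 123, 128, 138], true, .negSucc 134018219519999999⟩
def v55 : VR := ⟨⟨.ofNat 2230, .ofNat 1675296000000, .ofNat 8, .ofNat 4040640000000⟩, ⟨.ofNat 70000000000, .ofNat 500000000000, .ofNat 2000000000000⟩, 5, [82, 53, 51, 50, 54], [134, 127, 124, 125, 137], true, .negSucc 134018219519999999⟩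
def v56 : VR := ⟨⟨.ofNat 2240, .negSucc 18071999999, .ofNat 4, .ofNat 682560000000⟩, ⟨.negSucc 79999999999, .negSucc 499999999999, .negSucc 4999999999999⟩, 9, [49, 41, 42, 57, 84, 83, 73, 82, 54], [116, 115, 118, 162, 164, 163, 139, 138, 128], true, .ofNat 1456680960000000⟩
def v57 : VR := ⟨⟨.ofNat 2240, .negSucc 18071999999, .ofNat 4, .ofNat 33865920000000⟩, ⟨.negSucc 25999999999, .ofNat 770000000000, .negSucc 22999999999999⟩, 6, [46, 77, 75, 84, 56, 42], [122, 140, 165, 162, 118, 117], true, .ofNat 1456680960000000⟩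
def v58 : VR := ⟨⟨.ofNat 2240, .negSucc 71999999, .ofNat 20, .ofNat 3821040000000⟩, ⟨.ofNat 300000, .negSucc 9999999, .negSucc 99999999999⟩, 6, [69, 63, 37, 33, 10, 102], [141, 100, 92, 52, 58, 169], true, .negSucc 55376639999999⟩
def v59 : VR := ⟨⟨.ofNat 2240, .ofNat 0, .ofNat 0, .ofNat 0⟩, ⟨.ofNat 20000000, .negSucc 19999999, .negSucc 499999999999⟩, 6, [153, 0, 35, 61, 184, 183], [16, 12, 96, 195, 197, 196], true, .ofNat 0⟩
def v60 : VR := ⟨⟨.ofNat 2240, .ofNat 0, .ofNat 2, .negSucc 31682879999999⟩, ⟨.ofNat 4000000, .ofNat 1000000000, .ofNat 200000000000000⟩, 6, [70, 71, 61, 34, 38, 65], [144, 142, 95, 94, 101, 143], true, .ofNat 0⟩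
def v61 : VR := ⟨⟨.ofNat 2240, .ofNat 0, .ofNat 2, .ofNat 0⟩, ⟨.ofNat 30000000, .ofNat 20000000000, .ofNat 8000000000000⟩, 9, [71, 62, 168, 166, 184, 59, 35, 34, 60], [145, 190, 191, 198, 195, 96, 93, 95, 142], true, .ofNat 0⟩
def v62 : VR := ⟨⟨.ofNat 2240, .ofNat 0, .ofNat 12, .ofNat 0⟩, ⟨.ofNat 200000, .negSucc 299999999, .ofNat 200000000000⟩, 9, [72, 73, 68, 63, 36, 64, 168, 61, 71], [149, 147, 146, 98, 99, 192, 190, 145, 148], true, .ofNat 0⟩
def v63 : VR := ⟨⟨.ofNat 2240, .ofNat 0, .ofNat 12, .ofNat 3821040000000⟩, ⟨.ofNat 600000, .ofNat 200000000, .ofNat 800000000000⟩, 6, [69, 58, 37, 36, 62, 68], [141, 100, 97, 98, 146, 150], true, .ofNat 0⟩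
def v64 : VR := ⟨⟨.ofNat 2240, .ofNat 0, .ofNat 21, .ofNat 0⟩, ⟨.ofNat 3000000, .ofNat 200000000, .negSucc 9999999999⟩, 6, [154, 167, 168, 62, 36, 1], [193, 194, 192, 99, 13, 18], true, .ofNat 0⟩
def v65 : VR := ⟨⟨.ofNat 2240, .ofNat 72000000, .ofNat 1, .negSucc 31682879999999⟩, ⟨.ofNat 20000000, .ofNat 1000000000, .negSucc 1999999999999⟩, 6, [105, 14, 13, 38, 60, 70], [62, 53, 54, 101, 143, 170], true, .negSucc 69125759999999⟩
def v66 : VR := ⟨⟨.ofNat 2240, .ofNat 864000000, .ofNat 13, .ofNat 1080000000000⟩, ⟨.negSucc 999999, .ofNat 30000000, .ofNat 200000000000⟩, 6, [78, 79, 67, 124, 107, 68], [153, 151, 184, 185, 171, 152], true, .negSucc 71279999999999⟩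
def v67 : VR := ⟨⟨.ofNat 2240, .ofNat 864000000, .ofNat 13, .ofNat 4040640000000⟩, ⟨.negSucc 29999999, .ofNat 100000000, .negSucc 999999999999⟩, 4, [79, 74, 124, 66], [154, 186, 184, 151], true, .negSucc 71279999999999⟩
def v68 : VR := ⟨⟨.ofNat 2240, .ofNat 900000000, .ofNat 12, .ofNat 1080000000000⟩, ⟨.ofNat 4000000, .ofNat 7000000000, .ofNat 10000000000000⟩, 10, [81, 78, 66, 107, 108, 109, 69, 63, 62, 73], [156, 152, 171, 173, 174, 172, 150, 146, 147, 155], true, .negSucc 71999999999999⟩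
def v69 : VR := ⟨⟨.ofNat 2240, .ofNat 900000000, .ofNat 12, .ofNat 3821040000000⟩, ⟨.ofNat 9000000, .negSucc 999999999, .ofNat 4000000000000⟩, 5, [102, 58, 63, 68, 109], [169, 141, 150, 172, 175], true, .negSucc 71999999999999⟩
def v70 : VR := ⟨⟨.ofNat 2240, .ofNat 1663200000, .ofNat 2, .negSucc 31682879999999⟩, ⟨.ofNat 1000000, .negSucc 1999999999, .ofNat 3000000000000⟩, 5, [71, 60, 65, 105, 110], [144, 143, 170, 177, 176], true, .negSucc 133055999999999⟩
def v71 : VR := ⟨⟨.ofNat 2240, .ofNat 1663200000, .ofNat 2, .ofNat 0⟩, ⟨.ofNat 20000, .ofNat 40000000, .ofNat 600000000000⟩, 8, [110, 111, 112, 72, 62, 61, 60, 70], [179, 180, 178, 148, 145, 142, 144, 176], true, .negSucc 133055999999999⟩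
def v72 : VR := ⟨⟨.ofNat 2240, .ofNat 1800000000, .ofNat 12, .ofNat 0⟩, ⟨.ofNat 40000000, .negSucc 19999999, .ofNat 5000000000000⟩, 4, [73, 62, 71, 112], [149, 148, 178, 181], true, .negSucc 143999999999999⟩
def v73 : VR := ⟨⟨.ofNat 2240, .ofNat 1800000000, .ofNat 12, .ofNat 682560000000⟩, ⟨.ofNat 170000000, .negSucc 10999999999, .ofNat 390000000000⟩, 11, [80, 81, 68, 62, 72, 112, 113, 85, 83, 56, 82], [157, 155, 147, 149, 181, 183, 182, 166, 163, 139, 158], true, .negSucc 143999999999999⟩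
def v74 : VR := ⟨⟨.ofNat 2240, .ofNat 2088000000, .ofNat 3, .ofNat 4040640000000⟩, ⟨.negSucc 39999999, .negSucc 5999999999, .negSucc 5999999999999⟩, 9, [76, 77, 75, 88, 126, 125, 124, 67, 79], [160, 159, 167, 187, 189, 188, 186, 154, 161], true, .negSucc 88387199999999⟩
def v75 : VR := ⟨⟨.ofNat 2240, .ofNat 2088000000, .ofNat 3, .ofNat 33865920000000⟩, ⟨.negSucc 99999999, .ofNat 20000000000, .ofNat 700000000000⟩, 5, [77, 57, 84, 88, 74], [140, 165, 168, 167, 159], true, .negSucc 88387199999999⟩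
def v76 : VR := ⟨⟨.ofNat 2240, .ofNat 36000000000, .ofNat 3, .ofNat 4040640000000⟩, ⟨.negSucc 49999999, .negSucc 59999999, .negSucc 99999999999⟩, 5, [45, 77, 74, 79, 51], [121, 160, 161, 130, 120], true, .negSucc 2801347199999999⟩
def v77 : VR := ⟨⟨.ofNat 2240, .ofNat 36000000000, .ofNat 3, .ofNat 33865920000000⟩, ⟨.negSucc 299999999, .negSucc 9999999999, .ofNat 100000000000000⟩, 6, [46, 57, 75, 74, 76, 45], [122, 140, 159, 160, 121, 119], true, .negSucc 2801347199999999⟩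
def v78 : VR := ⟨⟨.ofNat 2240, .ofNat 36000000000, .ofNat 13, .ofNat 1080000000000⟩, ⟨.negSucc 199999999, .ofNat 10000000000, .ofNat 100000000000000⟩, 5, [52, 79, 66, 68, 81], [132, 153, 152, 156, 133], true, .negSucc 2882159999999999⟩
def v79 : VR := ⟨⟨.ofNat 2240, .ofNat 36000000000, .ofNat 13, .ofNat 4040640000000⟩, ⟨.negSucc 299999999, .negSucc 89999999, .negSucc 49999999999⟩, 7, [52, 51, 76, 74, 67, 66, 78], [129, 130, 161, 154, 151, 153, 132], true, .negSucc 2882159999999999⟩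
def v80 : VR := ⟨⟨.ofNat 2240, .ofNat 332064000000, .ofNat 12, .ofNat 682560000000⟩, ⟨.negSucc 6999999999, .ofNat 300000000000, .ofNat 40000000000000⟩, 4, [53, 81, 73, 82], [135, 157, 158, 136], true, .negSucc 26565119999999999⟩
def v81 : VR := ⟨⟨.ofNat 2240, .ofNat 332064000000, .ofNat 12, .ofNat 1080000000000⟩, ⟨.negSucc 29999999999, .negSucc 99999999999, .ofNat 4000000000000⟩, 6, [53, 52, 78, 68, 73, 80], [131, 133, 156, 155, 157, 135], true, .negSucc 26565119999999999⟩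
def v82 : VR := ⟨⟨.ofNat 2240, .ofNat 1675296000000, .ofNat 8, .ofNat 682560000000⟩, ⟨.negSucc 2999999999, .ofNat 200000000000, .ofNat 8000000000000⟩, 6, [55, 53, 80, 73, 56, 54], [134, 136, 158, 139, 138, 137], true, .negSucc 134018219519999999⟩
def v83 : VR := ⟨⟨.ofNat 2260, .negSucc 18071999999, .ofNat 4, .ofNat 732240000000⟩, ⟨.ofNat 90000000, .negSucc 1999999999, .negSucc 299999999999⟩, 6, [86, 87, 84, 56, 73, 85], [201, 199, 164, 163, 166, 200], true, .ofNat 1456680960000000⟩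
def v84 : VR := ⟨⟨.ofNat 2260, .negSucc 18071999999, .ofNat 4, .ofNat 33462720000000⟩, ⟨.ofNat 200000000, .ofNat 20000000000, .negSucc 29999999999999⟩, 6, [87, 88, 75, 57, 56, 83], [202, 168, 165, 162, 164, 199], true, .ofNat 1456680960000000⟩
def v85 : VR := ⟨⟨.ofNat 2260, .ofNat 1800000000, .ofNat 12, .ofNat 732240000000⟩, ⟨.ofNat 2000000, .negSucc 299999999, .negSucc 399999999999⟩, 4, [86, 83, 73, 113], [200, 166, 182, 203], true, .negSucc 143999999999999⟩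
def v86 : VR := ⟨⟨.ofNat 2260, .ofNat 1958400000, .ofNat 4, .ofNat 732240000000⟩, ⟨.ofNat 7000000, .negSucc 799999999, .negSucc 3999999999999⟩, 6, [115, 87, 83, 85, 113, 114], [204, 201, 200, 203, 205, 206], true, .negSucc 144949823999999⟩
def v87 : VR := ⟨⟨.ofNat 2260, .ofNat 1958400000, .ofNat 4, .ofNat 33462720000000⟩, ⟨.ofNat 3000000, .negSucc 199999999, .negSucc 3999999999999⟩, 5, [88, 84, 83, 86, 115], [202, 199, 201, 204, 207], true, .negSucc 144949823999999⟩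
def v88 : VR := ⟨⟨.ofNat 2260, .ofNat 2088000000, .ofNat 3, .ofNat 33462720000000⟩, ⟨.negSucc 699999, .negSucc 2999999999, .negSucc 6999999999999⟩, 7, [75, 84, 87, 115, 116, 126, 74], [168, 202, 207, 208, 209, 187, 167], true, .negSucc 88387199999999⟩
def v89 : VR := ⟨⟨.ofNat 22240, .negSucc 1799999999, .ofNat 12, .ofNat 273600000000⟩, ⟨.negSucc 19999, .ofNat 10000000, .ofNat 20000000000⟩, 7, [112, 113, 90, 140, 139, 94, 111], [213, 210, 241, 243, 242, 211, 212], true, .ofNat 0⟩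
def v90 : VR := ⟨⟨.ofNat 22240, .negSucc 1799999999, .ofNat 12, .ofNat 336636000000⟩, ⟨.negSucc 39999999, .ofNat 20000000, .negSucc 899999999999⟩, 4, [113, 91, 140, 89], [214, 244, 241, 210], true, .ofNat 0⟩
def v91 : VR := ⟨⟨.ofNat 22240, .negSucc 1665345599, .ofNat 4, .ofNat 336636000000⟩, ⟨.negSucc 8999999, .negSucc 299999999, .negSucc 899999999999⟩, 9, [114, 115, 92, 117, 142, 141, 140, 90, 113], [217, 215, 234, 245, 247, 246, 244, 214, 216], true, .ofNat 0⟩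
def v92 : VR := ⟨⟨.ofNat 22240, .negSucc 1665345599, .ofNat 4, .ofNat 30873312000000⟩, ⟨.negSucc 29999999, .ofNat 4000000000, .negSucc 6999999999999⟩, 4, [115, 116, 117, 91], [218, 235, 234, 215], true, .ofNat 0⟩
def v93 : VR := ⟨⟨.ofNat 22240, .negSucc 1663199999, .ofNat 2, .ofNat 141120000000⟩, ⟨.negSucc 19999, .ofNat 2000000, .ofNat 200000000000⟩, 7, [110, 111, 94, 144, 143, 95, 105], [222, 219, 248, 250, 249, 220, 221], true, .ofNat 0⟩
def v94 : VR := ⟨⟨.ofNat 22240, .negSucc 1663199999, .ofNat 2, .ofNat 273600000000⟩, ⟨.negSucc 9999999, .negSucc 29999999, .ofNat 5000000000000⟩, 5, [111, 89, 139, 144, 93], [211, 242, 251, 248, 219], true, .ofNat 0⟩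
def v95 : VR := ⟨⟨.ofNat 22240, .negSucc 1656143999, .ofNat 1, .ofNat 141120000000⟩, ⟨.negSucc 39999, .negSucc 499999999, .negSucc 9999999999999⟩, 7, [105, 106, 96, 146, 145, 143, 93], [224, 223, 252, 254, 253, 249, 220], true, .ofNat 0⟩
def v96 : VR := ⟨⟨.ofNat 22240, .negSucc 1656143999, .ofNat 1, .ofNat 33122880000000⟩, ⟨.negSucc 29999999, .ofNat 2000000000, .negSucc 999999999999⟩, 4, [106, 103, 146, 95], [225, 255, 252, 223], true, .ofNat 0⟩
def v97 : VR := ⟨⟨.ofNat 22240, .negSucc 1456415999, .ofNat 20, .negSucc 29128319999999⟩, ⟨.negSucc 39999999, .negSucc 999999999, .negSucc 299999999999999⟩, 5, [101, 102, 98, 147, 104], [227, 226, 256, 257, 228], true, .ofNat 0⟩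
def v98 : VR := ⟨⟨.ofNat 22240, .negSucc 1456415999, .ofNat 20, .ofNat 1391040000000⟩, ⟨.negSucc 19999999, .ofNat 200000000, .negSucc 59999999999⟩, 5, [102, 100, 148, 147, 97], [229, 258, 259, 256, 226], true, .ofNat 0⟩
def v99 : VR := ⟨⟨.ofNat 22240, .negSucc 899999999, .ofNat 12, .ofNat 360000000000⟩, ⟨.negSucc 19999999, .negSucc 5999999999, .negSucc 3999999999999⟩, 5, [108, 109, 100, 120, 107], [232, 230, 236, 237, 231], true, .ofNat 0⟩
def v100 : VR := ⟨⟨.ofNat 22240, .negSucc 899999999, .ofNat 12, .ofNat 1391040000000⟩, ⟨.negSucc 999999, .negSucc 299999999, .ofNat 800000000000⟩, 7, [109, 102, 98, 148, 151, 120, 99], [233, 229, 258, 261, 260, 236, 230], true, .ofNat 0⟩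
def v101 : VR := ⟨⟨.ofNat 22240, .negSucc 71999999, .ofNat 20, .negSucc 29128319999999⟩, ⟨.negSucc 9999999, .ofNat 1000000000, .negSucc 699999999999⟩, 5, [10, 102, 97, 104, 9], [59, 227, 228, 57, 55], true, .negSucc 55376639999999⟩
def v102 : VR := ⟨⟨.ofNat 22240, .negSucc 71999999, .ofNat 20, .ofNat 1391040000000⟩, ⟨.negSucc 69999, .negSucc 19999999, .negSucc 1999999999999⟩, 8, [58, 69, 109, 100, 98, 97, 101, 10], [169, 175, 233, 229, 226, 227, 59, 58], true, .negSucc 55376639999999⟩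
def v103 : VR := ⟨⟨.ofNat 22240, .ofNat 0, .ofNat 0, .ofNat 33122880000000⟩, ⟨.negSucc 999999, .ofNat 700000000, .ofNat 4000000000000⟩, 6, [106, 96, 146, 153, 0, 11], [225, 255, 262, 17, 14, 61], true, .ofNat 0⟩
def v104 : VR := ⟨⟨.ofNat 22240, .ofNat 0, .ofNat 21, .negSucc 29128319999999⟩, ⟨.negSucc 299999, .negSucc 99999999, .ofNat 8000000000000⟩, 7, [12, 1, 154, 147, 97, 101, 9], [15, 19, 263, 257, 228, 57, 56], true, .ofNat 0⟩
def v105 : VR := ⟨⟨.ofNat 22240, .ofNat 72000000, .ofNat 1, .ofNat 141120000000⟩, ⟨.negSucc 1999999, .negSucc 2999999999, .negSucc 8999999999999⟩, 7, [70, 65, 14, 106, 95, 93, 110], [170, 62, 63, 224, 220, 221, 177], true, .negSucc 69125759999999⟩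
def v106 : VR := ⟨⟨.ofNat 22240, .ofNat 72000000, .ofNat 1, .ofNat 33122880000000⟩, ⟨.negSucc 999999, .negSucc 2999999999, .negSucc 299999999999999⟩, 6, [14, 11, 103, 96, 95, 105], [60, 61, 225, 223, 224, 63], true, .negSucc 69125759999999⟩
def v107 : VR := ⟨⟨.ofNat 22240, .ofNat 864000000, .ofNat 13, .ofNat 360000000000⟩, ⟨.negSucc 1999999, .negSucc 79999999, .ofNat 1000000000000⟩, 7, [68, 66, 124, 123, 120, 99, 108], [171, 185, 239, 238, 237, 231, 173], true, .negSucc 71279999999999⟩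
def v108 : VR := ⟨⟨.ofNat 22240, .ofNat 900000000, .ofNat 12, .ofNat 360000000000⟩, ⟨.negSucc 29999999, .ofNat 40000000, .negSucc 999999999999⟩, 4, [109, 99, 107, 68], [232, 231, 173, 174], true, .negSucc 71999999999999⟩
def v109 : VR := ⟨⟨.ofNat 22240, .ofNat 900000000, .ofNat 12, .ofNat 1391040000000⟩, ⟨.negSucc 199999, .ofNat 60000000, .ofNat 200000000000⟩, 6, [69, 102, 100, 99, 108, 68], [175, 233, 230, 232, 174, 172], true, .negSucc 71999999999999⟩
def v110 : VR := ⟨⟨.ofNat 22240, .ofNat 1663200000, .ofNat 2, .ofNat 141120000000⟩, ⟨.negSucc 29999999, .negSucc 499999999, .ofNat 100000000000⟩, 5, [71, 111, 93, 105, 70], [179, 222, 221, 177, 176], true, .negSucc 133055999999999⟩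
def v111 : VR := ⟨⟨.ofNat 22240, .ofNat 1663200000, .ofNat 2, .ofNat 273600000000⟩, ⟨.negSucc 19999999, .ofNat 10000000, .ofNat 10000000000⟩, 6, [112, 89, 94, 93, 110, 71], [212, 211, 219, 222, 179, 180], true, .negSucc 133055999999999⟩
def v112 : VR := ⟨⟨.ofNat 22240, .ofNat 1800000000, .ofNat 12, .ofNat 273600000000⟩, ⟨.negSucc 699999, .negSucc 19999999, .ofNat 200000000000⟩, 6, [72, 73, 113, 89, 111, 71], [181, 183, 213, 212, 180, 178], true, .negSucc 143999999999999⟩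
def v113 : VR := ⟨⟨.ofNat 22240, .ofNat 1800000000, .ofNat 12, .ofNat 336636000000⟩, ⟨.negSucc 69999, .ofNat 20000000, .negSucc 69999999999⟩, 8, [86, 114, 91, 90, 89, 112, 73, 85], [205, 216, 214, 210, 213, 183, 182, 203], true, .negSucc 143999999999999⟩
def v114 : VR := ⟨⟨.ofNat 22240, .ofNat 1958400000, .ofNat 4, .ofNat 336636000000⟩, ⟨.negSucc 39999999, .ofNat 20000000, .negSucc 899999999999⟩, 4, [115, 91, 113, 86], [217, 216, 205, 206], true, .negSucc 144949823999999⟩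
def v115 : VR := ⟨⟨.ofNat 22240, .ofNat 1958400000, .ofNat 4, .ofNat 30873312000000⟩, ⟨.negSucc 899999, .negSucc 2999999999, .negSucc 89999999999999⟩, 7, [86, 87, 88, 116, 92, 91, 114], [204, 207, 208, 218, 215, 217, 206], true, .negSucc 144949823999999⟩
def v116 : VR := ⟨⟨.ofNat 22240, .ofNat 2088000000, .ofNat 3, .ofNat 30873312000000⟩, ⟨.negSucc 4999999, .ofNat 700000000, .ofNat 300000000000⟩, 5, [115, 92, 117, 126, 88], [218, 235, 240, 209, 208], true, .negSucc 88387199999999⟩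
def v117 : VR := ⟨⟨.ofNat 22440, .negSucc 1665345599, .ofNat 4, .ofNat 30122642880000⟩, ⟨.negSucc 9999999, .ofNat 3000000000, .negSucc 1999999999999⟩, 6, [92, 116, 126, 122, 142, 91], [235, 240, 264, 272, 245, 234], true, .ofNat 0⟩
def v118 : VR := ⟨⟨.ofNat 22440, .negSucc 935999999, .ofNat 13, .ofNat 712800000000⟩, ⟨.negSucc 9999, .ofNat 30000000, .ofNat 300000000000⟩, 6, [123, 124, 119, 163, 149, 120], [267, 265, 278, 279, 273, 266], true, .ofNat 0⟩
def v119 : VR := ⟨⟨.ofNat 22440, .negSucc 935999999, .ofNat 13, .ofNat 1568160000000⟩, ⟨.negSucc 29999999, .ofNat 80000000, .negSucc 999999999999⟩, 4, [124, 121, 163, 118], [268, 280, 278, 265], true, .ofNat 0⟩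
def v120 : VR := ⟨⟨.ofNat 22440, .negSucc 899999999, .ofNat 12, .ofNat 712800000000⟩, ⟨.ofNat 50000, .ofNat 100000000, .ofNat 20000000000⟩, 8, [123, 118, 149, 150, 151, 100, 99, 107], [266, 273, 274, 275, 260, 236, 237, 238], true, .ofNat 0⟩
def v121 : VR := ⟨⟨.ofNat 22440, .negSucc 143999999, .ofNat 3, .ofNat 1568160000000⟩, ⟨.negSucc 99999, .ofNat 20000000, .negSucc 1999999999999⟩, 8, [125, 126, 122, 152, 164, 163, 119, 124], [271, 269, 276, 281, 282, 280, 268, 270], true, .ofNat 0⟩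
def v122 : VR := ⟨⟨.ofNat 22440, .negSucc 143999999, .ofNat 3, .ofNat 30122642880000⟩, ⟨.negSucc 1999999, .ofNat 2000000000, .ofNat 20000000000000⟩, 5, [126, 117, 142, 152, 121], [264, 272, 277, 276, 269], true, .ofNat 0⟩
def v123 : VR := ⟨⟨.ofNat 22440, .ofNat 864000000, .ofNat 13, .ofNat 712800000000⟩, ⟨.negSucc 19999999, .negSucc 1999999999, .ofNat 2000000000000⟩, 4, [107, 124, 118, 120], [239, 267, 266, 238], true, .negSucc 71279999999999⟩
def v124 : VR := ⟨⟨.ofNat 22440, .ofNat 864000000, .ofNat 13, .ofNat 1568160000000⟩, ⟨.negSucc 899999, .ofNat 500000000, .negSucc 999999999999⟩, 9, [74, 125, 121, 119, 118, 123, 107, 66, 67], [188, 270, 268, 265, 267, 239, 185, 184, 186], true, .negSucc 71279999999999⟩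
def v125 : VR := ⟨⟨.ofNat 22440, .ofNat 2088000000, .ofNat 3, .ofNat 1568160000000⟩, ⟨.negSucc 29999999, .ofNat 100000000, .negSucc 999999999999⟩, 4, [74, 126, 121, 124], [189, 271, 270, 188], true, .negSucc 88387199999999⟩
def v126 : VR := ⟨⟨.ofNat 22440, .ofNat 2088000000, .ofNat 3, .ofNat 30122642880000⟩, ⟨.negSucc 99999, .ofNat 300000000, .ofNat 20000000000000⟩, 7, [116, 117, 122, 121, 125, 74, 88], [240, 264, 269, 271, 189, 187, 209], true, .negSucc 88387199999999⟩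
def v127 : VR := ⟨⟨.ofNat 38240, .negSucc 2249999999, .ofNat 12, .ofNat 54720000000⟩, ⟨.negSucc 1999, .ofNat 20000000, .ofNat 3000000000⟩, 6, [139, 140, 128, 201, 171, 132], [285, 283, 330, 331, 317, 284], false, .ofNat 0⟩
def v128 : VR := ⟨⟨.ofNat 38240, .negSucc 2249999999, .ofNat 12, .ofNat 67327200000⟩, ⟨.negSucc 99999, .ofNat 10000000, .negSucc 99999999999⟩, 5, [140, 129, 202, 201, 127], [286, 332, 333, 330, 283], false, .ofNat 0⟩
def v129 : VR := ⟨⟨.ofNat 38240, .negSucc 2225681999, .ofNat 4, .ofNat 67327200000⟩, ⟨.negSucc 299999, .negSucc 99999999, .negSucc 4999999999999⟩, 9, [141, 142, 130, 155, 204, 203, 202, 128, 140], [289, 287, 307, 334, 336, 335, 332, 286, 288], false, .ofNat 0⟩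
def v130 : VR := ⟨⟨.ofNat 38240, .negSucc 2225681999, .ofNat 4, .ofNat 6085382400000⟩, ⟨.negSucc 29999999, .ofNat 2000000000, .negSucc 899999999999⟩, 4, [142, 152, 155, 129], [290, 308, 307, 287], false, .ofNat 0⟩
def v131 : VR := ⟨⟨.ofNat 38240, .negSucc 2078999999, .ofNat 2, .ofNat 28224000000⟩, ⟨.negSucc 39999999, .negSucc 1999999999, .ofNat 300000000000⟩, 5, [143, 144, 132, 172, 133], [293, 291, 318, 319, 292], false, .ofNat 0⟩
def v132 : VR := ⟨⟨.ofNat 38240, .negSucc 2078999999, .ofNat 2, .ofNat 54720000000⟩, ⟨.negSucc 99999, .ofNat 20000000, .ofNat 50000000000⟩, 6, [144, 139, 127, 171, 172, 131], [294, 284, 317, 320, 318, 291], false, .ofNat 0⟩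
def v133 : VR := ⟨⟨.ofNat 38240, .negSucc 2070179999, .ofNat 1, .ofNat 28224000000⟩, ⟨.negSucc 99999, .negSucc 79999999, .negSucc 5999999999999⟩, 7, [145, 146, 134, 173, 172, 131, 143], [297, 295, 321, 322, 319, 292, 296], false, .ofNat 0⟩
def v134 : VR := ⟨⟨.ofNat 38240, .negSucc 2070179999, .ofNat 1, .ofNat 6624576000000⟩, ⟨.negSucc 29999999, .ofNat 2000000000, .negSucc 799999999999⟩, 4, [146, 153, 173, 133], [298, 323, 321, 295], false, .ofNat 0⟩
def v135 : VR := ⟨⟨.ofNat 38240, .negSucc 1835999999, .ofNat 12, .ofNat 144000000000⟩, ⟨.negSucc 49999999, .negSucc 3999999999, .negSucc 999999999999⟩, 5, [150, 151, 136, 156, 149], [301, 299, 309, 310, 300], false, .ofNat 0⟩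
def v136 : VR := ⟨⟨.ofNat 38240, .negSucc 1835999999, .ofNat 12, .ofNat 278208000000⟩, ⟨.negSucc 4999, .negSucc 29999999, .ofNat 700000000000⟩, 7, [151, 148, 138, 175, 174, 156, 135], [303, 302, 324, 326, 325, 309, 299], false, .ofNat 0⟩
def v137 : VR := ⟨⟨.ofNat 38240, .negSucc 1811519999, .ofNat 20, .negSucc 5825663999999⟩, ⟨.negSucc 7999, .negSucc 1999999999, .negSucc 4999999999999⟩, 7, [147, 148, 138, 214, 181, 159, 154], [305, 304, 337, 338, 327, 311, 306], false, .ofNat 0⟩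
def v138 : VR := ⟨⟨.ofNat 38240, .negSucc 1811519999, .ofNat 20, .ofNat 278208000000⟩, ⟨.negSucc 2999999999, .negSucc 999999999999, .negSucc 699999999999999⟩, 7, [148, 136, 175, 177, 210, 214, 137], [302, 324, 328, 339, 340, 337, 304], false, .ofNat 0⟩
def v139 : VR := ⟨⟨.ofNat 38240, .negSucc 1799999999, .ofNat 12, .ofNat 54720000000⟩, ⟨.negSucc 19999, .negSucc 5999999, .ofNat 50000000000⟩, 6, [89, 140, 127, 132, 144, 94], [243, 285, 284, 294, 251, 242], true, .ofNat 0⟩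
def v140 : VR := ⟨⟨.ofNat 38240, .negSucc 1799999999, .ofNat 12, .ofNat 67327200000⟩, ⟨.negSucc 69999, .ofNat 10000000, .negSucc 9999999999⟩, 8, [89, 90, 91, 141, 129, 128, 127, 139], [241, 244, 246, 288, 286, 283, 285, 243], true, .ofNat 0⟩
def v141 : VR := ⟨⟨.ofNat 38240, .negSucc 1665345599, .ofNat 4, .ofNat 67327200000⟩, ⟨.negSucc 39999999, .ofNat 20000000, .negSucc 899999999999⟩, 4, [142, 129, 140, 91], [289, 288, 246, 247], true, .ofNat 0⟩
def v142 : VR := ⟨⟨.ofNat 38240, .negSucc 1665345599, .ofNat 4, .ofNat 6085382400000⟩, ⟨.negSucc 699999, .negSucc 899999999, .negSucc 79999999999999⟩, 7, [91, 117, 122, 152, 130, 129, 141], [245, 272, 277, 290, 287, 289, 247], true, .ofNat 0⟩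
def v143 : VR := ⟨⟨.ofNat 38240, .negSucc 1663199999, .ofNat 2, .ofNat 28224000000⟩, ⟨.negSucc 199999, .ofNat 30000000, .ofNat 3000000000000⟩, 6, [144, 131, 133, 145, 95, 93], [293, 292, 296, 253, 249, 250], true, .ofNat 0⟩
def v144 : VR := ⟨⟨.ofNat 38240, .negSucc 1663199999, .ofNat 2, .ofNat 54720000000⟩, ⟨.negSucc 99999, .ofNat 7000000, .ofNat 100000000000⟩, 6, [94, 139, 132, 131, 143, 93], [251, 294, 291, 293, 250, 248], true, .ofNat 0⟩
def v145 : VR := ⟨⟨.ofNat 38240, .negSucc 1656143999, .ofNat 1, .ofNat 28224000000⟩, ⟨.negSucc 39999999, .ofNat 6000000, .negSucc 999999999999⟩, 4, [95, 146, 133, 143], [254, 297, 296, 253], true, .ofNat 0⟩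
def v146 : VR := ⟨⟨.ofNat 38240, .negSucc 1656143999, .ofNat 1, .ofNat 6624576000000⟩, ⟨.negSucc 599999, .negSucc 1999999999, .negSucc 99999999999999⟩, 7, [95, 96, 103, 153, 134, 133, 145], [252, 255, 262, 298, 295, 297, 254], true, .ofNat 0⟩
def v147 : VR := ⟨⟨.ofNat 38240, .negSucc 1456415999, .ofNat 20, .negSucc 5825663999999⟩, ⟨.negSucc 19999999, .negSucc 199999999, .negSucc 9999999999999⟩, 6, [98, 148, 137, 154, 104, 97], [259, 305, 306, 263, 257, 256], true, .ofNat 0⟩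
def v148 : VR := ⟨⟨.ofNat 38240, .negSucc 1456415999, .ofNat 20, .ofNat 278208000000⟩, ⟨.negSucc 69999, .ofNat 90000000, .negSucc 1999999999999⟩, 7, [100, 151, 136, 138, 137, 147, 98], [261, 303, 302, 304, 305, 259, 258], true, .ofNat 0⟩
def v149 : VR := ⟨⟨.ofNat 38240, .negSucc 935999999, .ofNat 13, .ofNat 144000000000⟩, ⟨.negSucc 199999, .negSucc 899999999, .ofNat 200000000000⟩, 7, [120, 118, 163, 162, 156, 135, 150], [273, 279, 313, 312, 310, 300, 274], true, .ofNat 0⟩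
def v150 : VR := ⟨⟨.ofNat 38240, .negSucc 899999999, .ofNat 12, .ofNat 144000000000⟩, ⟨.negSucc 29999999, .ofNat 40000000, .negSucc 999999999999⟩, 4, [151, 135, 149, 120], [301, 300, 274, 275], true, .ofNat 0⟩
def v151 : VR := ⟨⟨.ofNat 38240, .negSucc 899999999, .ofNat 12, .ofNat 278208000000⟩, ⟨.negSucc 999999, .ofNat 10000000, .ofNat 100000000000⟩, 6, [120, 100, 148, 136, 135, 150], [260, 261, 303, 299, 301, 275], true, .ofNat 0⟩
def v152 : VR := ⟨⟨.ofNat 38240, .negSucc 143999999, .ofNat 3, .ofNat 6085382400000⟩, ⟨.negSucc 3999999, .ofNat 2000000000, .ofNat 300000000000⟩, 7, [142, 130, 155, 165, 164, 121, 122], [290, 308, 314, 315, 281, 276, 277], true, .ofNat 0⟩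
def v153 : VR := ⟨⟨.ofNat 38240, .ofNat 0, .ofNat 0, .ofNat 6624576000000⟩, ⟨.negSucc 19999, .negSucc 199999999, .ofNat 2000000000000⟩, 7, [59, 0, 103, 146, 134, 173, 183], [16, 17, 262, 298, 323, 329, 196], true, .ofNat 0⟩
def v154 : VR := ⟨⟨.ofNat 38240, .ofNat 0, .ofNat 21, .negSucc 5825663999999⟩, ⟨.negSucc 49999, .ofNat 100000000, .ofNat 1000000000000⟩, 7, [1, 64, 167, 159, 137, 147, 104], [18, 193, 316, 311, 306, 263, 19], true, .ofNat 0⟩
def v155 : VR := ⟨⟨.ofNat 38315, .negSucc 2225681999, .ofNat 4, .ofNat 5929256250000⟩, ⟨.negSucc 39999999, .ofNat 700000000, .negSucc 899999999999⟩, 6, [130, 152, 165, 161, 204, 129], [308, 314, 341, 363, 334, 307], false, .ofNat 0⟩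
def v156 : VR := ⟨⟨.ofNat 38315, .negSucc 1835999999, .ofNat 12, .ofNat 211500000000⟩, ⟨.ofNat 400000, .ofNat 1000000000, .ofNat 300000000000⟩, 7, [149, 162, 157, 178, 174, 136, 135], [312, 342, 353, 354, 325, 309, 310], false, .ofNat 0⟩
def v157 : VR := ⟨⟨.ofNat 38315, .negSucc 1820735999, .ofNat 13, .ofNat 211500000000⟩, ⟨.negSucc 8999999, .negSucc 19999999, .ofNat 200000000000⟩, 5, [162, 163, 158, 178, 156], [344, 343, 355, 353, 342], false, .ofNat 0⟩
def v158 : VR := ⟨⟨.ofNat 38315, .negSucc 1820735999, .ofNat 13, .ofNat 310860000000⟩, ⟨.negSucc 79999, .ofNat 10000000, .negSucc 99999999999⟩, 5, [163, 160, 179, 178, 157], [345, 356, 357, 355, 343], false, .ofNat 0⟩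
def v159 : VR := ⟨⟨.ofNat 38315, .negSucc 1811519999, .ofNat 20, .negSucc 5689799999999⟩, ⟨.ofNat 20000, .negSucc 1999999999, .negSucc 1999999999⟩, 7, [137, 154, 167, 169, 211, 180, 181], [311, 316, 346, 364, 365, 358, 327], false, .ofNat 0⟩
def v160 : VR := ⟨⟨.ofNat 38315, .negSucc 1747583999, .ofNat 3, .ofNat 310860000000⟩, ⟨.negSucc 799999, .negSucc 999999, .negSucc 299999999999⟩, 8, [164, 165, 161, 216, 182, 179, 158, 163], [349, 347, 366, 367, 359, 356, 345, 348], false, .ofNat 0⟩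
def v161 : VR := ⟨⟨.ofNat 38315, .negSucc 1747583999, .ofNat 3, .ofNat 5929256250000⟩, ⟨.negSucc 9999999, .negSucc 3999999999, .ofNat 20000000000000⟩, 5, [165, 155, 204, 216, 160], [341, 363, 368, 366, 347], false, .ofNat 0⟩
def v162 : VR := ⟨⟨.ofNat 38315, .negSucc 935999999, .ofNat 13, .ofNat 211500000000⟩, ⟨.negSucc 29999999, .negSucc 899999999, .ofNat 2000000000000⟩, 4, [149, 163, 157, 156], [313, 344, 342, 312], false, .ofNat 0⟩
def v163 : VR := ⟨⟨.ofNat 38315, .negSucc 935999999, .ofNat 13, .ofNat 310860000000⟩, ⟨.negSucc 7999999, .ofNat 1000000000, .negSucc 199999999999⟩, 9, [164, 160, 158, 157, 162, 149, 118, 119, 121], [348, 345, 343, 344, 313, 279, 278, 280, 282], true, .ofNat 0⟩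
def v164 : VR := ⟨⟨.ofNat 38315, .negSucc 143999999, .ofNat 3, .ofNat 310860000000⟩, ⟨.negSucc 399999999, .negSucc 9999999999, .negSucc 2999999999999⟩, 5, [121, 152, 165, 160, 163], [281, 315, 349, 348, 282], true, .ofNat 0⟩
def v165 : VR := ⟨⟨.ofNat 38315, .negSucc 143999999, .ofNat 3, .ofNat 5929256250000⟩, ⟨.negSucc 19999999, .ofNat 10000000000, .ofNat 80000000000000⟩, 5, [155, 161, 160, 164, 152], [341, 347, 349, 315, 314], false, .ofNat 0⟩
def v166 : VR := ⟨⟨.ofNat 38315, .ofNat 0, .ofNat 20, .ofNat 0⟩, ⟨.ofNat 2000, .negSucc 1999999, .ofNat 10000000000⟩, 6, [185, 186, 170, 168, 61, 184], [362, 360, 350, 191, 198, 361], true, .ofNat 0⟩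
def v167 : VR := ⟨⟨.ofNat 38315, .ofNat 0, .ofNat 21, .negSucc 5689799999999⟩, ⟨.ofNat 10000, .negSucc 599999999, .ofNat 500000000000000⟩, 6, [169, 170, 168, 64, 154, 159], [352, 351, 194, 193, 316, 346], true, .ofNat 0⟩
def v168 : VR := ⟨⟨.ofNat 38315, .ofNat 0, .ofNat 21, .ofNat 0⟩, ⟨.ofNat 3000000, .ofNat 200000000, .negSucc 8999999999999⟩, 6, [170, 166, 61, 62, 64, 167], [350, 191, 190, 192, 194, 351], true, .ofNat 0⟩
def v169 : VR := ⟨⟨.ofNat 38315, .ofNat 4608000, .ofNat 21, .negSucc 5689799999999⟩, ⟨.ofNat 7000000, .negSucc 1999999999, .ofNat 5000000000000⟩, 5, [170, 167, 159, 211, 217], [352, 346, 364, 370, 369], false, .ofNat 0⟩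
def v170 : VR := ⟨⟨.ofNat 38315, .ofNat 4608000, .ofNat 21, .ofNat 0⟩, ⟨.ofNat 20, .ofNat 10000000, .negSucc 19999999999999⟩, 6, [217, 186, 166, 168, 167, 169], [371, 360, 350, 351, 352, 369], false, .ofNat 0⟩
def v171 : VR := ⟨⟨.ofNat 41440, .negSucc 2249999999, .ofNat 12, .ofNat 0⟩, ⟨.ofNat 9000000, .ofNat 40000000, .ofNat 300000000⟩, 6, [180, 212, 201, 127, 132, 172], [384, 385, 331, 317, 320, 372], false, .ofNat 0⟩
def v172 : VR := ⟨⟨.ofNat 41440, .negSucc 2078999999, .ofNat 2, .ofNat 0⟩, ⟨.ofNat 70000, .ofNat 4000000, .ofNat 6000000000⟩, 6, [180, 171, 132, 131, 133, 173], [372, 320, 318, 319, 322, 373], false, .ofNat 0⟩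
def v173 : VR := ⟨⟨.ofNat 41440, .negSucc 2070179999, .ofNat 1, .ofNat 0⟩, ⟨.ofNat 100000, .negSucc 59999999, .negSucc 299999999999⟩, 7, [183, 153, 134, 133, 172, 180, 184], [329, 323, 321, 322, 373, 374, 375], false, .ofNat 0⟩
def v174 : VR := ⟨⟨.ofNat 41440, .negSucc 1835999999, .ofNat 12, .ofNat 259200000000⟩, ⟨.negSucc 7999999, .ofNat 9000000, .negSucc 19999999999⟩, 8, [175, 208, 207, 209, 176, 178, 156, 136], [386, 388, 389, 387, 376, 354, 325, 326], false, .ofNat 0⟩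
def v175 : VR := ⟨⟨.ofNat 41440, .negSucc 1835999999, .ofNat 12, .ofNat 288000000000⟩, ⟨.ofNat 60000, .negSucc 19999999, .ofNat 6000000000⟩, 7, [179, 177, 138, 136, 174, 208, 182], [377, 328, 324, 326, 386, 390, 378], false, .ofNat 0⟩
def v176 : VR := ⟨⟨.ofNat 41440, .negSucc 1832939999, .ofNat 13, .ofNat 259200000000⟩, ⟨.negSucc 19999999, .ofNat 10000000000, .ofNat 30000000000000⟩, 5, [178, 179, 177, 209, 174], [380, 379, 391, 387, 376], false, .ofNat 0⟩
def v177 : VR := ⟨⟨.ofNat 41440, .negSucc 1832939999, .ofNat 13, .ofNat 288000000000⟩, ⟨.negSucc 49999999, .negSucc 19999999999, .negSucc 3999999999999⟩, 6, [179, 175, 138, 210, 209, 176], [377, 328, 339, 392, 391, 379], false, .ofNat 0⟩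
def v178 : VR := ⟨⟨.ofNat 41440, .negSucc 1820735999, .ofNat 13, .ofNat 259200000000⟩, ⟨.negSucc 999999, .ofNat 9000000, .ofNat 300000000000⟩, 6, [158, 179, 176, 174, 156, 157], [357, 380, 376, 354, 353, 355], false, .ofNat 0⟩
def v179 : VR := ⟨⟨.ofNat 41440, .negSucc 1820735999, .ofNat 13, .ofNat 288000000000⟩, ⟨.negSucc 1999999, .negSucc 2999999, .negSucc 59999999999⟩, 7, [158, 160, 182, 175, 177, 176, 178], [356, 359, 378, 377, 379, 380, 357], false, .ofNat 0⟩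
def v180 : VR := ⟨⟨.ofNat 41440, .negSucc 1811519999, .ofNat 20, .ofNat 0⟩, ⟨.ofNat 100000000, .negSucc 999999999, .ofNat 7000000000⟩, 9, [184, 185, 181, 159, 211, 212, 171, 172, 173], [382, 381, 358, 365, 393, 384, 372, 373, 374], false, .ofNat 0⟩
def v181 : VR := ⟨⟨.ofNat 41440, .negSucc 1811519999, .ofNat 20, .ofNat 14400000000⟩, ⟨.ofNat 230000, .negSucc 1799999999, .ofNat 1000000000⟩, 7, [185, 186, 213, 214, 137, 159, 180], [383, 394, 395, 338, 327, 358, 381], false, .ofNat 0⟩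
def v182 : VR := ⟨⟨.ofNat 41440, .negSucc 1747583999, .ofNat 3, .ofNat 288000000000⟩, ⟨.negSucc 39999999, .ofNat 9000000, .negSucc 9999999999⟩, 6, [216, 215, 208, 175, 179, 160], [397, 396, 390, 378, 359, 367], false, .ofNat 0⟩
def v183 : VR := ⟨⟨.ofNat 41440, .ofNat 0, .ofNat 0, .ofNat 0⟩, ⟨.negSucc 19999999, .negSucc 3999999999, .negSucc 899999999999⟩, 4, [59, 153, 173, 184], [196, 329, 375, 197], true, .ofNat 0⟩
def v184 : VR := ⟨⟨.ofNat 41440, .ofNat 0, .ofNat 20, .ofNat 0⟩, ⟨.negSucc 39999, .negSucc 79999999, .ofNat 400000000000⟩, 7, [166, 185, 180, 173, 183, 59, 61], [361, 382, 374, 375, 197, 195, 198], true, .ofNat 0⟩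
def v185 : VR := ⟨⟨.ofNat 41440, .ofNat 0, .ofNat 20, .ofNat 14400000000⟩, ⟨.negSucc 799999999, .negSucc 5999999999, .ofNat 300000000000⟩, 5, [166, 186, 181, 180, 184], [362, 383, 381, 382, 361], false, .ofNat 0⟩
def v186 : VR := ⟨⟨.ofNat 41440, .ofNat 4608000, .ofNat 21, .ofNat 14400000000⟩, ⟨.negSucc 699999999, .ofNat 50000000000, .negSucc 39999999999999⟩, 7, [185, 181, 213, 218, 217, 170, 166], [383, 394, 398, 399, 371, 360, 362], false, .ofNat 0⟩
def v187 : VR := ⟨⟨.ofNat 41442, .negSucc 3095094239, .ofNat 20, .negSucc 10767743999⟩, ⟨.negSucc 19999999, .ofNat 2000000, .negSucc 699999999999⟩, 6, [211, 212, 188, 219, 221, 191], [402, 400, 432, 434, 433, 401], false, .ofNat 0⟩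
def v188 : VR := ⟨⟨.ofNat 41442, .negSucc 3095094239, .ofNat 20, .ofNat 109620000⟩, ⟨.negSucc 49999999, .ofNat 30000000, .negSucc 99999999999⟩, 5, [212, 201, 189, 219, 187], [404, 403, 435, 432, 400], false, .ofNat 0⟩
def v189 : VR := ⟨⟨.ofNat 41442, .negSucc 3094874999, .ofNat 12, .ofNat 109620000⟩, ⟨.negSucc 39999999, .negSucc 8999999, .negSucc 999999999999⟩, 6, [201, 202, 190, 220, 219, 188], [406, 405, 436, 437, 435, 403], false, .ofNat 0⟩
def v190 : VR := ⟨⟨.ofNat 41442, .negSucc 3094874999, .ofNat 12, .ofNat 57593920500⟩, ⟨.negSucc 39999999, .ofNat 10000000, .negSucc 899999999999⟩, 4, [202, 195, 220, 189], [407, 438, 436, 405], false, .ofNat 0⟩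
def v191 : VR := ⟨⟨.ofNat 41442, .negSucc 3092402303, .ofNat 21, .negSucc 10767743999⟩, ⟨.negSucc 199999999, .ofNat 700000000, .ofNat 10000000000⟩, 6, [217, 218, 192, 221, 187, 211], [410, 408, 439, 433, 401, 409], false, .ofNat 0⟩
def v192 : VR := ⟨⟨.ofNat 41442, .negSucc 3092402303, .ofNat 21, .ofNat 18032256000⟩, ⟨.negSucc 49999999, .ofNat 700000000, .negSucc 99999999999⟩, 5, [218, 213, 193, 221, 191], [412, 411, 440, 439, 408], false, .ofNat 0⟩
def v193 : VR := ⟨⟨.ofNat 41442, .negSucc 3087894239, .ofNat 20, .ofNat 18032256000⟩, ⟨.negSucc 3999999, .negSucc 6999999, .negSucc 1999999999999⟩, 6, [213, 214, 194, 222, 221, 192], [414, 413, 441, 442, 440, 411], false, .ofNat 0⟩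
def v194 : VR := ⟨⟨.ofNat 41442, .negSucc 3087894239, .ofNat 20, .ofNat 288006120000⟩, ⟨.negSucc 29999999, .ofNat 70000000, .negSucc 999999999999⟩, 4, [214, 198, 222, 193], [415, 443, 441, 413], false, .ofNat 0⟩
def v195 : VR := ⟨⟨.ofNat 41442, .negSucc 2979687158, .ofNat 4, .ofNat 57593920500⟩, ⟨.negSucc 899999, .negSucc 89999999, .negSucc 599999999999⟩, 7, [203, 204, 196, 223, 220, 190, 202], [418, 416, 444, 445, 438, 407, 417], false, .ofNat 0⟩
def v196 : VR := ⟨⟨.ofNat 41442, .negSucc 2979687158, .ofNat 4, .ofNat 4434243804000⟩, ⟨.negSucc 29999999, .ofNat 1000000000, .negSucc 799999999999⟩, 4, [204, 206, 223, 195], [419, 446, 444, 416], false, .ofNat 0⟩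
def v197 : VR := ⟨⟨.ofNat 41442, .negSucc 2583883529, .ofNat 13, .ofNat 259206120000⟩, ⟨.negSucc 199999999, .negSucc 5999999999, .ofNat 600000000000⟩, 5, [209, 210, 198, 224, 199], [422, 420, 447, 448, 421], false, .ofNat 0⟩
def v198 : VR := ⟨⟨.ofNat 41442, .negSucc 2583883529, .ofNat 13, .ofNat 288006120000⟩, ⟨.negSucc 299999, .ofNat 2000000, .ofNat 200000000000⟩, 6, [210, 214, 194, 222, 224, 197], [423, 415, 443, 449, 447, 420], false, .ofNat 0⟩
def v199 : VR := ⟨⟨.ofNat 41442, .negSucc 2519081999, .ofNat 12, .ofNat 259206120000⟩, ⟨.negSucc 999999, .negSucc 39999999, .negSucc 299999999999⟩, 7, [207, 208, 200, 225, 224, 197, 209], [425, 424, 450, 451, 448, 421, 426], false, .ofNat 0⟩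
def v200 : VR := ⟨⟨.ofNat 41442, .negSucc 2519081999, .ofNat 12, .ofNat 287980352000⟩, ⟨.negSucc 29999999, .ofNat 70000000, .negSucc 999999999999⟩, 4, [208, 205, 225, 199], [427, 452, 450, 424], false, .ofNat 0⟩
def v201 : VR := ⟨⟨.ofNat 41442, .negSucc 2249999999, .ofNat 12, .ofNat 109620000⟩, ⟨.negSucc 199999, .ofNat 20000000, .negSucc 99999999999⟩, 7, [128, 202, 189, 188, 212, 171, 127], [333, 406, 403, 404, 385, 331, 330], false, .ofNat 0⟩
def v202 : VR := ⟨⟨.ofNat 41442, .negSucc 2249999999, .ofNat 12, .ofNat 57593920500⟩, ⟨.negSucc 299999, .negSucc 299999, .negSucc 3999999999⟩, 7, [128, 129, 203, 195, 190, 189, 201], [332, 335, 417, 407, 405, 406, 333], false, .ofNat 0⟩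
def v203 : VR := ⟨⟨.ofNat 41442, .negSucc 2225681999, .ofNat 4, .ofNat 57593920500⟩, ⟨.negSucc 39999999, .ofNat 3000000, .negSucc 899999999999⟩, 4, [129, 204, 195, 202], [336, 418, 417, 335], false, .ofNat 0⟩
def v204 : VR := ⟨⟨.ofNat 41442, .negSucc 2225681999, .ofNat 4, .ofNat 4434243804000⟩, ⟨.negSucc 199999, .ofNat 400000000, .negSucc 999999999999⟩, 8, [155, 161, 216, 206, 196, 195, 203, 129], [363, 368, 428, 419, 416, 418, 336, 334], false, .ofNat 0⟩
def v205 : VR := ⟨⟨.ofNat 41442, .negSucc 1871126207, .ofNat 3, .ofNat 287980352000⟩, ⟨.negSucc 1999999, .ofNat 100000000, .negSucc 3999999999999⟩, 7, [215, 216, 206, 226, 225, 200, 208], [431, 429, 453, 454, 452, 427, 430], false, .ofNat 0⟩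
def v206 : VR := ⟨⟨.ofNat 41442, .negSucc 1871126207, .ofNat 3, .ofNat 4434243804000⟩, ⟨.negSucc 199999, .ofNat 800000000, .ofNat 2000000000000⟩, 6, [216, 204, 196, 223, 226, 205], [428, 419, 446, 455, 453, 429], false, .ofNat 0⟩
def v207 : VR := ⟨⟨.ofNat 41442, .negSucc 1835999999, .ofNat 12, .ofNat 259206120000⟩, ⟨.negSucc 39999999, .negSucc 2999999, .negSucc 899999999999⟩, 4, [208, 199, 209, 174], [425, 426, 389, 388], false, .ofNat 0⟩
def v208 : VR := ⟨⟨.ofNat 41442, .negSucc 1835999999, .ofNat 12, .ofNat 287980352000⟩, ⟨.negSucc 49999999, .ofNat 20000000, .negSucc 2999999999⟩, 8, [182, 215, 205, 200, 199, 207, 174, 175], [396, 430, 427, 424, 425, 388, 386, 390], false, .ofNat 0⟩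
def v209 : VR := ⟨⟨.ofNat 41442, .negSucc 1832939999, .ofNat 13, .ofNat 259206120000⟩, ⟨.negSucc 199999999, .ofNat 1000000000, .ofNat 100000000000⟩, 7, [177, 210, 197, 199, 207, 174, 176], [392, 422, 421, 426, 389, 387, 391], false, .ofNat 0⟩
def v210 : VR := ⟨⟨.ofNat 41442, .negSucc 1832939999, .ofNat 13, .ofNat 288006120000⟩, ⟨.negSucc 199999999, .negSucc 9999999, .ofNat 3000000000000⟩, 6, [177, 138, 214, 198, 197, 209], [339, 340, 423, 420, 422, 392], false, .ofNat 0⟩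
def v211 : VR := ⟨⟨.ofNat 41442, .negSucc 1811519999, .ofNat 20, .negSucc 10767743999⟩, ⟨.negSucc 2999999, .negSucc 3999999999, .negSucc 8999999999999⟩, 7, [159, 180, 212, 187, 191, 217, 169], [365, 393, 402, 401, 409, 370, 364], false, .ofNat 0⟩
def v212 : VR := ⟨⟨.ofNat 41442, .negSucc 1811519999, .ofNat 20, .ofNat 109620000⟩, ⟨.negSucc 199999999, .ofNat 100000000, .negSucc 5999999999⟩, 6, [171, 201, 188, 187, 211, 180], [385, 404, 400, 402, 393, 384], false, .ofNat 0⟩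
def v213 : VR := ⟨⟨.ofNat 41442, .negSucc 1811519999, .ofNat 20, .ofNat 18032256000⟩, ⟨.negSucc 199999999, .negSucc 1999999999, .negSucc 1999999999999⟩, 6, [181, 214, 193, 192, 218, 186], [395, 414, 411, 412, 398, 394], false, .ofNat 0⟩
def v214 : VR := ⟨⟨.ofNat 41442, .negSucc 1811519999, .ofNat 20, .ofNat 288006120000⟩, ⟨.negSucc 39999999, .negSucc 199999999, .negSucc 69999999999⟩, 8, [138, 210, 198, 194, 193, 213, 181, 137], [340, 423, 415, 413, 414, 395, 338, 337], false, .ofNat 0⟩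
def v215 : VR := ⟨⟨.ofNat 41442, .negSucc 1747583999, .ofNat 3, .ofNat 287980352000⟩, ⟨.negSucc 29999999, .ofNat 10000000, .negSucc 999999999999⟩, 4, [216, 205, 208, 182], [431, 430, 396, 397], false, .ofNat 0⟩
def v216 : VR := ⟨⟨.ofNat 41442, .negSucc 1747583999, .ofNat 3, .ofNat 4434243804000⟩, ⟨.negSucc 39999999, .ofNat 80000000000, .ofNat 600000000000000⟩, 7, [204, 206, 205, 215, 182, 160, 161], [428, 429, 431, 397, 367, 366, 368], false, .ofNat 0⟩
def v217 : VR := ⟨⟨.ofNat 41442, .ofNat 4608000, .ofNat 21, .negSucc 10767743999⟩, ⟨.negSucc 5999999, .ofNat 20000000, .ofNat 3000000000000⟩, 6, [186, 218, 191, 211, 169, 170], [399, 410, 409, 370, 369, 371], false, .ofNat 0⟩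
def v218 : VR := ⟨⟨.ofNat 41442, .ofNat 4608000, .ofNat 21, .ofNat 18032256000⟩, ⟨.negSucc 1999999999, .negSucc 9999999999, .negSucc 999999999999⟩, 5, [186, 213, 192, 191, 217], [398, 412, 408, 410, 399], false, .ofNat 0⟩
def v219 : VR := ⟨⟨.ofNat 45442, .negSucc 3095094239, .ofNat 20, .ofNat 0⟩, ⟨.ofNat 30000, .ofNat 50000000, .negSucc 39999999999⟩, 8, [222, 224, 225, 220, 189, 188, 187, 221], [458, 459, 456, 437, 435, 432, 434, 457], false, .ofNat 0⟩
def v220 : VR := ⟨⟨.ofNat 45442, .negSucc 3094874999, .ofNat 12, .ofNat 0⟩, ⟨.ofNat 400000, .ofNat 5000000, .negSucc 199999999999⟩, 6, [225, 223, 195, 190, 189, 219], [460, 445, 438, 436, 437, 456], false, .ofNat 0⟩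
def v221 : VR := ⟨⟨.ofNat 45442, .negSucc 3092402303, .ofNat 21, .ofNat 0⟩, ⟨.negSucc 2599, .ofNat 15000000, .negSucc 63999999999⟩, 6, [193, 222, 219, 187, 191, 192], [442, 457, 434, 433, 439, 440], false, .ofNat 0⟩
def v222 : VR := ⟨⟨.ofNat 45442, .negSucc 3087894239, .ofNat 20, .ofNat 0⟩, ⟨.negSucc 799999, .ofNat 100000000, .negSucc 79999999999⟩, 6, [198, 224, 219, 221, 193, 194], [449, 458, 457, 442, 441, 443], false, .ofNat 0⟩
def v223 : VR := ⟨⟨.ofNat 45442, .negSucc 2979687158, .ofNat 4, .ofNat 0⟩, ⟨.ofNat 50000, .negSucc 19999999, .negSucc 299999999999⟩, 6, [226, 206, 196, 195, 220, 225], [455, 446, 444, 445, 460, 461], false, .ofNat 0⟩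
def v224 : VR := ⟨⟨.ofNat 45442, .negSucc 2583883529, .ofNat 13, .ofNat 0⟩, ⟨.negSucc 599, .ofNat 70000000, .ofNat 6000000000⟩, 6, [198, 222, 219, 225, 199, 197], [449, 458, 459, 451, 448, 447], false, .ofNat 0⟩
def v225 : VR := ⟨⟨.ofNat 45442, .negSucc 2519081999, .ofNat 12, .ofNat 0⟩, ⟨.negSucc 399999, .negSucc 39999999, .negSucc 39999999999⟩, 8, [199, 200, 205, 226, 223, 220, 219, 224], [450, 452, 454, 461, 460, 456, 459, 451], false, .ofNat 0⟩
def v226 : VR := ⟨⟨.ofNat 45442, .negSucc 1871126207, .ofNat 3, .ofNat 0⟩, ⟨.negSucc 19999999, .negSucc 199999999, .negSucc 19999999999⟩, 4, [205, 206, 223, 225], [453, 455, 461, 454], false, .ofNat 0⟩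
def b0 : BT VR := (.nd
 (.nd
  (.nd
   (.nd
    (.lf v0)
    (.lf v128))
   (.nd
    (.lf v64)
    (.lf v192)))
  (.nd
   (.nd
    (.lf v32)
    (.lf v160))
   (.nd
    (.lf v96)
    (.lf v224))))
 (.nd
  (.nd
   (.nd
    (.lf v16)
    (.lf v144))
   (.nd
    (.lf v80)
    (.lf v208)))
  (.nd
   (.nd
    (.lf v48)
    (.lf v176))
   (.nd
    (.lf v112)
    (.lf v0)))))
def b1 : BT VR := (.nd
 (.nd
  (.nd
   (.nd
    (.lf v1)
    (.lf v129))
   (.nd
    (.lf v65)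
    (.lf v193)))
  (.nd
   (.nd
    (.lf v33)
    (.lf v161))
   (.nd
    (.lf v97)
    (.lf v225))))
 (.nd
  (.nd
   (.nd
    (.lf v17)
    (.lf v145))
   (.nd
    (.lf v81)
    (.lf v209)))
  (.nd
   (.nd
    (.lf v49)
    (.lf v177))
   (.nd
    (.lf v113)
    (.lf v0)))))
def b2 : BT VR := (.nd
 (.nd
  (.nd
   (.nd
    (.lf v2)
    (.lf v130))
   (.nd
    (.lf v66)
    (.lf v194)))
  (.nd
   (.nd
    (.lf v34)
    (.lf v162))
   (.nd
    (.lf v98)
    (.lf v226))))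
 (.nd
  (.nd
   (.nd
    (.lf v18)
    (.lf v146))
   (.nd
    (.lf v82)
    (.lf v210)))
  (.nd
   (.nd
    (.lf v50)
    (.lf v178))
   (.nd
    (.lf v114)
    (.lf v0)))))
def b3 : BT VR := (.nd
 (.nd
  (.nd
   (.nd
    (.lf v3)
    (.lf v131))
   (.nd
    (.lf v67)
    (.lf v195)))
  (.nd
   (.nd
    (.lf v35)
    (.lf v163))
   (.nd
    (.lf v99)
    (.lf v0))))
 (.nd
  (.nd
   (.nd
    (.lf v19)
    (.lf v147))
   (.nd
    (.lf v83)
    (.lf v211)))
  (.nd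
   (.nd
    (.lf v51)
    (.lf v179))
   (.nd
    (.lf v115)
    (.lf v0)))))
def b4 : BT VR := (.nd
 (.nd
  (.nd
   (.nd
    (.lf v4)
    (.lf v132))
   (.nd
    (.lf v68)
    (.lf v196)))
  (.nd
   (.nd
    (.lf v36)
    (.lf v164))
   (.nd
    (.lf v100)
    (.lf v0))))
 (.nd
  (.nd
   (.nd
    (.lf v20)
    (.lf v148))
   (.nd
    (.lf v84)
    (.lf v212)))
  (.nd
   (.nd
    (.lf v52)
    (.lf v180))
   (.nd
    (.lf v116)
    (.lf v0)))))
def b5 : BT VR := (.nd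
 (.nd
  (.nd
   (.nd
    (.lf v5)
    (.lf v133))
   (.nd
    (.lf v69)
    (.lf v197)))
  (.nd
   (.nd
    (.lf v37)
    (.lf v165))
   (.nd
    (.lf v101)
    (.lf v0))))
 (.nd
  (.nd
   (.nd
    (.lf v21)
    (.lf v149))
   (.nd
    (.lf v85)
    (.lf v213)))
  (.nd
   (.nd
    (.lf v53)
    (.lf v181))
   (.nd
    (.lf v117)
    (.lf v0)))))
def b6 : BT VR := (.nd
 (.nd
  (.nd
   (.nd
    (.lf v6)
    (.lf v134))
   (.nd
    (.lf v70)
    (.lf v198)))
  (.nd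
   (.nd
    (.lf v38)
    (.lf v166))
   (.nd
    (.lf v102)
    (.lf v0))))
 (.nd
  (.nd
   (.nd
    (.lf v22)
    (.lf v150))
   (.nd
    (.lf v86)
    (.lf v214)))
  (.nd
   (.nd
    (.lf v54)
    (.lf v182))
   (.nd
    (.lf v118)
    (.lf v0)))))
def b7 : BT VR := (.nd
 (.nd
  (.nd
   (.nd
    (.lf v7)
    (.lf v135))
   (.nd
    (.lf v71)
    (.lf v199)))
  (.nd
   (.nd
    (.lf v39)
    (.lf v167))
   (.nd
    (.lf v103)
    (.lf v0))))
 (.nd
  (.nd
   (.nd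
    (.lf v23)
    (.lf v151))
   (.nd
    (.lf v87)
    (.lf v215)))
  (.nd
   (.nd
    (.lf v55)
    (.lf v183))
   (.nd
    (.lf v119)
    (.lf v0)))))
def b8 : BT VR := (.nd
 (.nd
  (.nd
   (.nd
    (.lf v8)
    (.lf v136))
   (.nd
    (.lf v72)
    (.lf v200)))
  (.nd
   (.nd
    (.lf v40)
    (.lf v168))
   (.nd
    (.lf v104)
    (.lf v0))))
 (.nd
  (.nd
   (.nd
    (.lf v24)
    (.lf v152))
   (.nd
    (.lf v88)
    (.lf v216)))
  (.nd
   (.nd
    (.lf v56)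
    (.lf v184))
   (.nd
    (.lf v120)
    (.lf v0)))))
def b9 : BT VR := (.nd
 (.nd
  (.nd
   (.nd
    (.lf v9)
    (.lf v137))
   (.nd
    (.lf v73)
    (.lf v201)))
  (.nd
   (.nd
    (.lf v41)
    (.lf v169))
   (.nd
    (.lf v105)
    (.lf v0))))
 (.nd
  (.nd
   (.nd
    (.lf v25)
    (.lf v153))
   (.nd
    (.lf v89)
    (.lf v217)))
  (.nd
   (.nd
    (.lf v57)
    (.lf v185))
   (.nd
    (.lf v121)
    (.lf v0)))))
def b10 : BT VR := (.nd
 (.nd
  (.nd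
   (.nd
    (.lf v10)
    (.lf v138))
   (.nd
    (.lf v74)
    (.lf v202)))
  (.nd
   (.nd
    (.lf v42)
    (.lf v170))
   (.nd
    (.lf v106)
    (.lf v0))))
 (.nd
  (.nd
   (.nd
    (.lf v26)
    (.lf v154))
   (.nd
    (.lf v90)
    (.lf v218)))
  (.nd
   (.nd
    (.lf v58)
    (.lf v186))
   (.nd
    (.lf v122)
    (.lf v0)))))
def b11 : BT VR := (.nd
 (.nd
  (.nd
   (.nd
    (.lf v11)
    (.lf v139))
   (.nd
    (.lf v75)
    (.lf v203)))
  (.nd
   (.nd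
    (.lf v43)
    (.lf v171))
   (.nd
    (.lf v107)
    (.lf v0))))
 (.nd
  (.nd
   (.nd
    (.lf v27)
    (.lf v155))
   (.nd
    (.lf v91)
    (.lf v219)))
  (.nd
   (.nd
    (.lf v59)
    (.lf v187))
   (.nd
    (.lf v123)
    (.lf v0)))))
def b12 : BT VR := (.nd
 (.nd
  (.nd
   (.nd
    (.lf v12)
    (.lf v140))
   (.nd
    (.lf v76)
    (.lf v204)))
  (.nd
   (.nd
    (.lf v44)
    (.lf v172))
   (.nd
    (.lf v108)
    (.lf v0))))
 (.nd
  (.nd
   (.nd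
    (.lf v28)
    (.lf v156))
   (.nd
    (.lf v92)
    (.lf v220)))
  (.nd
   (.nd
    (.lf v60)
    (.lf v188))
   (.nd
    (.lf v124)
    (.lf v0)))))
def b13 : BT VR := (.nd
 (.nd
  (.nd
   (.nd
    (.lf v13)
    (.lf v141))
   (.nd
    (.lf v77)
    (.lf v205)))
  (.nd
   (.nd
    (.lf v45)
    (.lf v173))
   (.nd
    (.lf v109)
    (.lf v0))))
 (.nd
  (.nd
   (.nd
    (.lf v29)
    (.lf v157))
   (.nd
    (.lf v93)
    (.lf v221)))
  (.nd
   (.nd
    (.lf v61)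
    (.lf v189))
   (.nd
    (.lf v125)
    (.lf v0)))))
def b14 : BT VR := (.nd
 (.nd
  (.nd
   (.nd
    (.lf v14)
    (.lf v142))
   (.nd
    (.lf v78)
    (.lf v206)))
  (.nd
   (.nd
    (.lf v46)
    (.lf v174))
   (.nd
    (.lf v110)
    (.lf v0))))
 (.nd
  (.nd
   (.nd
    (.lf v30)
    (.lf v158))
   (.nd
    (.lf v94)
    (.lf v222)))
  (.nd
   (.nd
    (.lf v62)
    (.lf v190))
   (.nd
    (.lf v126)
    (.lf v0)))))
def b15 : BT VR := (.nd
 (.nd
  (.nd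
   (.nd
    (.lf v15)
    (.lf v143))
   (.nd
    (.lf v79)
    (.lf v207)))
  (.nd
   (.nd
    (.lf v47)
    (.lf v175))
   (.nd
    (.lf v111)
    (.lf v0))))
 (.nd
  (.nd
   (.nd
    (.lf v31)
    (.lf v159))
   (.nd
    (.lf v95)
    (.lf v223)))
  (.nd
   (.nd
    (.lf v63)
    (.lf v191))
   (.nd
    (.lf v127)
    (.lf v0)))))
def tab : BT VR := (.nd (.nd (.nd (.nd b0 b8) (.nd b4 b12)) (.nd (.nd b2 b10) (.nd b6 b14))) (.nd (.nd (.nd b1 b9) (.nd b5 b13)) (.nd (.nd b3 b11) (.nd b7 b15))))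

/-- the data -/
def DD : Data := mkD 227 tab

end Pool.Agent.TH622
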