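import Mathlib
import Pool.Agent.TH622.DatT

/-! Verification of the vertex data. -/

namespace Pool.Agent.TH622

theorem run_c1 : chk1 DD = true := by decide +kernel
theorem run_c2 : chk2 DD = true := by decide +kernel
theorem run_c3 : chk3 DD = true := by decide +kernel
theorem run_c4 : chk4 DD = true := by decide +kernel

theorem DOK : DD.OK := OK_of_chk run_c1 run_c2 run_c3 run_c4

end Pool.Agent.TH622
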