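import Mathlib
import Pool.Agent.TH622.Chk0

/-! Boolean checkers: separation of triangles. -/

open Set Filter Metric

namespace Pool.Agent.TH622

/-- triangle record -/
structure Tr where
  a : ℕ
  b : ℕ
  c : ℕ
  A : Z4
  B : Z4
  C : Z4

def mem3 (w : ℕ) (T : Tr) : Bool := Nat.beq w T.a || (Nat.beq w T.b || Nat.beq w T.c)
def isIn (w x y z : ℕ) : Bool := Nat.beq w x || (Nat.beq w y || Nat.beq w z)

lemma isIn_spec {w x y z : ℕ} (h : isIn w x y z = true) : w = x ∨ w = y ∨ w = z := by
  unfold isIn at h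
  rw [Bool.or_eq_true, Bool.or_eq_true] at h
  rcases h with h | h | h
  · exact Or.inl (beq_spec h)
  · exact Or.inr (Or.inl (beq_spec h))
  · exact Or.inr (Or.inr (beq_spec h))

lemma mem3_spec {w : ℕ} {T : Tr} (h : mem3 w T = true) : w = T.a ∨ w = T.b ∨ w = T.c :=
  isIn_spec h

def share (T T' : Tr) : Bool := mem3 T.a T' || (mem3 T.b T' || mem3 T.c T')

def mx (a b : ℤ) : ℤ := bif ile a b then b else a
def mn (a b : ℤ) : ℤ := bif ile a b then a else b

lemma mx_eq (a b : ℤ) : mx a b = max a b := by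
  unfold mx ile
  by_cases h : a ≤ b
  · rw [decide_eq_true h, max_eq_right h]; rfl
  · rw [decide_eq_false h, max_eq_left (by omega)]; rfl

lemma mn_eq (a b : ℤ) : mn a b = min a b := by
  unfold mn ile
  by_cases h : a ≤ b
  · rw [decide_eq_true h, min_eq_left h]; rfl
  · rw [decide_eq_false h, min_eq_right (by omega)]; rfl

def gt3 (e1 e2 e3 f1 f2 f3 : ℤ) : Bool :=
  ilt (mx (mx f1 f2) f3) e1 && (ilt (mx (mx f1 f2) f3) e2 && ilt (mx (mx f1 f2) f3) e3)

def sepc (f : Z4 → ℤ) (T T' : Tr) : Bool := gt3 (f T.A) (f T.B) (f T.C) (f T'.A) (f T'.B) (f T'.C)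

lemma sepc_spec {f : Z4 → ℤ} (ξ : Z4) (hf : ∀ v, f v = ev ξ v) {T T' : Tr}
    (h : sepc f T T' = true) : Sep2 T.A T.B T.C T'.A T'.B T'.C := by
  unfold sepc gt3 at h
  rw [Bool.and_eq_true, Bool.and_eq_true, mx_eq, mx_eq] at h
  refine ⟨ξ, max (max (f T'.A) (f T'.B)) (f T'.C), ⟨?_, ?_, ?_⟩, ?_, ?_, ?_⟩
  · rw [← hf]; exact ilt_spec h.1
  · rw [← hf]; exact ilt_spec h.2.1
  · rw [← hf]; exact ilt_spec h.2.2
  · rw [← hf]; exact (le_max_left _ _).trans (le_max_left _ _)
  · rw [← hf]; exact (le_max_right _ _).trans (le_max_left _ _)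
  · rw [← hf]; exact le_max_right _ _

/-- the relation between triangles -/
def RR (T T' : Tr) : Prop :=
  (∃ w, (w = T.a ∨ w = T.b ∨ w = T.c) ∧ (w = T'.a ∨ w = T'.b ∨ w = T'.c)) ∨
  Sep2 T.A T.B T.C T'.A T'.B T'.C ∨ Sep2 T'.A T'.B T'.C T.A T.B T.C

lemma RR.symm {T T' : Tr} (h : RR T T') : RR T' T := by
  rcases h with ⟨w, h1, h2⟩ | h | h
  · exact Or.inl ⟨w, h2, h1⟩
  · exact Or.inr (Or.inr h)
  · exact Or.inr (Or.inl h)

lemma RR.refl (T : Tr) : RR T T := Or.inl ⟨T.a, Or.inl rfl, Or.inl rfl⟩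

lemma share_spec {T T' : Tr} (h : share T T' = true) : RR T T' := by
  unfold share at h
  rw [Bool.or_eq_true, Bool.or_eq_true] at h
  rcases h with h | h | h
  · exact Or.inl ⟨T.a, Or.inl rfl, mem3_spec h⟩
  · exact Or.inl ⟨T.b, Or.inr (Or.inl rfl), mem3_spec h⟩
  · exact Or.inl ⟨T.c, Or.inr (Or.inr rfl), mem3_spec h⟩

lemma ev_t (v : Z4) : Z4.t v = ev ⟨1, 0, 0, 0⟩ v := by simp [ev]
lemma ev_p (v : Z4) : Z4.p v = ev ⟨0, 1, 0, 0⟩ v := by simp [ev]
lemma ev_x (v : Z4) : Z4.x v = ev ⟨0, 0, 1, 0⟩ v := by simp [ev]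
lemma ev_y (v : Z4) : Z4.y v = ev ⟨0, 0, 0, 1⟩ v := by simp [ev]

def pairOK (cov : BT Z4) (T T' : Tr) (c : ℕ) : Bool :=
  bif Nat.beq c 1 then share T T'
  else bif Nat.beq c 2 then sepc Z4.t T T'
  else bif Nat.beq c 3 then sepc Z4.t T' T
  else bif Nat.beq c 4 then sepc Z4.x T T'
  else bif Nat.beq c 5 then sepc Z4.x T' T
  else bif Nat.beq c 6 then sepc Z4.p T T'
  else bif Nat.beq c 7 then sepc Z4.p T' T
  else bif Nat.beq c 8 then sepc Z4.y T T'
  else bif Nat.beq c 9 then sepc Z4.y T' T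
  else sepc (ev (cov.get (c - 10))) T T'

lemma pairOK_spec {cov : BT Z4} {T T' : Tr} {c : ℕ} (h : pairOK cov T T' c = true) : RR T T' := by
  unfold pairOK at h
  cases h1 : Nat.beq c 1
  · rw [h1, cond_false] at h
    cases h2 : Nat.beq c 2
    · rw [h2, cond_false] at h
      cases h3 : Nat.beq c 3
      · rw [h3, cond_false] at h
        cases h4 : Nat.beq c 4
        · rw [h4, cond_false] at h
          cases h5 : Nat.beq c 5
          · rw [h5, cond_false] at h
            cases h6 : Nat.beq c 6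
            · rw [h6, cond_false] at h
              cases h7 : Nat.beq c 7
              · rw [h7, cond_false] at h
                cases h8 : Nat.beq c 8
                · rw [h8, cond_false] at h
                  cases h9 : Nat.beq c 9
                  · rw [h9, cond_false] at h
                    exact Or.inr (Or.inl (sepc_spec _ (fun _ => rfl) h))
                  · rw [h9, cond_true] at h
                    exact Or.inr (Or.inr (sepc_spec _ ev_y h))
                · rw [h8, cond_true] at h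
                  exact Or.inr (Or.inl (sepc_spec _ ev_y h))
              · rw [h7, cond_true] at h
                exact Or.inr (Or.inr (sepc_spec _ ev_p h))
            · rw [h6, cond_true] at h
              exact Or.inr (Or.inl (sepc_spec _ ev_p h))
          · rw [h5, cond_true] at h
            exact Or.inr (Or.inr (sepc_spec _ ev_x h))
        · rw [h4, cond_true] at h
          exact Or.inr (Or.inl (sepc_spec _ ev_x h))
      · rw [h3, cond_true] at h
        exact Or.inr (Or.inr (sepc_spec _ ev_t h))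
    · rw [h2, cond_true] at h
      exact Or.inr (Or.inl (sepc_spec _ ev_t h))
  · rw [h1, cond_true] at h
    exact share_spec h

def tmn (T : Tr) : ℤ := mn (mn T.A.t T.B.t) T.C.t

/-- all `t` of `T` are below the minimum of `T'` -/
def tlt (T T' : Tr) : Bool :=
  ilt T.A.t (tmn T') && (ilt T.B.t (tmn T') && ilt T.C.t (tmn T'))

lemma tlt_sep {T T' : Tr} (h1 : T.A.t < tmn T') (h2 : T.B.t < tmn T') (h3 : T.C.t < tmn T') :
    RR T T' := by
  right; right
  have e : tmn T' = min (min T'.A.t T'.B.t) T'.C.t := by unfold tmn; rw [mn_eq, mn_eq]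
  rw [e] at h1 h2 h3
  refine ⟨⟨1, 0, 0, 0⟩, min (min T'.A.t T'.B.t) T'.C.t - 1, ⟨?_, ?_, ?_⟩, ?_, ?_, ?_⟩
  · rw [← ev_t]; have := (min_le_left (min T'.A.t T'.B.t) T'.C.t).trans (min_le_left _ _); omega
  · rw [← ev_t]; have := (min_le_left (min T'.A.t T'.B.t) T'.C.t).trans (min_le_right _ _); omega
  · rw [← ev_t]; have := (min_le_right (min T'.A.t T'.B.t) T'.C.t); omega
  · rw [← ev_t]; omega
  · rw [← ev_t]; omega
  · rw [← ev_t]; omega

def rowchk (cov : BT Z4) (T : Tr) : List Tr → ℕ → Bool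
  | [], _ => true
  | T' :: l, row => bif Nat.beq row 0 then tlt T T'
      else pairOK cov T T' (row % 1024) && rowchk cov T l (row / 1024)

def chkS : List Tr → Bool
  | [] => true
  | T :: l => match l with
    | [] => true
    | T' :: _ => ile (tmn T) (tmn T') && chkS l

lemma chkS_tail {T : Tr} {l : List Tr} (h : chkS (T :: l) = true) : chkS l = true := by
  cases l with
  | nil => rfl
  | cons T' l' =>
    unfold chkS at h
    simp only [Bool.and_eq_true] at h
    exact h.2

lemma chkS_head {T : Tr} {l : List Tr} (h : chkS (T :: l) = true) : ∀ T' ∈ l, tmn T ≤ tmn T' := by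
  induction l generalizing T with
  | nil => intro T' h'; exact absurd h' List.not_mem_nil
  | cons T1 l ih =>
    have h1 := chkS_tail h
    unfold chkS at h
    simp only [Bool.and_eq_true] at h
    have h2 := ile_spec h.1
    intro T' hT'
    rcases List.mem_cons.1 hT' with h3 | h3
    · rw [h3]; exact h2
    · exact h2.trans (ih h1 T' h3)

lemma rowchk_spec {cov : BT Z4} {T : Tr} {l : List Tr} {row : ℕ} (hs : chkS l = true)
    (h : rowchk cov T l row = true) : ∀ T' ∈ l, RR T T' := by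
  induction l generalizing row with
  | nil => intro T' h'; exact absurd h' List.not_mem_nil
  | cons T1 l ih =>
    unfold rowchk at h
    cases h0 : Nat.beq row 0
    · rw [h0, cond_false, Bool.and_eq_true] at h
      intro T' hT'
      rcases List.mem_cons.1 hT' with h3 | h3
      · rw [h3]; exact pairOK_spec h.1
      · exact ih (chkS_tail hs) h.2 T' h3
    · rw [h0, cond_true] at h
      unfold tlt at h
      rw [Bool.and_eq_true, Bool.and_eq_true] at h
      have h1 := ilt_spec h.1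
      have h2 := ilt_spec h.2.1
      have h3 := ilt_spec h.2.2
      intro T' hT'
      have h4 : tmn T1 ≤ tmn T' := by
        rcases List.mem_cons.1 hT' with h3 | h3
        · rw [h3]
        · exact chkS_head hs T' h3
      exact tlt_sep (by omega) (by omega) (by omega)

def allchk (cov : BT Z4) : List Tr → List ℕ → Bool
  | [], _ => true
  | T :: l, rs => match rs with
    | [] => false
    | r :: rs' => rowchk cov T l r && allchk cov l rs'

lemma allchk_spec {cov : BT Z4} {l : List Tr} {rs : List ℕ} (hs : chkS l = true)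
    (h : allchk cov l rs = true) : l.Pairwise RR := by
  induction l generalizing rs with
  | nil => exact List.Pairwise.nil
  | cons T l ih =>
    cases rs with
    | nil => exact absurd (show false = true from h) (by decide)
    | cons r rs' =>
      unfold allchk at h
      simp only [Bool.and_eq_true] at h
      exact List.Pairwise.cons (rowchk_spec (chkS_tail hs) h.1) (ih (chkS_tail hs) h.2)

/-- agreement of vertex coordinates -/
def z4eq (v w : Z4) : Bool := ieq v.t w.t && (ieq v.p w.p && (ieq v.x w.x && ieq v.y w.y))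

lemma z4eq_spec {v w : Z4} (h : z4eq v w = true) : v = w := by
  unfold z4eq at h
  rw [Bool.and_eq_true, Bool.and_eq_true, Bool.and_eq_true] at h
  cases v; cases w
  simp only [Z4.mk.injEq]
  exact ⟨ieq_spec h.1, ieq_spec h.2.1, ieq_spec h.2.2.1, ieq_spec h.2.2.2⟩

def chkV (D : Data) : List Tr → Bool
  | [] => true
  | T :: l => (z4eq T.A (D.V T.a) && (z4eq T.B (D.V T.b) && z4eq T.C (D.V T.c))) && chkV D l

lemma chkV_spec {D : Data} {l : List Tr} (h : chkV D l = true) :
    ∀ T ∈ l, T.A = D.V T.a ∧ T.B = D.V T.b ∧ T.C = D.V T.c := by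
  induction l with
  | nil => intro T' h'; exact absurd h' List.not_mem_nil
  | cons T1 l ih =>
    unfold chkV at h
    rw [Bool.and_eq_true, Bool.and_eq_true, Bool.and_eq_true] at h
    intro T hT
    rcases List.mem_cons.1 hT with h3 | h3
    · rw [h3]; exact ⟨z4eq_spec h.1.1, z4eq_spec h.1.2.1, z4eq_spec h.1.2.2⟩
    · exact ih h.2 T h3

def getO : List Tr → ℕ → Option Tr
  | [], _ => none
  | T :: l, n => match n with
    | 0 => some T
    | n + 1 => getO l n

lemma getO_mem {l : List Tr} {n : ℕ} {T : Tr} (h : getO l n = some T) : T ∈ l := by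
  induction l generalizing n with
  | nil => unfold getO at h; exact absurd h (by simp)
  | cons T1 l ih =>
    cases n with
    | zero =>
      unfold getO at h
      simp only [Option.some.injEq] at h
      rw [← h]; exact List.mem_cons_self
    | succ n =>
      unfold getO at h
      exact List.mem_cons_of_mem _ (ih h)

def secOK (i x y : ℕ) (o : Option Tr) : Bool := match o with
  | none => false
  | some T => (isIn i T.a T.b T.c && (isIn x T.a T.b T.c && isIn y T.a T.b T.c)) &&
      (isIn T.a i x y && (isIn T.b i x y && isIn T.c i x y))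

/-- triangle of a sector -/
structure SecTr (D : Data) (TL : List Tr) (i x y : ℕ) (T : Tr) : Prop where
  mem : T ∈ TL
  hi : i = T.a ∨ i = T.b ∨ i = T.c
  hx : x = T.a ∨ x = T.b ∨ x = T.c
  hy : y = T.a ∨ y = T.b ∨ y = T.c
  ha : T.a = i ∨ T.a = x ∨ T.a = y
  hb : T.b = i ∨ T.b = x ∨ T.b = y
  hc : T.c = i ∨ T.c = x ∨ T.c = y
  vA : T.A = D.V T.a
  vB : T.B = D.V T.b
  vC : T.C = D.V T.c

def chkT (D : Data) (tid : ℕ → ℕ → ℕ) (TL : List Tr) : Bool :=
  allN D.n fun i => allN (D.dg i) fun k =>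
    secOK i (D.nb i k) (D.nb i (nxN (D.dg i) k)) (getO TL (tid i k))

lemma chkT_spec {D : Data} {tid : ℕ → ℕ → ℕ} {TL : List Tr} (hV : chkV D TL = true)
    (h : chkT D tid TL = true) : ∀ i < D.n, ∀ k < D.dg i,
      ∃ T, SecTr D TL i (D.nb i k) (D.nb i (nxN (D.dg i) k)) T := by
  intro i hi k hk
  have h1 := allN_spec (allN_spec h i hi) k hk
  cases ho : getO TL (tid i k) with
  | none =>
    rw [ho] at h1
    exact absurd (show false = true from h1) (by decide)
  | some T =>
    rw [ho] at h1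
    unfold secOK at h1
    simp only [Bool.and_eq_true] at h1
    obtain ⟨⟨a1, a2, a3⟩, a4, a5, a6⟩ := h1
    have hm := getO_mem ho
    obtain ⟨b1, b2, b3⟩ := chkV_spec hV T hm
    exact ⟨T, hm, isIn_spec a1, isIn_spec a2, isIn_spec a3, isIn_spec a4, isIn_spec a5,
      isIn_spec a6, b1, b2, b3⟩

lemma Sep2.transfer {A B C A' B' C' v x y v' x' y' : Z4} (h : Sep2 A B C A' B' C')
    (h1 : v = A ∨ v = B ∨ v = C) (h2 : x = A ∨ x = B ∨ x = C) (h3 : y = A ∨ y = B ∨ y = C)
    (h1' : v' = A' ∨ v' = B' ∨ v' = C') (h2' : x' = A' ∨ x' = B' ∨ x' = C')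
    (h3' : y' = A' ∨ y' = B' ∨ y' = C') : Sep2 v x y v' x' y' := by
  obtain ⟨ξ, m, ⟨e1, e2, e3⟩, ⟨e4, e5, e6⟩⟩ := h
  refine ⟨ξ, m, ⟨?_, ?_, ?_⟩, ?_, ?_, ?_⟩
  · rcases h1 with h | h | h <;> rw [h] <;> assumption
  · rcases h2 with h | h | h <;> rw [h] <;> assumption
  · rcases h3 with h | h | h <;> rw [h] <;> assumption
  · rcases h1' with h | h | h <;> rw [h] <;> assumption
  · rcases h2' with h | h | h <;> rw [h] <;> assumption
  · rcases h3' with h | h | h <;> rw [h] <;> assumption

lemma SecTr.V {D : Data} {TL : List Tr} {i x y : ℕ} {T : Tr} (h : SecTr D TL i x y T) {w : ℕ}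
    (hw : w = T.a ∨ w = T.b ∨ w = T.c) : D.V w = T.A ∨ D.V w = T.B ∨ D.V w = T.C := by
  rcases hw with hw | hw | hw
  · exact Or.inl (by rw [hw, h.vA])
  · exact Or.inr (Or.inl (by rw [hw, h.vB]))
  · exact Or.inr (Or.inr (by rw [hw, h.vC]))

lemma SecTr.back {D : Data} {TL : List Tr} {i x y : ℕ} {T : Tr} (h : SecTr D TL i x y T) {w : ℕ}
    (hw : w = T.a ∨ w = T.b ∨ w = T.c) : w = i ∨ w = x ∨ w = y := by
  rcases hw with hw | hw | hw <;> rw [hw]
  · exact h.ha
  · exact h.hb
  · exact h.hc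

theorem SepOK_of_chk {D : Data} {tid : ℕ → ℕ → ℕ} {TL : List Tr} {cov : BT Z4} {rs : List ℕ}
    (hV : chkV D TL = true) (hT : chkT D tid TL = true) (hS : chkS TL = true)
    (hA : allchk cov TL rs = true) : D.SepOK := by
  have hP := allchk_spec hS hA
  have hsym : Std.Symm RR := ⟨fun _ _ h => RR.symm h⟩
  have hall : ∀ ⦃T⦄, T ∈ TL → ∀ ⦃T'⦄, T' ∈ TL → RR T T' :=
    List.Pairwise.forall_of_forall (fun T _ => RR.refl T) hP
  intro i hi k hk i' hi' k' hk'
  obtain ⟨T, s⟩ := chkT_spec hV hT i hi k hk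
  obtain ⟨T', s'⟩ := chkT_spec hV hT i' hi' k' hk'
  rcases hall s.mem s'.mem with ⟨w, h1, h2⟩ | h | h
  · exact Or.inl ⟨w, s.back h1, s'.back h2⟩
  · exact Or.inr (Or.inl (h.transfer (s.V s.hi) (s.V s.hx) (s.V s.hy) (s'.V s'.hi) (s'.V s'.hx)
      (s'.V s'.hy)))
  · exact Or.inr (Or.inr (h.transfer (s'.V s'.hi) (s'.V s'.hx) (s'.V s'.hy) (s.V s.hi) (s.V s.hx)
      (s.V s.hy)))

end Pool.Agent.TH622
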