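import Mathlib
import Pool.Agent.TH622.Chk1

/-! Boolean checkers: the wall. -/

open Set Filter Metric

namespace Pool.Agent.TH622

/-- triangle does not meet the slab -/
def nc3 (a tK : ℤ) (A B C : Z4) : Bool :=
  (ilt A.t a && (ilt B.t a && ilt C.t a)) || (ilt tK A.t && (ilt tK B.t && ilt tK C.t))

def nc2 (a tK : ℤ) (A B : Z4) : Bool :=
  (ilt A.t a && ilt B.t a) || (ilt tK A.t && ilt tK B.t)

lemma nc3_spec {a tK : ℤ} {A B C : Z4} (h : nc3 a tK A B C = true) :
    (A.t < a ∧ B.t < a ∧ C.t < a) ∨ (tK < A.t ∧ tK < B.t ∧ tK < C.t) := by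
  unfold nc3 at h
  rw [Bool.or_eq_true, Bool.and_eq_true, Bool.and_eq_true, Bool.and_eq_true,
    Bool.and_eq_true] at h
  rcases h with h | h
  · exact Or.inl ⟨ilt_spec h.1, ilt_spec h.2.1, ilt_spec h.2.2⟩
  · exact Or.inr ⟨ilt_spec h.1, ilt_spec h.2.1, ilt_spec h.2.2⟩

lemma nc2_spec {a tK : ℤ} {A B : Z4} (h : nc2 a tK A B = true) :
    (A.t < a ∧ B.t < a) ∨ (tK < A.t ∧ tK < B.t) := by
  unfold nc2 at h
  rw [Bool.or_eq_true, Bool.and_eq_true, Bool.and_eq_true] at h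
  rcases h with h | h
  · exact Or.inl ⟨ilt_spec h.1, ilt_spec h.2⟩
  · exact Or.inr ⟨ilt_spec h.1, ilt_spec h.2⟩

def gok (g E0 E1 : Z4) (T : Tr) : Bool :=
  (ile (ev3 g E0) 0 && (ile (ev3 g E1) 0 && ilt (ev3 g E0 + ev3 g E1) 0)) &&
    (ile 0 (ev3 g T.A) && (ile 0 (ev3 g T.B) && ile 0 (ev3 g T.C)))

def wrow (G : BT Z4) (a tK : ℤ) (e0 e1 : ℕ) (E0 E1 : Z4) : List Tr → List ℕ → Bool
  | [], _ => true
  | T :: l, cs => bif nc3 a tK T.A T.B T.C then wrow G a tK e0 e1 E0 E1 l cs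
      else bif mem3 e0 T && mem3 e1 T then wrow G a tK e0 e1 E0 E1 l cs
      else match cs with
        | [] => false
        | c :: cs' => gok (G.get c) E0 E1 T && wrow G a tK e0 e1 E0 E1 l cs'

/-- the relation between an edge and a triangle -/
def WT (a tK : ℤ) (e0 e1 : ℕ) (E0 E1 : Z4) (T : Tr) : Prop :=
  (T.A.t < a ∧ T.B.t < a ∧ T.C.t < a) ∨ (tK < T.A.t ∧ tK < T.B.t ∧ tK < T.C.t) ∨
  (∃ g : Z4, ev3 g E0 ≤ 0 ∧ ev3 g E1 ≤ 0 ∧ ev3 g E0 + ev3 g E1 < 0 ∧ 0 ≤ ev3 g T.A ∧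
    0 ≤ ev3 g T.B ∧ 0 ≤ ev3 g T.C) ∨
  ((e0 = T.a ∨ e0 = T.b ∨ e0 = T.c) ∧ (e1 = T.a ∨ e1 = T.b ∨ e1 = T.c))

lemma WT.symm {a tK : ℤ} {e0 e1 : ℕ} {E0 E1 : Z4} {T : Tr} (h : WT a tK e0 e1 E0 E1 T) :
    WT a tK e1 e0 E1 E0 T := by
  rcases h with h | h | ⟨g, h1, h2, h3, h4⟩ | h
  · exact Or.inl h
  · exact Or.inr (Or.inl h)
  · exact Or.inr (Or.inr (Or.inl ⟨g, h2, h1, by rw [add_comm]; exact h3, h4⟩))
  · exact Or.inr (Or.inr (Or.inr ⟨h.2, h.1⟩))

lemma wrow_spec {G : BT Z4} {a tK : ℤ} {e0 e1 : ℕ} {E0 E1 : Z4} {l : List Tr} {cs : List ℕ}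
    (h : wrow G a tK e0 e1 E0 E1 l cs = true) : ∀ T ∈ l, WT a tK e0 e1 E0 E1 T := by
  induction l generalizing cs with
  | nil => intro T' h'; exact absurd h' List.not_mem_nil
  | cons T1 l ih =>
    unfold wrow at h
    intro T hT
    cases h0 : nc3 a tK T1.A T1.B T1.C
    · rw [h0, cond_false] at h
      cases h1 : mem3 e0 T1 && mem3 e1 T1
      · rw [h1, cond_false] at h
        cases cs with
        | nil => exact absurd (show false = true from h) (by decide)
        | cons c cs' =>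
          simp only [Bool.and_eq_true] at h
          rcases List.mem_cons.1 hT with h3 | h3
          · rw [h3]
            have h4 := h.1
            unfold gok at h4
            rw [Bool.and_eq_true, Bool.and_eq_true, Bool.and_eq_true, Bool.and_eq_true,
              Bool.and_eq_true] at h4
            exact Or.inr (Or.inr (Or.inl ⟨G.get c, ile_spec h4.1.1, ile_spec h4.1.2.1,
              ilt_spec h4.1.2.2, ile_spec h4.2.1, ile_spec h4.2.2.1, ile_spec h4.2.2.2⟩))
          · exact ih h.2 T h3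
      · rw [h1, cond_true] at h
        rcases List.mem_cons.1 hT with h3 | h3
        · rw [Bool.and_eq_true] at h1
          rw [h3]
          exact Or.inr (Or.inr (Or.inr ⟨mem3_spec h1.1, mem3_spec h1.2⟩))
        · exact ih h T h3
    · rw [h0, cond_true] at h
      rcases List.mem_cons.1 hT with h3 | h3
      · rw [h3]
        rcases nc3_spec h0 with h4 | h4
        · exact Or.inl h4
        · exact Or.inr (Or.inl h4)
      · exact ih h T h3

/-- strip edge record -/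
structure ER where
  e0 : ℕ
  e1 : ℕ
  cs : List ℕ

def wtab (D : Data) (G : BT Z4) (a tK : ℤ) (TL : List Tr) : List ER → Bool
  | [] => true
  | e :: l => wrow G a tK e.e0 e.e1 (D.V e.e0) (D.V e.e1) TL e.cs && wtab D G a tK TL l

def memE (i j : ℕ) : List ER → Bool
  | [] => false
  | e :: l => ((Nat.beq i e.e0 && Nat.beq j e.e1) || (Nat.beq i e.e1 && Nat.beq j e.e0)) ||
      memE i j l

lemma wtab_spec {D : Data} {G : BT Z4} {a tK : ℤ} {TL : List Tr} {ET : List ER}
    (h : wtab D G a tK TL ET = true) {i j : ℕ} (hij : memE i j ET = true) :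
    ∀ T ∈ TL, WT a tK i j (D.V i) (D.V j) T := by
  induction ET with
  | nil => exact absurd (show false = true from hij) (by decide)
  | cons e l ih =>
    unfold wtab at h
    unfold memE at hij
    rw [Bool.and_eq_true] at h
    rw [Bool.or_eq_true, Bool.or_eq_true, Bool.and_eq_true, Bool.and_eq_true] at hij
    rcases hij with (⟨h1, h2⟩ | ⟨h1, h2⟩) | h3
    · rw [beq_spec h1, beq_spec h2]
      exact wrow_spec h.1
    · rw [beq_spec h1, beq_spec h2]
      intro T hT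
      exact (wrow_spec h.1 T hT).symm
    · exact ih h.2 h3

def miB (A B C : Z4) : Bool :=
  ine ((B.t - A.t) * (C.x - A.x) - (B.x - A.x) * (C.t - A.t)) 0 ||
  (ine ((B.t - A.t) * (C.y - A.y) - (B.y - A.y) * (C.t - A.t)) 0 ||
  ine ((B.x - A.x) * (C.y - A.y) - (B.y - A.y) * (C.x - A.x)) 0)

lemma miB_spec {A B C : Z4} (h : miB A B C = true) : Mi A B C := by
  unfold miB at h
  rw [Bool.or_eq_true, Bool.or_eq_true] at h
  rcases h with h | h | h
  · exact Or.inl (ine_spec h)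
  · exact Or.inr (Or.inl (ine_spec h))
  · exact Or.inr (Or.inr (ine_spec h))

section
variable (D : Data) (w : WData)

def wpot1 (i k : ℕ) : Bool := bif w.cp i && w.cp (D.nb i k) then
  ieq (w.H2 (D.nb i k) - w.H2 i) (Q2 w.ts (D.W i k) - Q2 w.ts (D.V i) + omV (D.V i) (D.W i k))
  else true
def wft1 (i k : ℕ) : Bool := nc3 w.a w.tK (D.V i) (D.W i k) (D.W i (nxN (D.dg i) k)) ||
  ((ieq (w.H2 i) 0 && (ieq (lamI w.ts (D.V i) (D.W i k)) 0 &&
      ieq (lamI w.ts (D.V i) (D.W i (nxN (D.dg i) k))) 0)) &&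
    ((ieq (LamI (D.V i) (D.W i k) (D.W i k)) 0 &&
      ieq (LamI (D.V i) (D.W i k) (D.W i (nxN (D.dg i) k))) 0) &&
     (ieq (LamI (D.V i) (D.W i (nxN (D.dg i) k)) (D.W i k)) 0 &&
      ieq (LamI (D.V i) (D.W i (nxN (D.dg i) k)) (D.W i (nxN (D.dg i) k))) 0)))
def wmi1 (i k : ℕ) : Bool := nc3 w.a w.tK (D.V i) (D.W i k) (D.W i (nxN (D.dg i) k)) ||
  miB (D.V i) (D.W i k) (D.W i (nxN (D.dg i) k))
def wed1 (ET : List ER) (i k : ℕ) : Bool := nc2 w.a w.tK (D.V i) (D.W i k) ||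
  ((ieq (LamI (D.V i) (D.W i (pvN (D.dg i) k)) (D.W i (nxN (D.dg i) k))) 0 &&
    ieq (LamI (D.V i) (D.W i (nxN (D.dg i) k)) (D.W i (pvN (D.dg i) k))) 0) ||
   (ine (cdet (D.V i) (D.W i k) (D.W i (pvN (D.dg i) k)) (D.W i (nxN (D.dg i) k))) 0 &&
    memE i (D.nb i k) ET))

def wchk1 : Bool := allN D.n fun i => allN (D.dg i) fun k => wpot1 D w i k
def wchk2 : Bool := allN D.n fun i => bif w.cp i then true else
  ilt w.b (D.V i).t && allN (D.dg i) fun k => ilt w.b (D.W i k).t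
def wchk3 : Bool := allN D.n fun i => ilt (D.V i).t w.a || ilt w.tK (D.V i).t
def wchk4 : Bool := allN D.n fun i => allN (D.dg i) fun k => wft1 D w i k && wmi1 D w i k
def wchk5 (ET : List ER) : Bool := allN D.n fun i => allN (D.dg i) fun k => wed1 D w ET i k

end

theorem WOK_of_chk {D : Data} {w : WData} {tid : ℕ → ℕ → ℕ} {TL : List Tr} {G : BT Z4}
    {ET : List ER} (hV : chkV D TL = true) (hT : chkT D tid TL = true)
    (haK : w.a < w.tK) (hKb : w.tK < w.b) (hKs : w.tK < w.ts)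
    (h1 : wchk1 D w = true) (h2 : wchk2 D w = true) (h3 : wchk3 D w = true)
    (h4 : wchk4 D w = true) (h5 : wchk5 D w ET = true)
    (h6 : wtab D G w.a w.tK TL ET = true) : WOK D w := by
  refine ⟨haK, hKb, hKs, ?_, ?_, ?_, ?_, ?_⟩
  · intro i hi k hk c1 c2
    have := allN_spec (allN_spec h1 i hi) k hk
    unfold wpot1 at this
    rw [c1, c2] at this
    exact ieq_spec this
  · intro i hi hc
    have := allN_spec h2 i hi
    simp only [hc, cond_false, Bool.and_eq_true] at this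
    exact ⟨ilt_spec this.1, fun k hk => ilt_spec (allN_spec this.2 k hk)⟩
  · intro i hi
    have := allN_spec h3 i hi
    rw [Bool.or_eq_true] at this
    rcases this with h | h
    · exact Or.inl (ilt_spec h)
    · exact Or.inr (ilt_spec h)
  · intro i hi k hk
    have := allN_spec (allN_spec h4 i hi) k hk
    rw [Bool.and_eq_true] at this
    have := this.1
    unfold wft1 at this
    rw [Bool.or_eq_true] at this
    rcases this with h | h
    · rcases nc3_spec h with h | h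
      · exact Or.inl h
      · exact Or.inr (Or.inl h)
    · simp only [Bool.and_eq_true] at h
      obtain ⟨⟨a1, a2, a3⟩, ⟨a4, a5⟩, a6, a7⟩ := h
      exact Or.inr (Or.inr ⟨ieq_spec a1, ieq_spec a2, ieq_spec a3, ieq_spec a4, ieq_spec a5,
        ieq_spec a6, ieq_spec a7⟩)
  · intro i hi k hk
    have := allN_spec (allN_spec h5 i hi) k hk
    unfold wed1 at this
    rw [Bool.or_eq_true, Bool.or_eq_true, Bool.and_eq_true, Bool.and_eq_true] at this
    rcases this with h | ⟨a1, a2⟩ | ⟨a1, a2⟩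
    · rcases nc2_spec h with h | h
      · exact Or.inl h
      · exact Or.inr (Or.inl h)
    · exact Or.inr (Or.inr (Or.inl ⟨ieq_spec a1, ieq_spec a2⟩))
    · refine Or.inr (Or.inr (Or.inr ⟨ine_spec a1, ?_⟩))
      intro i' hi' k' hk'
      obtain ⟨T, s⟩ := chkT_spec hV hT i' hi' k' hk'
      have hmi := allN_spec (allN_spec h4 i' hi') k' hk'
      rw [Bool.and_eq_true] at hmi
      have hmi := hmi.2
      unfold wmi1 at hmi
      rw [Bool.or_eq_true] at hmi
      rcases hmi with hmi | hmi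
      · rcases nc3_spec hmi with h | h
        · exact Or.inl h
        · exact Or.inr (Or.inl h)
      have hM := miB_spec hmi
      have tr : ∀ (p : Z4 → Prop), p T.A → p T.B → p T.C → ∀ {w : ℕ},
          (w = T.a ∨ w = T.b ∨ w = T.c) → p (D.V w) := by
        intro p pA pB pC w hw
        rcases s.V hw with h | h | h <;> rw [h] <;> assumption
      rcases wtab_spec h6 a2 T s.mem with ⟨b1, b2, b3⟩ | ⟨b1, b2, b3⟩ |
        ⟨g, b1, b2, b3, b4, b5, b6⟩ | ⟨b1, b2⟩
      · exact Or.inl ⟨tr (fun v => v.t < w.a) b1 b2 b3 s.hi, tr (fun v => v.t < w.a) b1 b2 b3 s.hx,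
          tr (fun v => v.t < w.a) b1 b2 b3 s.hy⟩
      · exact Or.inr (Or.inl ⟨tr (fun v => w.tK < v.t) b1 b2 b3 s.hi,
          tr (fun v => w.tK < v.t) b1 b2 b3 s.hx, tr (fun v => w.tK < v.t) b1 b2 b3 s.hy⟩)
      · exact Or.inr (Or.inr (Or.inl ⟨g, b1, b2, b3, tr (fun v => 0 ≤ ev3 g v) b4 b5 b6 s.hi,
          tr (fun v => 0 ≤ ev3 g v) b4 b5 b6 s.hx, tr (fun v => 0 ≤ ev3 g v) b4 b5 b6 s.hy⟩))
      · refine Or.inr (Or.inr (Or.inr ⟨?_, ?_, hM⟩))
        · rcases s.back b1 with h | h | h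
          · exact Or.inl (by rw [h])
          · exact Or.inr (Or.inl (by rw [h]; rfl))
          · exact Or.inr (Or.inr (by rw [h]; rfl))
        · rcases s.back b2 with h | h | h
          · exact Or.inl (by unfold Data.W; rw [h])
          · exact Or.inr (Or.inl (by unfold Data.W; rw [h]))
          · exact Or.inr (Or.inr (by unfold Data.W; rw [h]))

end Pool.Agent.TH622
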