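import Mathlib
import Pool.Agent.TH622.DatP
import Pool.Agent.TH622.Chk2

/-! Wall table (generated). -/

namespace Pool.Agent.TH622

def g0 : Z4 := ⟨.negSucc 2999999999999, .ofNat 6720000000000000, .ofNat 0, .ofNat 29000⟩
def g1 : Z4 := ⟨.ofNat 0, .negSucc 20, .ofNat 1, .ofNat 0⟩
def g2 : Z4 := ⟨.ofNat 0, .negSucc 1, .ofNat 1, .ofNat 0⟩
def g3 : Z4 := ⟨.negSucc 11999999999999, .ofNat 26880000000000000, .ofNat 48000000000000000, .ofNat 0⟩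
def g4 : Z4 := ⟨.ofNat 0, .negSucc 0, .ofNat 1, .ofNat 0⟩
def g5 : Z4 := ⟨.negSucc 1999999999999, .ofNat 4480000000000000, .ofNat 0, .negSucc 28999⟩
def g6 : Z4 := ⟨.ofNat 6000000000000, .ofNat 778110000000000000, .negSucc 47999999999999999, .ofNat 0⟩
def g7 : Z4 := ⟨.ofNat 0, .ofNat 20, .negSucc 0, .ofNat 0⟩
def g8 : Z4 := ⟨.ofNat 0, .ofNat 0, .ofNat 0, .negSucc 0⟩
def g9 : Z4 := ⟨.ofNat 0, .ofNat 0, .negSucc 0, .ofNat 0⟩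
def g10 : Z4 := ⟨.ofNat 380000000000, .negSucc 16278895999999999, .ofNat 0, .ofNat 28610⟩
def g11 : Z4 := ⟨.ofNat 0, .ofNat 2, .negSucc 0, .ofNat 0⟩
def g12 : Z4 := ⟨.ofNat 14000000000000, .ofNat 40640000000000000, .negSucc 47999999999999999, .ofNat 0⟩
def g13 : Z4 := ⟨.ofNat 0, .negSucc 19, .ofNat 1, .ofNat 0⟩
def g14 : Z4 := ⟨.negSucc 399999999999, .ofNat 16860992000000000, .ofNat 0, .negSucc 28599⟩
def g15 : Z4 := ⟨.negSucc 399999999999, .ofNat 17221557920000000, .ofNat 0, .negSucc 28599⟩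
def g16 : Z4 := ⟨.ofNat 0, .negSucc 68068031999999999, .ofNat 3000000000000000, .ofNat 29000⟩
def g17 : Z4 := ⟨.ofNat 500000000000, .negSucc 27076748799999999, .ofNat 0, .ofNat 28600⟩
def g18 : Z4 := ⟨.ofNat 0, .negSucc 121175999999999999, .ofNat 9000000000000000, .ofNat 29000⟩
def g19 : Z4 := ⟨.ofNat 500000000000, .negSucc 23238399999999999, .ofNat 0, .ofNat 28600⟩
def g20 : Z4 := ⟨.negSucc 10999999999999, .ofNat 52640000000000000, .ofNat 48000000000000000, .ofNat 0⟩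
def g21 : Z4 := ⟨.ofNat 0, .negSucc 336635999999, .ofNat 0, .ofNat 1⟩
def g22 : Z4 := ⟨.ofNat 200000000000, .negSucc 12812991999999999, .ofNat 300000000000000, .ofNat 28600⟩
def g23 : Z4 := ⟨.ofNat 200000000000, .negSucc 8484031999999999, .ofNat 0, .ofNat 28600⟩
def g24 : Z4 := ⟨.ofNat 1000000000000, .ofNat 57760000000000000, .negSucc 47999999999999999, .ofNat 0⟩
def g25 : Z4 := ⟨.negSucc 13999999999999, .ofNat 215360000000000000, .ofNat 48000000000000000, .ofNat 0⟩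
def g26 : Z4 := ⟨.negSucc 199999999999, .ofNat 8484032000000000, .ofNat 0, .negSucc 28599⟩
def g27 : Z4 := ⟨.negSucc 299999999999, .ofNat 13036992000000000, .ofNat 0, .negSucc 28599⟩
def g28 : Z4 := ⟨.negSucc 999999999999, .negSucc 25759999999999999, .ofNat 48000000000000000, .ofNat 0⟩
def g29 : Z4 := ⟨.ofNat 0, .ofNat 6624576000000, .ofNat 0, .negSucc 0⟩
def g30 : Z4 := ⟨.ofNat 1000000000000, .ofNat 9760000000000000, .negSucc 47999999999999999, .ofNat 0⟩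
def g31 : Z4 := ⟨.ofNat 0, .ofNat 0, .ofNat 0, .ofNat 1⟩
def g32 : Z4 := ⟨.ofNat 0, .ofNat 5825664000000, .ofNat 0, .ofNat 1⟩
def g33 : Z4 := ⟨.ofNat 1000000000000, .negSucc 998239999999999999, .ofNat 48000000000000000, .ofNat 0⟩
def g34 : Z4 := ⟨.ofNat 0, .ofNat 12, .negSucc 0, .ofNat 0⟩
def g35 : Z4 := ⟨.negSucc 6999999999999, .ofNat 196020160000000000, .ofNat 0, .negSucc 28999⟩
def g36 : Z4 := ⟨.ofNat 11000000000000, .ofNat 539360000000000000, .negSucc 47999999999999999, .ofNat 0⟩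
def g37 : Z4 := ⟨.negSucc 499999999999, .ofNat 21045557920000000, .ofNat 0, .negSucc 28599⟩
def g38 : Z4 := ⟨.negSucc 10999999999999, .negSucc 331359999999999999, .ofNat 48000000000000000, .ofNat 0⟩
def g39 : Z4 := ⟨.negSucc 1999999999999, .negSucc 114343999999999999, .ofNat 15000000000000000, .negSucc 28999⟩
def g40 : Z4 := ⟨.negSucc 999999999999, .ofNat 43111200000000000, .ofNat 0, .negSucc 28999⟩
def g41 : Z4 := ⟨.negSucc 999999999999, .ofNat 46308032000000000, .ofNat 0, .negSucc 28999⟩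
def g42 : Z4 := ⟨.ofNat 0, .negSucc 12, .ofNat 1, .ofNat 0⟩
def g43 : Z4 := ⟨.ofNat 2000000000000, .negSucc 85644939999999999, .ofNat 0, .ofNat 29000⟩
def g44 : Z4 := ⟨.negSucc 999999999999, .ofNat 22240000000000000, .ofNat 48000000000000000, .ofNat 0⟩
def g45 : Z4 := ⟨.negSucc 999999999999, .ofNat 1030240000000000000, .negSucc 47999999999999999, .ofNat 0⟩
def g46 : Z4 := ⟨.ofNat 0, .ofNat 6085382400000, .ofNat 0, .negSucc 0⟩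
def g47 : Z4 := ⟨.ofNat 0, .ofNat 3, .negSucc 0, .ofNat 0⟩
def g48 : Z4 := ⟨.ofNat 1000000000000, .ofNat 153760000000000000, .negSucc 47999999999999999, .ofNat 0⟩
def g49 : Z4 := ⟨.ofNat 1000000000000, .negSucc 46308031999999999, .ofNat 0, .ofNat 29000⟩
def g50 : Z4 := ⟨.ofNat 2000000000000, .ofNat 547520000000000000, .negSucc 47999999999999999, .ofNat 0⟩
def g51 : Z4 := ⟨.ofNat 1000000000000, .negSucc 43111199999999999, .ofNat 0, .ofNat 29000⟩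
def g52 : Z4 := ⟨.negSucc 2299999999999, .ofNat 83908748800000000, .ofNat 600000000000000, .negSucc 28599⟩
def g53 : Z4 := ⟨.negSucc 1999999999999, .ofNat 84820160000000000, .ofNat 0, .negSucc 28999⟩
def g54 : Z4 := ⟨.negSucc 999999999999, .ofNat 47329940000000000, .ofNat 0, .negSucc 28999⟩
def g55 : Z4 := ⟨.ofNat 14000000000000, .ofNat 87590000000000000, .negSucc 47999999999999999, .ofNat 0⟩
def g56 : Z4 := ⟨.negSucc 1999999999999, .negSucc 531119999999999999, .ofNat 48000000000000000, .ofNat 0⟩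
def g57 : Z4 := ⟨.ofNat 0, .negSucc 3, .ofNat 1, .ofNat 0⟩
def g58 : Z4 := ⟨.ofNat 0, .negSucc 1568159999999, .ofNat 0, .ofNat 1⟩
def g59 : Z4 := ⟨.negSucc 13999999999999, .ofNat 170160000000000000, .ofNat 48000000000000000, .ofNat 0⟩
def g60 : Z4 := ⟨.negSucc 999999999999, .negSucc 121559999999999999, .ofNat 48000000000000000, .ofNat 0⟩
def GT : BT Z4 := (.nd (.nd (.nd (.nd (.nd (.nd (.lf g0) (.lf g32)) (.nd (.lf g16) (.lf g48))) (.nd (.nd (.lf g8) (.lf g40)) (.nd (.lf g24) (.lf g56)))) (.nd (.nd (.nd (.lf g4) (.lf g36)) (.nd (.lf g20) (.lf g52))) (.nd (.nd (.lf g12) (.lf g44)) (.nd (.lf g28) (.lf g60))))) (.nd (.nd (.nd (.nd (.lf g2) (.lf g34)) (.nd (.lf g18) (.lf g50))) (.nd (.nd (.lf g10) (.lf g42)) (.nd (.lf g26) (.lf g58)))) (.nd (.nd (.nd (.lf g6) (.lf g38)) (.nd (.lf g22) (.lf g54))) (.nd (.nd (.lf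 g14) (.lf g46)) (.nd (.lf g30) (.lf g0)))))) (.nd (.nd (.nd (.nd (.nd (.lf g1) (.lf g33)) (.nd (.lf g17) (.lf g49))) (.nd (.nd (.lf g9) (.lf g41)) (.nd (.lf g25) (.lf g57)))) (.nd (.nd (.nd (.lf g5) (.lf g37)) (.nd (.lf g21) (.lf g53))) (.nd (.nd (.lf g13) (.lf g45)) (.nd (.lf g29) (.lf g0))))) (.nd (.nd (.nd (.nd (.lf g3) (.lf g35)) (.nd (.lf g19) (.lf g51))) (.nd (.nd (.lf g11) (.lf g43)) (.nd (.lf g27) (.lf g59)))) (.nd (.nd (.nd (.lf g7) (.lf g39)) (.nd (.lf g23) (.lf g55))) (.nd (.nd (.lf g15) (.lf g47)) (.nd (.lf g31) (.lf g0)))))))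
def e0 : ER := ⟨59, 183, [0, 0, 1, 1, 2, 2, 2, 1, 1, 3, 2, 2, 2, 2, 2, 2, 2, 2, 2, 4, 2, 2, 4, 4, 4, 0, 2, 2, 2, 2, 2, 2, 0, 2, 0, 2, 2, 2, 2, 0, 2, 2, 2, 2, 2]⟩
def e1 : ER := ⟨64, 168, [0, 0, 5, 5, 6, 6, 5, 6, 6, 6, 6, 6, 6, 6, 6, 6, 6, 6, 6, 6, 6, 6, 6, 6, 6, 0, 7, 5, 7, 7, 6, 6, 0, 5, 0, 6, 6, 6, 6, 0, 6, 6, 6, 6, 6]⟩
def e2 : ER := ⟨89, 139, [0, 0, 1, 1, 8, 8, 8, 1, 1, 8, 9, 8, 8, 10, 10, 10, 10, 10, 11, 11, 11, 12, 11, 11, 11, 0, 13, 5, 10, 13, 10, 10, 0, 5, 0, 10, 10, 10, 10, 0, 10, 10, 10, 10, 10]⟩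
def e3 : ER := ⟨90, 140, [0, 0, 1, 1, 8, 8, 8, 1, 1, 8, 9, 8, 8, 14, 15, 12, 12, 12, 11, 11, 11, 12, 11, 11, 11, 0, 13, 5, 16, 13, 17, 17, 0, 5, 0, 18, 19, 19, 12, 0, 17, 18, 17, 12, 17]⟩
def e4 : ER := ⟨91, 141, [0, 0, 1, 1, 3, 3, 3, 1, 1, 3, 9, 8, 3, 3, 14, 3, 20, 21, 11, 11, 11, 14, 11, 11, 11, 0, 3, 3, 3, 3, 3, 3, 0, 3, 0, 3, 3, 3, 17, 0, 3, 3, 17, 17, 17]⟩
def e5 : ER := ⟨93, 143, [0, 0, 1, 1, 3, 3, 3, 1, 1, 3, 9, 8, 3, 3, 22, 3, 10, 10, 10, 10, 23, 23, 23, 24, 24, 0, 3, 3, 3, 3, 3, 3, 0, 3, 0, 3, 3, 3, 10, 0, 3, 3, 10, 10, 10]⟩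
def e6 : ER := ⟨94, 144, [0, 0, 1, 1, 3, 3, 3, 1, 1, 3, 9, 8, 3, 3, 25, 3, 10, 10, 10, 10, 26, 27, 24, 24, 24, 0, 3, 3, 3, 3, 3, 3, 0, 3, 0, 3, 3, 3, 10, 0, 3, 3, 10, 10, 10]⟩
def e7 : ER := ⟨95, 145, [0, 0, 1, 1, 2, 2, 2, 1, 1, 3, 9, 8, 2, 2, 2, 2, 2, 2, 2, 2, 2, 28, 2, 2, 23, 0, 2, 2, 2, 2, 2, 2, 0, 2, 0, 2, 2, 2, 2, 0, 2, 2, 2, 2, 2]⟩
def e8 : ER := ⟨96, 146, [9, 9, 1, 1, 2, 2, 2, 1, 1, 3, 9, 8, 2, 2, 2, 2, 2, 2, 2, 2, 2, 14, 2, 2, 14, 29, 2, 2, 2, 2, 2, 2, 30, 2, 2, 2, 2, 2, 2, 2, 2, 2, 2, 2, 2]⟩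
def e9 : ER := ⟨97, 147, [0, 0, 1, 1, 31, 31, 31, 1, 1, 31, 9, 31, 31, 10, 22, 22, 10, 10, 10, 10, 11, 11, 11, 12, 11, 11, 11, 0, 10, 32, 10, 10, 0, 33, 0, 10, 10, 10, 10, 0, 10, 10, 10, 10, 10]⟩
def e10 : ER := ⟨98, 148, [0, 0, 1, 1, 8, 8, 8, 1, 1, 8, 9, 8, 8, 34, 14, 15, 34, 12, 12, 12, 11, 11, 11, 12, 11, 11, 11, 0, 35, 5, 34, 36, 0, 5, 0, 36, 36, 34, 12, 0, 36, 36, 36, 12, 36]⟩
def e11 : ER := ⟨100, 151, [0, 0, 1, 1, 8, 8, 8, 1, 1, 8, 9, 8, 8, 37, 14, 15, 37, 12, 12, 12, 11, 11, 11, 12, 11, 11, 11, 0, 13, 5, 38, 13, 0, 5, 0, 39, 40, 41, 12, 0, 42, 42, 43, 12, 43]⟩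
def e12 : ER := ⟨103, 153, [29, 1, 1, 2, 2, 2, 1, 1, 3, 29, 8, 2, 2, 2, 2, 2, 2, 2, 2, 2, 4, 2, 2, 4, 4, 4, 44, 2, 2, 2, 2, 2, 2, 2, 2, 2, 2, 2, 2, 2, 2, 2, 2, 2, 2]⟩
def e13 : ER := ⟨104, 154, [0, 0, 32, 6, 6, 31, 32, 32, 6, 6, 6, 6, 6, 6, 6, 6, 6, 6, 6, 6, 6, 6, 6, 6, 6, 6, 0, 7, 45, 7, 7, 6, 6, 0, 0, 6, 6, 6, 6, 0, 6, 6, 6, 6, 6]⟩
def e14 : ER := ⟨117, 142, [9, 9, 1, 1, 3, 3, 3, 1, 1, 3, 9, 8, 3, 3, 14, 3, 20, 37, 46, 11, 11, 11, 14, 11, 11, 11, 11, 3, 3, 3, 3, 3, 3, 11, 3, 3, 3, 3, 47, 48, 3, 3, 46, 46, 46]⟩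
def e15 : ER := ⟨118, 149, [0, 0, 1, 1, 8, 8, 8, 1, 1, 8, 9, 8, 8, 34, 14, 15, 34, 12, 12, 12, 11, 11, 11, 12, 11, 11, 11, 0, 13, 5, 16, 13, 34, 49, 0, 5, 0, 50, 34, 12, 0, 51, 43, 12, 43]⟩
def e16 : ER := ⟨119, 163, [0, 0, 1, 1, 8, 8, 8, 1, 1, 8, 9, 8, 8, 34, 14, 15, 34, 12, 12, 12, 11, 11, 11, 12, 11, 11, 11, 0, 13, 5, 52, 13, 34, 53, 0, 5, 0, 39, 40, 34, 12, 0, 54, 12, 55]⟩
def e17 : ER := ⟨120, 150, [0, 0, 1, 1, 8, 8, 8, 1, 1, 8, 9, 8, 8, 37, 14, 15, 37, 12, 12, 12, 11, 11, 11, 12, 11, 11, 11, 0, 13, 5, 16, 13, 51, 49, 0, 5, 0, 56, 12, 0, 42, 42, 43, 12, 43]⟩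
def e18 : ER := ⟨121, 164, [0, 0, 1, 1, 3, 3, 3, 1, 1, 3, 9, 8, 3, 3, 14, 3, 20, 57, 37, 57, 11, 11, 11, 14, 11, 11, 11, 0, 3, 3, 3, 3, 3, 3, 0, 3, 0, 3, 3, 3, 58, 0, 3, 3, 59]⟩
def e19 : ER := ⟨122, 152, [9, 9, 1, 1, 3, 3, 3, 1, 1, 3, 9, 8, 3, 3, 14, 3, 20, 57, 37, 46, 11, 11, 11, 14, 11, 11, 11, 11, 3, 3, 3, 3, 3, 3, 11, 3, 60, 3, 3, 3, 3, 3, 46, 46, 46]⟩
def ET : List ER := [e0, e1, e2, e3, e4, e5, e6, e7, e8, e9, e10, e11, e12, e13, e14, e15, e16, e17, e18, e19]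

def WW : WData := ⟨.ofNat 42240, .ofNat 24000, .ofNat 26000, .ofNat 28000, fun i => (tab.get i).cp, fun i => (tab.get i).h⟩

end Pool.Agent.TH622
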