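import Mathlib
import Pool.Agent.TH622.DatP

/-! Verification of the embedding. -/

namespace Pool.Agent.TH622

theorem run_V : chkV DD TL = true := by decide +kernel
theorem run_T : chkT DD tidf TL = true := by decide +kernel
theorem run_S : chkS TL = true := by decide +kernel
theorem run_A : allchk CV TL RL = true := by decide +kernel

theorem DSep : DD.SepOK := SepOK_of_chk run_V run_T run_S run_A

end Pool.Agent.TH622
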