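import Mathlib
import Pool.Agent.TH622.Run2
import Pool.Agent.TH622.DatW

/-! Verification of the wall. -/

namespace Pool.Agent.TH622

theorem run_w1 : wchk1 DD WW = true := by decide +kernel
theorem run_w2 : wchk2 DD WW = true := by decide +kernel
theorem run_w3 : wchk3 DD WW = true := by decide +kernel
theorem run_w4 : wchk4 DD WW = true := by decide +kernel
theorem run_w5 : wchk5 DD WW ET = true := by decide +kernel
theorem run_w6 : wtab DD GT WW.a WW.tK TL ET = true := by decide +kernel

theorem DWall : WOK DD WW := WOK_of_chk run_V run_T (by decide +kernel) (by decide +kernel)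
  (by decide +kernel) run_w1 run_w2 run_w3 run_w4 run_w5 run_w6

end Pool.Agent.TH622
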