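import Mathlib
import Pool.Agent.TH622.Run1
import Pool.Agent.TH622.Run3

/-! The surface. -/

open scoped ContDiff Topology
open Set Filter Metric

namespace Pool.Agent.TH622

theorem main_surface : ∃ L : Set E, IsCompact L ∧
      (∀ X ∈ L, ∃ (C : SChart) (U : Set E), IsOpen U ∧ X ∈ U ∧
        ∀ Y ∈ U, Y ∈ L ↔ (C.k Y 1 = 0 ∧ C.k Y 3 = 0)) ∧
      ∀ r : ℝ, 0 < r → ∃ φ : (Fin 4 → ℝ) → (Fin 4 → ℝ),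
        ContDiffOn ℝ ∞ φ {x | x 0 ^ 2 + x 1 ^ 2 + x 2 ^ 2 + x 3 ^ 2 < r ^ 2} ∧
        Set.InjOn φ {x | x 0 ^ 2 + x 1 ^ 2 + x 2 ^ 2 + x 3 ^ 2 < r ^ 2} ∧
        (∀ x ∈ {x : Fin 4 → ℝ | x 0 ^ 2 + x 1 ^ 2 + x 2 ^ 2 + x 3 ^ 2 < r ^ 2},
          ∀ u v : Fin 4 → ℝ,
          fderiv ℝ φ x u 0 * fderiv ℝ φ x v 1 - fderiv ℝ φ x u 1 * fderiv ℝ φ x v 0
            + fderiv ℝ φ x u 2 * fderiv ℝ φ x v 3 - fderiv ℝ φ x u 3 * fderiv ℝ φ x v 2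
            = u 0 * v 1 - u 1 * v 0 + u 2 * v 3 - u 3 * v 2) ∧
        (∀ x ∈ {x : Fin 4 → ℝ | x 0 ^ 2 + x 1 ^ 2 + x 2 ^ 2 + x 3 ^ 2 < r ^ 2},
          (φ x ∈ L ↔ (x 1 = 0 ∧ x 3 = 0))) := by
  have h0 : (0:ℕ) < DD.n := by decide +kernel
  have h1 : (DD.V 0).t < WW.tK := by decide +kernel
  have h2 : 0 < DD.dg 0 := by decide +kernel
  have hKs : (WW.tK : ℝ) < (WW.ts : ℝ) := by exact_mod_cast DWall.Ks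
  refine (Data.toPLS DOK DSep).final (Data.toWall DOK DSep DWall) hKs (i0 := (⟨0, h0⟩ : Fin DD.n))
    ?_ ?_
  · rw [Data.vE, V2E_0]
    have h3 : ∀ j : ℕ, j = 0 → ((DD.V j).t : ℝ) < (WW.tK : ℝ) := by
      intro j hj; rw [hj]; exact_mod_cast h1
    exact h3 _ rfl
  · exact ⟨(⟨0, h2⟩ : Fin (DD.dg 0))⟩

end Pool.Agent.TH622
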